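import Pool.Agent.V8H46.FP.Defs

/-!
# Auxiliary variables and dual-rail formulas: definitions
-/

set_option autoImplicit false

namespace Pool.Agent.V8H46.FP

open Pool.Agent.H555R2.PF Pool.Agent.H555R2.PF.Fm

/-- The substitution rule for the `s` auxiliary variables `p_n, …, p_(n+s-1)`: in a formula
replace one of these variables by an arbitrary formula. -/
def AuxRule1 (n s : ℕ) : Fm → Fm → Prop := fun A B =>
  ∃ (y : ℕ) (φ : Fm), n ≤ y ∧ y < n + s ∧ B = A.subst (fun v => if v = y then φ else var v)

/-- `dual A n m` is `(x_(m-1) ≢ x'_(m-1)) → (… → ((x₀ ≢ x₀') → A))`, where `x_i = p_i` and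
`x_i' = p_(n+i)`. The dual-rail version of a formula `A` in the variables `p_0, …, p_(n-1)` is
`dual A n n`. -/
def dual (A : Fm) (n : ℕ) : ℕ → Fm
  | 0 => A
  | m + 1 => imp (neg (iff (var m) (var (n + m)))) (dual A n m)

end Pool.Agent.V8H46.FP
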