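import Pool.Agent.V8H46.FP.Closure

/-!
# Frege derivations by a case distinction over the position of a token
-/

set_option autoImplicit false

namespace Pool.Agent.V8H46.FP

open Pool.Agent.H555R2.PF Pool.Agent.H555R2.PF.Fm

/-- conjunction of a list of formulas, with a last conjunct `p_z → p_z` -/
def cj (z : ℕ) : List Fm → Fm
  | [] => imp (var z) (var z)
  | C :: L => and C (cj z L)

/-- disjunction of a list of formulas, with a last disjunct `¬ (p₀ → p₀)` -/
def dj : List Fm → Fm
  | [] => ff
  | C :: L => or C (dj L)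

theorem cj_size (z : ℕ) (L : List Fm) : (cj z L).size = psize L + L.length + 3 := by
  induction L with
  | nil => simp [cj, size, psize]
  | cons C L ih => simp only [cj, size, ih, psize_cons, List.length_cons]; omega

theorem dj_size (L : List Fm) : (dj L).size = psize L + L.length + 4 := by
  induction L with
  | nil => simp [dj, size, psize, ff]
  | cons C L ih => simp only [dj, size, ih, psize_cons, List.length_cons]; omega

theorem cj_eval (z : ℕ) (L : List Fm) (v : ℕ → Prop) : (cj z L).eval v ↔ ∀ C ∈ L, C.eval v := by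
  induction L with
  | nil => simp [cj, eval]
  | cons C L ih => simp [cj, eval, ih]

theorem dj_eval (L : List Fm) (v : ℕ → Prop) : (dj L).eval v ↔ ∃ C ∈ L, C.eval v := by
  induction L with
  | nil => simp [dj, eval, ff]
  | cons C L ih => simp [dj, eval, ih]

theorem cj_intro (F : List Rule) (hF : IsFrege F) : ∃ c : ℕ, ∀ (z : ℕ) (H : Fm) (M : ℕ)
    (Γ : Set Fm) (L : List Fm), H.size ≤ M → (cj z L).size ≤ M → (∀ C ∈ L, imp H C ∈ Γ) →
    Ded F Γ [imp H (cj z L)] (c * M * (L.length + 1)) := by
  obtain ⟨c₁, h₁⟩ := schemaD hF [] (imp (var 1) (imp (var 0) (var 0))) (by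
    intro v _; simp [eval])
  obtain ⟨c₂, h₂⟩ := schemaD hF [imp (var 0) (var 1), imp (var 0) (var 2)]
    (imp (var 0) (and (var 1) (var 2))) (by
    intro v h; simp [eval] at h ⊢; tauto)
  refine ⟨c₁ + c₂, fun z H M Γ L => ?_⟩
  induction L with
  | nil =>
    intro hH hM _
    have hM1 : 1 ≤ M := (size_pos H).trans hH
    have s := h₁ [var z, H] M hM1 (by
      intro Z hZ; simp at hZ; rcases hZ with rfl | rfl
      · simpa [size] using hM1
      · exact hH) Γ (by simp)
    refine (s.sub (by simp [subst, asg, cj])).le ?_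
    simp only [List.length_nil]
    nlinarith [Nat.zero_le (c₂ * M)]
  | cons C L ih =>
    intro hH hM hΓ
    have hM1 : 1 ≤ M := (size_pos H).trans hH
    simp only [cj, size] at hM
    have r := ih hH (by omega) (fun D hD => hΓ D (by simp [hD]))
    have s := h₂ [H, C, cj z L] M hM1 (by
      intro Z hZ; simp at hZ; rcases hZ with rfl | rfl | rfl <;> omega)
      (Γ ∪ {B | B ∈ [imp H (cj z L)]}) (by
      intro Z hZ; simp only [List.mem_cons, List.not_mem_nil, or_false] at hZ
      rcases hZ with rfl | rfl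
      · left; simpa [subst, asg] using hΓ C (by simp)
      · right; simp [subst, asg])
    refine ((r.cut s).sub (by simp [subst, asg, cj])).le ?_
    simp only [List.length_cons]
    nlinarith [Nat.zero_le (c₁ * M)]

theorem cj_mem_size (z : ℕ) {L : List Fm} {C : Fm} (h : C ∈ L) : C.size ≤ (cj z L).size := by
  rw [cj_size]
  have := size_le_psize h
  omega

theorem cj_imp (F : List Rule) (hF : IsFrege F) : ∃ c : ℕ, ∀ (z M : ℕ) (L : List Fm)
    (C : Fm) (Γ : Set Fm), (cj z L).size ≤ M → C ∈ L →
    Ded F Γ [imp (cj z L) C] (c * M * L.length) := by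
  obtain ⟨c₁, h₁⟩ := schemaD hF [] (imp (and (var 0) (var 1)) (var 0)) (by
    intro v _; simp [eval]; tauto)
  obtain ⟨c₂, h₂⟩ := schemaD hF [imp (var 1) (var 2)] (imp (and (var 0) (var 1)) (var 2)) (by
    intro v h; simp [eval] at h ⊢; tauto)
  refine ⟨c₁ + c₂, fun z M L => ?_⟩
  induction L with
  | nil => intro C Γ _ hC; simp at hC
  | cons D L ih =>
    intro C Γ hM hC
    simp only [cj, size] at hM
    rcases List.mem_cons.1 hC with rfl | hC
    · have s := h₁ [C, cj z L] M (by omega) (by
        intro Z hZ; simp at hZ; rcases hZ with rfl | rfl <;> omega) Γ (by simp)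
      refine (s.sub (by simp [subst, asg, cj])).le ?_
      simp only [List.length_cons]
      nlinarith [Nat.zero_le (c₁ * M * L.length), Nat.zero_le (c₂ * M * L.length),
        Nat.zero_le (c₂ * M)]
    · have hCs := cj_mem_size z hC
      have r := ih C Γ (by omega) hC
      have s := h₂ [D, cj z L, C] M (by omega) (by
        intro Z hZ; simp at hZ; rcases hZ with rfl | rfl | rfl <;> omega)
        (Γ ∪ {B | B ∈ [imp (cj z L) C]}) (by
        intro Z hZ; simp only [List.mem_singleton] at hZ; subst hZ; right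
        simp [subst, asg])
      refine ((r.cut s).sub (by simp [subst, asg, cj])).le ?_
      simp only [List.length_cons]
      nlinarith [Nat.zero_le (c₁ * M * L.length), Nat.zero_le (c₂ * M * L.length),
        Nat.zero_le (c₁ * M)]

theorem dj_elim (F : List Rule) (hF : IsFrege F) : ∃ c : ℕ, ∀ (T : Fm) (M : ℕ)
    (Γ : Set Fm) (L : List Fm), T.size ≤ M → (dj L).size ≤ M → (∀ C ∈ L, imp C T ∈ Γ) →
    Ded F Γ [imp (dj L) T] (c * M * (L.length + 1)) := by
  obtain ⟨c₁, h₁⟩ := schemaD hF [] (imp (neg (imp (var 0) (var 0))) (var 1)) (by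
    intro v _; simp [eval])
  obtain ⟨c₂, h₂⟩ := schemaD hF [imp (var 0) (var 2), imp (var 1) (var 2)]
    (imp (or (var 0) (var 1)) (var 2)) (by
    intro v h; simp [eval] at h ⊢; tauto)
  refine ⟨c₁ + c₂, fun T M Γ L => ?_⟩
  induction L with
  | nil =>
    intro hT hM _
    have hM1 : 1 ≤ M := (size_pos T).trans hT
    have s := h₁ [var 0, T] M hM1 (by
      intro Z hZ; simp at hZ; rcases hZ with rfl | rfl
      · simpa [size] using hM1
      · exact hT) Γ (by simp)
    refine (s.sub (by simp [subst, asg, dj, ff])).le ?_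
    simp only [List.length_nil]
    nlinarith [Nat.zero_le (c₂ * M)]
  | cons C L ih =>
    intro hT hM hΓ
    have hM1 : 1 ≤ M := (size_pos T).trans hT
    simp only [dj, size] at hM
    have r := ih hT (by omega) (fun D hD => hΓ D (by simp [hD]))
    have s := h₂ [C, dj L, T] M hM1 (by
      intro Z hZ; simp at hZ; rcases hZ with rfl | rfl | rfl <;> omega)
      (Γ ∪ {B | B ∈ [imp (dj L) T]}) (by
      intro Z hZ; simp only [List.mem_cons, List.not_mem_nil, or_false] at hZ
      rcases hZ with rfl | rfl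
      · left; simpa [subst, asg] using hΓ C (by simp)
      · right; simp [subst, asg])
    refine ((r.cut s).sub (by simp [subst, asg, dj])).le ?_
    simp only [List.length_cons]
    nlinarith [Nat.zero_le (c₁ * M)]

/-! ### tokens -/

/-- the token is in the cell `b` -/
def hot (K b : ℕ) : Fm :=
  cj 0 ((List.range K).map fun a => if a = b then var a else neg (var a))

/-- exactly one of the variables `p₀, …, p_(K-1)` is true -/
def val (K : ℕ) : Fm := dj ((List.range K).map (hot K))

theorem psize_map_le' {ι : Type} (W : List ι) (f : ι → Fm) (m : ℕ) (h : ∀ v ∈ W, (f v).size ≤ m) :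
    psize (W.map f) ≤ m * W.length := by
  induction W with
  | nil => simp [psize]
  | cons v W ih =>
    rw [List.map_cons, psize_cons, List.length_cons]
    have h1 := ih (fun w hw => h w (by simp [hw]))
    have h2 := h v (by simp)
    nlinarith

theorem hot_size (K b : ℕ) : (hot K b).size ≤ 3 * K + 3 := by
  rw [hot, cj_size, List.length_map, List.length_range]
  have := psize_map_le' (List.range K) (fun a => if a = b then var a else neg (var a)) 2 (by
    intro a _; split_ifs <;> simp [size])
  rw [List.length_range] at this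
  omega

theorem val_size (K : ℕ) : (val K).size ≤ 3 * K ^ 2 + 4 * K + 4 := by
  rw [val, dj_size, List.length_map, List.length_range]
  have := psize_map_le' (List.range K) (hot K) (3 * K + 3) (fun a _ => hot_size K a)
  rw [List.length_range] at this
  nlinarith

theorem hot_eval (K b : ℕ) (v : ℕ → Prop) : (hot K b).eval v ↔ ∀ a < K, (v a ↔ a = b) := by
  rw [hot, cj_eval]
  simp only [List.mem_map, List.mem_range, forall_exists_index, and_imp,
    forall_apply_eq_imp_iff₂]
  refine forall_congr' fun a => forall_congr' fun _ => ?_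
  split_ifs with h <;> simp [eval, h]

theorem val_eval (K : ℕ) (v : ℕ → Prop) : (val K).eval v ↔ ∃ b < K, ∀ a < K, (v a ↔ a = b) := by
  rw [val, dj_eval]
  simp only [List.mem_map, List.mem_range, exists_exists_and_eq_and, hot_eval]

/-- Everything that holds for all positions of the token is derivable. -/
theorem val_cases (F : List Rule) (hF : IsFrege F) : ∃ c : ℕ, ∀ (K : ℕ) (T : Fm) (Q : ℕ),
    K ≤ Q → T.size ≤ Q → (∀ n ∈ T.vars, n < K) → (∀ b < K, T.eval fun n => n = b) →
    Ded F ∅ [imp (val K) T] (c * Q ^ 4) := by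
  classical
  obtain ⟨c₁, h₁⟩ := cj_imp F hF
  obtain ⟨c₂, h₂⟩ := schemaD hF [imp (var 0) (var 1)]
    (imp (var 0) (iff (var 1) (imp (var 2) (var 2)))) (by
    intro v h; simp [eval, iff] at h ⊢; tauto)
  obtain ⟨c₃, h₃⟩ := schemaD hF [imp (var 0) (neg (var 1))]
    (imp (var 0) (iff (var 1) (neg (imp (var 2) (var 2))))) (by
    intro v h; simp [eval, iff] at h ⊢; tauto)
  obtain ⟨c₄, h₄⟩ := repl F hF
  obtain ⟨c₅, h₅⟩ := eval_closed F hF
  obtain ⟨c₆, h₆⟩ := schemaD hF [imp (var 0) (iff (var 1) (var 2)), var 2]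
    (imp (var 0) (var 1)) (by
    intro v h; simp [eval, iff] at h ⊢; tauto)
  obtain ⟨c₇, h₇⟩ := dj_elim F hF
  refine ⟨30 * (c₁ + c₂ + c₃ + c₄ + c₅ + c₆ + c₇), ?_⟩
  intro K T Q hK hT hvars hev
  have hQ1 : 1 ≤ Q := (size_pos T).trans hT
  -- one case
  have case : ∀ b ∈ List.range K, Ded F ∅ [imp (hot K b) T]
      (Q * (c₁ * (6 * Q) * Q + (c₂ + c₃) * (6 * Q)) + c₄ * (6 * Q) * Q + c₅ * (4 * Q) * Q +
        c₆ * (6 * Q)) := by
    intro b hb
    rw [List.mem_range] at hb
    let τ : ℕ → Fm := fun n => if n = b then tt else ff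
    have hτ : ∀ n, τ n = tt ∨ τ n = ff := by
      intro n; simp only [τ]; split_ifs <;> simp
    have hhs : (hot K b).size ≤ 6 * Q := (hot_size K b).trans (by omega)
    have hTτ : (T.subst τ).size ≤ 4 * Q := by
      have := size_subst_le (σ := τ) (M := 4) (by norm_num) (A := T) (by
        intro n _; rcases hτ n with h | h <;> rw [h] <;> simp [tt, ff, size])
      omega
    -- the values of the variables
    have s1 : Ded F ∅ (T.vars.toList.map fun n => imp (hot K b) (iff (var n) (τ n)))
        (Q * (c₁ * (6 * Q) * Q + (c₂ + c₃) * (6 * Q))) := by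
      have hlen : T.vars.toList.length ≤ Q := by
        rw [Finset.length_toList]; exact (vars_card_le T).trans hT
      refine (Ded.many _ _ _ ?_).le (Nat.mul_le_mul_right _ hlen)
      intro n hn
      rw [Finset.mem_toList] at hn
      have hnK := hvars n hn
      have t1 := h₁ 0 (6 * Q) ((List.range K).map fun a => if a = b then var a else neg (var a))
        (if n = b then var n else neg (var n)) ∅ hhs
        (List.mem_map.2 ⟨n, List.mem_range.2 hnK, rfl⟩)
      rw [List.length_map, List.length_range] at t1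
      by_cases hnb : n = b
      · simp only [if_pos hnb] at t1
        have t2 := h₂ [hot K b, var n, var 0] (6 * Q) (by omega) (by
          intro Z hZ; simp at hZ; rcases hZ with rfl | rfl | rfl
          · exact hhs
          · simp [size]; omega
          · simp [size]; omega)
          (∅ ∪ {B | B ∈ [imp (hot K b) (var n)]}) (by
          intro Z hZ; simp only [List.mem_singleton] at hZ; subst hZ; right; simp [subst, asg])
        have hτn : τ n = tt := if_pos hnb
        rw [hτn]
        refine ((t1.cut t2).sub (by simp [subst, asg, iff, tt])).le ?_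
        have e1 : c₁ * (6 * Q) * K ≤ c₁ * (6 * Q) * Q := Nat.mul_le_mul_left _ hK
        have e2 : c₂ * (6 * Q) ≤ (c₂ + c₃) * (6 * Q) := Nat.mul_le_mul_right _ (by omega)
        omega
      · simp only [if_neg hnb] at t1
        have t2 := h₃ [hot K b, var n, var 0] (6 * Q) (by omega) (by
          intro Z hZ; simp at hZ; rcases hZ with rfl | rfl | rfl
          · exact hhs
          · simp [size]; omega
          · simp [size]; omega)
          (∅ ∪ {B | B ∈ [imp (hot K b) (neg (var n))]}) (by
          intro Z hZ; simp only [List.mem_singleton] at hZ; subst hZ; right; simp [subst, asg])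
        have hτn : τ n = ff := if_neg hnb
        rw [hτn]
        refine ((t1.cut t2).sub (by simp [subst, asg, iff, ff])).le ?_
        have e1 : c₁ * (6 * Q) * K ≤ c₁ * (6 * Q) * Q := Nat.mul_le_mul_left _ hK
        have e2 : c₃ * (6 * Q) ≤ (c₂ + c₃) * (6 * Q) := Nat.mul_le_mul_right _ (by omega)
        omega
    have s2 := h₄ (hot K b) T var τ (6 * Q) hhs (by rw [subst_var]; omega) (by omega)
      (∅ ∪ {B | B ∈ T.vars.toList.map fun n => imp (hot K b) (iff (var n) (τ n))}) (by
      intro n hn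
      right
      exact List.mem_map.2 ⟨n, by simpa using hn, rfl⟩)
    rw [subst_var] at s2
    have s3 := h₅ τ hτ T (4 * Q) (by omega) ∅
    have hevb : T.eval fun n => τ n = tt := by
      refine (eval_congr ?_).1 (hev b hb)
      intro n _
      simp only [τ]
      by_cases h : n = b
      · simp [h]
      · simp [h, tt, ff]
    rw [if_pos hevb] at s3
    have s4 := h₆ [hot K b, T, T.subst τ] (6 * Q) (by omega) (by
      intro Z hZ; simp at hZ; rcases hZ with rfl | rfl | rfl <;> omega)
      (∅ ∪ {B | B ∈ [imp (hot K b) (iff T (T.subst τ))] ++ [T.subst τ]}) (by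
      intro Z hZ; simp only [List.mem_cons, List.not_mem_nil, or_false] at hZ
      rcases hZ with rfl | rfl <;> right <;> simp [subst, asg, iff])
    refine ((((s1.cut s2).append s3).cut s4).sub (by simp [subst, asg])).le ?_
    have e1 : c₄ * (6 * Q) * T.size ≤ c₄ * (6 * Q) * Q := Nat.mul_le_mul_left _ hT
    have e2 : c₅ * (4 * Q) * T.size ≤ c₅ * (4 * Q) * Q := Nat.mul_le_mul_left _ hT
    omega
  have s1 := Ded.many (fun b => imp (hot K b) T) _ (List.range K) case
  rw [List.length_range] at s1
  have hvs : (val K).size ≤ 11 * Q ^ 2 := by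
    have h1 := val_size K
    have h2 : K ^ 2 ≤ Q ^ 2 := Nat.pow_le_pow_left hK 2
    nlinarith
  have hQ2 : Q ≤ Q ^ 2 := by nlinarith
  have s2 := h₇ T (11 * Q ^ 2) (∅ ∪ {B | B ∈ (List.range K).map fun b => imp (hot K b) T})
    ((List.range K).map (hot K)) (by omega) hvs (by
    intro C hC
    obtain ⟨b, hb, rfl⟩ := List.mem_map.1 hC
    right
    exact List.mem_map.2 ⟨b, hb, rfl⟩)
  rw [List.length_map, List.length_range] at s2
  refine (s1.cut s2).le ?_
  have hQ4 : Q ^ 3 ≤ Q ^ 4 := Nat.pow_le_pow_right hQ1 (by norm_num)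
  have hQ3 : Q ^ 2 ≤ Q ^ 4 := Nat.pow_le_pow_right hQ1 (by norm_num)
  calc K * (Q * (c₁ * (6 * Q) * Q + (c₂ + c₃) * (6 * Q)) + c₄ * (6 * Q) * Q + c₅ * (4 * Q) * Q +
        c₆ * (6 * Q)) + c₇ * (11 * Q ^ 2) * (K + 1)
      ≤ Q * (Q * (c₁ * (6 * Q) * Q + (c₂ + c₃) * (6 * Q)) + c₄ * (6 * Q) * Q + c₅ * (4 * Q) * Q +
        c₆ * (6 * Q)) + c₇ * (11 * Q ^ 2) * (Q + 1) := by gcongr
    _ = 6 * (c₁ * Q ^ 4) + 6 * (c₂ * Q ^ 3) + 6 * (c₃ * Q ^ 3) + 6 * (c₄ * Q ^ 3) +
        4 * (c₅ * Q ^ 3) + 6 * (c₆ * Q ^ 2) + 11 * (c₇ * Q ^ 3) + 11 * (c₇ * Q ^ 2) := by ring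
    _ ≤ 6 * (c₁ * Q ^ 4) + 6 * (c₂ * Q ^ 4) + 6 * (c₃ * Q ^ 4) + 6 * (c₄ * Q ^ 4) +
        4 * (c₅ * Q ^ 4) + 6 * (c₆ * Q ^ 4) + 11 * (c₇ * Q ^ 4) + 11 * (c₇ * Q ^ 4) := by
        gcongr <;> norm_num
    _ ≤ _ := by
      have e : 30 * (c₁ + c₂ + c₃ + c₄ + c₅ + c₆ + c₇) * Q ^ 4 = 30 * (c₁ * Q ^ 4) +
        30 * (c₂ * Q ^ 4) + 30 * (c₃ * Q ^ 4) + 30 * (c₄ * Q ^ 4) + 30 * (c₅ * Q ^ 4) +
        30 * (c₆ * Q ^ 4) + 30 * (c₇ * Q ^ 4) := by ring
      rw [e]
      omega

end Pool.Agent.V8H46.FP
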