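import Pool.Agent.V8H46.FP.Swap

/-!
# Frege + permutation simulates extended Frege iff it is closed under substitutions
-/

set_option autoImplicit false

namespace Pool.Agent.V8H46.FP

open Pool.Agent.H555R2.PF Pool.Agent.H555R2.PF.Fm

/-- soundness -/
theorem Pr.sound {F : List Rule} (hF : IsFrege F) {L : List Fm} (h : Pr F PermRule L) :
    ∀ A ∈ L, ∀ v : ℕ → Prop, A.eval v := by
  induction h with
  | nil => simp
  | @frege L B hL hB ih =>
    intro A hA v
    rcases List.mem_cons.1 hA with rfl | hA
    · obtain ⟨r, hr, σ, rfl, h2⟩ := hB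
      rw [eval_subst]
      apply hF.1 r hr
      intro p hp
      have := ih _ (h2 p hp) v
      rwa [eval_subst] at this
    · exact ih A hA v
  | @rule L C B hL hC hX ih =>
    intro A hA v
    rcases List.mem_cons.1 hA with rfl | hA
    · obtain ⟨π, _, rfl⟩ := hX
      rw [rename, eval_subst]
      exact ih C hC _
    · exact ih A hA v

theorem EQ_eval (pr : ℕ → ℕ) (v : ℕ → Prop) (X : List (ℕ × Fm))
    (h : ∀ x ∈ X, ¬ (v x.1 ↔ v (pr x.1))) : ∀ G, (EQ pr X G).eval v → G.eval v := by
  induction X with
  | nil => intro G hG; exact hG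
  | cons x X ih =>
    intro G hG
    have := ih (fun y hy => h y (by simp [hy])) _ hG
    simp only [eval, iff] at this
    have h1 := h x (by simp)
    rcases this with this | this
    · exact absurd ⟨this.1, this.2⟩ h1
    · exact this

/-- Frege + permutation proves a padded version of every formula which has an extended Frege
proof. -/
theorem perm_EQ (F : List Rule) (hF : IsFrege F) : ∃ c : ℕ, ∀ (A : Fm) (s : ℕ), HasEF F A s →
    ∃ (X : List (ℕ × Fm)) (K : ℕ), Fresh A X ∧ X.length ≤ s ∧ (∀ n ∈ A.vars, n < K) ∧
      (∀ x ∈ X, x.1 < K) ∧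
      Has F PermRule (EQ (fun n => K + n) X A) (c * s ^ 3) := by
  obtain ⟨c, hc⟩ := ef_imp F hF
  obtain ⟨d, hd⟩ := elim F hF
  refine ⟨c + 50 * d, fun A s h => ?_⟩
  obtain ⟨k, L, h1, h2⟩ := h
  obtain ⟨X, e1, e2, e3, e4⟩ := hc A k (A :: L) h1 (by simp)
  have hs : 1 ≤ s := (size_pos A).trans ((size_le_psize (L := A :: L) (by simp)).trans h2)
  have hAs : A.size ≤ s := (size_le_psize (L := A :: L) (by simp)).trans h2
  have hX : X.length ≤ s := (length_le_xsize X).trans (e3.trans h2)
  obtain ⟨K, hK⟩ : ∃ K, ∀ n ∈ (hyp A X).vars, n < K := by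
    refine ⟨(hyp A X).vars.sup id + 1, fun n hn => ?_⟩
    have := Finset.le_sup (f := id) hn
    simp only [id] at this
    omega
  have hKA : ∀ n ∈ A.vars, n < K := fun n hn => hK n ((hyp_vars A X n).2 (Or.inl hn))
  have hKX : ∀ x ∈ X, x.1 < K := fun x hx => hK _ ((hyp_vars A X _).2 (Or.inr ⟨x, hx, Or.inl rfl⟩))
  refine ⟨X, K, e2, hX, hKA, hKX, ?_⟩
  have e7 : OccL F PermRule [imp (hyp A X) A] (c * s ^ 3) := e4.occL.le (by gcongr)
  have hM : (hyp A X).size + A.size + 8 * X.length + 10 ≤ 25 * s := by
    have k1 := hyp_size A X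
    omega
  have e8 := hd PermRule (fun n => K + n) _ X _ (25 * s) _ (by
    intro x hx B hB1 hB2
    refine ⟨Equiv.swap x.1 (K + x.1), ?_, rfl⟩
    intro n hn
    apply Equiv.swap_apply_of_ne_of_ne
    · rintro rfl; exact hn hB1
    · rintro rfl; exact hn hB2) e2 (by
    intro x hx
    have hxA := fresh_mem e2 hx
    refine ⟨hxA, ?_, ?_, ?_⟩
    · intro h; have := hKA _ h; dsimp only at this; omega
    · intro h; have := hKA _ h; dsimp only at this; omega
    · intro y hy
      refine ⟨?_, ?_, ?_⟩
      · have := hKX y hy; dsimp only; omega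
      · intro h
        have := hK _ ((hyp_vars A X _).2 (Or.inr ⟨y, hy, Or.inr h⟩))
        dsimp only at this
        omega
      · dsimp only; omega) hM e7
  refine (e8.le ?_).has
  have p1 : s ^ 2 ≤ s ^ 3 := Nat.pow_le_pow_right hs (by norm_num)
  calc c * s ^ 3 + d * (25 * s) * (X.length + 1) ≤ c * s ^ 3 + d * (25 * s) * (2 * s) := by
        gcongr; omega
    _ = c * s ^ 3 + 50 * d * s ^ 2 := by ring
    _ ≤ c * s ^ 3 + 50 * d * s ^ 3 := Nat.add_le_add_left (Nat.mul_le_mul_left _ p1) _
    _ = _ := by ring

/-- closed under substitution of truth constants -/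
theorem const_imp (F : List Rule) (hF : IsFrege F) (h : ClosedUnder (Has F PermRule) ConstSubst) :
    Simulates (Has F PermRule) (HasEF F) := by
  classical
  obtain ⟨a, ha⟩ := h
  obtain ⟨b, hb⟩ := perm_EQ F hF
  obtain ⟨d, hd⟩ := EQc_elim F hF
  have hpb : PB fun s => ((b * s ^ 3 + 19 * s) ^ a + a) + d * (19 * s) * s :=
    ((PB.inn a).comp (((PB.const b).mul (PB.id.pow 3)).add ((PB.const 19).mul PB.id))).add
      (((PB.const d).mul ((PB.const 19).mul PB.id)).mul PB.id)
  obtain ⟨e, he⟩ := hpb.out
  refine ⟨e, fun A s hA => ?_⟩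
  have hAs : A.size ≤ s := by
    obtain ⟨k, L, _, h2⟩ := hA
    exact (size_le_psize (L := A :: L) (by simp)).trans h2
  obtain ⟨X, K, h1, h2, hKA, hKX, h3⟩ := hb A s hA
  let τ : ℕ → Fm := fun n => if ∃ x ∈ X, x.1 = n then tt else
    if ∃ x ∈ X, K + x.1 = n then ff else var n
  have hτ : (EQ (fun n => K + n) X A).subst τ = EQc X.length A := by
    rw [EQ_subst]
    · congr 1
      conv_rhs => rw [← subst_var A]
      apply subst_congr
      intro n hn
      have k1 : ¬ ∃ x ∈ X, x.1 = n := by
        rintro ⟨x, hx, rfl⟩
        exact fresh_mem h1 hx hn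
      have k2 : ¬ ∃ x ∈ X, K + x.1 = n := by
        rintro ⟨x, hx, rfl⟩
        have := hKA _ hn
        omega
      simp only [τ, if_neg k1, if_neg k2]
    · intro x hx
      have : ∃ y ∈ X, y.1 = x.1 := ⟨x, hx, rfl⟩
      simp only [τ, if_pos this]
    · intro x hx
      have k1 : ¬ ∃ y ∈ X, y.1 = K + x.1 := by
        rintro ⟨y, hy, e⟩
        have := hKX y hy
        omega
      have k2 : ∃ y ∈ X, K + y.1 = K + x.1 := ⟨x, hx, rfl⟩
      simp only [τ, if_neg k1, if_pos k2]
  have h4 := ha _ _ τ (by
    intro n
    simp only [τ]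
    split_ifs
    · exact Or.inr (Or.inl rfl)
    · exact Or.inr (Or.inr rfl)
    · exact Or.inl rfl) h3
  rw [hτ, EQc_size] at h4
  have h5 := OccL.of_has h4
  have h8 := hd X.length (19 * s) A {B | B ∈ [EQc X.length A]} (by rw [EQc_size]; omega) (by simp)
  refine (((h5.ded h8 (fun B hB => hB)).sub (by simp)).le ?_).has
  refine le_trans ?_ (he s)
  gcongr
  omega

/-! ### renaming -/

/-- `EQ` with all pairs replaced by `x, y` -/
def EQv (x y : ℕ) : ℕ → Fm → Fm
  | 0, G => G
  | k + 1, G => EQv x y k (or (iff (var x) (var y)) G)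

theorem EQv_size (x y k : ℕ) : ∀ G, (EQv x y k G).size = G.size + 8 * k := by
  induction k with
  | zero => intro G; simp [EQv]
  | succ k ih => intro G; simp only [EQv, ih, size, iff]; omega

theorem EQ_subst_var (pr : ℕ → ℕ) (τ : ℕ → Fm) (a b : ℕ) (X : List (ℕ × Fm))
    (h1 : ∀ x ∈ X, τ x.1 = var a) (h2 : ∀ x ∈ X, τ (pr x.1) = var b) :
    ∀ G, (EQ pr X G).subst τ = EQv a b X.length (G.subst τ) := by
  induction X with
  | nil => intro G; rfl
  | cons x X ih =>
    intro G
    simp only [EQ, List.length_cons, EQv]
    rw [ih (fun y hy => h1 y (by simp [hy])) (fun y hy => h2 y (by simp [hy]))]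
    simp only [subst, iff, h1 x (by simp), h2 x (by simp)]

theorem EQv_elim (F : List Rule) (hF : IsFrege F) : ∃ c : ℕ, ∀ (x y k M : ℕ) (A G : Fm)
    (Γ : Set Fm), (EQv x y k G).size + A.size + 8 ≤ M → EQv x y k G ∈ Γ →
    imp G (or (iff (var x) (var y)) A) ∈ Γ →
    Ded F Γ [or (iff (var x) (var y)) A] (c * M * (k + 1)) := by
  obtain ⟨c, hc⟩ := schemaD hF [var 0, imp (var 0) (var 1)] (var 1) (by
    intro v h; simp [eval] at h ⊢; tauto)
  obtain ⟨c', hc'⟩ := schemaD hF [imp (var 0) (or (iff (var 1) (var 2)) (var 3))]
    (imp (or (iff (var 1) (var 2)) (var 0)) (or (iff (var 1) (var 2)) (var 3))) (by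
    intro v h; simp [eval, iff] at h ⊢; tauto)
  refine ⟨c + c', fun x y k => ?_⟩
  induction k with
  | zero =>
    intro M A G Γ hM h1 h2
    simp only [EQv] at hM h1
    have s := hc [G, or (iff (var x) (var y)) A] M (by omega) (by
      intro Z hZ; simp at hZ; rcases hZ with rfl | rfl
      · omega
      · simp [size, iff]; omega) Γ (by
      intro Z hZ; simp only [List.mem_cons, List.not_mem_nil, or_false] at hZ
      rcases hZ with rfl | rfl
      · simpa [subst, asg] using h1
      · simpa [subst, asg, iff] using h2)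
    refine (s.sub (by simp [subst, asg, iff])).le ?_
    nlinarith [Nat.zero_le (c' * M)]
  | succ k ih =>
    intro M A G Γ hM h1 h2
    simp only [EQv] at hM h1
    have hM' := hM
    rw [EQv_size] at hM'
    simp only [size] at hM'
    have s := hc' [G, var x, var y, A] M (by omega) (by
      intro Z hZ; simp at hZ; rcases hZ with rfl | rfl | rfl | rfl
      · omega
      · simp [size]; omega
      · simp [size]; omega
      · omega) Γ (by
      intro Z hZ; simp only [List.mem_cons, List.not_mem_nil, or_false] at hZ
      rcases hZ with rfl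
      simpa [subst, asg, iff] using h2)
    have r := ih M A (or (iff (var x) (var y)) G)
      (Γ ∪ {B | B ∈ [(imp (or (iff (var 1) (var 2)) (var 0)) (or (iff (var 1) (var 2)) (var 3))).subst
        (asg [G, var x, var y, A])]}) hM (Or.inl h1) (by
      right; simp [subst, asg, iff])
    refine ((s.cut r)).le ?_
    nlinarith [Nat.zero_le (c * M)]

open Classical in
/-- evaluation of closed formulas -/
theorem eval_closed (F : List Rule) (hF : IsFrege F) : ∃ c : ℕ, ∀ (τ : ℕ → Fm)
    (_ : ∀ n, τ n = tt ∨ τ n = ff) (A : Fm) (M : ℕ), 4 * A.size ≤ M → ∀ Γ : Set Fm,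
    Ded F Γ [if A.eval (fun n => τ n = tt) then A.subst τ else neg (A.subst τ)]
      (c * M * A.size) := by
  have E : ∀ (Γ₀ : List Fm) (B₀ : Fm), Entails Γ₀ B₀ → ∃ c : ℕ, ∀ (l : List Fm) (M : ℕ), 1 ≤ M →
      (∀ X ∈ l, X.size ≤ M) → ∀ Γ : Set Fm,
      (∀ A ∈ Γ₀, A.subst (asg l) ∈ Γ) → Ded F Γ [B₀.subst (asg l)] (c * M) :=
    fun Γ₀ B₀ h => schemaD hF Γ₀ B₀ h
  obtain ⟨a1, k1⟩ := E [] (imp (var 0) (var 0)) (by intro v _; simp [eval])
  obtain ⟨a2, k2⟩ := E [] (neg (neg (imp (var 0) (var 0)))) (by intro v _; simp [eval])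
  obtain ⟨n1, m1⟩ := E [var 0] (neg (neg (var 0))) (by intro v h; simp [eval] at h ⊢; tauto)
  obtain ⟨b1, l1⟩ := E [var 0, var 1] (and (var 0) (var 1)) (by
    intro v h; simp [eval] at h ⊢; tauto)
  obtain ⟨b2, l2⟩ := E [neg (var 0)] (neg (and (var 0) (var 1))) (by
    intro v h; simp [eval] at h ⊢; tauto)
  obtain ⟨b3, l3⟩ := E [neg (var 1)] (neg (and (var 0) (var 1))) (by
    intro v h; simp [eval] at h ⊢; tauto)
  obtain ⟨o1, p1⟩ := E [var 0] (or (var 0) (var 1)) (by
    intro v h; simp [eval] at h ⊢; tauto)
  obtain ⟨o2, p2⟩ := E [var 1] (or (var 0) (var 1)) (by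
    intro v h; simp [eval] at h ⊢; tauto)
  obtain ⟨o3, p3⟩ := E [neg (var 0), neg (var 1)] (neg (or (var 0) (var 1))) (by
    intro v h; simp [eval] at h ⊢; tauto)
  obtain ⟨i1, q1⟩ := E [neg (var 0)] (imp (var 0) (var 1)) (by
    intro v h; simp [eval] at h ⊢; tauto)
  obtain ⟨i2, q2⟩ := E [var 1] (imp (var 0) (var 1)) (by
    intro v h; simp [eval] at h ⊢; tauto)
  obtain ⟨i3, q3⟩ := E [var 0, neg (var 1)] (neg (imp (var 0) (var 1))) (by
    intro v h; simp [eval] at h ⊢; tauto)
  set c := a1 + a2 + n1 + b1 + b2 + b3 + o1 + o2 + o3 + i1 + i2 + i3 with hc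
  refine ⟨c, fun τ hτ A => ?_⟩
  have hle : ∀ x M : ℕ, x ≤ c → x * M ≤ c * M := fun x M h => Nat.mul_le_mul_right M h
  have hsz : ∀ B : Fm, (B.subst τ).size ≤ 4 * B.size := by
    intro B
    have := size_subst_le (σ := τ) (M := 4) (by norm_num) (A := B) (by
      intro n _
      rcases hτ n with h | h <;> rw [h] <;> simp [tt, ff, size])
    omega
  induction A with
  | var n =>
    intro M hM Γ
    simp only [size] at hM ⊢
    rcases hτ n with h | h
    · have s := k1 [var 0] M (by omega) (by
        intro Z hZ; simp at hZ; subst hZ; simp [size]; omega) Γ (by simp)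
      simp only [eval, subst, h, if_true]
      refine (s.sub (by simp [subst, asg, tt])).le ?_
      rw [mul_one]; exact hle _ _ (by omega)
    · have s := k2 [var 0] M (by omega) (by
        intro Z hZ; simp at hZ; subst hZ; simp [size]; omega) Γ (by simp)
      have hne : ¬ (ff = tt) := by simp [ff, tt]
      simp only [eval, subst, h, if_neg hne]
      refine (s.sub (by simp [subst, asg, ff])).le ?_
      rw [mul_one]; exact hle _ _ (by omega)
  | neg A ih =>
    intro M hM Γ
    simp only [size] at hM
    have r := ih M (by omega) Γ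
    by_cases h : A.eval fun n => τ n = tt
    · simp only [eval, subst, h, not_true_eq_false, if_false, if_true] at r ⊢
      have s := m1 [A.subst τ] M (by omega) (by
        intro Z hZ; simp at hZ; subst hZ; have := hsz A; omega) (Γ ∪ {B | B ∈ [A.subst τ]}) (by
        intro Z hZ; simp only [List.mem_singleton] at hZ; subst hZ; right; simp [subst, asg])
      refine ((r.cut s).sub (by simp [subst, asg])).le ?_
      simp only [size]
      have := hle n1 M (by omega)
      first
        | (have e : c * M * (A.size + B.size + 1) = c * M * A.size + c * M * B.size + c * M := by ring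
           rw [e]; omega)
        | (have e : c * M * (A.size + 1) = c * M * A.size + c * M := by ring
           rw [e]; omega)
    · simp only [eval, subst, h, not_false_eq_true, if_false, if_true] at r ⊢
      refine r.le ?_
      simp only [size]
      nlinarith [Nat.zero_le (c * M)]
  | and A B iA iB =>
    intro M hM Γ
    simp only [size] at hM
    have rA := iA M (by omega) Γ
    have rB := iB M (by omega) Γ
    have sA := hsz A
    have sB := hsz B
    have hl : ∀ X ∈ [A.subst τ, B.subst τ], X.size ≤ M := by
      intro Z hZ; simp at hZ; rcases hZ with rfl | rfl <;> omega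
    by_cases hA : A.eval fun n => τ n = tt
    · by_cases hB : B.eval fun n => τ n = tt
      · simp only [eval, subst, hA, hB, and_self, if_true] at rA rB ⊢
        have s := l1 [A.subst τ, B.subst τ] M (by omega) hl
          (Γ ∪ {Y | Y ∈ [A.subst τ] ++ [B.subst τ]}) (by
          intro Z hZ; simp only [List.mem_cons, List.not_mem_nil, or_false] at hZ
          rcases hZ with rfl | rfl <;> right <;> simp [subst, asg])
        refine (((rA.append rB).cut s).sub (by simp [subst, asg])).le ?_
        simp only [size]
        have := hle b1 M (by omega)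
        first
          | (have e : c * M * (A.size + B.size + 1) = c * M * A.size + c * M * B.size + c * M := by ring
             rw [e]; omega)
          | (have e : c * M * (A.size + 1) = c * M * A.size + c * M := by ring
             rw [e]; omega)
      · simp only [eval, subst, hA, hB, and_false, if_false] at rA rB ⊢
        have s := l3 [A.subst τ, B.subst τ] M (by omega) hl
          (Γ ∪ {Y | Y ∈ [neg (B.subst τ)]}) (by
          intro Z hZ; simp only [List.mem_singleton] at hZ; subst hZ
          right; simp [subst, asg])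
        refine ((rB.cut s).sub (by simp [subst, asg])).le ?_
        simp only [size]
        have := hle b3 M (by omega)
        first
          | (have e : c * M * (A.size + B.size + 1) = c * M * A.size + c * M * B.size + c * M := by ring
             rw [e]; omega)
          | (have e : c * M * (A.size + 1) = c * M * A.size + c * M := by ring
             rw [e]; omega)
    · simp only [eval, subst, hA, false_and, if_false] at rA ⊢
      have s := l2 [A.subst τ, B.subst τ] M (by omega) hl
        (Γ ∪ {Y | Y ∈ [neg (A.subst τ)]}) (by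
        intro Z hZ; simp only [List.mem_singleton] at hZ; subst hZ
        right; simp [subst, asg])
      refine ((rA.cut s).sub (by simp [subst, asg])).le ?_
      simp only [size]
      have := hle b2 M (by omega)
      first
        | (have e : c * M * (A.size + B.size + 1) = c * M * A.size + c * M * B.size + c * M := by ring
           rw [e]; omega)
        | (have e : c * M * (A.size + 1) = c * M * A.size + c * M := by ring
           rw [e]; omega)
  | or A B iA iB =>
    intro M hM Γ
    simp only [size] at hM
    have rA := iA M (by omega) Γ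
    have rB := iB M (by omega) Γ
    have sA := hsz A
    have sB := hsz B
    have hl : ∀ X ∈ [A.subst τ, B.subst τ], X.size ≤ M := by
      intro Z hZ; simp at hZ; rcases hZ with rfl | rfl <;> omega
    by_cases hA : A.eval fun n => τ n = tt
    · simp only [eval, subst, hA, true_or, if_true] at rA ⊢
      have s := p1 [A.subst τ, B.subst τ] M (by omega) hl
        (Γ ∪ {Y | Y ∈ [A.subst τ]}) (by
        intro Z hZ; simp only [List.mem_singleton] at hZ; subst hZ
        right; simp [subst, asg])
      refine ((rA.cut s).sub (by simp [subst, asg])).le ?_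
      simp only [size]
      have := hle o1 M (by omega)
      first
        | (have e : c * M * (A.size + B.size + 1) = c * M * A.size + c * M * B.size + c * M := by ring
           rw [e]; omega)
        | (have e : c * M * (A.size + 1) = c * M * A.size + c * M := by ring
           rw [e]; omega)
    · by_cases hB : B.eval fun n => τ n = tt
      · simp only [eval, subst, hB, or_true, if_true] at rB ⊢
        have s := p2 [A.subst τ, B.subst τ] M (by omega) hl
          (Γ ∪ {Y | Y ∈ [B.subst τ]}) (by
          intro Z hZ; simp only [List.mem_singleton] at hZ; subst hZ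
          right; simp [subst, asg])
        refine ((rB.cut s).sub (by simp [subst, asg])).le ?_
        simp only [size]
        have := hle o2 M (by omega)
        first
          | (have e : c * M * (A.size + B.size + 1) = c * M * A.size + c * M * B.size + c * M := by ring
             rw [e]; omega)
          | (have e : c * M * (A.size + 1) = c * M * A.size + c * M := by ring
             rw [e]; omega)
      · simp only [eval, subst, hA, hB, or_self, if_false] at rA rB ⊢
        have s := p3 [A.subst τ, B.subst τ] M (by omega) hl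
          (Γ ∪ {Y | Y ∈ [neg (A.subst τ)] ++ [neg (B.subst τ)]}) (by
          intro Z hZ; simp only [List.mem_cons, List.not_mem_nil, or_false] at hZ
          rcases hZ with rfl | rfl <;> right <;> simp [subst, asg])
        refine (((rA.append rB).cut s).sub (by simp [subst, asg])).le ?_
        simp only [size]
        have := hle o3 M (by omega)
        first
          | (have e : c * M * (A.size + B.size + 1) = c * M * A.size + c * M * B.size + c * M := by ring
             rw [e]; omega)
          | (have e : c * M * (A.size + 1) = c * M * A.size + c * M := by ring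
             rw [e]; omega)
  | imp A B iA iB =>
    intro M hM Γ
    simp only [size] at hM
    have rA := iA M (by omega) Γ
    have rB := iB M (by omega) Γ
    have sA := hsz A
    have sB := hsz B
    have hl : ∀ X ∈ [A.subst τ, B.subst τ], X.size ≤ M := by
      intro Z hZ; simp at hZ; rcases hZ with rfl | rfl <;> omega
    by_cases hA : A.eval fun n => τ n = tt
    · by_cases hB : B.eval fun n => τ n = tt
      · simp only [eval, subst, hB, implies_true, if_true] at rB ⊢
        have s := q2 [A.subst τ, B.subst τ] M (by omega) hl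
          (Γ ∪ {Y | Y ∈ [B.subst τ]}) (by
          intro Z hZ; simp only [List.mem_singleton] at hZ; subst hZ
          right; simp [subst, asg])
        refine ((rB.cut s).sub (by simp [subst, asg])).le ?_
        simp only [size]
        have := hle i2 M (by omega)
        first
          | (have e : c * M * (A.size + B.size + 1) = c * M * A.size + c * M * B.size + c * M := by ring
             rw [e]; omega)
          | (have e : c * M * (A.size + 1) = c * M * A.size + c * M := by ring
             rw [e]; omega)
      · simp only [eval, subst, hA, hB, forall_const, if_false, if_true] at rA rB ⊢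
        have s := q3 [A.subst τ, B.subst τ] M (by omega) hl
          (Γ ∪ {Y | Y ∈ [A.subst τ] ++ [neg (B.subst τ)]}) (by
          intro Z hZ; simp only [List.mem_cons, List.not_mem_nil, or_false] at hZ
          rcases hZ with rfl | rfl <;> right <;> simp [subst, asg])
        refine (((rA.append rB).cut s).sub (by simp [subst, asg])).le ?_
        simp only [size]
        have := hle i3 M (by omega)
        first
          | (have e : c * M * (A.size + B.size + 1) = c * M * A.size + c * M * B.size + c * M := by ring
             rw [e]; omega)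
          | (have e : c * M * (A.size + 1) = c * M * A.size + c * M := by ring
             rw [e]; omega)
    · simp only [eval, subst, hA, false_imp_iff, if_true, if_false] at rA ⊢
      have s := q1 [A.subst τ, B.subst τ] M (by omega) hl
        (Γ ∪ {Y | Y ∈ [neg (A.subst τ)]}) (by
        intro Z hZ; simp only [List.mem_singleton] at hZ; subst hZ
        right; simp [subst, asg])
      refine ((rA.cut s).sub (by simp [subst, asg])).le ?_
      simp only [size]
      have := hle i1 M (by omega)
      first
        | (have e : c * M * (A.size + B.size + 1) = c * M * A.size + c * M * B.size + c * M := by ring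
           rw [e]; omega)
        | (have e : c * M * (A.size + 1) = c * M * A.size + c * M := by ring
           rw [e]; omega)

/-- one half of the final case distinction -/
theorem half (F : List Rule) (hF : IsFrege F) : ∃ c : ℕ, ∀ (l t A : Fm) (S : ℕ) (Γ : Set Fm),
    (t = tt ∨ t = ff) → A.size + l.size + 10 ≤ S → A.eval (fun _ => t = tt) →
    (∀ y ∈ A.vars, imp (and l (neg A)) (iff (var y) t) ∈ Γ) →
    Ded F Γ [imp l A] (c * S ^ 2) := by
  classical
  obtain ⟨c₁, h₁⟩ := repl F hF
  obtain ⟨c₂, h₂⟩ := eval_closed F hF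
  obtain ⟨c₃, h₃⟩ := schemaD hF [imp (and (var 0) (neg (var 1))) (iff (var 1) (var 2)), var 2]
    (imp (var 0) (var 1)) (by
    intro v h; simp [eval, iff] at h ⊢; tauto)
  refine ⟨4 * c₁ + 4 * c₂ + 4 * c₃, ?_⟩
  intro l t A S Γ ht hS hev hΓ
  have hts : t.size ≤ 4 := by rcases ht with rfl | rfl <;> simp [tt, ff, size]
  have hst : (A.subst fun _ => t).size ≤ 4 * A.size := by
    have := size_subst_le (σ := fun _ => t) (M := 4) (by norm_num) (A := A) (fun n _ => hts)
    omega
  have s1 := h₁ (and l (neg A)) A var (fun _ => t) (4 * S) (by simp only [size]; omega)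
    (by rw [subst_var]; omega) (by omega) Γ hΓ
  rw [subst_var] at s1
  have s2 := h₂ (fun _ => t) (fun _ => ht) A (4 * S) (by omega) Γ
  rw [if_pos hev] at s2
  have s3 := h₃ [l, A, A.subst fun _ => t] (4 * S) (by omega) (by
    intro Z hZ; simp at hZ; rcases hZ with rfl | rfl | rfl <;> omega)
    (Γ ∪ {B | B ∈ [imp (and l (neg A)) (iff A (A.subst fun _ => t))] ++ [A.subst fun _ => t]}) (by
    intro Z hZ; simp only [List.mem_cons, List.not_mem_nil, or_false] at hZ
    rcases hZ with rfl | rfl <;> right <;> simp [subst, asg, iff])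
  refine (((s1.append s2).cut s3).sub (by simp [subst, asg])).le ?_
  have e1 : A.size ≤ S := by omega
  have e2 : S ≤ S ^ 2 := by nlinarith
  calc c₁ * (4 * S) * A.size + c₂ * (4 * S) * A.size + c₃ * (4 * S)
      ≤ c₁ * (4 * S) * S + c₂ * (4 * S) * S + c₃ * (4 * S ^ 2) := by gcongr
    _ = _ := by ring

/-- closed under substitution of variables for variables -/
theorem var_imp (F : List Rule) (hF : IsFrege F) (h : ClosedUnder (Has F PermRule) VarSubst) :
    Simulates (Has F PermRule) (HasEF F) := by
  classical
  obtain ⟨a, ha⟩ := h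
  obtain ⟨b, hb⟩ := perm_EQ F hF
  obtain ⟨d, hd⟩ := EQv_elim F hF
  obtain ⟨g, hg⟩ := half F hF
  obtain ⟨c₀, h₀⟩ := schemaD hF [] (imp (var 0) (or (iff (var 1) (var 2)) (var 0))) (by
    intro v _; simp [eval, iff]; tauto)
  obtain ⟨c₁, h₁⟩ := schemaD hF [or (iff (var 0) (var 1)) (var 2)]
    (imp (and (var 0) (neg (var 2))) (iff (var 1) (imp (var 3) (var 3)))) (by
    intro v h; simp [eval, iff] at h ⊢; tauto)
  obtain ⟨c₂, h₂⟩ := schemaD hF [or (iff (var 0) (var 1)) (var 2)]
    (imp (and (neg (var 0)) (neg (var 2))) (iff (var 1) (neg (imp (var 3) (var 3))))) (by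
    intro v h; simp [eval, iff] at h ⊢; tauto)
  obtain ⟨c₃, h₃⟩ := schemaD hF [imp (var 0) (var 1), imp (neg (var 0)) (var 1)] (var 1) (by
    intro v h; simp [eval] at h ⊢; tauto)
  have hpb : PB fun s => s * (((b * s ^ 3 + 9 * s) ^ a + a) + (c₀ * (20 * s) +
      d * (20 * s) * (s + 1))) + (s * (c₁ * (20 * s)) + s * (c₂ * (20 * s)) +
      (2 * (g * (20 * s) ^ 2) + c₃ * (20 * s))) := by
    have i := PB.id
    have C := PB.const
    have q1 : PB fun s => ((b * s ^ 3 + 9 * s) ^ a + a) + (c₀ * (20 * s) +
        d * (20 * s) * (s + 1)) :=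
      ((PB.inn a).comp (((C b).mul (i.pow 3)).add ((C 9).mul i))).add
        (((C c₀).mul ((C 20).mul i)).add (((C d).mul ((C 20).mul i)).mul (i.add (C 1))))
    have q2 : PB fun s => s * (c₁ * (20 * s)) + s * (c₂ * (20 * s)) +
        (2 * (g * (20 * s) ^ 2) + c₃ * (20 * s)) :=
      ((i.mul ((C c₁).mul ((C 20).mul i))).add (i.mul ((C c₂).mul ((C 20).mul i)))).add
        (((C 2).mul ((C g).mul (((C 20).mul i).pow 2))).add ((C c₃).mul ((C 20).mul i)))
    exact (i.mul q1).add q2
  obtain ⟨e, he⟩ := hpb.out
  refine ⟨e, fun A s hA => ?_⟩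
  have hAs : A.size ≤ s := by
    obtain ⟨k, L, _, h2⟩ := hA
    exact (size_le_psize (L := A :: L) (by simp)).trans h2
  have hs1 : 1 ≤ s := (size_pos A).trans hAs
  obtain ⟨X, K, g1, g2, hKA, hKX, g3⟩ := hb A s hA
  obtain ⟨x, hx⟩ := vars_nonempty A
  -- the disjunctions
  have key : ∀ y ∈ A.vars.toList, OccL F PermRule [or (iff (var x) (var y)) A]
      (((b * s ^ 3 + 9 * s) ^ a + a) + (c₀ * (20 * s) + d * (20 * s) * (s + 1))) := by
    intro y hy
    rw [Finset.mem_toList] at hy
    let τ : ℕ → Fm := fun n => if ∃ z ∈ X, z.1 = n then var x else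
      if ∃ z ∈ X, K + z.1 = n then var y else var n
    have hτ : (EQ (fun n => K + n) X A).subst τ = EQv x y X.length A := by
      rw [EQ_subst_var _ _ x y]
      · congr 1
        conv_rhs => rw [← subst_var A]
        apply subst_congr
        intro n hn
        have k1 : ¬ ∃ z ∈ X, z.1 = n := by
          rintro ⟨z, hz, rfl⟩
          exact fresh_mem g1 hz hn
        have k2 : ¬ ∃ z ∈ X, K + z.1 = n := by
          rintro ⟨z, hz, rfl⟩
          have := hKA _ hn
          omega
        simp only [τ, if_neg k1, if_neg k2]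
      · intro z hz
        have : ∃ w ∈ X, w.1 = z.1 := ⟨z, hz, rfl⟩
        simp only [τ, if_pos this]
      · intro z hz
        have k1 : ¬ ∃ w ∈ X, w.1 = K + z.1 := by
          rintro ⟨w, hw, e⟩
          have := hKX w hw
          omega
        have k2 : ∃ w ∈ X, K + w.1 = K + z.1 := ⟨z, hz, rfl⟩
        simp only [τ, if_neg k1, if_pos k2]
    have h4 := ha _ _ τ (by
      intro n
      simp only [τ]
      split_ifs
      · exact ⟨x, rfl⟩
      · exact ⟨y, rfl⟩
      · exact ⟨n, rfl⟩) g3
    rw [hτ, EQv_size] at h4
    have h5 := OccL.of_has h4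
    have s0 := h₀ [A, var x, var y] (20 * s) (by omega) (by
      intro Z hZ; simp at hZ; rcases hZ with rfl | rfl | rfl
      · omega
      · simp [size]; omega
      · simp [size]; omega) ({B | B ∈ [EQv x y X.length A]}) (by simp)
    have s1 := hd x y X.length (20 * s) A A ({B | B ∈ [EQv x y X.length A]} ∪
        {B | B ∈ [(imp (var 0) (or (iff (var 1) (var 2)) (var 0))).subst
          (asg [A, var x, var y])]}) (by rw [EQv_size]; omega) (by left; simp)
      (by right; simp [subst, asg, iff])
    refine ((h5.ded (s0.cut s1) (fun B hB => hB)).sub (by simp)).le ?_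
    have q1 : A.size + 8 * X.length ≤ 9 * s := by omega
    gcongr
  have all := OccL.many (fun y => or (iff (var x) (var y)) A) _ A.vars.toList key
  have hlen : A.vars.toList.length ≤ s := by
    rw [Finset.length_toList]; exact (vars_card_le A).trans hAs
  set G := A.vars.toList.map fun y => or (iff (var x) (var y)) A with hG
  have d1 : Ded F {B | B ∈ G} (A.vars.toList.map fun y =>
      imp (and (var x) (neg A)) (iff (var y) tt)) (s * (c₁ * (20 * s))) := by
    refine (Ded.many _ (c₁ * (20 * s)) _ ?_).le (Nat.mul_le_mul_right _ hlen)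
    intro y hy
    have := h₁ [var x, var y, A, var 0] (20 * s) (by omega) (by
      intro Z hZ; simp at hZ; rcases hZ with rfl | rfl | rfl | rfl <;> first | omega | (simp only [size]; omega))
      {B | B ∈ G} (by
      intro Z hZ; simp only [List.mem_singleton] at hZ; subst hZ
      show _ ∈ G
      exact List.mem_map.2 ⟨y, hy, by simp [subst, asg, iff]⟩)
    exact this.sub (by simp [subst, asg, iff, tt])
  have d2 : Ded F {B | B ∈ G} (A.vars.toList.map fun y =>
      imp (and (neg (var x)) (neg A)) (iff (var y) ff)) (s * (c₂ * (20 * s))) := by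
    refine (Ded.many _ (c₂ * (20 * s)) _ ?_).le (Nat.mul_le_mul_right _ hlen)
    intro y hy
    have := h₂ [var x, var y, A, var 0] (20 * s) (by omega) (by
      intro Z hZ; simp at hZ; rcases hZ with rfl | rfl | rfl | rfl <;> first | omega | (simp only [size]; omega))
      {B | B ∈ G} (by
      intro Z hZ; simp only [List.mem_singleton] at hZ; subst hZ
      show _ ∈ G
      exact List.mem_map.2 ⟨y, hy, by simp [subst, asg, iff]⟩)
    exact this.sub (by simp [subst, asg, iff, ff])
  -- soundness
  have hval : ∀ P : Prop, A.eval (fun _ => P) := by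
    intro P
    obtain ⟨L, k1, k2⟩ := g3
    have k3 := k1.sound hF _ (by simp : EQ (fun n => K + n) X A ∈ _ :: L)
      (fun n => if n < K then P else ¬ P)
    have k4 := EQ_eval (fun n => K + n) (fun n => if n < K then P else ¬ P) X (by
      intro z hz
      have := hKX z hz
      have h' : ¬ (K + z.1 < K) := by omega
      simp only [if_pos this, if_neg h']
      tauto) _ k3
    refine (eval_congr ?_).1 k4
    intro n hn
    simp only [if_pos (hKA n hn)]
  have d3 := hg (var x) tt A (20 * s) ({B | B ∈ G} ∪ {B | B ∈ (A.vars.toList.map fun y =>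
      imp (and (var x) (neg A)) (iff (var y) tt)) ++ (A.vars.toList.map fun y =>
      imp (and (neg (var x)) (neg A)) (iff (var y) ff))}) (Or.inl rfl)
    (by simp only [size]; omega) (hval _) (by
    intro y hy
    right
    exact List.mem_append_left _ (List.mem_map.2 ⟨y, by simpa using hy, rfl⟩))
  have d4 := hg (neg (var x)) ff A (20 * s) ({B | B ∈ G} ∪ {B | B ∈ (A.vars.toList.map fun y =>
      imp (and (var x) (neg A)) (iff (var y) tt)) ++ (A.vars.toList.map fun y =>
      imp (and (neg (var x)) (neg A)) (iff (var y) ff))}) (Or.inr rfl)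
    (by simp only [size]; omega) (hval _) (by
    intro y hy
    right
    exact List.mem_append_right _ (List.mem_map.2 ⟨y, by simpa using hy, rfl⟩))
  have d5 := h₃ [var x, A] (20 * s) (by omega) (by
      intro Z hZ; simp at hZ; rcases hZ with rfl | rfl <;> first | omega | (simp only [size]; omega))
      (({B | B ∈ G} ∪ {B | B ∈ (A.vars.toList.map fun y =>
      imp (and (var x) (neg A)) (iff (var y) tt)) ++ (A.vars.toList.map fun y =>
      imp (and (neg (var x)) (neg A)) (iff (var y) ff))}) ∪
        {B | B ∈ [imp (var x) A] ++ [imp (neg (var x)) A]}) (by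
      intro Z hZ; simp only [List.mem_cons, List.not_mem_nil, or_false] at hZ
      rcases hZ with rfl | rfl <;> right <;> simp [subst, asg])
  have fin := (d1.append d2).cut ((d3.append d4).cut d5)
  refine (((all.ded fin (fun B hB => hB)).sub (by simp [subst, asg])).le ?_).has
  refine le_trans ?_ (he s)
  have w1 : A.vars.toList.length * (((b * s ^ 3 + 9 * s) ^ a + a) + (c₀ * (20 * s) +
      d * (20 * s) * (s + 1))) ≤ s * (((b * s ^ 3 + 9 * s) ^ a + a) + (c₀ * (20 * s) +
      d * (20 * s) * (s + 1))) := Nat.mul_le_mul_right _ hlen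
  omega

/-- Frege + permutation is closed under substitutions if it simulates extended Frege. -/
theorem closed_of_sim (F : List Rule) (hF : IsFrege F)
    (h : Simulates (Has F PermRule) (HasEF F)) : ClosedUnder (Has F PermRule) AllSubst := by
  obtain ⟨a, ha⟩ := h
  obtain ⟨c, hc⟩ := ef_sim_perm F hF
  have hpb : PB fun s => (c * s ^ 4 * s) ^ a + a :=
    (PB.inn a).comp (((PB.const c).mul (PB.id.pow 4)).mul PB.id)
  obtain ⟨e, he⟩ := hpb.out
  refine ⟨e, fun A s σ _ hA => ?_⟩
  have h1 := ef_subst F A σ _ (hc A s hA)
  refine (ha _ _ (h1.mono ?_)).mono (he (s + (A.subst σ).size))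
  gcongr <;> omega

theorem ClosedUnder.anti {S : Fm → ℕ → Prop} {T T' : Set (ℕ → Fm)} (h : ClosedUnder S T)
    (hT : T' ⊆ T) : ClosedUnder S T' := by
  obtain ⟨c, hc⟩ := h
  exact ⟨c, fun A s σ hσ hA => hc A s σ (hT hσ) hA⟩

/-- Frege + permutation simulates extended Frege iff it is closed under substitutions -/
theorem closure_tfae (F : List Rule) (hF : IsFrege F) :
    List.TFAE [Simulates (Has F PermRule) (HasEF F),
      ClosedUnder (Has F PermRule) AllSubst,
      ClosedUnder (Has F PermRule) VarSubst,
      ClosedUnder (Has F PermRule) ConstSubst] := by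
  tfae_have 1 → 2 := closed_of_sim F hF
  tfae_have 2 → 3 := fun h => h.anti (Set.subset_univ _)
  tfae_have 2 → 4 := fun h => h.anti (Set.subset_univ _)
  tfae_have 3 → 1 := var_imp F hF
  tfae_have 4 → 1 := const_imp F hF
  tfae_finish

end Pool.Agent.V8H46.FP
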