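import Pool.Agent.V8H46.FP.Ded

/-!
# From extended Frege proofs to Frege proofs from hypotheses, and the elimination of the
# extension variables by swaps
-/

set_option autoImplicit false

namespace Pool.Agent.V8H46.FP

open Pool.Agent.H555R2.PF Pool.Agent.H555R2.PF.Fm

/-! ### proofs containing a list of formulas -/

/-- all formulas of `G` occur in one proof of size at most `s` -/
def OccL (F : List Rule) (X : Fm → Fm → Prop) (G : List Fm) (s : ℕ) : Prop :=
  ∃ L, Pr F X L ∧ (∀ B ∈ G, B ∈ L) ∧ psize L ≤ s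

namespace OccL

variable {F : List Rule} {X : Fm → Fm → Prop} {G G' : List Fm} {s s' m : ℕ}

theorem nil : OccL F X [] 0 := ⟨[], Pr.nil, by simp, by simp [psize]⟩

theorem sub (h : OccL F X G s) (hG : ∀ B ∈ G', B ∈ G) : OccL F X G' s := by
  obtain ⟨L, h1, h2, h3⟩ := h
  exact ⟨L, h1, fun B hB => h2 B (hG B hB), h3⟩

theorem le (h : OccL F X G s) (hs : s ≤ s') : OccL F X G s' := by
  obtain ⟨L, h1, h2, h3⟩ := h
  exact ⟨L, h1, h2, h3.trans hs⟩

theorem ded (h : OccL F X G s) {Γ : Set Fm} (hd : Ded F Γ G' m) (hΓ : ∀ B ∈ Γ, B ∈ G) :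
    OccL F X (G' ++ G) (s + m) := by
  obtain ⟨L, h1, h2, h3⟩ := h
  obtain ⟨D, h4, h5, h6⟩ := hd L (fun B hB => h2 B (hΓ B hB))
  refine ⟨D ++ L, h1.ext h4, ?_, by rw [psize_append]; omega⟩
  intro B hB
  rcases List.mem_append.1 hB with hB | hB
  · exact h5 B hB
  · exact List.mem_append_right _ (h2 B hB)

theorem rule (h : OccL F X G s) {A B : Fm} (hA : A ∈ G) (hX : X A B) :
    OccL F X (B :: G) (s + B.size) := by
  obtain ⟨L, h1, h2, h3⟩ := h
  refine ⟨B :: L, Pr.rule h1 (h2 A hA) hX, ?_, by rw [psize_cons]; omega⟩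
  intro C hC
  rcases List.mem_cons.1 hC with rfl | hC
  · simp
  · exact List.mem_cons_of_mem _ (h2 C hC)

theorem append (h : OccL F X G s) (h' : OccL F X G' s') : OccL F X (G ++ G') (s + s') := by
  obtain ⟨L, h1, h2, h3⟩ := h
  obtain ⟨L', h1', h2', h3'⟩ := h'
  refine ⟨L ++ L', h1'.append h1, ?_, by rw [psize_append]; omega⟩
  intro B hB
  rcases List.mem_append.1 hB with hB | hB
  · exact List.mem_append_left _ (h2 B hB)
  · exact List.mem_append_right _ (h2' B hB)

theorem has {A : Fm} (h : OccL F X [A] s) : Has F X A s := by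
  obtain ⟨L, h1, h2, h3⟩ := h
  exact Occ.has ⟨L, h1, h2 A (by simp), h3⟩

theorem of_has {A : Fm} (h : Has F X A s) : OccL F X [A] s := by
  obtain ⟨L, h1, h2⟩ := h
  exact ⟨A :: L, h1, by simp, h2⟩

theorem many {ι : Type} (f : ι → Fm) (k : ℕ) : ∀ (l : List ι), (∀ i ∈ l, OccL F X [f i] k) →
    OccL F X (l.map f) (l.length * k) := by
  intro l
  induction l with
  | nil => intro _; simpa using (nil : OccL F X [] 0)
  | cons i l ih =>
    intro h
    have h1 := h i (by simp)
    have h2 := ih fun j hj => h j (by simp [hj])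
    refine ((h1.append h2).sub (by simp)).le ?_
    simp only [List.length_cons]
    nlinarith

end OccL

theorem exists_uniform {α : Type} (P : α → ℕ → Prop) (hP : ∀ a c c', c ≤ c' → P a c → P a c') :
    ∀ l : List α, (∀ a ∈ l, ∃ c, P a c) → ∃ c, ∀ a ∈ l, P a c := by
  intro l
  induction l with
  | nil => intro _; exact ⟨0, by simp⟩
  | cons a l ih =>
    intro h
    obtain ⟨c, hc⟩ := h a (by simp)
    obtain ⟨d, hd⟩ := ih fun b hb => h b (by simp [hb])
    refine ⟨c + d, fun b hb => ?_⟩
    rcases List.mem_cons.1 hb with rfl | hb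
    · exact hP _ _ _ (by omega) hc
    · exact hP _ _ _ (by omega) (hd b hb)

/-! ### Frege steps under a hypothesis -/

/-- lifting a Frege step under a hypothesis -/
theorem lift (F : List Rule) (hF : IsFrege F) : ∃ c : ℕ, ∀ (H B : Fm) (L : List Fm) (M : ℕ),
    FregeStep F L B → H.size ≤ M → B.size ≤ M → (∀ A ∈ L, A.size ≤ M) → ∀ Γ : Set Fm,
    (∀ A ∈ L, imp H A ∈ Γ) → Ded F Γ [imp H B] (c * M) := by
  have key : ∀ r ∈ F, ∃ c : ℕ, ∀ (H : Fm) (σ : ℕ → Fm) (M : ℕ), H.size ≤ M →
      (r.concl.subst σ).size ≤ M → (∀ p ∈ r.prem, (p.subst σ).size ≤ M) → ∀ Γ : Set Fm,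
      (∀ p ∈ r.prem, imp H (p.subst σ) ∈ Γ) → Ded F Γ [imp H (r.concl.subst σ)] (c * M) := by
    intro r hr
    have hent : Entails (r.prem.map fun p => imp (var 0) (p.subst fun n => var (n + 1)))
        (imp (var 0) (r.concl.subst fun n => var (n + 1))) := by
      intro v h
      simp only [List.mem_map, forall_exists_index, and_imp, forall_apply_eq_imp_iff₂] at h
      simp only [eval, eval_subst] at h ⊢
      intro h0
      exact hF.1 r hr _ (fun p hp => h p hp h0)
    obtain ⟨c, hc⟩ := schemaS hF _ _ hent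
    refine ⟨c, fun H σ M hH hC hP Γ hΓ => ?_⟩
    have hM : 1 ≤ M := (size_pos H).trans hH
    let τ : ℕ → Fm := fun n => match n with
      | 0 => H
      | n + 1 => σ n
    have e : ∀ A : Fm, (A.subst fun n => var (n + 1)).subst τ = A.subst σ := by
      intro A
      rw [subst_subst]
      rfl
    have hv : ∀ A : Fm, ∀ n ∈ (A.subst fun n => var (n + 1)).vars, ∃ m ∈ A.vars, n = m + 1 := by
      intro A n hn
      have := vars_rename (fun n => n + 1) A
      rw [rename] at this
      rw [this] at hn
      simp only [Finset.mem_image] at hn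
      obtain ⟨m, hm, rfl⟩ := hn
      exact ⟨m, hm, rfl⟩
    have h := hc τ M hM ?_ Γ ?_
    · simpa [subst, e, τ] using h
    · rintro n ⟨A, hA, hn⟩
      rcases List.mem_cons.1 hA with rfl | hA
      · simp only [vars, Finset.mem_union, Finset.mem_singleton] at hn
        rcases hn with rfl | hn
        · exact hH
        · obtain ⟨m, hm, rfl⟩ := hv _ _ hn
          exact (size_le_subst (σ := σ) hm).trans hC
      · obtain ⟨p, hp, rfl⟩ := List.mem_map.1 hA
        simp only [vars, Finset.mem_union, Finset.mem_singleton] at hn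
        rcases hn with rfl | hn
        · exact hH
        · obtain ⟨m, hm, rfl⟩ := hv _ _ hn
          exact (size_le_subst (σ := σ) hm).trans (hP p hp)
    · intro A hA
      obtain ⟨p, hp, rfl⟩ := List.mem_map.1 hA
      simpa [subst, e, τ] using hΓ p hp
  obtain ⟨c, hc⟩ := exists_uniform _ (fun r c c' hcc h H σ M h1 h2 h3 Γ h4 =>
    (h H σ M h1 h2 h3 Γ h4).le (Nat.mul_le_mul_right M hcc)) F key
  refine ⟨c, fun H B L M hs hH hB hL Γ hΓ => ?_⟩
  obtain ⟨r, hr, σ, rfl, h2⟩ := hs
  exact hc r hr H σ M hH hB (fun p hp => hL _ (h2 p hp)) Γ (fun p hp => hΓ _ (h2 p hp))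

/-! ### the extension axioms of an extended Frege proof -/

/-- the extension axiom `q ↔ φ` -/
def extF (x : ℕ × Fm) : Fm := iff (var x.1) x.2

/-- the conjunction of the extension axioms (with a last conjunct `A → A`) -/
def hyp (A : Fm) : List (ℕ × Fm) → Fm
  | [] => imp A A
  | x :: X => and (extF x) (hyp A X)

/-- every variable is new with respect to the formula `A` and the axioms which follow in the
list -/
def Fresh (A : Fm) : List (ℕ × Fm) → Prop
  | [] => True
  | x :: X => x.1 ∉ x.2.vars ∧ x.1 ∉ A.vars ∧ (∀ y ∈ X, x.1 ≠ y.1 ∧ x.1 ∉ y.2.vars) ∧ Fresh A X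

/-- total size of the extension axioms -/
def xsize (X : List (ℕ × Fm)) : ℕ := (X.map fun x => (extF x).size).sum

theorem xsize_cons (x : ℕ × Fm) (X : List (ℕ × Fm)) : xsize (x :: X) = (extF x).size + xsize X := by
  simp [xsize]

theorem length_le_xsize (X : List (ℕ × Fm)) : X.length ≤ xsize X := by
  induction X with
  | nil => simp
  | cons x X ih =>
    rw [xsize_cons]
    have := size_pos (extF x)
    simp only [List.length_cons]
    omega

theorem hyp_size (A : Fm) (X : List (ℕ × Fm)) : (hyp A X).size ≤ 2 * A.size + 1 + 2 * xsize X := by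
  induction X with
  | nil => simp [hyp, size]; omega
  | cons x X ih =>
    simp only [hyp, size, xsize_cons]
    have := size_pos (extF x)
    omega

theorem ef_ded (F : List Rule) (hF : IsFrege F) : ∃ c : ℕ, ∀ (A : Fm) (k : ℕ) (L : List Fm),
    EFProof F A k L → ∃ X : List (ℕ × Fm), X.length = k ∧ Fresh A X ∧ (∀ x ∈ X, extF x ∈ L) ∧
      xsize X ≤ psize L ∧ ∀ (H : Fm) (M m : ℕ) (Γ : Set Fm), H.size ≤ M → (∀ B ∈ L, B.size ≤ M) →
        (∀ x ∈ X, Ded F Γ [imp H (extF x)] m) →
        Ded F Γ (L.map (imp H)) (L.length * (c * M + m)) := by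
  obtain ⟨c, hc⟩ := lift F hF
  refine ⟨c, fun A k L hL => ?_⟩
  induction hL with
  | nil =>
    refine ⟨[], rfl, trivial, by simp, by simp [xsize], fun H M m Γ _ _ _ => ?_⟩
    simpa using (Ded.nil : Ded F Γ [] 0)
  | @rule k L B hL hB ih =>
    obtain ⟨X, h1, h2, h3, h4, h5⟩ := ih
    refine ⟨X, h1, h2, fun x hx => List.mem_cons_of_mem _ (h3 x hx), ?_, ?_⟩
    · rw [psize_cons]; omega
    · intro H M m Γ hH hM hX
      have r := h5 H M m Γ hH (fun C hC => hM C (List.mem_cons_of_mem _ hC)) hX
      have s := hc H B L M hB hH (hM B (by simp))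
        (fun C hC => hM C (List.mem_cons_of_mem _ hC)) (Γ ∪ {C | C ∈ L.map (imp H)}) (by
        intro C hC
        right
        exact List.mem_map.2 ⟨C, hC, rfl⟩)
      refine ((r.cut' s).sub (by
        intro C hC
        simp only [List.map_cons, List.mem_cons] at hC
        rcases hC with rfl | hC
        · simp
        · exact List.mem_append_left _ hC)).le ?_
      simp only [List.length_cons]
      nlinarith
  | @ext k L q φ hL hq hqL hqA ih =>
    obtain ⟨X, h1, h2, h3, h4, h5⟩ := ih
    refine ⟨(q, φ) :: X, by simp [h1], ⟨hq, hqA, ?_, h2⟩, ?_, ?_, ?_⟩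
    · intro y hy
      have := hqL _ (h3 y hy)
      simp only [extF, iff, vars, Finset.mem_union, Finset.mem_singleton] at this
      push Not at this
      exact ⟨this.1.1, this.1.2⟩
    · intro x hx
      rcases List.mem_cons.1 hx with rfl | hx
      · simp [extF]
      · exact List.mem_cons_of_mem _ (h3 x hx)
    · rw [psize_cons, xsize_cons]
      simp only [extF]
      omega
    · intro H M m Γ hH hM hX
      have r := h5 H M m Γ hH (fun C hC => hM C (List.mem_cons_of_mem _ hC))
        (fun x hx => hX x (List.mem_cons_of_mem _ hx))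
      have s := hX (q, φ) (by simp)
      refine ((s.append r).sub (by simp [extF])).le ?_
      simp only [List.length_cons]
      nlinarith

theorem hyp_ded (F : List Rule) (hF : IsFrege F) : ∃ c : ℕ, ∀ (A : Fm) (X : List (ℕ × Fm)) (M : ℕ)
    (Γ : Set Fm), (hyp A X).size ≤ M → ∀ x ∈ X,
      Ded F Γ [imp (hyp A X) (extF x)] (c * M * X.length) := by
  obtain ⟨c₁, h₁⟩ := schemaD hF [] (imp (and (var 0) (var 1)) (var 0)) (by
    intro v _; simp [eval]; tauto)
  obtain ⟨c₂, h₂⟩ := schemaD hF [imp (var 1) (var 2)] (imp (and (var 0) (var 1)) (var 2)) (by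
    intro v h; simp [eval] at h ⊢; tauto)
  refine ⟨c₁ + c₂, fun A X => ?_⟩
  induction X with
  | nil => intro M Γ _ x hx; simp at hx
  | cons y X ih =>
    intro M Γ hM x hx
    have hM1 : 1 ≤ M := (size_pos _).trans hM
    simp only [hyp, size] at hM
    rcases List.mem_cons.1 hx with rfl | hx
    · have s := h₁ [extF x, hyp A X] M hM1 (by
        intro Z hZ; simp at hZ; rcases hZ with rfl | rfl
        · omega
        · omega) Γ (by simp)
      refine (s.sub (by simp [subst, asg, hyp])).le ?_
      simp only [List.length_cons]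
      nlinarith [Nat.zero_le (c₁ * M * X.length), Nat.zero_le (c₂ * M * X.length),
        Nat.zero_le (c₂ * M)]
    · have hxs : (extF x).size ≤ M := by
        have h1 : ∀ X : List (ℕ × Fm), x ∈ X → (extF x).size ≤ (hyp A X).size := by
          intro X
          induction X with
          | nil => intro h; simp at h
          | cons z X ih =>
            intro h
            simp only [hyp, size]
            rcases List.mem_cons.1 h with rfl | h
            · omega
            · have := ih h; omega
        have := h1 X hx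
        omega
      have r := ih M Γ (by omega) x hx
      have s := h₂ [extF y, hyp A X, extF x] M hM1 (by
        intro Z hZ; simp at hZ; rcases hZ with rfl | rfl | rfl
        · omega
        · omega
        · exact hxs) (Γ ∪ {B | B ∈ [imp (hyp A X) (extF x)]}) (by
        intro Z hZ; simp only [List.mem_singleton] at hZ; subst hZ; right
        simp [subst, asg])
      refine ((r.cut s).sub (by simp [subst, asg, hyp])).le ?_
      simp only [List.length_cons]
      nlinarith [Nat.zero_le (c₁ * M * X.length), Nat.zero_le (c₂ * M * X.length),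
        Nat.zero_le (c₁ * M)]

/-- An extended Frege proof of `A` gives a Frege proof of `E₁ ∧ … ∧ E_k → A`. -/
theorem ef_imp (F : List Rule) (hF : IsFrege F) : ∃ c : ℕ, ∀ (A : Fm) (k : ℕ) (L : List Fm),
    EFProof F A k L → A ∈ L → ∃ X : List (ℕ × Fm), X.length = k ∧ Fresh A X ∧
      xsize X ≤ psize L ∧ Ded F ∅ [imp (hyp A X) A] (c * (psize L) ^ 3) := by
  obtain ⟨c, hc⟩ := ef_ded F hF
  obtain ⟨d, hd⟩ := hyp_ded F hF
  refine ⟨5 * c + 5 * d, fun A k L hL hA => ?_⟩
  obtain ⟨X, h1, h2, h3, h4, h5⟩ := hc A k L hL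
  refine ⟨X, h1, h2, h4, ?_⟩
  have hAs : A.size ≤ psize L := size_le_psize hA
  have hS : 1 ≤ psize L := (size_pos A).trans hAs
  have hHs : (hyp A X).size ≤ 5 * psize L := (hyp_size A X).trans (by omega)
  have r := h5 (hyp A X) (5 * psize L) (d * (5 * psize L) * X.length) ∅ hHs
    (fun B hB => (size_le_psize hB).trans (by omega))
    (fun x hx => hd A X _ ∅ hHs x hx)
  refine (r.sub (by
    intro B hB
    simp only [List.mem_singleton] at hB
    subst hB
    exact List.mem_map.2 ⟨A, hA, rfl⟩)).le ?_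
  have e1 : L.length ≤ psize L := length_le_psize L
  have e2 : X.length ≤ psize L := (length_le_xsize X).trans h4
  calc L.length * (c * (5 * psize L) + d * (5 * psize L) * X.length)
      ≤ psize L * (c * (5 * psize L) + d * (5 * psize L) * psize L) := by gcongr
    _ = 5 * c * psize L ^ 2 + 5 * d * psize L ^ 3 := by ring
    _ ≤ 5 * c * psize L ^ 3 + 5 * d * psize L ^ 3 := by
        have : psize L ^ 2 ≤ psize L ^ 3 := Nat.pow_le_pow_right hS (by norm_num)
        nlinarith
    _ = _ := by ring

/-! ### elimination of the extension variables -/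

/-- `(q₁ ↔ q₁') ∨ (… ((q_k ↔ q_k') ∨ G))` where `q ↦ q'` is the function `pr` -/
def EQ (pr : ℕ → ℕ) : List (ℕ × Fm) → Fm → Fm
  | [], G => G
  | x :: X, G => EQ pr X (or (iff (var x.1) (var (pr x.1))) G)

theorem EQ_size (pr : ℕ → ℕ) (X : List (ℕ × Fm)) : ∀ G, (EQ pr X G).size = G.size + 8 * X.length := by
  induction X with
  | nil => intro G; simp [EQ]
  | cons x X ih => intro G; simp only [EQ, ih, size, iff, List.length_cons]; omega

/-- the conditions on the partner function -/
def Good (pr : ℕ → ℕ) (A : Fm) (X : List (ℕ × Fm)) (G : Fm) : Prop :=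
  (∀ x ∈ X, x.1 ∉ G.vars ∧ pr x.1 ∉ G.vars ∧ pr x.1 ∉ A.vars ∧
    ∀ y ∈ X, pr x.1 ≠ y.1 ∧ pr x.1 ∉ y.2.vars ∧ (x.1 ≠ y.1 → pr x.1 ≠ pr y.1))

theorem rename_swap_eq {a b : ℕ} {A : Fm} (ha : a ∉ A.vars) (hb : b ∉ A.vars) :
    A.rename (Equiv.swap a b) = A := by
  apply rename_eq_self
  intro n hn
  apply Equiv.swap_apply_of_ne_of_ne
  · rintro rfl; exact ha hn
  · rintro rfl; exact hb hn

theorem hyp_vars (A : Fm) (X : List (ℕ × Fm)) (n : ℕ) : n ∈ (hyp A X).vars ↔
    n ∈ A.vars ∨ ∃ x ∈ X, n = x.1 ∨ n ∈ x.2.vars := by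
  induction X with
  | nil => simp [hyp, vars]
  | cons x X ih =>
    simp only [hyp, vars, extF, iff, Finset.mem_union, Finset.mem_singleton, ih, List.mem_cons,
      exists_eq_or_imp]
    generalize (∃ x ∈ X, n = x.1 ∨ n ∈ x.2.vars) = P
    tauto

theorem elim (F : List Rule) (hF : IsFrege F) : ∃ c : ℕ, ∀ (Y : Fm → Fm → Prop) (pr : ℕ → ℕ)
    (A : Fm) (X : List (ℕ × Fm)) (G : Fm) (M s : ℕ),
    (∀ x ∈ X, ∀ B : Fm, x.1 ∈ B.vars → pr x.1 ∈ B.vars →
      Y B (B.rename (Equiv.swap x.1 (pr x.1)))) →
    Fresh A X → Good pr A X G → (hyp A X).size + G.size + 8 * X.length + 10 ≤ M →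
    OccL F Y [imp (hyp A X) G] s → OccL F Y [EQ pr X G] (s + c * M * (X.length + 1)) := by
  obtain ⟨c₀, h₀⟩ := schemaD hF [imp (imp (var 0) (var 0)) (var 1)] (var 1) (by
    intro v h; simp [eval] at h ⊢; tauto)
  obtain ⟨c₁, h₁⟩ := schemaD hF [var 0] (and (var 0) (imp (var 1) (var 1))) (by
    intro v h; simp [eval] at h ⊢; tauto)
  obtain ⟨c₂, h₂⟩ := schemaD hF [and (var 0) (var 1)] (var 0) (by
    intro v h; simp [eval] at h ⊢; tauto)
  obtain ⟨c₃, h₃⟩ := schemaD hF [imp (and (iff (var 0) (var 2)) (var 3)) (var 4),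
    imp (and (iff (var 1) (var 2)) (var 3)) (var 4)]
    (imp (var 3) (or (iff (var 0) (var 1)) (var 4))) (by
    intro v h; simp [eval, iff] at h ⊢; tauto)
  refine ⟨c₀ + c₁ + c₂ + c₃ + 2, fun Y pr A X => ?_⟩
  induction X with
  | nil =>
    intro G M s _ _ _ hM h
    simp only [EQ, List.length_nil, hyp, size] at hM h ⊢
    have s := h₀ [A, G] M (by omega) (by
      intro Z hZ; simp at hZ; rcases hZ with rfl | rfl <;> omega)
      ({B | B ∈ [imp (imp A A) G]}) (by
      intro Z hZ; simp only [List.mem_singleton] at hZ; subst hZ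
      simp [subst, asg])
    refine ((h.ded s (fun B hB => hB)).sub (by simp [subst, asg])).le ?_
    nlinarith [Nat.zero_le ((c₁ + c₂ + c₃ + 2) * M)]
  | cons x X ih =>
    intro G M s hY hFr hG hM h
    obtain ⟨q, φ⟩ := x
    obtain ⟨f1, f2, f3, f4⟩ := hFr
    simp only at f1 f2 f3
    have hg := hG (q, φ) (by simp)
    obtain ⟨g1, g2, g3, g4⟩ := hg
    simp only at g1 g2 g3 g4
    set r := pr q with hr
    have g5 := g4 (q, φ) (by simp)
    simp only at g5
    simp only [hyp, size, List.length_cons, extF, iff] at hM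
    simp only [hyp, extF] at h
    -- the formula with the partner
    set B : Fm := imp (and (iff (var q) φ) (hyp A X)) G with hB
    set C : Fm := imp (and (iff (var r) φ) (hyp A X)) G with hC
    have hqH : q ∉ (hyp A X).vars := by
      rw [hyp_vars]
      rintro (h | ⟨y, hy, h⟩)
      · exact f2 h
      · rcases h with h | h
        · exact (f3 y hy).1 h
        · exact (f3 y hy).2 h
    have hrH : r ∉ (hyp A X).vars := by
      rw [hyp_vars]
      rintro (h | ⟨y, hy, h⟩)
      · exact g3 h
      · have := g4 y (by simp [hy])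
        rcases h with h | h
        · exact this.1 h
        · exact this.2.1 h
    have hren : (and B (imp (var r) (var r))).rename (Equiv.swap q r) =
        and C (imp (var q) (var q)) := by
      have e1 := rename_swap_eq f1 g5.2.1
      have e2 := rename_swap_eq hqH hrH
      have e3 := rename_swap_eq g1 g2
      simp only [rename] at e1 e2 e3
      simp only [hB, hC, rename, subst, iff, e1, e2, e3, Equiv.swap_apply_left,
        Equiv.swap_apply_right]
    have hBs : B.size + 10 ≤ M := by
      simp only [hB, size, iff]; omega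
    have hCs : C.size + 10 ≤ M := by
      simp only [hC, size, iff]; omega
    have s1 := h₁ [B, var r] M (by omega) (by
      intro Z hZ; simp at hZ; rcases hZ with rfl | rfl
      · omega
      · simp [size]; omega) ({Z | Z ∈ [B]}) (by
      intro Z hZ; simp only [List.mem_singleton] at hZ; subst hZ; simp [subst, asg])
    have t1 : OccL F Y [and B (imp (var r) (var r)), B] (s + c₁ * M) :=
      (h.ded s1 (fun Z hZ => hZ)).sub (by simp [subst, asg])
    have t2 := t1.rule (A := and B (imp (var r) (var r)))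
      (B := and C (imp (var q) (var q))) (by simp) (by
      rw [← hren]
      apply hY (q, φ) (by simp)
      · simp [hB, vars, iff]
      · simp [vars, hr])
    have s2 := h₂ [C, imp (var q) (var q)] M (by omega) (by
      intro Z hZ; simp at hZ; rcases hZ with rfl | rfl
      · omega
      · simp [size]; omega) ({Z | Z ∈ [and C (imp (var q) (var q))]}) (by
      intro Z hZ; simp only [List.mem_singleton] at hZ; subst hZ; simp [subst, asg])
    have t3 : OccL F Y [C, B] (s + c₁ * M + (and C (imp (var q) (var q))).size + c₂ * M) :=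
      (t2.ded s2 (by intro Z hZ; simp at hZ; simp [hZ])).sub (by simp [subst, asg])
    have s3 := h₃ [var q, var r, φ, hyp A X, G] M (by omega) (by
      intro Z hZ; simp at hZ; rcases hZ with rfl | rfl | rfl | rfl | rfl
      · simp [size]; omega
      · simp [size]; omega
      · omega
      · omega
      · omega) ({Z | Z ∈ [C, B]}) (by
      intro Z hZ; simp only [List.mem_cons, List.not_mem_nil, or_false] at hZ
      rcases hZ with rfl | rfl
      · simp [subst, asg, iff, hB]
      · simp [subst, asg, iff, hC])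
    have t4 : OccL F Y [imp (hyp A X) (or (iff (var q) (var r)) G)]
        (s + c₁ * M + (and C (imp (var q) (var q))).size + c₂ * M + c₃ * M) :=
      (t3.ded s3 (fun Z hZ => hZ)).sub (by simp [subst, asg, iff])
    have hGood : Good pr A X (or (iff (var q) (var r)) G) := by
      intro y hy
      obtain ⟨k1, k2, k3, k4⟩ := hG y (by simp [hy])
      have k5 := f3 y hy
      have k6 := g4 y (by simp [hy])
      have k7 := k4 (q, φ) (by simp)
      simp only at k5 k6 k7
      refine ⟨?_, ?_, k3, fun z hz => k4 z (by simp [hz])⟩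
      · simp only [vars, iff, Finset.mem_union, Finset.mem_singleton]
        push Not
        refine ⟨⟨⟨fun h => k5.1 h.symm, fun h => k6.1 h.symm⟩,
          fun h => k6.1 h.symm, fun h => k5.1 h.symm⟩, k1⟩
      · simp only [vars, iff, Finset.mem_union, Finset.mem_singleton]
        push Not
        have k8 : pr y.1 ≠ r := fun h => k6.2.2 k5.1 h.symm
        exact ⟨⟨⟨k7.1, k8⟩, k8, k7.1⟩, k2⟩
    have t5 := ih (or (iff (var q) (var r)) G) M _ (fun y hy => hY y (by simp [hy])) f4 hGood (by
      simp only [size, iff]; omega) t4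
    simp only [EQ]
    refine t5.le ?_
    have hCs2 : (and C (imp (var q) (var q))).size ≤ M := by
      simp only [size]; omega
    simp only [List.length_cons]
    have : (c₀ + c₁ + c₂ + c₃ + 2) * M * (X.length + 1 + 1) =
      (c₀ + c₁ + c₂ + c₃ + 2) * M * (X.length + 1) + (c₀ + c₁ + c₂ + c₃ + 2) * M := by ring
    rw [this]
    nlinarith [Nat.zero_le (c₀ * M)]

end Pool.Agent.V8H46.FP
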