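import Pool.Agent.V8H46.FP.Defs

/-!
# Extending lists of formulas by Frege derivations

`FrExt F L D`: the formulas of `D` (last one first) follow one after another from `L` by the rules
of `F`. `Ded F Γ G m`: every list containing `Γ` can be extended by Frege steps to a list
containing `G`, adding at most `m` symbols.
-/

set_option autoImplicit false

namespace Pool.Agent.V8H46.FP

open Pool.Agent.H555R2.PF Pool.Agent.H555R2.PF.Fm

/-- Frege derivations from the formulas in `L`. -/
inductive FrExt (F : List Rule) (L : List Fm) : List Fm → Prop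
  | nil : FrExt F L []
  | step {D : List Fm} {B : Fm} : FrExt F L D → FregeStep F (D ++ L) B → FrExt F L (B :: D)

theorem FrExt.trans {F : List Rule} {L D D' : List Fm} (h : FrExt F L D)
    (h' : FrExt F (D ++ L) D') : FrExt F L (D' ++ D) := by
  induction h' with
  | nil => exact h
  | step _ hB ih => exact FrExt.step ih (by simpa [List.append_assoc] using hB)

theorem FrExt.mono {F : List Rule} {L L' D : List Fm} (h : FrExt F L D)
    (hL : ∀ A ∈ L, A ∈ L') : FrExt F L' D := by
  induction h with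
  | nil => exact FrExt.nil
  | step _ hB ih =>
    refine FrExt.step ih (hB.mono ?_)
    intro A hA
    rcases List.mem_append.1 hA with hA | hA
    · exact List.mem_append_left _ hA
    · exact List.mem_append_right _ (hL A hA)

theorem FregeStep.map {F : List Rule} {L : List Fm} {B : Fm} (h : FregeStep F L B) (σ : ℕ → Fm) :
    FregeStep F (L.map (Fm.subst σ)) (B.subst σ) := by
  obtain ⟨r, hr, τ, h1, h2⟩ := h
  refine ⟨r, hr, fun n => (τ n).subst σ, by rw [h1, Fm.subst_subst], ?_⟩
  intro p hp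
  rw [← Fm.subst_subst]
  exact List.mem_map.2 ⟨_, h2 p hp, rfl⟩

theorem FrExt.map {F : List Rule} {L D : List Fm} (h : FrExt F L D) (σ : ℕ → Fm) :
    FrExt F (L.map (Fm.subst σ)) (D.map (Fm.subst σ)) := by
  induction h with
  | nil => exact FrExt.nil
  | step _ hB ih =>
    refine FrExt.step ih ?_
    rw [← List.map_append]
    exact FregeStep.map hB σ

theorem psize_map_le {σ : ℕ → Fm} {M : ℕ} (hM : 1 ≤ M) (L : List Fm)
    (hσ : ∀ B ∈ L, ∀ n ∈ B.vars, (σ n).size ≤ M) :
    psize (L.map (Fm.subst σ)) ≤ psize L * M := by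
  induction L with
  | nil => simp [psize]
  | cons B L ih =>
    rw [List.map_cons, psize_cons, psize_cons]
    have h1 := Fm.size_subst_le (σ := σ) hM (A := B) (hσ B (by simp))
    have h2 := ih (fun C hC => hσ C (by simp [hC]))
    nlinarith

/-- From every list containing the formulas of `Γ` one can go on by Frege steps to a list
containing the formulas of `G`, adding at most `m` symbols. -/
def Ded (F : List Rule) (Γ : Set Fm) (G : List Fm) (m : ℕ) : Prop :=
  ∀ L : List Fm, (∀ A ∈ Γ, A ∈ L) →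
    ∃ D, FrExt F L D ∧ (∀ B ∈ G, B ∈ D ++ L) ∧ psize D ≤ m

namespace Ded

variable {F : List Rule} {Γ Γ' : Set Fm} {G G' : List Fm} {m m' : ℕ}

theorem mono (h : Ded F Γ G m) (hΓ : Γ ⊆ Γ') (hm : m ≤ m') : Ded F Γ' G m' := by
  intro L hΓL
  obtain ⟨D, h1, h2, h3⟩ := h L fun A hA => hΓL A (hΓ hA)
  exact ⟨D, h1, h2, h3.trans hm⟩

theorem le (h : Ded F Γ G m) (hm : m ≤ m') : Ded F Γ G m' := h.mono subset_rfl hm

theorem sub (h : Ded F Γ G m) (hG : ∀ B ∈ G', B ∈ G) : Ded F Γ G' m := by
  intro L hΓL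
  obtain ⟨D, h1, h2, h3⟩ := h L hΓL
  exact ⟨D, h1, fun B hB => h2 B (hG B hB), h3⟩

theorem nil : Ded F Γ [] 0 := fun L _ => ⟨[], FrExt.nil, by simp, by simp [psize]⟩

theorem hyp {B : Fm} (h : B ∈ Γ) : Ded F Γ [B] 0 := fun L hΓL =>
  ⟨[], FrExt.nil, by simpa using hΓL B h, by simp [psize]⟩

theorem hyps {G : List Fm} (h : ∀ B ∈ G, B ∈ Γ) : Ded F Γ G 0 := fun L hΓL =>
  ⟨[], FrExt.nil, by simpa using fun B hB => hΓL B (h B hB), by simp [psize]⟩

/-- cut, keeping the goals of the first part -/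
theorem cut' (h : Ded F Γ G m) (h' : Ded F (Γ ∪ {B | B ∈ G}) G' m') :
    Ded F Γ (G ++ G') (m + m') := by
  intro L hΓL
  obtain ⟨D, h1, h2, h3⟩ := h L hΓL
  obtain ⟨D', h1', h2', h3'⟩ := h' (D ++ L) (by
    rintro A (hA | hA)
    · exact List.mem_append_right _ (hΓL A hA)
    · exact h2 A hA)
  refine ⟨D' ++ D, h1.trans h1', ?_, ?_⟩
  · intro B hB
    rw [List.append_assoc]
    rcases List.mem_append.1 hB with hB | hB
    · exact List.mem_append_right _ (h2 B hB)
    · exact h2' B hB
  · rw [psize_append]; omega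

/-- cut -/
theorem cut (h : Ded F Γ G m) (h' : Ded F (Γ ∪ {B | B ∈ G}) G' m') : Ded F Γ G' (m + m') :=
  (h.cut' h').sub fun _ hB => List.mem_append_right _ hB

theorem append (h : Ded F Γ G m) (h' : Ded F Γ G' m') : Ded F Γ (G ++ G') (m + m') :=
  h.cut' (h'.mono Set.subset_union_left le_rfl)

/-- a family of goals -/
theorem many {ι : Type} (f : ι → Fm) (k : ℕ) : ∀ (l : List ι), (∀ i ∈ l, Ded F Γ [f i] k) →
    Ded F Γ (l.map f) (l.length * k) := by
  intro l
  induction l with
  | nil => intro _; simpa using (nil : Ded F Γ [] 0)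
  | cons i l ih =>
    intro h
    have h1 := h i (by simp)
    have h2 := ih fun j hj => h j (by simp [hj])
    refine ((h1.append h2).sub (by simp)).mono subset_rfl ?_
    simp only [List.length_cons]
    nlinarith

end Ded

/-- instances of a derivation -/
theorem deriv_inst {F : List Rule} {Γ₀ : List Fm} {Lf : List Fm}
    (hd : Derivation F Γ₀ Lf) {σ : ℕ → Fm} {M : ℕ} (hM : 1 ≤ M) (hσ : ∀ n, (σ n).size ≤ M)
    {Γ : Set Fm} (hΓ : ∀ A ∈ Γ₀, A.subst σ ∈ Γ) :
    Ded F Γ (Lf.map (Fm.subst σ)) (psize Lf * M) := by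
  induction hd with
  | nil => simpa using (Ded.nil : Ded F Γ [] 0).mono subset_rfl (Nat.zero_le _)
  | @hyp L B hd hB ih =>
    have h1 : Ded F Γ [B.subst σ] 0 := Ded.hyp (hΓ B hB)
    refine ((h1.append ih).sub (by simp)).mono subset_rfl ?_
    rw [psize_cons]
    nlinarith [Nat.zero_le (B.size * M)]
  | @rule L B hd hB ih =>
    obtain ⟨r, hr, τ, h1, h2⟩ := hB
    intro L' hΓL'
    obtain ⟨D, h3, h4, h5⟩ := ih L' hΓL'
    have h6 : FregeStep F (D ++ L') (B.subst σ) := by
      refine ⟨r, hr, fun n => (τ n).subst σ, by rw [h1, Fm.subst_subst], ?_⟩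
      intro p hp
      rw [← Fm.subst_subst]
      exact h4 _ (List.mem_map.2 ⟨_, h2 p hp, rfl⟩)
    refine ⟨B.subst σ :: D, FrExt.step h3 h6, ?_, ?_⟩
    · intro C hC
      simp only [List.map_cons, List.mem_cons] at hC
      rcases hC with rfl | hC
      · simp
      · exact List.mem_cons_of_mem _ (h4 C hC)
    · rw [psize_cons, psize_cons]
      have := Fm.size_subst_le (σ := σ) hM (A := B) (fun n _ => hσ n)
      nlinarith

/-- derived schematic rules, with a substitution -/
theorem schemaS {F : List Rule} (hF : IsFrege F) (Γ₀ : List Fm) (B₀ : Fm) (h : Entails Γ₀ B₀) :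
    ∃ c : ℕ, ∀ (σ : ℕ → Fm) (M : ℕ), 1 ≤ M →
      (∀ n, (∃ A ∈ B₀ :: Γ₀, n ∈ A.vars) → (σ n).size ≤ M) → ∀ Γ : Set Fm,
      (∀ A ∈ Γ₀, A.subst σ ∈ Γ) → Ded F Γ [B₀.subst σ] (c * M) := by
  obtain ⟨L, hL⟩ := hF.2 Γ₀ B₀ h
  refine ⟨psize (B₀ :: L), fun σ M hM hσ Γ hΓ => ?_⟩
  classical
  let τ : ℕ → Fm := fun n => if (∃ A ∈ B₀ :: Γ₀, n ∈ A.vars) then σ n else var 0
  have h1 : ∀ A ∈ B₀ :: Γ₀, A.subst τ = A.subst σ := by
    intro A hA
    apply subst_congr
    intro n hn
    exact if_pos ⟨A, hA, hn⟩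
  have h2 : ∀ n, (τ n).size ≤ M := by
    intro n
    by_cases hn : ∃ A ∈ B₀ :: Γ₀, n ∈ A.vars
    · simp only [τ, if_pos hn]; exact hσ n hn
    · simp only [τ, if_neg hn, size]; exact hM
  have h3 := (deriv_inst hL hM h2 (Γ := Γ) (by
    intro A hA
    rw [h1 A (by simp [hA])]
    exact hΓ A hA)).sub (G' := [B₀.subst σ]) (by
      intro C hC
      simp only [List.mem_singleton] at hC
      rw [hC, ← h1 B₀ (by simp)]
      simp)
  exact h3

/-- derived schematic rules -/
theorem schemaD {F : List Rule} (hF : IsFrege F) (Γ₀ : List Fm) (B₀ : Fm) (h : Entails Γ₀ B₀) :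
    ∃ c : ℕ, ∀ (l : List Fm) (M : ℕ), 1 ≤ M → (∀ X ∈ l, X.size ≤ M) → ∀ Γ : Set Fm,
      (∀ A ∈ Γ₀, A.subst (asg l) ∈ Γ) → Ded F Γ [B₀.subst (asg l)] (c * M) := by
  obtain ⟨c, hc⟩ := schemaS hF Γ₀ B₀ h
  exact ⟨c, fun l M hM hl Γ hΓ => hc (asg l) M hM (fun n _ => asg_size hM hl n) Γ hΓ⟩

/-- replacement of equivalents -/
theorem repl (F : List Rule) (hF : IsFrege F) : ∃ c : ℕ, ∀ (H B : Fm) (σ τ : ℕ → Fm) (M : ℕ),
    H.size ≤ M → (B.subst σ).size ≤ M → (B.subst τ).size ≤ M → ∀ Γ : Set Fm,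
    (∀ n ∈ B.vars, imp H (iff (σ n) (τ n)) ∈ Γ) →
    Ded F Γ [imp H (iff (B.subst σ) (B.subst τ))] (c * M * B.size) := by
  obtain ⟨c₁, h₁⟩ := schemaD hF [imp (var 0) (iff (var 1) (var 2))]
    (imp (var 0) (iff (neg (var 1)) (neg (var 2)))) (by
    intro v h; simp [eval, iff] at h ⊢; tauto)
  obtain ⟨c₂, h₂⟩ := schemaD hF [imp (var 0) (iff (var 1) (var 2)), imp (var 0) (iff (var 3) (var 4))]
    (imp (var 0) (iff (and (var 1) (var 3)) (and (var 2) (var 4)))) (by
    intro v h; simp [eval, iff] at h ⊢; tauto)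
  obtain ⟨c₃, h₃⟩ := schemaD hF [imp (var 0) (iff (var 1) (var 2)), imp (var 0) (iff (var 3) (var 4))]
    (imp (var 0) (iff (or (var 1) (var 3)) (or (var 2) (var 4)))) (by
    intro v h; simp [eval, iff] at h ⊢; tauto)
  obtain ⟨c₄, h₄⟩ := schemaD hF [imp (var 0) (iff (var 1) (var 2)), imp (var 0) (iff (var 3) (var 4))]
    (imp (var 0) (iff (imp (var 1) (var 3)) (imp (var 2) (var 4)))) (by
    intro v h; simp [eval, iff] at h ⊢; tauto)
  refine ⟨c₁ + c₂ + c₃ + c₄, fun H B σ τ M hH => ?_⟩
  have hM : 1 ≤ M := (size_pos H).trans hH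
  induction B with
  | var n =>
    intro _ _ Γ hΓ
    exact (Ded.hyp (hΓ n (by simp [vars]))).mono subset_rfl (Nat.zero_le _)
  | neg A ih =>
    intro hs ht Γ hΓ
    simp only [subst, size] at hs ht
    have r := ih (by omega) (by omega) Γ hΓ
    have s := h₁ [H, A.subst σ, A.subst τ] M hM (by
      intro X hX; simp at hX; rcases hX with rfl | rfl | rfl
      exacts [hH, by omega, by omega]) (Γ ∪ {Y | Y ∈ [imp H (iff (A.subst σ) (A.subst τ))]}) (by
      intro Y hY; simp only [List.mem_singleton] at hY; subst hY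
      right; simp [subst, asg, iff])
    refine ((r.cut s).sub (by
      intro Y hY
      simpa [subst, asg, iff] using hY)).mono subset_rfl ?_
    simp only [size]
    nlinarith [Nat.zero_le (c₂ * M), Nat.zero_le (c₃ * M), Nat.zero_le (c₄ * M)]
  | and A B iA iB =>
    intro hs ht Γ hΓ
    simp only [subst, size] at hs ht
    have rA := iA (by omega) (by omega) Γ (fun n hn => hΓ n (by simp [vars, hn]))
    have rB := iB (by omega) (by omega) Γ (fun n hn => hΓ n (by simp [vars, hn]))
    have s := h₂ [H, A.subst σ, A.subst τ, B.subst σ, B.subst τ] M hM (by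
      intro X hX; simp at hX; rcases hX with rfl | rfl | rfl | rfl | rfl
      exacts [hH, by omega, by omega, by omega, by omega])
      (Γ ∪ {Y | Y ∈ [imp H (iff (A.subst σ) (A.subst τ))] ++
        [imp H (iff (B.subst σ) (B.subst τ))]}) (by
      intro Y hY; simp only [List.mem_cons, List.not_mem_nil, or_false] at hY
      rcases hY with rfl | rfl <;> right <;> simp [subst, asg, iff])
    refine (((rA.append rB).cut s).sub (by
      intro Y hY
      simpa [subst, asg, iff] using hY)).mono subset_rfl ?_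
    simp only [size]
    nlinarith [Nat.zero_le (c₁ * M), Nat.zero_le (c₃ * M), Nat.zero_le (c₄ * M)]
  | or A B iA iB =>
    intro hs ht Γ hΓ
    simp only [subst, size] at hs ht
    have rA := iA (by omega) (by omega) Γ (fun n hn => hΓ n (by simp [vars, hn]))
    have rB := iB (by omega) (by omega) Γ (fun n hn => hΓ n (by simp [vars, hn]))
    have s := h₃ [H, A.subst σ, A.subst τ, B.subst σ, B.subst τ] M hM (by
      intro X hX; simp at hX; rcases hX with rfl | rfl | rfl | rfl | rfl
      exacts [hH, by omega, by omega, by omega, by omega])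
      (Γ ∪ {Y | Y ∈ [imp H (iff (A.subst σ) (A.subst τ))] ++
        [imp H (iff (B.subst σ) (B.subst τ))]}) (by
      intro Y hY; simp only [List.mem_cons, List.not_mem_nil, or_false] at hY
      rcases hY with rfl | rfl <;> right <;> simp [subst, asg, iff])
    refine (((rA.append rB).cut s).sub (by
      intro Y hY
      simpa [subst, asg, iff] using hY)).mono subset_rfl ?_
    simp only [size]
    nlinarith [Nat.zero_le (c₁ * M), Nat.zero_le (c₂ * M), Nat.zero_le (c₄ * M)]
  | imp A B iA iB =>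
    intro hs ht Γ hΓ
    simp only [subst, size] at hs ht
    have rA := iA (by omega) (by omega) Γ (fun n hn => hΓ n (by simp [vars, hn]))
    have rB := iB (by omega) (by omega) Γ (fun n hn => hΓ n (by simp [vars, hn]))
    have s := h₄ [H, A.subst σ, A.subst τ, B.subst σ, B.subst τ] M hM (by
      intro X hX; simp at hX; rcases hX with rfl | rfl | rfl | rfl | rfl
      exacts [hH, by omega, by omega, by omega, by omega])
      (Γ ∪ {Y | Y ∈ [imp H (iff (A.subst σ) (A.subst τ))] ++
        [imp H (iff (B.subst σ) (B.subst τ))]}) (by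
      intro Y hY; simp only [List.mem_cons, List.not_mem_nil, or_false] at hY
      rcases hY with rfl | rfl <;> right <;> simp [subst, asg, iff])
    refine (((rA.append rB).cut s).sub (by
      intro Y hY
      simpa [subst, asg, iff] using hY)).mono subset_rfl ?_
    simp only [size]
    nlinarith [Nat.zero_le (c₁ * M), Nat.zero_le (c₂ * M), Nat.zero_le (c₃ * M)]

/-! ### using Frege derivations in proof systems -/

theorem Pr.ext {F : List Rule} {X : Fm → Fm → Prop} {L D : List Fm} (hL : Pr F X L)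
    (hD : FrExt F L D) : Pr F X (D ++ L) := by
  induction hD with
  | nil => exact hL
  | step _ hB ih => exact Pr.frege ih hB

theorem Pr.append {F : List Rule} {X : Fm → Fm → Prop} {L : List Fm} (hL : Pr F X L) :
    ∀ {D : List Fm}, Pr F X D → Pr F X (D ++ L) := by
  intro D hD
  induction hD with
  | nil => exact hL
  | frege _ hB ih => exact Pr.frege ih (hB.mono fun A hA => List.mem_append_left _ hA)
  | rule _ hA hX ih => exact Pr.rule ih (List.mem_append_left _ hA) hX

theorem Pr.monoRule {F : List Rule} {X Y : Fm → Fm → Prop} (hXY : ∀ A B, X A B → Y A B)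
    {L : List Fm} (hL : Pr F X L) : Pr F Y L := by
  induction hL with
  | nil => exact Pr.nil
  | frege _ hB ih => exact Pr.frege ih hB
  | rule _ hA hX ih => exact Pr.rule ih hA (hXY _ _ hX)

theorem EFProof.ext' {F : List Rule} {A : Fm} {k : ℕ} {L D : List Fm} (hL : EFProof F A k L)
    (hD : FrExt F L D) : EFProof F A k (D ++ L) := by
  induction hD with
  | nil => exact hL
  | step _ hB ih => exact EFProof.rule ih hB

/-- `A` occurs in a proof of size at most `s`. -/
def Occ (F : List Rule) (X : Fm → Fm → Prop) (A : Fm) (s : ℕ) : Prop :=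
  ∃ L, Pr F X L ∧ A ∈ L ∧ psize L ≤ s

theorem Has.occ {F : List Rule} {X : Fm → Fm → Prop} {A : Fm} {s : ℕ} (h : Has F X A s) :
    Occ F X A s := by
  obtain ⟨L, h1, h2⟩ := h
  exact ⟨A :: L, h1, by simp, h2⟩

/-- truncate a proof at an occurrence of a formula -/
theorem Occ.has {F : List Rule} {X : Fm → Fm → Prop} {A : Fm} {s : ℕ} (h : Occ F X A s) :
    Has F X A s := by
  obtain ⟨L, h1, h2, h3⟩ := h
  induction h1 with
  | nil => simp at h2
  | @frege L B hL hB ih =>
    rcases List.mem_cons.1 h2 with rfl | h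
    · exact ⟨L, Pr.frege hL hB, h3⟩
    · rw [psize_cons] at h3
      exact ih h (by omega)
  | @rule L C B hL hA hX ih =>
    rcases List.mem_cons.1 h2 with rfl | h
    · exact ⟨L, Pr.rule hL hA hX, h3⟩
    · rw [psize_cons] at h3
      exact ih h (by omega)

end Pool.Agent.V8H46.FP
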