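import Pool.Agent.H555R2.PF.Base

/-!
# Frege systems with an additional rule with one premise, and simulations

The formulas, the Frege systems and extended Frege (`EFProof`) are those of
`Pool/Agent/H555R2/PF/Defs.lean`.
-/

set_option autoImplicit false

namespace Pool.Agent.V8H46.FP

open Pool.Agent.H555R2.PF Pool.Agent.H555R2.PF.Fm

/-- Proofs in the Frege system `F` with the additional rule `X` (`X A B`: from `A` infer `B`).
The head of the list is the last line. -/
inductive Pr (F : List Rule) (X : Fm → Fm → Prop) : List Fm → Prop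
  | nil : Pr F X []
  | frege {L : List Fm} {B : Fm} : Pr F X L → FregeStep F L B → Pr F X (B :: L)
  | rule {L : List Fm} {A B : Fm} : Pr F X L → A ∈ L → X A B → Pr F X (B :: L)

/-- No additional rule. -/
def NoRule : Fm → Fm → Prop := fun _ _ => False

/-- The permutation rule: apply to `A` a permutation of the set of the variables of `A`. -/
def PermRule : Fm → Fm → Prop := fun A B =>
  ∃ π : Equiv.Perm ℕ, (∀ n, n ∉ A.vars → π n = n) ∧ B = A.rename π

/-- The swap rule: interchange in `A` the variables `p_(2 i)` and `p_(2 i + 1)`, both of which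
occur in `A`. -/
def SwapRule : Fm → Fm → Prop := fun A B =>
  ∃ i : ℕ, 2 * i ∈ A.vars ∧ 2 * i + 1 ∈ A.vars ∧ B = A.rename (Equiv.swap (2 * i) (2 * i + 1))

/-- `A` has a proof of at most `s` symbols in `F` with the additional rule `X`. -/
def Has (F : List Rule) (X : Fm → Fm → Prop) (A : Fm) (s : ℕ) : Prop :=
  ∃ L, Pr F X (A :: L) ∧ psize (A :: L) ≤ s

/-- `A` has an extended Frege proof of at most `s` symbols. -/
def HasEF (F : List Rule) (A : Fm) (s : ℕ) : Prop :=
  ∃ k L, EFProof F A k (A :: L) ∧ psize (A :: L) ≤ s

/-- The proof system `S` polynomially simulates the proof system `T`: whatever has a proof of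
size `s` in `T` has a proof of size at most `s ^ c + c` in `S`. (`S A s` stands for: `A` has a
proof of size at most `s` in `S`.) -/
def Simulates (S T : Fm → ℕ → Prop) : Prop :=
  ∃ c : ℕ, ∀ (A : Fm) (s : ℕ), T A s → S A (s ^ c + c)

/-- The formula `p₀ → p₀`, used as the truth constant `true`. -/
def tt : Fm := imp (var 0) (var 0)

/-- The formula `¬ (p₀ → p₀)`, used as the truth constant `false`. -/
def ff : Fm := neg (imp (var 0) (var 0))

/-- The proof system `S` is closed under the substitutions in the set `T`, with a polynomial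
increase of the size of the proofs. -/
def ClosedUnder (S : Fm → ℕ → Prop) (T : Set (ℕ → Fm)) : Prop :=
  ∃ c : ℕ, ∀ (A : Fm) (s : ℕ) (σ : ℕ → Fm), σ ∈ T → S A s →
    S (A.subst σ) ((s + (A.subst σ).size) ^ c + c)

/-- All substitutions. -/
def AllSubst : Set (ℕ → Fm) := Set.univ

/-- The substitutions of variables for variables (different variables may be replaced by the
same variable). -/
def VarSubst : Set (ℕ → Fm) := {σ | ∀ n, ∃ m, σ n = var m}

/-- The substitutions of the truth constants `p₀ → p₀` and `¬ (p₀ → p₀)` for some variables. -/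
def ConstSubst : Set (ℕ → Fm) := {σ | ∀ n, σ n = var n ∨ σ n = tt ∨ σ n = ff}

end Pool.Agent.V8H46.FP
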