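import Mathlib

/-!
# Polynomially bounded functions
-/

set_option autoImplicit false

namespace Pool.Agent.V8H46.FP

/-- `f` is bounded by a polynomial -/
def PB (f : ℕ → ℕ) : Prop := ∃ c : ℕ, ∀ s, f s ≤ (s + 2) ^ c

namespace PB

theorem mono {f g : ℕ → ℕ} (hg : PB g) (h : ∀ s, f s ≤ g s) : PB f := by
  obtain ⟨c, hc⟩ := hg
  exact ⟨c, fun s => (h s).trans (hc s)⟩

theorem const (a : ℕ) : PB fun _ => a := by
  refine ⟨a, fun s => ?_⟩
  calc a ≤ 2 ^ a := (Nat.lt_two_pow_self).le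
    _ ≤ (s + 2) ^ a := Nat.pow_le_pow_left (by omega) a

theorem id : PB fun s => s := ⟨1, fun s => by simp⟩

theorem mul {f g : ℕ → ℕ} (hf : PB f) (hg : PB g) : PB fun s => f s * g s := by
  obtain ⟨a, ha⟩ := hf
  obtain ⟨b, hb⟩ := hg
  refine ⟨a + b, fun s => ?_⟩
  rw [pow_add]
  exact Nat.mul_le_mul (ha s) (hb s)

theorem add {f g : ℕ → ℕ} (hf : PB f) (hg : PB g) : PB fun s => f s + g s := by
  obtain ⟨a, ha⟩ := hf
  obtain ⟨b, hb⟩ := hg
  refine ⟨a + b + 1, fun s => ?_⟩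
  have h1 : (s + 2) ^ a ≤ (s + 2) ^ (a + b) := Nat.pow_le_pow_right (by omega) (by omega)
  have h2 : (s + 2) ^ b ≤ (s + 2) ^ (a + b) := Nat.pow_le_pow_right (by omega) (by omega)
  have h3 := ha s
  have h4 := hb s
  calc f s + g s ≤ (s + 2) ^ (a + b) * 2 := by omega
    _ ≤ (s + 2) ^ (a + b) * (s + 2) := Nat.mul_le_mul_left _ (by omega)
    _ = _ := by rw [pow_succ]

theorem pow {f : ℕ → ℕ} (hf : PB f) (k : ℕ) : PB fun s => f s ^ k := by
  obtain ⟨a, ha⟩ := hf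
  refine ⟨a * k, fun s => ?_⟩
  rw [pow_mul]
  exact Nat.pow_le_pow_left (ha s) k

theorem comp {f g : ℕ → ℕ} (hg : PB g) (hf : PB f) : PB fun s => g (f s) := by
  obtain ⟨b, hb⟩ := hg
  have h := (hf.add (const 2)).pow b
  exact h.mono fun s => hb (f s)

theorem out {f : ℕ → ℕ} (hf : PB f) : ∃ c : ℕ, ∀ s, f s ≤ s ^ c + c := by
  obtain ⟨a, ha⟩ := hf
  refine ⟨3 ^ a + 2 * a, fun s => (ha s).trans ?_⟩
  rcases Nat.lt_or_ge s 2 with h | h
  · have : (s + 2) ^ a ≤ 3 ^ a := Nat.pow_le_pow_left (by omega) a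
    omega
  · have h1 : (s + 2) ^ a ≤ (s ^ 2) ^ a := Nat.pow_le_pow_left (by nlinarith) a
    have h2 : (s ^ 2) ^ a ≤ s ^ (3 ^ a + 2 * a) := by
      rw [← pow_mul]
      exact Nat.pow_le_pow_right (by omega) (Nat.le_add_left _ _)
    exact (h1.trans h2).trans (Nat.le_add_right _ _)

theorem inn (c : ℕ) : PB fun s => s ^ c + c := (id.pow c).add (const c)

end PB

end Pool.Agent.V8H46.FP
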