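import Pool.Agent.V8H46.FP.EFSim
import Pool.Agent.V8H46.FP.Poly

/-!
# If Frege simulates Frege with swaps then it simulates extended Frege
-/

set_option autoImplicit false

namespace Pool.Agent.V8H46.FP

open Pool.Agent.H555R2.PF Pool.Agent.H555R2.PF.Fm

theorem Ded.inst {F : List Rule} {G : List Fm} {m M : ℕ} {σ : ℕ → Fm} (h : Ded F ∅ G m)
    (hM : 1 ≤ M) (hσ : ∀ n, (σ n).size ≤ M) : Ded F ∅ (G.map (Fm.subst σ)) (m * M) := by
  obtain ⟨D, h1, h2, h3⟩ := h [] (by simp)
  intro L _
  refine ⟨D.map (Fm.subst σ), (h1.map σ).mono (by simp), ?_, ?_⟩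
  · intro B hB
    obtain ⟨C, hC, rfl⟩ := List.mem_map.1 hB
    have := h2 C hC
    rw [List.append_nil] at this
    exact List.mem_append_left _ (List.mem_map.2 ⟨C, this, rfl⟩)
  · exact (psize_map_le hM D (fun B _ n _ => hσ n)).trans (Nat.mul_le_mul_right _ h3)

theorem Pr.frExt {F : List Rule} {L : List Fm} (h : Pr F NoRule L) : FrExt F [] L := by
  induction h with
  | nil => exact FrExt.nil
  | frege _ hB ih => exact FrExt.step ih (by simpa using hB)
  | rule _ _ hX _ => exact hX.elim

theorem Has.ded {F : List Rule} {A : Fm} {s : ℕ} (h : Has F NoRule A s) : Ded F ∅ [A] s := by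
  obtain ⟨L, h1, h2⟩ := h
  intro L' _
  exact ⟨A :: L, (h1.frExt).mono (by simp), by simp, h2⟩

theorem Ded.occL {F : List Rule} {X : Fm → Fm → Prop} {G : List Fm} {s : ℕ} (h : Ded F ∅ G s) :
    OccL F X G s := by
  have := (OccL.nil (F := F) (X := X)).ded h (by simp)
  simpa using this

/-- doubling the indices of all variables -/
def dbl (x : ℕ × Fm) : ℕ × Fm := (2 * x.1, x.2.rename fun n => 2 * n)

theorem hyp_dbl (A : Fm) (X : List (ℕ × Fm)) :
    (hyp A X).rename (fun n => 2 * n) = hyp (A.rename fun n => 2 * n) (X.map dbl) := by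
  induction X with
  | nil => rfl
  | cons x X ih =>
    rw [rename] at ih
    simp only [hyp, List.map_cons, rename, subst, extF, iff, dbl, ih]

theorem mem_dbl {n : ℕ} {A : Fm} : n ∈ (A.rename fun n => 2 * n).vars ↔ ∃ m ∈ A.vars, 2 * m = n := by
  rw [vars_rename, Finset.mem_image]

theorem fresh_dbl (A : Fm) (X : List (ℕ × Fm)) (h : Fresh A X) :
    Fresh (A.rename fun n => 2 * n) (X.map dbl) := by
  induction X with
  | nil => trivial
  | cons x X ih =>
    obtain ⟨h1, h2, h3, h4⟩ := h
    refine ⟨?_, ?_, ?_, ih h4⟩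
    · simp only [dbl, mem_dbl, not_exists, not_and]
      intro m hm e
      have : m = x.1 := by omega
      exact h1 (this ▸ hm)
    · simp only [dbl, mem_dbl, not_exists, not_and]
      intro m hm e
      have : m = x.1 := by omega
      exact h2 (this ▸ hm)
    · intro y hy
      obtain ⟨z, hz, rfl⟩ := List.mem_map.1 hy
      obtain ⟨k1, k2⟩ := h3 z hz
      refine ⟨?_, ?_⟩
      · simp only [dbl]
        omega
      · simp only [dbl, mem_dbl, not_exists, not_and]
        intro m hm e
        have : m = x.1 := by omega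
        exact k2 (this ▸ hm)

theorem fresh_mem {A : Fm} {X : List (ℕ × Fm)} (h : Fresh A X) {x : ℕ × Fm} (hx : x ∈ X) :
    x.1 ∉ A.vars := by
  induction X with
  | nil => simp at hx
  | cons y X ih =>
    rcases List.mem_cons.1 hx with rfl | hx
    · exact h.2.1
    · exact ih h.2.2.2 hx

theorem good_dbl (A : Fm) (X : List (ℕ × Fm)) (h : Fresh A X) :
    Good (fun n => n + 1) (A.rename fun n => 2 * n) (X.map dbl) (A.rename fun n => 2 * n) := by
  intro x hx
  obtain ⟨z, hz, rfl⟩ := List.mem_map.1 hx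
  have hzA := fresh_mem h hz
  have odd : ∀ B : Fm, 2 * z.1 + 1 ∉ (B.rename fun n => 2 * n).vars := by
    intro B
    simp only [mem_dbl, not_exists, not_and]
    intro m _ e
    omega
  refine ⟨?_, odd A, odd A, ?_⟩
  · simp only [dbl, mem_dbl, not_exists, not_and]
    intro m hm e
    have : m = z.1 := by omega
    exact hzA (this ▸ hm)
  · intro y hy
    obtain ⟨w, hw, rfl⟩ := List.mem_map.1 hy
    refine ⟨?_, odd w.2, ?_⟩
    · simp only [dbl]; omega
    · simp only [dbl]; omega

theorem xsize_dbl (X : List (ℕ × Fm)) : xsize (X.map dbl) = xsize X := by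
  induction X with
  | nil => rfl
  | cons x X ih =>
    rw [List.map_cons, xsize_cons, xsize_cons, ih]
    simp only [extF, dbl, iff, size, size_rename]

/-- Frege with swaps proves a padded version of every formula which has an extended Frege
proof. -/
theorem swap_EQ (F : List Rule) (hF : IsFrege F) : ∃ c : ℕ, ∀ (A : Fm) (s : ℕ), HasEF F A s →
    ∃ X : List (ℕ × Fm), Fresh A X ∧ X.length ≤ s ∧
      Has F SwapRule (EQ (fun n => n + 1) (X.map dbl) (A.rename fun n => 2 * n)) (c * s ^ 3) := by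
  obtain ⟨c, hc⟩ := ef_imp F hF
  obtain ⟨d, hd⟩ := elim F hF
  refine ⟨c + 50 * d, fun A s h => ?_⟩
  obtain ⟨k, L, h1, h2⟩ := h
  obtain ⟨X, e1, e2, e3, e4⟩ := hc A k (A :: L) h1 (by simp)
  have hs : 1 ≤ s := (size_pos A).trans ((size_le_psize (L := A :: L) (by simp)).trans h2)
  have hAs : A.size ≤ s := (size_le_psize (L := A :: L) (by simp)).trans h2
  have hX : X.length ≤ s := (length_le_xsize X).trans (e3.trans h2)
  refine ⟨X, e2, hX, ?_⟩
  have e5 := (e4.inst (σ := fun n => var (2 * n)) (M := 1) le_rfl (by simp [size]))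
  simp only [List.map_cons, List.map_nil, subst, mul_one] at e5
  have e6 := hyp_dbl A X
  rw [rename, rename] at e6
  rw [e6] at e5
  have e7 : OccL F SwapRule [imp (hyp (A.rename fun n => 2 * n) (X.map dbl))
      (A.rename fun n => 2 * n)] (c * s ^ 3) := e5.occL.le (by gcongr)
  have hM : (hyp (A.rename fun n => 2 * n) (X.map dbl)).size + (A.rename fun n => 2 * n).size +
      8 * (X.map dbl).length + 10 ≤ 25 * s := by
    have k1 := hyp_size (A.rename fun n => 2 * n) (X.map dbl)
    rw [xsize_dbl, size_rename] at k1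
    rw [size_rename, List.length_map]
    omega
  have e8 := hd SwapRule (fun n => n + 1) _ (X.map dbl) _ (25 * s) _ (by
    intro x hx B hB1 hB2
    obtain ⟨z, hz, rfl⟩ := List.mem_map.1 hx
    exact ⟨z.1, hB1, hB2, rfl⟩) (fresh_dbl A X e2) (good_dbl A X e2) hM e7
  refine (e8.le ?_).has
  rw [List.length_map]
  have p1 : s ^ 2 ≤ s ^ 3 := Nat.pow_le_pow_right hs (by norm_num)
  calc c * s ^ 3 + d * (25 * s) * (X.length + 1) ≤ c * s ^ 3 + d * (25 * s) * (2 * s) := by
        gcongr; omega
    _ = c * s ^ 3 + 50 * d * s ^ 2 := by ring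
    _ ≤ c * s ^ 3 + 50 * d * s ^ 3 := Nat.add_le_add_left (Nat.mul_le_mul_left _ p1) _
    _ = _ := by ring

/-- the formula `EQ` after the substitution of constants -/
def EQc : ℕ → Fm → Fm
  | 0, G => G
  | k + 1, G => EQc k (or (iff tt ff) G)

theorem EQc_size (k : ℕ) : ∀ G, (EQc k G).size = G.size + 18 * k := by
  induction k with
  | zero => intro G; simp [EQc]
  | succ k ih => intro G; simp only [EQc, ih, size, iff, tt, ff]; omega

theorem EQ_subst (pr : ℕ → ℕ) (τ : ℕ → Fm) (X : List (ℕ × Fm)) (h1 : ∀ x ∈ X, τ x.1 = tt)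
    (h2 : ∀ x ∈ X, τ (pr x.1) = ff) : ∀ G, (EQ pr X G).subst τ = EQc X.length (G.subst τ) := by
  induction X with
  | nil => intro G; rfl
  | cons x X ih =>
    intro G
    simp only [EQ, List.length_cons, EQc]
    rw [ih (fun y hy => h1 y (by simp [hy])) (fun y hy => h2 y (by simp [hy]))]
    simp only [subst, iff, h1 x (by simp), h2 x (by simp)]

theorem EQc_elim (F : List Rule) (hF : IsFrege F) : ∃ c : ℕ, ∀ (k M : ℕ) (G : Fm) (Γ : Set Fm),
    (EQc k G).size ≤ M → EQc k G ∈ Γ → Ded F Γ [G] (c * M * k) := by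
  obtain ⟨c, hc⟩ := schemaD hF [or (iff (imp (var 0) (var 0)) (neg (imp (var 0) (var 0)))) (var 1)]
    (var 1) (by intro v h; simp [eval, iff] at h ⊢; tauto)
  refine ⟨c, fun k => ?_⟩
  induction k with
  | zero => intro M G Γ _ h; exact (Ded.hyp h).le (Nat.zero_le _)
  | succ k ih =>
    intro M G Γ hM h
    have r := ih M (or (iff tt ff) G) Γ hM h
    rw [EQc_size] at hM
    have s := hc [var 0, G] M (by omega) (by
      intro Z hZ; simp at hZ; rcases hZ with rfl | rfl
      · simp [size]; omega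
      · omega) (Γ ∪ {B | B ∈ [or (iff tt ff) G]}) (by
      intro Z hZ; simp only [List.mem_singleton] at hZ; subst hZ
      right; simp [subst, asg, iff, tt, ff])
    refine ((r.cut s).sub (by simp [subst, asg])).le ?_
    ring_nf
    exact le_rfl

/-- Closure under substitution of constants suffices to pass from the padded version to the
formula itself. -/
theorem unpad_subst (A : Fm) (X : List (ℕ × Fm)) (hX : Fresh A X) :
    ∃ τ : ℕ → Fm, (∀ n, (τ n).size ≤ 4) ∧
      (EQ (fun n => n + 1) (X.map dbl) (A.rename fun n => 2 * n)).subst τ = EQc X.length A := by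
  classical
  let τ : ℕ → Fm := fun n => if n % 2 = 1 then ff else
    if ∃ x ∈ X, x.1 = n / 2 then tt else var (n / 2)
  refine ⟨τ, ?_, ?_⟩
  · intro n
    simp only [τ]
    split_ifs <;> simp [tt, ff, size]
  · rw [EQ_subst]
    · rw [List.length_map]
      congr 1
      rw [rename, subst_subst]
      conv_rhs => rw [← subst_var A]
      apply subst_congr
      intro n hn
      have h1 : ¬ (2 * n % 2 = 1) := by omega
      have h2 : 2 * n / 2 = n := by omega
      have h3 : ¬ ∃ x ∈ X, x.1 = n := by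
        rintro ⟨x, hx, rfl⟩
        exact fresh_mem hX hx hn
      simp only [subst, τ, if_neg h1, h2, if_neg h3]
    · intro x hx
      obtain ⟨z, hz, rfl⟩ := List.mem_map.1 hx
      have h1 : ¬ (2 * z.1 % 2 = 1) := by omega
      have h2 : 2 * z.1 / 2 = z.1 := by omega
      have h3 : ∃ x ∈ X, x.1 = z.1 := ⟨z, hz, rfl⟩
      simp only [dbl, τ, if_neg h1, h2, if_pos h3]
    · intro x hx
      obtain ⟨z, hz, rfl⟩ := List.mem_map.1 hx
      have h1 : (2 * z.1 + 1) % 2 = 1 := by omega
      simp only [dbl, τ, if_pos h1]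

/-- If Frege simulates Frege with swaps then it simulates extended Frege. -/
theorem frege_sim (F : List Rule) (hF : IsFrege F)
    (h : Simulates (Has F NoRule) (Has F SwapRule)) : Simulates (Has F NoRule) (HasEF F) := by
  obtain ⟨a, ha⟩ := h
  obtain ⟨b, hb⟩ := swap_EQ F hF
  obtain ⟨d, hd⟩ := EQc_elim F hF
  have hpb : PB fun s => ((b * s ^ 3) ^ a + a) * 4 + d * (19 * s) * s :=
    (((PB.inn a).comp ((PB.const b).mul (PB.id.pow 3))).mul (PB.const 4)).add
      (((PB.const d).mul ((PB.const 19).mul PB.id)).mul PB.id)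
  obtain ⟨e, he⟩ := hpb.out
  refine ⟨e, fun A s hA => ?_⟩
  have hAs : A.size ≤ s := by
    obtain ⟨k, L, _, h2⟩ := hA
    exact (size_le_psize (L := A :: L) (by simp)).trans h2
  obtain ⟨X, h1, h2, h3⟩ := hb A s hA
  have h4 := (ha _ _ h3).ded
  obtain ⟨τ, h5, h6⟩ := unpad_subst A X h1
  have h7 := h4.inst (σ := τ) (M := 4) (by norm_num) h5
  simp only [List.map_cons, List.map_nil, h6] at h7
  have h8 := hd X.length (19 * s) A {B | B ∈ [EQc X.length A]} (by rw [EQc_size]; omega) (by simp)
  have h9 : Ded F ∅ [A] (((b * s ^ 3) ^ a + a) * 4 + d * (19 * s) * X.length) := by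
    refine h7.cut (h8.mono ?_ le_rfl)
    exact Set.subset_union_right
  refine (h9.occL.le ?_).has
  refine le_trans ?_ (he s)
  gcongr

theorem Has.mono {F : List Rule} {X : Fm → Fm → Prop} {A : Fm} {s t : ℕ} (h : Has F X A s)
    (hst : s ≤ t) : Has F X A t := by
  obtain ⟨L, h1, h2⟩ := h
  exact ⟨L, h1, h2.trans hst⟩

theorem HasEF.mono {F : List Rule} {A : Fm} {s t : ℕ} (h : HasEF F A s)
    (hst : s ≤ t) : HasEF F A t := by
  obtain ⟨k, L, h1, h2⟩ := h
  exact ⟨k, L, h1, h2.trans hst⟩

/-- If Frege simulates extended Frege then it simulates Frege + permutation. -/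
theorem frege_sim_perm (F : List Rule) (hF : IsFrege F)
    (h : Simulates (Has F NoRule) (HasEF F)) : Simulates (Has F NoRule) (Has F PermRule) := by
  obtain ⟨a, ha⟩ := h
  obtain ⟨c, hc⟩ := ef_sim_perm F hF
  obtain ⟨e, he⟩ := ((PB.inn a).comp ((PB.const c).mul (PB.id.pow 4))).out
  exact ⟨e, fun A s hA => (ha _ _ (hc A s hA)).mono (he s)⟩

/-- The swap rule is a special case of the permutation rule. -/
theorem swap_perm (A B : Fm) (h : SwapRule A B) : PermRule A B := by
  obtain ⟨i, h1, h2, rfl⟩ := h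
  refine ⟨Equiv.swap (2 * i) (2 * i + 1), ?_, rfl⟩
  intro n hn
  apply Equiv.swap_apply_of_ne_of_ne
  · rintro rfl; exact hn h1
  · rintro rfl; exact hn h2

theorem frege_sim_swap (F : List Rule)
    (h : Simulates (Has F NoRule) (Has F PermRule)) :
    Simulates (Has F NoRule) (Has F SwapRule) := by
  obtain ⟨a, ha⟩ := h
  refine ⟨a, fun A s hA => ha A s ?_⟩
  obtain ⟨L, h1, h2⟩ := hA
  exact ⟨L, h1.monoRule swap_perm, h2⟩

end Pool.Agent.V8H46.FP
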