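import Pool.Agent.V8H46.FP.StoreEnd
import Pool.Agent.V8H46.FP.Swap

/-!
# Extended Frege proofs with few extension axioms
-/

set_option autoImplicit false

namespace Pool.Agent.V8H46.FP

open Pool.Agent.H555R2.PF Pool.Agent.H555R2.PF.Fm

theorem subst_single_eq {A : Fm} {q : ℕ} {φ : Fm} (h : q ∉ A.vars) :
    A.subst (fun v => if v = q then φ else var v) = A := by
  conv_rhs => rw [← subst_var A]
  apply subst_congr
  intro v hv
  rw [if_neg]
  rintro rfl
  exact h hv

/-- elimination of the extension axioms by substitutions -/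
theorem aux_elim (F : List Rule) (hF : IsFrege F) : ∃ c : ℕ, ∀ (A : Fm) (n k M : ℕ)
    (X : List (ℕ × Fm)) (s : ℕ), (∀ x ∈ X, n ≤ x.1 ∧ x.1 < n + k) → Fresh A X →
    (hyp A X).size + A.size + 10 ≤ M → OccL F (AuxRule1 n k) [imp (hyp A X) A] s →
    OccL F (AuxRule1 n k) [A] (s + c * M * (X.length + 1)) := by
  obtain ⟨c₀, h₀⟩ := schemaD hF [imp (imp (var 0) (var 0)) (var 0)] (var 0) (by
    intro v h; simp [eval] at h ⊢; tauto)
  obtain ⟨c₁, h₁⟩ := schemaD hF [imp (and (iff (var 0) (var 0)) (var 1)) (var 2)]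
    (imp (var 1) (var 2)) (by
    intro v h; simp [eval, iff] at h ⊢; tauto)
  refine ⟨c₀ + c₁ + 2, fun A n k M X => ?_⟩
  induction X with
  | nil =>
    intro s _ _ hM h
    simp only [List.length_nil, hyp, size] at hM h ⊢
    have t := h₀ [A] M (by omega) (by
      intro Z hZ; simp at hZ; subst hZ; omega)
      ({B | B ∈ [imp (imp A A) A]}) (by
      intro Z hZ; simp only [List.mem_singleton] at hZ; subst hZ
      simp [subst, asg])
    refine ((h.ded t (fun B hB => hB)).sub (by simp [subst, asg])).le ?_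
    nlinarith [Nat.zero_le ((c₁ + 2) * M)]
  | cons x X ih =>
    intro s hX hFr hM h
    obtain ⟨q, φ⟩ := x
    obtain ⟨f1, f2, f3, f4⟩ := hFr
    simp only at f1 f2 f3
    simp only [hyp, size, extF, iff] at hM
    simp only [hyp, extF] at h
    have hq := hX (q, φ) (by simp)
    simp only at hq
    have hqH : q ∉ (hyp A X).vars := by
      rw [hyp_vars]
      rintro (h | ⟨y, hy, h⟩)
      · exact f2 h
      · rcases h with h | h
        · exact (f3 y hy).1 h
        · exact (f3 y hy).2 h
    have t1 := h.rule (A := imp (and (iff (var q) φ) (hyp A X)) A)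
      (B := imp (and (iff φ φ) (hyp A X)) A) (by simp) (by
      refine ⟨q, φ, hq.1, hq.2, ?_⟩
      simp only [subst, iff, subst_single_eq f1, subst_single_eq hqH, subst_single_eq f2,
        if_true])
    have t2 := h₁ [φ, hyp A X, A] M (by omega) (by
      intro Z hZ; simp at hZ; rcases hZ with rfl | rfl | rfl
      · omega
      · omega
      · omega) ({Z | Z ∈ [imp (and (iff φ φ) (hyp A X)) A]}) (by
      intro Z hZ; simp only [List.mem_singleton] at hZ; subst hZ; simp [subst, asg, iff])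
    have t3 : OccL F (AuxRule1 n k) [imp (hyp A X) A]
        (s + (imp (and (iff φ φ) (hyp A X)) A).size + c₁ * M) :=
      (t1.ded t2 (by intro Z hZ; simp at hZ; simp [hZ])).sub (by simp [subst, asg])
    have t4 := ih _ (fun y hy => hX y (by simp [hy])) f4 (by omega) t3
    refine t4.le ?_
    have hs : (imp (and (iff φ φ) (hyp A X)) A).size ≤ 2 * M := by
      simp only [size, iff]; omega
    simp only [List.length_cons]
    have : (c₀ + c₁ + 2) * M * (X.length + 1 + 1) =
      (c₀ + c₁ + 2) * M * (X.length + 1) + (c₀ + c₁ + 2) * M := by ring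
    rw [this]
    nlinarith [Nat.zero_le (c₀ * M)]

/-- the numbering of the extension variables -/
def num (n : ℕ) (vs : List ℕ) (v : ℕ) : ℕ :=
  if v ∈ vs then n + vs.idxOf v else if v < n then v else 0

theorem num_eq {n : ℕ} (hn : 0 < n) {vs : List ℕ} {v w : ℕ} (hw : w ∈ vs)
    (h : num n vs v = num n vs w) : v = w := by
  unfold num at h
  rw [if_pos hw] at h
  split_ifs at h with h1 h2
  · exact (List.idxOf_inj h1).1 (by omega)
  · omega
  · omega

theorem num_hyp {n : ℕ} {vs : List ℕ} {A : Fm} (hA : A.rename (num n vs) = A)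
    (X : List (ℕ × Fm)) : (hyp A X).rename (num n vs) =
      hyp A (X.map fun x => (num n vs x.1, x.2.rename (num n vs))) := by
  induction X with
  | nil =>
    simp only [rename] at hA
    simp only [hyp, rename, subst, List.map_nil, hA]
  | cons x X ih =>
    simp only [rename] at ih
    simp only [hyp, rename, subst, List.map_cons, ih, extF, iff]

theorem mem_num {n : ℕ} (hn : 0 < n) {vs : List ℕ} {A : Fm} {w : ℕ} (hw : w ∈ vs)
    (h : num n vs w ∈ (A.rename (num n vs)).vars) : w ∈ A.vars := by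
  rw [vars_rename, Finset.mem_image] at h
  obtain ⟨v, hv, h⟩ := h
  rw [num_eq hn hw h] at hv
  exact hv

theorem fresh_num {n : ℕ} (hn : 0 < n) {vs : List ℕ} {A : Fm} (hA : A.rename (num n vs) = A)
    (X : List (ℕ × Fm)) (hX : ∀ x ∈ X, x.1 ∈ vs) (h : Fresh A X) :
    Fresh A (X.map fun x => (num n vs x.1, x.2.rename (num n vs))) := by
  induction X with
  | nil => trivial
  | cons x X ih =>
    obtain ⟨h1, h2, h3, h4⟩ := h
    have hx := hX x (by simp)
    refine ⟨fun h => h1 (mem_num hn hx h), fun h => h2 (mem_num hn hx (by rw [hA]; exact h)), ?_,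
      ih (fun y hy => hX y (by simp [hy])) h4⟩
    intro y hy
    obtain ⟨z, hz, rfl⟩ := List.mem_map.1 hy
    obtain ⟨k1, k2⟩ := h3 z hz
    refine ⟨fun h => k1 ?_, fun h => k2 (mem_num hn hx h)⟩
    exact num_eq hn (hX z (by simp [hz])) h

theorem vars_ne (A : Fm) : ∃ v, v ∈ A.vars := by
  induction A with
  | var n => exact ⟨n, by simp [vars]⟩
  | neg A ih => exact ih
  | and A B ihA ihB => obtain ⟨v, hv⟩ := ihA; exact ⟨v, by simp [vars, hv]⟩
  | or A B ihA ihB => obtain ⟨v, hv⟩ := ihA; exact ⟨v, by simp [vars, hv]⟩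
  | imp A B ihA ihB => obtain ⟨v, hv⟩ := ihA; exact ⟨v, by simp [vars, hv]⟩

/-- An extended Frege proof with `k` extension axioms is simulated by substitutions for `k`
auxiliary variables. -/
theorem ef_aux (F : List Rule) (hF : IsFrege F) : ∃ c : ℕ, ∀ (A : Fm) (n k S : ℕ) (L : List Fm),
    (∀ v ∈ A.vars, v < n) → EFProof F A k (A :: L) → psize (A :: L) ≤ S →
    Has F (AuxRule1 n k) A (c * S ^ 3) := by
  obtain ⟨c, hc⟩ := ef_imp F hF
  obtain ⟨d, hd⟩ := aux_elim F hF
  refine ⟨c + 40 * d, fun A n k s L hA h1 h2 => ?_⟩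
  obtain ⟨X, e1, e2, e3, e4⟩ := hc A k (A :: L) h1 (by simp)
  have hs : 1 ≤ s := (size_pos A).trans ((size_le_psize (L := A :: L) (by simp)).trans h2)
  have hAs : A.size ≤ s := (size_le_psize (L := A :: L) (by simp)).trans h2
  have hX : X.length ≤ s := (length_le_xsize X).trans (e3.trans h2)
  have hn : 0 < n := by
    obtain ⟨v, hv⟩ := vars_ne A
    have := hA v hv
    omega
  obtain ⟨vs, hvs⟩ : ∃ vs, vs = X.map Prod.fst := ⟨_, rfl⟩
  have hXvs : ∀ x ∈ X, x.1 ∈ vs := by
    intro x hx; rw [hvs]; exact List.mem_map.2 ⟨x, hx, rfl⟩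
  have hAr : A.rename (num n vs) = A := by
    apply rename_eq_self
    intro v hv
    unfold num
    rw [if_neg, if_pos (hA v hv)]
    rw [hvs]
    intro h
    obtain ⟨x, hx, rfl⟩ := List.mem_map.1 h
    exact fresh_mem e2 hx hv
  have e5 := e4.inst (σ := fun v => var (num n vs v)) (M := 1) le_rfl (by simp [size])
  have e6 : (imp (hyp A X) A).subst (fun v => var (num n vs v)) =
      imp (hyp A (X.map fun x => (num n vs x.1, x.2.rename (num n vs)))) A := by
    have k1 := num_hyp hAr X
    rw [rename] at k1 hAr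
    rw [subst, k1, hAr]
  simp only [List.map_cons, List.map_nil, e6, mul_one] at e5
  have hsz : (hyp A (X.map fun x => (num n vs x.1, x.2.rename (num n vs)))).size =
      (hyp A X).size := by
    rw [← num_hyp hAr X, size_rename]
  have hM : (hyp A (X.map fun x => (num n vs x.1, x.2.rename (num n vs)))).size + A.size + 10
      ≤ 20 * s := by
    rw [hsz]
    have k1 := hyp_size A X
    omega
  have e7 := hd A n k (20 * s) _ _ (by
    intro y hy
    obtain ⟨x, hx, rfl⟩ := List.mem_map.1 hy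
    have hx' := hXvs x hx
    simp only [num, if_pos hx']
    have := List.idxOf_lt_length_iff.2 hx'
    rw [hvs, List.length_map, e1] at this
    rw [hvs]
    omega) (fresh_num hn hAr X hXvs e2) hM
    (e5.occL (X := AuxRule1 n k))
  refine (e7.le ?_).has
  rw [List.length_map]
  have k0 : psize (A :: L) ^ 3 ≤ s ^ 3 := Nat.pow_le_pow_left h2 3
  have p1 : s ^ 2 ≤ s ^ 3 := Nat.pow_le_pow_right hs (by norm_num)
  calc c * psize (A :: L) ^ 3 + d * (20 * s) * (X.length + 1)
      ≤ c * s ^ 3 + d * (20 * s) * (2 * s) := by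
        gcongr; omega
    _ = c * s ^ 3 + 40 * d * s ^ 2 := by ring
    _ ≤ c * s ^ 3 + 40 * d * s ^ 3 := Nat.add_le_add_left (Nat.mul_le_mul_left _ p1) _
    _ = _ := by ring

/-- The storage theorem, also for extended Frege proofs with linearly many extension axioms. -/
theorem store_both (F : List Rule) (hF : IsFrege F) : ∃ e : ℕ, ∀ (c n : ℕ) (A : Fm) (S : ℕ),
    (∀ v ∈ A.vars, v < n) →
    (Has F (AuxRule1 n (n * c)) A S ∨
      ∃ k L, k ≤ n * c ∧ EFProof F A k (A :: L) ∧ psize (A :: L) ≤ S) →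
    Has F PermRule (dual A n n) ((S + n + 2 ^ c) ^ e + e) := by
  obtain ⟨e, he⟩ := store_main F hF
  obtain ⟨a, ha⟩ := ef_aux F hF
  have hpb : PB fun q => (q + (a * q ^ 3 + q)) ^ e + e :=
    (PB.inn e).comp (PB.id.add (((PB.const a).mul (PB.id.pow 3)).add PB.id))
  obtain ⟨e', he'⟩ := hpb.out
  refine ⟨e', fun c n A S hA h => ?_⟩
  have main : Has F (AuxRule1 n (n * c)) A (S + a * S ^ 3) := by
    rcases h with h | ⟨k, L, h1, h2, h3⟩
    · exact h.mono (by omega)
    · have := ha A n k S L hA h2 h3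
      obtain ⟨L', h4, h5⟩ := this
      refine ⟨L', h4.monoRule ?_, by omega⟩
      rintro B C ⟨y, φ, i1, i2, i3⟩
      exact ⟨y, φ, i1, by omega, i3⟩
  have h6 := he c n A _ hA main
  refine h6.mono (le_trans ?_ (he' _))
  generalize 2 ^ c = w
  have h7 : S ^ 3 ≤ (S + n + w) ^ 3 := Nat.pow_le_pow_left (by omega) 3
  have h8 : a * S ^ 3 ≤ a * (S + n + w) ^ 3 := Nat.mul_le_mul_left a h7
  refine Nat.add_le_add_right (Nat.pow_le_pow_left ?_ e) e
  omega

end Pool.Agent.V8H46.FP
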