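import Pool.Agent.V8H46.FP.Core

/-!
# Extended Frege simulates Frege + permutation
-/

set_option autoImplicit false

namespace Pool.Agent.V8H46.FP

open Pool.Agent.H555R2.PF Pool.Agent.H555R2.PF.Fm

/-- conjunction of a list of formulas -/
def conj : List Fm → Fm
  | [] => imp (var 0) (var 0)
  | C :: L => and C (conj L)

theorem conj_size (L : List Fm) : (conj L).size = psize L + L.length + 3 := by
  induction L with
  | nil => simp [conj, size, psize]
  | cons C L ih => simp only [conj, size, ih, psize_cons, List.length_cons]; omega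

theorem conj_intro (F : List Rule) (hF : IsFrege F) : ∃ c : ℕ, ∀ (H : Fm) (M : ℕ) (Γ : Set Fm)
    (L : List Fm), H.size ≤ M → (conj L).size ≤ M → (∀ C ∈ L, imp H C ∈ Γ) →
    Ded F Γ [imp H (conj L)] (c * M * (L.length + 1)) := by
  obtain ⟨c₁, h₁⟩ := schemaD hF [] (imp (var 1) (imp (var 0) (var 0))) (by
    intro v _; simp [eval])
  obtain ⟨c₂, h₂⟩ := schemaD hF [imp (var 0) (var 1), imp (var 0) (var 2)]
    (imp (var 0) (and (var 1) (var 2))) (by
    intro v h; simp [eval] at h ⊢; tauto)
  refine ⟨c₁ + c₂, fun H M Γ L => ?_⟩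
  induction L with
  | nil =>
    intro hH hM _
    have hM1 : 1 ≤ M := (size_pos H).trans hH
    have s := h₁ [var 0, H] M hM1 (by
      intro Z hZ; simp at hZ; rcases hZ with rfl | rfl
      · simpa [size] using hM1
      · exact hH) Γ (by simp)
    refine (s.sub (by simp [subst, asg, conj])).le ?_
    simp only [List.length_nil]
    nlinarith [Nat.zero_le (c₂ * M)]
  | cons C L ih =>
    intro hH hM hΓ
    have hM1 : 1 ≤ M := (size_pos H).trans hH
    simp only [conj, size] at hM
    have r := ih hH (by omega) (fun D hD => hΓ D (by simp [hD]))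
    have s := h₂ [H, C, conj L] M hM1 (by
      intro Z hZ; simp at hZ; rcases hZ with rfl | rfl | rfl <;> omega)
      (Γ ∪ {B | B ∈ [imp H (conj L)]}) (by
      intro Z hZ; simp only [List.mem_cons, List.not_mem_nil, or_false] at hZ
      rcases hZ with rfl | rfl
      · left; simpa [subst, asg] using hΓ C (by simp)
      · right; simp [subst, asg])
    refine ((r.cut s).sub (by simp [subst, asg, conj])).le ?_
    simp only [List.length_cons]
    nlinarith [Nat.zero_le (c₁ * M)]

theorem conj_elim (F : List Rule) (hF : IsFrege F) : ∃ c : ℕ, ∀ (M : ℕ) (L : List Fm)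
    (Γ : Set Fm), (conj L).size ≤ M → conj L ∈ Γ → Ded F Γ L (c * M * L.length) := by
  obtain ⟨c₁, h₁⟩ := schemaD hF [and (var 0) (var 1)] (var 0) (by
    intro v h; simp [eval] at h ⊢; tauto)
  obtain ⟨c₂, h₂⟩ := schemaD hF [and (var 0) (var 1)] (var 1) (by
    intro v h; simp [eval] at h ⊢; tauto)
  refine ⟨c₁ + c₂, fun M L => ?_⟩
  induction L with
  | nil => intro Γ _ _; simpa using (Ded.nil : Ded F Γ [] 0)
  | cons C L ih =>
    intro Γ hM hΓ
    simp only [conj, size] at hM
    have s1 := h₁ [C, conj L] M (by omega) (by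
      intro Z hZ; simp at hZ; rcases hZ with rfl | rfl <;> omega) Γ (by
      intro Z hZ; simp only [List.mem_singleton] at hZ; subst hZ
      simpa [subst, asg, conj] using hΓ)
    have s2 := h₂ [C, conj L] M (by omega) (by
      intro Z hZ; simp at hZ; rcases hZ with rfl | rfl <;> omega) Γ (by
      intro Z hZ; simp only [List.mem_singleton] at hZ; subst hZ
      simpa [subst, asg, conj] using hΓ)
    have r := ih (Γ ∪ {B | B ∈ [(var 1).subst (asg [C, conj L])]}) (by omega) (by
      right; simp [subst, asg])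
    refine ((s1.append (s2.cut r)).sub (by simp [subst, asg])).le ?_
    simp only [List.length_cons]
    nlinarith

/-- all variables of a list of formulas -/
def varsL (L : List Fm) : Finset ℕ := L.foldr (fun B s => B.vars ∪ s) ∅

theorem mem_varsL {L : List Fm} {n : ℕ} : n ∈ varsL L ↔ ∃ B ∈ L, n ∈ B.vars := by
  induction L with
  | nil => simp [varsL]
  | cons B L ih =>
    have : varsL (B :: L) = B.vars ∪ varsL L := rfl
    rw [this, Finset.mem_union, ih]
    simp

theorem varsL_card (L : List Fm) : (varsL L).card ≤ psize L := by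
  induction L with
  | nil => simp [varsL, psize]
  | cons B L ih =>
    have : varsL (B :: L) = B.vars ∪ varsL L := rfl
    rw [this, psize_cons]
    exact (Finset.card_union_le _ _).trans (Nat.add_le_add (vars_card_le B) ih)

theorem rename_rename (f g : ℕ → ℕ) (A : Fm) : (A.rename f).rename g = A.rename (fun n => g (f n)) := by
  rw [rename, rename, subst_subst]
  rfl

/-- the Frege part of one stage of the simulation -/
theorem stage_ded (F : List Rule) (hF : IsFrege F) : ∃ c : ℕ, ∀ (L : List Fm) (ζ ζ' π : ℕ → ℕ)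
    (A : Fm) (v : ℕ) (Γ : Set Fm) (S : ℕ), A ∈ L → psize L ≤ S →
    (∀ C ∈ L, C.rename ζ' ∈ Γ) → iff (var v) (conj (L.map (rename ζ))) ∈ Γ →
    (∀ n ∈ varsL L, iff (var (ζ' n)) (or (and (var v) (var (ζ (π n))))
      (and (neg (var v)) (var (ζ n)))) ∈ Γ) →
    Ded F Γ ((A.rename π).rename ζ :: L.map (rename ζ)) (c * S ^ 3) := by
  obtain ⟨c₁, h₁⟩ := schemaD hF [iff (var 0) (or (and (var 1) (var 2)) (and (neg (var 1)) (var 3)))]
    (imp (neg (var 1)) (iff (var 0) (var 3))) (by
    intro v h; simp [eval, iff] at h ⊢; tauto)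
  obtain ⟨c₂, h₂⟩ := schemaD hF [iff (var 0) (or (and (var 1) (var 2)) (and (neg (var 1)) (var 3)))]
    (imp (var 1) (iff (var 0) (var 2))) (by
    intro v h; simp [eval, iff] at h ⊢; tauto)
  obtain ⟨c₃, h₃⟩ := repl F hF
  obtain ⟨c₄, h₄⟩ := schemaD hF [var 1, imp (var 0) (iff (var 1) (var 2))]
    (imp (var 0) (var 2)) (by
    intro v h; simp [eval, iff] at h ⊢; tauto)
  obtain ⟨c₅, h₅⟩ := conj_intro F hF
  obtain ⟨c₆, h₆⟩ := schemaD hF [iff (var 0) (var 1), imp (neg (var 0)) (var 1)]
    (var 0) (by
    intro v h; simp [eval, iff] at h ⊢; tauto)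
  obtain ⟨c₇, h₇⟩ := schemaD hF [iff (var 0) (var 1), var 0] (var 1) (by
    intro v h; simp [eval, iff] at h ⊢; tauto)
  obtain ⟨c₈, h₈⟩ := conj_elim F hF
  obtain ⟨c₉, h₉⟩ := schemaD hF [var 0, imp (var 0) (var 1)] (var 1) (by
    intro v h; simp [eval] at h ⊢; tauto)
  refine ⟨10 * (c₁ + c₂ + c₃ + c₄ + c₅ + c₆ + c₇ + c₈ + c₉), ?_⟩
  intro L ζ ζ' π A v Γ S hA hS hζ' hv hax
  set χ := conj (L.map (rename ζ)) with hχ
  have hS1 : 1 ≤ S := (size_pos A).trans ((size_le_psize hA).trans hS)
  have hLS : L.length ≤ S := (length_le_psize L).trans hS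
  have hW : (varsL L).toList.length ≤ S := by
    rw [Finset.length_toList]; exact (varsL_card L).trans hS
  have hpm : psize (L.map (rename ζ)) = psize L := by
    have : ∀ L : List Fm, psize (L.map (rename ζ)) = psize L := by
      intro L
      induction L with
      | nil => rfl
      | cons B L ih => rw [List.map_cons, psize_cons, psize_cons, ih, size_rename]
    exact this L
  have hχs : χ.size ≤ 5 * S := by
    rw [hχ, conj_size, hpm, List.length_map]; omega
  have hCs : ∀ C ∈ L, C.size ≤ S := fun C hC => (size_le_psize hC).trans hS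
  -- (1)
  have s1 : Ded F Γ ((varsL L).toList.map fun n =>
      imp (neg (var v)) (iff (var (ζ' n)) (var (ζ n)))) (S * c₁) := by
    refine (Ded.many _ (c₁ * 1) _ ?_).le (by nlinarith [Nat.mul_le_mul_right c₁ hW])
    intro n hn
    have := h₁ [var (ζ' n), var v, var (ζ (π n)), var (ζ n)] 1 le_rfl (by
      intro Z hZ; simp at hZ; rcases hZ with rfl | rfl | rfl | rfl <;> simp [size]) Γ (by
      intro Z hZ; simp only [List.mem_singleton] at hZ; subst hZ
      simpa [subst, asg, iff] using hax n (by simpa using hn))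
    exact this.sub (by simp [subst, asg, iff])
  have s2 : Ded F Γ ((varsL L).toList.map fun n =>
      imp (var v) (iff (var (ζ' n)) (var (ζ (π n))))) (S * c₂) := by
    refine (Ded.many _ (c₂ * 1) _ ?_).le (by nlinarith [Nat.mul_le_mul_right c₂ hW])
    intro n hn
    have := h₂ [var (ζ' n), var v, var (ζ (π n)), var (ζ n)] 1 le_rfl (by
      intro Z hZ; simp at hZ; rcases hZ with rfl | rfl | rfl | rfl <;> simp [size]) Γ (by
      intro Z hZ; simp only [List.mem_singleton] at hZ; subst hZ
      simpa [subst, asg, iff] using hax n (by simpa using hn))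
    exact this.sub (by simp [subst, asg, iff])
  have s12 := s1.append s2
  set G1 := (((varsL L).toList.map fun n =>
      imp (neg (var v)) (iff (var (ζ' n)) (var (ζ n)))) ++ ((varsL L).toList.map fun n =>
      imp (var v) (iff (var (ζ' n)) (var (ζ (π n)))))) with hG1
  -- (2), (3)
  have s3 : Ded F (Γ ∪ {B | B ∈ G1}) (L.map fun C => imp (neg (var v)) (C.rename ζ))
      (S * (c₃ * (2 * S) * S + c₄ * (2 * S))) := by
    refine (Ded.many _ (c₃ * (2 * S) * S + c₄ * (2 * S)) _ ?_).le (by gcongr)
    intro C hC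
    have t1 := h₃ (neg (var v)) C (fun n => var (ζ' n)) (fun n => var (ζ n)) (2 * S)
      (by simp [size]; omega)
      (by have := size_rename ζ' C; rw [rename] at this; have := hCs C hC; omega)
      (by have := size_rename ζ C; rw [rename] at this; have := hCs C hC; omega)
      (Γ ∪ {B | B ∈ G1}) (by
      intro n hn
      right
      simp only [hG1, Set.mem_ofPred_eq, List.mem_append, List.mem_map, Finset.mem_toList]
      left
      exact ⟨n, mem_varsL.2 ⟨C, hC, hn⟩, rfl⟩)
    have t2 := h₄ [neg (var v), C.rename ζ', C.rename ζ] (2 * S) (by omega) (by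
      intro Z hZ; simp at hZ; rcases hZ with rfl | rfl | rfl
      · simp [size]; omega
      · rw [size_rename]; have := hCs C hC; omega
      · rw [size_rename]; have := hCs C hC; omega)
      ((Γ ∪ {B | B ∈ G1}) ∪ {B | B ∈ [imp (neg (var v)) (iff (C.subst fun n => var (ζ' n))
        (C.subst fun n => var (ζ n)))]}) (by
      intro Z hZ; simp only [List.mem_cons, List.not_mem_nil, or_false] at hZ
      rcases hZ with rfl | rfl
      · left; left; simpa [subst, asg] using hζ' C hC
      · right; simp [subst, asg, iff, rename])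
    refine ((t1.cut t2).sub (by simp [subst, asg])).le ?_
    have := hCs C hC
    gcongr
  -- (4)
  set G2 := (L.map fun C => imp (neg (var v)) (C.rename ζ)) with hG2
  have s4 : Ded F ((Γ ∪ {B | B ∈ G1}) ∪ {B | B ∈ G2}) [imp (neg (var v)) χ]
      (c₅ * (5 * S) * (S + 1)) := by
    refine (h₅ (neg (var v)) (5 * S) _ (L.map (rename ζ)) (by simp [size]; omega) hχs ?_).le ?_
    · intro C hC
      obtain ⟨C, hC', rfl⟩ := List.mem_map.1 hC
      right
      simp only [hG2, Set.mem_ofPred_eq, List.mem_map]
      exact ⟨C, hC', rfl⟩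
    · rw [List.length_map]; gcongr
  have s5 : Ded F (((Γ ∪ {B | B ∈ G1}) ∪ {B | B ∈ G2}) ∪ {B | B ∈ [imp (neg (var v)) χ]})
      [var v] (c₆ * (5 * S)) := by
    have := h₆ [var v, χ] (5 * S) (by omega) (by
      intro Z hZ; simp at hZ; rcases hZ with rfl | rfl
      · simp [size]; omega
      · exact hχs) (((Γ ∪ {B | B ∈ G1}) ∪ {B | B ∈ G2}) ∪ {B | B ∈ [imp (neg (var v)) χ]}) (by
      intro Z hZ; simp only [List.mem_cons, List.not_mem_nil, or_false] at hZ
      rcases hZ with rfl | rfl
      · left; left; left; simpa [subst, asg, iff] using hv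
      · right; simp [subst, asg])
    exact this.sub (by simp [subst, asg])
  have s6 : Ded F Γ [var v] (S * c₁ + S * c₂ + (S * (c₃ * (2 * S) * S + c₄ * (2 * S)) +
      (c₅ * (5 * S) * (S + 1) + c₆ * (5 * S)))) := by
    exact s12.cut (s3.cut (s4.cut s5))
  -- (6)
  have s7 : Ded F (Γ ∪ {B | B ∈ [var v]}) [χ] (c₇ * (5 * S)) := by
    have := h₇ [var v, χ] (5 * S) (by omega) (by
      intro Z hZ; simp at hZ; rcases hZ with rfl | rfl
      · simp [size]; omega
      · exact hχs) (Γ ∪ {B | B ∈ [var v]}) (by
      intro Z hZ; simp only [List.mem_cons, List.not_mem_nil, or_false] at hZ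
      rcases hZ with rfl | rfl
      · left; simpa [subst, asg, iff] using hv
      · right; simp [subst, asg])
    exact this.sub (by simp [subst, asg])
  have s8 : Ded F ((Γ ∪ {B | B ∈ [var v]}) ∪ {B | B ∈ [χ]}) (L.map (rename ζ))
      (c₈ * (5 * S) * S) := by
    refine (h₈ (5 * S) (L.map (rename ζ)) _ hχs (by right; simp [hχ])).le ?_
    rw [List.length_map]; gcongr
  -- (7)
  have s9 : Ded F (Γ ∪ {B | B ∈ [var v]}) [(A.rename π).rename ζ]
      (S * c₂ + (c₃ * (2 * S) * S + (c₄ * (2 * S) + c₉ * (2 * S)))) := by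
    have hAs := hCs A hA
    have t0 : Ded F (Γ ∪ {B | B ∈ [var v]}) _ _ := s2.mono Set.subset_union_left le_rfl
    refine t0.cut ?_
    have t1 := h₃ (var v) A (fun n => var (ζ' n)) (fun n => var (ζ (π n))) (2 * S)
      (by simp [size]; omega)
      (by have := size_rename ζ' A; rw [rename] at this; omega)
      (by have := size_rename (fun n => ζ (π n)) A; rw [rename] at this; omega)
      ((Γ ∪ {B | B ∈ [var v]}) ∪ {B | B ∈ ((varsL L).toList.map fun n =>
      imp (var v) (iff (var (ζ' n)) (var (ζ (π n)))))}) (by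
      intro n hn
      right
      simp only [Set.mem_ofPred_eq, List.mem_map, Finset.mem_toList]
      exact ⟨n, mem_varsL.2 ⟨A, hA, hn⟩, rfl⟩)
    refine (t1.le (show _ ≤ c₃ * (2 * S) * S by gcongr)).cut ?_
    have hsz : (A.rename fun n => ζ (π n)).size ≤ 2 * S := by rw [size_rename]; omega
    have hsz' : (A.rename ζ').size ≤ 2 * S := by rw [size_rename]; omega
    have t2 := h₄ [var v, A.rename ζ', A.rename fun n => ζ (π n)] (2 * S) (by omega) (by
      intro Z hZ; simp at hZ; rcases hZ with rfl | rfl | rfl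
      · simp [size]; omega
      · exact hsz'
      · exact hsz)
      (((Γ ∪ {B | B ∈ [var v]}) ∪ {B | B ∈ ((varsL L).toList.map fun n =>
      imp (var v) (iff (var (ζ' n)) (var (ζ (π n)))))}) ∪
        {B | B ∈ [imp (var v) (iff (A.subst fun n => var (ζ' n))
        (A.subst fun n => var (ζ (π n))))]}) (by
      intro Z hZ; simp only [List.mem_cons, List.not_mem_nil, or_false] at hZ
      rcases hZ with rfl | rfl
      · left; left; left; simpa [subst, asg] using hζ' A hA
      · right; simp [subst, asg, iff, rename])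
    refine t2.cut ?_
    have t3 := h₉ [var v, A.rename fun n => ζ (π n)] (2 * S) (by omega) (by
      intro Z hZ; simp at hZ; rcases hZ with rfl | rfl
      · simp [size]; omega
      · exact hsz)
      ((((Γ ∪ {B | B ∈ [var v]}) ∪ {B | B ∈ ((varsL L).toList.map fun n =>
      imp (var v) (iff (var (ζ' n)) (var (ζ (π n)))))}) ∪
        {B | B ∈ [imp (var v) (iff (A.subst fun n => var (ζ' n))
        (A.subst fun n => var (ζ (π n))))]}) ∪ {B | B ∈ [(imp (var 0) (var 2)).subst
          (asg [var v, A.rename ζ', A.rename fun n => ζ (π n)])]}) (by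
      intro Z hZ; simp only [List.mem_cons, List.not_mem_nil, or_false] at hZ
      rcases hZ with rfl | rfl
      · left; left; left; right; simp [subst, asg]
      · right; simp [subst, asg])
    exact t3.sub (by simp [subst, asg, rename_rename])
  have fin := s6.cut (s9.append (s7.cut s8))
  refine (fin.sub (by simp)).le ?_
  have p2 : S ≤ S ^ 3 := by nlinarith [Nat.pow_le_pow_right hS1 (show 1 ≤ 3 by norm_num)]
  have p3 : S ^ 2 ≤ S ^ 3 := Nat.pow_le_pow_right hS1 (by norm_num)
  have b1 : S * c₁ ≤ c₁ * S ^ 3 := by rw [mul_comm]; exact Nat.mul_le_mul_left _ p2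
  have b2 : S * c₂ ≤ c₂ * S ^ 3 := by rw [mul_comm]; exact Nat.mul_le_mul_left _ p2
  have b3 : S * (c₃ * (2 * S) * S + c₄ * (2 * S)) ≤ 2 * (c₃ * S ^ 3) + 2 * (c₄ * S ^ 3) := by
    have e : S * (c₃ * (2 * S) * S + c₄ * (2 * S)) = 2 * (c₃ * S ^ 3) + 2 * (c₄ * S ^ 2) := by ring
    rw [e]
    have e1 := Nat.mul_le_mul_left c₄ p3
    omega
  have b4 : c₅ * (5 * S) * (S + 1) ≤ 10 * (c₅ * S ^ 3) := by
    have e : c₅ * (5 * S) * (S + 1) = 5 * (c₅ * S ^ 2) + 5 * (c₅ * S) := by ring
    have e1 := Nat.mul_le_mul_left c₅ p2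
    have e2 := Nat.mul_le_mul_left c₅ p3
    omega
  have b5 : c₆ * (5 * S) ≤ 5 * (c₆ * S ^ 3) := by
    have e : c₆ * (5 * S) = 5 * (c₆ * S) := by ring
    have e1 := Nat.mul_le_mul_left c₆ p2
    omega
  have b6 : c₃ * (2 * S) * S ≤ 2 * (c₃ * S ^ 3) := by
    have e : c₃ * (2 * S) * S = 2 * (c₃ * S ^ 2) := by ring
    have e1 := Nat.mul_le_mul_left c₃ p3
    omega
  have b7 : c₄ * (2 * S) ≤ 2 * (c₄ * S ^ 3) := by
    have e : c₄ * (2 * S) = 2 * (c₄ * S) := by ring
    have e1 := Nat.mul_le_mul_left c₄ p2
    omega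
  have b8 : c₉ * (2 * S) ≤ 2 * (c₉ * S ^ 3) := by
    have e : c₉ * (2 * S) = 2 * (c₉ * S) := by ring
    have e1 := Nat.mul_le_mul_left c₉ p2
    omega
  have b9 : c₇ * (5 * S) ≤ 5 * (c₇ * S ^ 3) := by
    have e : c₇ * (5 * S) = 5 * (c₇ * S) := by ring
    have e1 := Nat.mul_le_mul_left c₇ p2
    omega
  have b10 : c₈ * (5 * S) * S ≤ 5 * (c₈ * S ^ 3) := by
    have e : c₈ * (5 * S) * S = 5 * (c₈ * S ^ 2) := by ring
    have e1 := Nat.mul_le_mul_left c₈ p3
    omega
  have e : 10 * (c₁ + c₂ + c₃ + c₄ + c₅ + c₆ + c₇ + c₈ + c₉) * S ^ 3 = 10 * (c₁ * S ^ 3) +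
    10 * (c₂ * S ^ 3) + 10 * (c₃ * S ^ 3) + 10 * (c₄ * S ^ 3) + 10 * (c₅ * S ^ 3) +
    10 * (c₆ * S ^ 3) + 10 * (c₇ * S ^ 3) + 10 * (c₈ * S ^ 3) + 10 * (c₉ * S ^ 3) := by ring
  rw [e]
  omega

theorem ef_len {F : List Rule} {A : Fm} {k : ℕ} {L : List Fm} (h : EFProof F A k L) :
    ∀ {k' : ℕ}, k = k' → EFProof F A k' L := by
  rintro k' rfl
  exact h

/-- adding the extension axioms of one stage -/
theorem add_ext (F : List Rule) (A : Fm) (K : ℕ) (L0 : List Fm) (ψ : ℕ → Fm) (k : ℕ)
    (h0 : EFProof F A k L0) (hL0 : ∀ C ∈ L0, ∀ n ∈ C.vars, n < K) (hA : ∀ n ∈ A.vars, n < K)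
    (W : List ℕ) (hW : W.Nodup) (hψ : ∀ v ∈ W, ∀ n ∈ (ψ v).vars, n < K) :
    EFProof F A (k + W.length) ((W.map fun v => iff (var (K + v)) (ψ v)) ++ L0) := by
  induction W with
  | nil => simpa using h0
  | cons v W ih =>
    have h1 := ih hW.of_cons (fun w hw => hψ w (by simp [hw]))
    have h2 : EFProof F A (k + W.length + 1)
        (iff (var (K + v)) (ψ v) :: ((W.map fun v => iff (var (K + v)) (ψ v)) ++ L0)) := by
      refine EFProof.ext h1 ?_ ?_ ?_
      · intro h
        have := hψ v (by simp) _ h
        omega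
      · intro C hC
        rcases List.mem_append.1 hC with hC | hC
        · obtain ⟨w, hw, rfl⟩ := List.mem_map.1 hC
          have hvw : v ≠ w := by
            rintro rfl
            exact (List.nodup_cons.1 hW).1 hw
          simp only [iff, vars, Finset.mem_union, Finset.mem_singleton]
          intro h
          have h3 : K + v ∉ (ψ w).vars := fun h => by
            have := hψ w (by simp [hw]) _ h
            omega
          rcases h with (h | h) | (h | h)
          · omega
          · exact h3 h
          · exact h3 h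
          · omega
        · intro h
          have := hL0 C hC _ h
          omega
      · intro h
        have := hA _ h
        omega
    simpa [List.length_cons, Nat.add_assoc] using h2

theorem psize_map_const {ι : Type} (W : List ι) (f : ι → Fm) (m : ℕ) (h : ∀ v, (f v).size = m) :
    psize (W.map f) = m * W.length := by
  induction W with
  | nil => simp [psize]
  | cons v W ih => rw [List.map_cons, psize_cons, ih, h, List.length_cons]; ring

/-- The simulation of a proof in Frege + permutation. -/
theorem sim_core (F : List Rule) (hF : IsFrege F) : ∃ c : ℕ, ∀ (S : ℕ) (L : List Fm),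
    Pr F PermRule L → psize L ≤ S → ∀ (A : Fm) (K k : ℕ) (ζ : ℕ → ℕ) (L0 : List Fm),
    EFProof F A k L0 → (∀ C ∈ L0, ∀ n ∈ C.vars, n < K) → (∀ n ∈ A.vars, n < K) →
    (∀ n ∈ varsL L, ζ n < K) → 0 < K →
    ∃ k' D, EFProof F A k' (D ++ L0) ∧ (∀ C ∈ L, C.rename ζ ∈ D ++ L0) ∧
      psize D ≤ L.length * (c * S ^ 3) := by
  obtain ⟨c, hc⟩ := stage_ded F hF
  refine ⟨c + 60, fun S L hL => ?_⟩
  induction hL with
  | nil =>
    intro _ A K k ζ L0 h0 _ _ _ _
    exact ⟨k, [], h0, by simp, by simp [psize]⟩
  | @frege L B hL hB ih =>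
    intro hS A K k ζ L0 h0 h1 h2 h3 h4
    rw [psize_cons] at hS
    obtain ⟨k', D, e1, e2, e3⟩ := ih (by omega) A K k ζ L0 h0 h1 h2 (fun n hn => h3 n (by
      rw [mem_varsL] at hn ⊢
      obtain ⟨C, hC, hn⟩ := hn
      exact ⟨C, by simp [hC], hn⟩)) h4
    have hstep : FregeStep F (D ++ L0) (B.rename ζ) := by
      have := FregeStep.map hB (fun n => var (ζ n))
      refine this.mono ?_
      intro C hC
      obtain ⟨C', hC', rfl⟩ := List.mem_map.1 hC
      exact e2 C' hC'
    refine ⟨k', B.rename ζ :: D, EFProof.rule e1 hstep, ?_, ?_⟩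
    · intro C hC
      rcases List.mem_cons.1 hC with rfl | hC
      · simp
      · exact List.mem_cons_of_mem _ (e2 C hC)
    · rw [psize_cons, size_rename, List.length_cons]
      have hS1 : 1 ≤ S := (size_pos B).trans (by omega)
      have p2 : S ≤ S ^ 3 := by nlinarith [Nat.pow_le_pow_right hS1 (show 1 ≤ 3 by norm_num)]
      have : B.size ≤ (c + 60) * S ^ 3 := by
        calc B.size ≤ 1 * S := by omega
          _ ≤ (c + 60) * S ^ 3 := by gcongr; omega
      nlinarith
  | @rule L A' B hL hA' hX ih =>
    intro hS A K k ζ L0 h0 h1 h2 h3 h4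
    rw [psize_cons] at hS
    obtain ⟨π, hπ, rfl⟩ := hX
    have hS1 : 1 ≤ S := (size_pos (A'.rename π)).trans (by omega)
    set W := (varsL L).toList with hWdef
    have hζ : ∀ n ∈ varsL L, ζ n < K := fun n hn => h3 n (by
      rw [mem_varsL] at hn ⊢
      obtain ⟨C, hC, hn⟩ := hn
      exact ⟨C, by simp [hC], hn⟩)
    have hζπ : ∀ n ∈ varsL L, ζ (π n) < K := by
      intro n hn
      by_cases hnA : n ∈ A'.vars
      · apply h3
        rw [mem_varsL]
        refine ⟨A'.rename π, by simp, ?_⟩
        rw [vars_rename]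
        exact Finset.mem_image_of_mem _ hnA
      · rw [hπ n hnA]; exact hζ n hn
    set χ := conj (L.map (rename ζ)) with hχ
    have hχv : ∀ n ∈ χ.vars, n < K := by
      have : ∀ M : List Fm, (∀ C ∈ M, ∀ n ∈ C.vars, n < K) → ∀ n ∈ (conj M).vars, n < K := by
        intro M
        induction M with
        | nil => intro _ n hn; simp [conj, vars] at hn; omega
        | cons C M ih =>
          intro h n hn
          simp only [conj, vars, Finset.mem_union] at hn
          rcases hn with hn | hn
          · exact h C (by simp) n hn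
          · exact ih (fun D hD => h D (by simp [hD])) n hn
      apply this
      intro C hC n hn
      obtain ⟨C', hC', rfl⟩ := List.mem_map.1 hC
      rw [vars_rename] at hn
      obtain ⟨m, hm, rfl⟩ := Finset.mem_image.1 hn
      exact hζ m (mem_varsL.2 ⟨C', hC', hm⟩)
    -- the extension axiom for the conjunction
    have g1 : EFProof F A (k + 1) (iff (var K) χ :: L0) := by
      refine EFProof.ext h0 ?_ ?_ ?_
      · intro h; have := hχv _ h; omega
      · intro C hC h; have := h1 C hC _ h; omega
      · intro h; have := h2 _ h; omega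
    let ψ : ℕ → Fm := fun n => or (and (var K) (var (ζ (π n)))) (and (neg (var K)) (var (ζ n)))
    have g1v : ∀ C ∈ iff (var K) χ :: L0, ∀ n ∈ C.vars, n < K + 1 := by
      intro C hC n hn
      rcases List.mem_cons.1 hC with rfl | hC
      · simp only [iff, vars, Finset.mem_union, Finset.mem_singleton] at hn
        rcases hn with (hn | hn) | (hn | hn)
        · omega
        · have := hχv n hn; omega
        · have := hχv n hn; omega
        · omega
      · have := h1 C hC n hn; omega
    have g2 := add_ext F A (K + 1) _ ψ (k + 1) g1 g1v (fun n hn => by have := h2 n hn; omega)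
      W (Finset.nodup_toList _) (by
      intro v hv n hn
      have hv' : v ∈ varsL L := by simpa [hWdef] using hv
      simp only [ψ, vars, Finset.mem_union, Finset.mem_singleton] at hn
      have a1 := hζ v hv'
      have a2 := hζπ v hv'
      omega)
    set L1 := (W.map fun v => iff (var (K + 1 + v)) (ψ v)) ++ iff (var K) χ :: L0 with hL1
    -- a bound for all variables
    obtain ⟨K', hK'⟩ : ∃ K', K + 1 ≤ K' ∧ ∀ v ∈ varsL L, K + 1 + v < K' := by
      refine ⟨K + 1 + (varsL L).sup id + 1, by omega, fun v hv => ?_⟩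
      have := Finset.le_sup (f := id) hv
      simp only [id] at this
      omega
    obtain ⟨k', D, e1, e2, e3⟩ := ih (by omega) A K' _ (fun n => K + 1 + n) L1 g2 (by
      intro C hC n hn
      rcases List.mem_append.1 hC with hC | hC
      · obtain ⟨v, hv, rfl⟩ := List.mem_map.1 hC
        have hv' : v ∈ varsL L := by simpa [hWdef] using hv
        have a1 := hζ v hv'
        have a2 := hζπ v hv'
        have a3 := hK'.2 v hv'
        have a4 := hK'.1
        simp only [ψ, iff, vars, Finset.mem_union, Finset.mem_singleton] at hn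
        omega
      · have := g1v C hC n hn
        have := hK'.1
        omega) (fun n hn => by have := h2 n hn; have := hK'.1; omega) hK'.2
      (by have := hK'.1; omega)
    have sd := hc L ζ (fun n => K + 1 + n) π A' K {B | B ∈ D ++ L1} S hA' (by omega) e2
      (by
        show iff (var K) χ ∈ D ++ L1
        simp [hL1]) (by
        intro n hn
        show _ ∈ D ++ L1
        refine List.mem_append_right _ (List.mem_append_left _ ?_)
        exact List.mem_map.2 ⟨n, by simpa [hWdef] using hn, rfl⟩)
    obtain ⟨D', f1, f2, f3⟩ := sd (D ++ L1) (fun B hB => hB)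
    have e4 := EFProof.ext' e1 f1
    refine ⟨k', D' ++ D ++ ((W.map fun v => iff (var (K + 1 + v)) (ψ v)) ++ [iff (var K) χ]),
      ?_, ?_, ?_⟩
    · simpa [hL1, List.append_assoc] using e4
    · intro C hC
      have : C.rename ζ ∈ D' ++ (D ++ L1) := by
        rcases List.mem_cons.1 hC with rfl | hC
        · exact f2 _ (by simp)
        · exact f2 _ (List.mem_cons_of_mem _ (List.mem_map.2 ⟨C, hC, rfl⟩))
      simpa [hL1, List.append_assoc] using this
    · rw [psize_append, psize_append, psize_append]
      have w1 : psize (W.map fun v => iff (var (K + 1 + v)) (ψ v)) ≤ 21 * S := by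
        have hWl : W.length ≤ S := by
          rw [hWdef, Finset.length_toList]
          exact (varsL_card L).trans (by omega)
        have := psize_map_const W (fun v => iff (var (K + 1 + v)) (ψ v)) 21 (by
          intro v; simp [ψ, iff, size])
        omega
      have w2 : psize [iff (var K) χ] ≤ 15 * S := by
        have hpm : psize (L.map (rename ζ)) = psize L := by
          have : ∀ L : List Fm, psize (L.map (rename ζ)) = psize L := by
            intro L
            induction L with
            | nil => rfl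
            | cons B L ih => rw [List.map_cons, psize_cons, psize_cons, ih, size_rename]
          exact this L
        have hLl : L.length ≤ psize L := length_le_psize L
        simp only [psize, List.map_cons, List.map_nil, List.sum_cons, List.sum_nil, iff, size, hχ,
          conj_size, List.length_map]
        simp only [psize] at hpm hLl hS
        omega
      rw [List.length_cons]
      have p2 : S ≤ S ^ 3 := by nlinarith [Nat.pow_le_pow_right hS1 (show 1 ≤ 3 by norm_num)]
      have e : (L.length + 1) * ((c + 60) * S ^ 3) = L.length * ((c + 60) * S ^ 3) + c * S ^ 3 +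
        60 * S ^ 3 := by ring
      rw [e]
      omega

/-- truncation of an extended Frege proof at an occurrence of the proved formula -/
theorem ef_trunc {F : List Rule} {A : Fm} {k : ℕ} {L : List Fm} (h : EFProof F A k L)
    (hA : A ∈ L) : HasEF F A (psize L) := by
  induction h with
  | nil => simp at hA
  | @rule k L B hL hB ih =>
    rcases List.mem_cons.1 hA with rfl | h
    · exact ⟨k, L, EFProof.rule hL hB, le_rfl⟩
    · obtain ⟨k', L', e1, e2⟩ := ih h
      exact ⟨k', L', e1, e2.trans (by rw [psize_cons]; omega)⟩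
  | @ext k L q φ hL hq hqL hqA ih =>
    rcases List.mem_cons.1 hA with rfl | h
    · exfalso; apply hqA; simp [iff, vars]
    · obtain ⟨k', L', e1, e2⟩ := ih h
      exact ⟨k', L', e1, e2.trans (by rw [psize_cons]; omega)⟩

theorem pow_bound {a S c k : ℕ} (hS : 1 ≤ S) (h : a ≤ c * S ^ k) : a ≤ S ^ (c + k) + (c + k) := by
  rcases Nat.lt_or_ge 1 S with h1 | h1
  · have h2 : c ≤ S ^ c := (Nat.lt_pow_self h1).le
    calc a ≤ c * S ^ k := h
      _ ≤ S ^ c * S ^ k := Nat.mul_le_mul_right _ h2
      _ = S ^ (c + k) := by rw [pow_add]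
      _ ≤ _ := Nat.le_add_right _ _
  · have : S = 1 := le_antisymm h1 hS
    subst this
    simp at h ⊢
    omega

/-- Extended Frege polynomially simulates Frege + permutation. -/
theorem ef_sim_perm (F : List Rule) (hF : IsFrege F) :
    ∃ c : ℕ, ∀ (A : Fm) (s : ℕ), Has F PermRule A s → HasEF F A (c * s ^ 4) := by
  obtain ⟨c, hc⟩ := sim_core F hF
  refine ⟨c, fun A s h => ?_⟩
  obtain ⟨L, h1, h2⟩ := h
  have hA : A.size ≤ s := by rw [psize_cons] at h2; omega
  have hs : 1 ≤ s := (size_pos A).trans hA
  obtain ⟨K, hK1, hK2⟩ : ∃ K, 0 < K ∧ ∀ n ∈ varsL (A :: L), n < K := by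
    refine ⟨(varsL (A :: L)).sup id + 1, by omega, fun v hv => ?_⟩
    have := Finset.le_sup (f := id) hv
    simp only [id] at this
    omega
  obtain ⟨k', D, e1, e2, e3⟩ := hc s (A :: L) h1 h2 A K 0 (fun n => n) [] EFProof.nil (by simp)
    (fun n hn => hK2 n (mem_varsL.2 ⟨A, by simp, hn⟩)) hK2 hK1
  rw [List.append_nil] at e1 e2
  have hAD : A ∈ D := by
    have := e2 A (by simp)
    rwa [rename_eq_self (fun n _ => rfl)] at this
  obtain ⟨k, L', f1, f2⟩ := ef_trunc e1 hAD
  refine ⟨k, L', f1, f2.trans (e3.trans ?_)⟩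
  have : (A :: L).length ≤ s := (length_le_psize _).trans h2
  calc (A :: L).length * (c * s ^ 3) ≤ s * (c * s ^ 3) := Nat.mul_le_mul_right _ this
    _ = c * s ^ 4 := by ring

/-! ### closure of extended Frege under substitution -/

theorem vars_subst_lt {σ : ℕ → Fm} {K : ℕ} {A : Fm} (h : ∀ n ∈ A.vars, ∀ m ∈ (σ n).vars, m < K) :
    ∀ m ∈ (A.subst σ).vars, m < K := by
  induction A with
  | var n => intro m hm; exact h n (by simp [vars]) m hm
  | neg A ih => exact ih h
  | and A B iA iB =>
    intro m hm
    simp only [subst, vars, Finset.mem_union] at hm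
    rcases hm with hm | hm
    · exact iA (fun n hn => h n (by simp [vars, hn])) m hm
    · exact iB (fun n hn => h n (by simp [vars, hn])) m hm
  | or A B iA iB =>
    intro m hm
    simp only [subst, vars, Finset.mem_union] at hm
    rcases hm with hm | hm
    · exact iA (fun n hn => h n (by simp [vars, hn])) m hm
    · exact iB (fun n hn => h n (by simp [vars, hn])) m hm
  | imp A B iA iB =>
    intro m hm
    simp only [subst, vars, Finset.mem_union] at hm
    rcases hm with hm | hm
    · exact iA (fun n hn => h n (by simp [vars, hn])) m hm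
    · exact iB (fun n hn => h n (by simp [vars, hn])) m hm

theorem mem_vars_subst {σ : ℕ → Fm} {A : Fm} {m : ℕ} (h : m ∈ (A.subst σ).vars) :
    ∃ n ∈ A.vars, m ∈ (σ n).vars := by
  induction A with
  | var n => exact ⟨n, by simp [vars], h⟩
  | neg A ih => exact ih h
  | and A B iA iB =>
    simp only [subst, vars, Finset.mem_union] at h
    rcases h with h | h
    · obtain ⟨n, h1, h2⟩ := iA h; exact ⟨n, by simp [vars, h1], h2⟩
    · obtain ⟨n, h1, h2⟩ := iB h; exact ⟨n, by simp [vars, h1], h2⟩
  | or A B iA iB =>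
    simp only [subst, vars, Finset.mem_union] at h
    rcases h with h | h
    · obtain ⟨n, h1, h2⟩ := iA h; exact ⟨n, by simp [vars, h1], h2⟩
    · obtain ⟨n, h1, h2⟩ := iB h; exact ⟨n, by simp [vars, h1], h2⟩
  | imp A B iA iB =>
    simp only [subst, vars, Finset.mem_union] at h
    rcases h with h | h
    · obtain ⟨n, h1, h2⟩ := iA h; exact ⟨n, by simp [vars, h1], h2⟩
    · obtain ⟨n, h1, h2⟩ := iB h; exact ⟨n, by simp [vars, h1], h2⟩

/-- extended Frege proofs are closed under substitution -/
theorem ef_subst (F : List Rule) (A : Fm) (σ : ℕ → Fm) (s : ℕ) (h : HasEF F A s) :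
    HasEF F (A.subst σ) (s * (A.subst σ).size) := by
  obtain ⟨k, L, h1, h2⟩ := h
  obtain ⟨K, hK⟩ : ∃ K, ∀ n ∈ A.vars, ∀ m ∈ (σ n).vars, m < K := by
    refine ⟨(A.vars.biUnion fun n => (σ n).vars).sup id + 1, fun n hn m hm => ?_⟩
    have hm' : m ∈ A.vars.biUnion fun n => (σ n).vars := Finset.mem_biUnion.2 ⟨n, hn, hm⟩
    have := Finset.le_sup (f := id) hm'
    simp only [id] at this
    omega
  let τ : ℕ → Fm := fun n => if n ∈ A.vars then σ n else var (K + n)
  have hA : A.subst τ = A.subst σ := subst_congr fun n hn => if_pos hn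
  have hτ : ∀ n m, n ∉ A.vars → n ≠ m → K + n ∉ (τ m).vars := by
    intro n m hn hnm h
    by_cases hm : m ∈ A.vars
    · simp only [τ, if_pos hm] at h
      have := hK m hm _ h
      omega
    · simp only [τ, if_neg hm, vars, Finset.mem_singleton] at h
      omega
  have key : ∀ (k : ℕ) (L : List Fm), EFProof F A k L →
      EFProof F (A.subst σ) k (L.map (Fm.subst τ)) := by
    intro k L hL
    induction hL with
    | nil => exact EFProof.nil
    | rule _ hB ih => exact EFProof.rule ih (FregeStep.map hB τ)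
    | @ext k L q φ hL hq hqL hqA ih =>
      have e : (iff (var q) φ).subst τ = iff (var (K + q)) (φ.subst τ) := by
        simp [iff, subst, τ, if_neg hqA]
      rw [List.map_cons, e]
      refine EFProof.ext ih ?_ ?_ ?_
      · intro h
        obtain ⟨n, hn, hn'⟩ := mem_vars_subst h
        exact hτ q n hqA (by rintro rfl; exact hq hn) hn'
      · intro C hC h
        obtain ⟨C', hC', rfl⟩ := List.mem_map.1 hC
        obtain ⟨n, hn, hn'⟩ := mem_vars_subst h
        exact hτ q n hqA (by rintro rfl; exact hqL C' hC' hn) hn'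
      · intro h
        rw [← hA] at h
        obtain ⟨n, hn, hn'⟩ := mem_vars_subst h
        exact hτ q n hqA (by rintro rfl; exact hqA hn) hn'
  have h3 := key k _ h1
  rw [List.map_cons, hA] at h3
  refine ⟨k, _, h3, ?_⟩
  have h4 := psize_map_le (σ := τ) (M := (A.subst σ).size) (size_pos _) (A :: L) (by
    intro B _ n _
    by_cases hn : n ∈ A.vars
    · simp only [τ, if_pos hn]
      exact size_le_subst hn
    · simp only [τ, if_neg hn, size]
      exact size_pos _)
  rw [List.map_cons, hA] at h4
  exact h4.trans (Nat.mul_le_mul_right _ h2)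

end Pool.Agent.V8H46.FP
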