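import Pool.Agent.V8H46.FP.Cases
import Pool.Agent.V8H46.FP.AuxDefs

/-!
# Auxiliary variables stored in the positions of tokens
-/

set_option autoImplicit false

namespace Pool.Agent.V8H46.FP

open Pool.Agent.H555R2.PF Pool.Agent.H555R2.PF.Fm

/-- a positive or a negative literal -/
def lit (s : Bool) (v : ℕ) : Fm := if s = true then var v else neg (var v)

theorem lit_size (s : Bool) (v : ℕ) : (lit s v).size ≤ 2 := by
  unfold lit; split_ifs <;> simp [size]

theorem lit_rename (s : Bool) (v : ℕ) (f : ℕ → ℕ) : (lit s v).rename f = lit s (f v) := by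
  unfold lit rename; split_ifs <;> simp [subst]

theorem lit_vars (s : Bool) (v : ℕ) : (lit s v).vars = {v} := by
  unfold lit; split_ifs <;> simp [vars]

/-- the `k`-th bit of the position of the token -/
def bt (K k : ℕ) : Fm := dj (((List.range K).filter fun b => b.testBit k).map var)

theorem bt_size (K k : ℕ) : (bt K k).size ≤ 2 * K + 4 := by
  rw [bt, dj_size, List.length_map]
  have h1 := List.length_filter_le (fun b : ℕ => b.testBit k) (List.range K)
  rw [List.length_range] at h1
  have h2 := psize_map_le' ((List.range K).filter fun b => b.testBit k) var 1 (by simp [size])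
  omega

theorem bt_eval (K k : ℕ) (v : ℕ → Prop) :
    (bt K k).eval v ↔ ∃ a < K, a.testBit k = true ∧ v a := by
  rw [bt, dj_eval]
  simp only [List.mem_map, List.mem_filter, List.mem_range, exists_exists_and_eq_and, eval]
  constructor
  · rintro ⟨a, ⟨h1, h2⟩, h3⟩; exact ⟨a, h1, h2, h3⟩
  · rintro ⟨a, h1, h2, h3⟩; exact ⟨a, ⟨h1, h2⟩, h3⟩

theorem dj_vars {L : List Fm} {n : ℕ} (h : n ∈ (dj L).vars) : n = 0 ∨ ∃ C ∈ L, n ∈ C.vars := by
  induction L with
  | nil => simp [dj, ff, vars] at h; exact Or.inl h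
  | cons C L ih =>
    simp only [dj, vars, Finset.mem_union] at h
    rcases h with h | h
    · exact Or.inr ⟨C, by simp, h⟩
    · rcases ih h with h | ⟨D, hD, h⟩
      · exact Or.inl h
      · exact Or.inr ⟨D, by simp [hD], h⟩

theorem cj_vars {z : ℕ} {L : List Fm} {n : ℕ} (h : n ∈ (cj z L).vars) :
    n = z ∨ ∃ C ∈ L, n ∈ C.vars := by
  induction L with
  | nil => simp [cj, vars] at h; exact Or.inl h
  | cons C L ih =>
    simp only [cj, vars, Finset.mem_union] at h
    rcases h with h | h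
    · exact Or.inr ⟨C, by simp, h⟩
    · rcases ih h with h | ⟨D, hD, h⟩
      · exact Or.inl h
      · exact Or.inr ⟨D, by simp [hD], h⟩

theorem cj_vars_of {z : ℕ} {L : List Fm} {n : ℕ} {C : Fm} (hC : C ∈ L) (h : n ∈ C.vars) :
    n ∈ (cj z L).vars := by
  induction L with
  | nil => simp at hC
  | cons D L ih =>
    simp only [cj, vars, Finset.mem_union]
    rcases List.mem_cons.1 hC with rfl | hC
    · exact Or.inl h
    · exact Or.inr (ih hC)

theorem dj_vars_of {L : List Fm} {n : ℕ} {C : Fm} (hC : C ∈ L) (h : n ∈ C.vars) :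
    n ∈ (dj L).vars := by
  induction L with
  | nil => simp at hC
  | cons D L ih =>
    simp only [dj, vars, Finset.mem_union]
    rcases List.mem_cons.1 hC with rfl | hC
    · exact Or.inl h
    · exact Or.inr (ih hC)

theorem bt_vars {K k n : ℕ} (hK : 0 < K) (h : n ∈ (bt K k).vars) : n < K := by
  rcases dj_vars h with rfl | ⟨C, hC, h⟩
  · exact hK
  · obtain ⟨b, hb, rfl⟩ := List.mem_map.1 hC
    simp only [vars, Finset.mem_singleton] at h
    subst h
    simpa using (List.mem_filter.1 hb).1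

theorem hot_vars {K b n : ℕ} (hK : 0 < K) (h : n ∈ (hot K b).vars) : n < K := by
  rcases cj_vars h with rfl | ⟨C, hC, h⟩
  · exact hK
  · obtain ⟨a, ha, rfl⟩ := List.mem_map.1 hC
    have : n = a := by
      split_ifs at h <;> simpa [vars] using h
    subst this
    simpa using ha

theorem val_vars {K n : ℕ} (hK : 0 < K) (h : n ∈ (val K).vars) : n < K := by
  rcases dj_vars h with rfl | ⟨C, hC, h⟩
  · exact hK
  · obtain ⟨b, hb, rfl⟩ := List.mem_map.1 hC
    exact hot_vars hK h

theorem val_vars_of {K n : ℕ} (h : n < K) : n ∈ (val K).vars := by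
  have h0 : 0 < K := by omega
  refine dj_vars_of (List.mem_map.2 ⟨0, List.mem_range.2 h0, rfl⟩) ?_
  refine cj_vars_of (List.mem_map.2 ⟨n, List.mem_range.2 h, rfl⟩) ?_
  split_ifs <;> simp [vars]

/-! ### bits -/

theorem xor_lt {c k b : ℕ} (hk : k ≤ c) (hb : b < 2 ^ (c + 1)) : b ^^^ 2 ^ k < 2 ^ (c + 1) :=
  Nat.xor_lt_two_pow hb (Nat.pow_lt_pow_right (by norm_num) (by omega))

theorem xor_xor (b k : ℕ) : (b ^^^ 2 ^ k) ^^^ 2 ^ k = b := by
  rw [Nat.xor_assoc, Nat.xor_self, Nat.xor_zero]

theorem testBit_flip (b k j : ℕ) : (b ^^^ 2 ^ k).testBit j = (b.testBit j ^^ decide (k = j)) := by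
  rw [Nat.testBit_xor, Nat.testBit_two_pow]

theorem bt_flip_eval {c k j b : ℕ} (hk : k ≤ c) (hb : b < 2 ^ (c + 1)) :
    ((bt (2 ^ (c + 1)) j).rename fun a => a ^^^ 2 ^ k).eval (fun a => a = b) ↔
      (b ^^^ 2 ^ k).testBit j = true := by
  rw [rename, eval_subst, bt_eval]
  simp only [eval]
  constructor
  · rintro ⟨a, _, h2, h3⟩
    rw [← h3, xor_xor]; exact h2
  · intro h
    exact ⟨b ^^^ 2 ^ k, xor_lt hk hb, h, xor_xor b k⟩

theorem bt_hot_eval {K j b : ℕ} (hb : b < K) :
    (bt K j).eval (fun a => a = b) ↔ b.testBit j = true := by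
  rw [bt_eval]
  constructor
  · rintro ⟨a, _, h2, rfl⟩; exact h2
  · intro h; exact ⟨b, hb, h, rfl⟩

theorem exists_perm (c k : ℕ) (hk : k ≤ c) (f : ℕ → ℕ)
    (hf : ∀ a < 2 ^ (c + 1), ∀ b < 2 ^ (c + 1), f a = f b → a = b) :
    ∃ π : Equiv.Perm ℕ, (∀ b < 2 ^ (c + 1), π (f b) = f (b ^^^ 2 ^ k)) ∧
      ∀ v, (∀ b < 2 ^ (c + 1), v ≠ f b) → π v = v := by
  let e : Equiv.Perm (Fin (2 ^ (c + 1))) :=
    { toFun := fun b => ⟨b.1 ^^^ 2 ^ k, xor_lt hk b.2⟩
      invFun := fun b => ⟨b.1 ^^^ 2 ^ k, xor_lt hk b.2⟩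
      left_inv := fun b => Fin.ext (xor_xor b.1 k)
      right_inv := fun b => Fin.ext (xor_xor b.1 k) }
  let ι : Fin (2 ^ (c + 1)) ↪ ℕ := ⟨fun b => f b.1, fun a b h => Fin.ext (hf a.1 a.2 b.1 b.2 h)⟩
  refine ⟨e.viaEmbedding ι, ?_, ?_⟩
  · intro b hb
    have := Equiv.Perm.viaEmbedding_apply e ι ⟨b, hb⟩
    exact this
  · intro v hv
    apply Equiv.Perm.viaEmbedding_apply_of_notMem
    rintro ⟨b, hb⟩
    exact hv b.1 b.2 hb.symm

/-! ### the encoding -/

section

variable (c n R : ℕ) (s : Bool) (cl : ℕ → ℕ → ℕ)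

/-- the formulas standing for the variables -/
def th (v : ℕ) : Fm :=
  if v < n * (c + 1) then (bt (2 ^ (c + 1)) (v / n)).subst (fun b => lit s (cl (v % n) b))
  else var (R + v)

/-- every block contains exactly one token -/
def Vl : Fm := cj R ((List.range n).map fun i => (val (2 ^ (c + 1))).subst fun b => lit s (cl i b))

/-- the cells are different -/
structure Cells : Prop where
  inj : ∀ i < n, ∀ j < n, ∀ a < 2 ^ (c + 1), ∀ b < 2 ^ (c + 1), cl i a = cl j b → i = j ∧ a = b
  lt : ∀ i < n, ∀ a < 2 ^ (c + 1), cl i a < R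

end

theorem subst_block_size (s : Bool) (f : ℕ → ℕ) (T : Fm) :
    (T.subst fun b => lit s (f b)).size ≤ 2 * T.size := by
  have := size_subst_le (σ := fun b => lit s (f b)) (M := 2) (by norm_num) (A := T)
    (fun n _ => lit_size s (f n))
  omega

theorem th_size (c n R : ℕ) (s : Bool) (cl : ℕ → ℕ → ℕ) (v : ℕ) :
    (th c n R s cl v).size ≤ 4 * 2 ^ (c + 1) + 8 := by
  unfold th
  split_ifs
  · have h1 := subst_block_size s (cl (v % n)) (bt (2 ^ (c + 1)) (v / n))
    have h2 := bt_size (2 ^ (c + 1)) (v / n)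
    omega
  · simp only [size]; omega

theorem Vl_size (c n R : ℕ) (s : Bool) (cl : ℕ → ℕ → ℕ) {Q : ℕ} (hn : n ≤ Q)
    (hK : 2 ^ (c + 1) ≤ Q) : (Vl c n R s cl).size ≤ 26 * Q ^ 3 := by
  have hQ : 1 ≤ Q := Nat.one_le_two_pow.trans hK
  rw [Vl, cj_size, List.length_map, List.length_range]
  have h1 := psize_map_le' (List.range n)
    (fun i => (val (2 ^ (c + 1))).subst fun b => lit s (cl i b)) (22 * Q ^ 2) (by
    intro i _
    have h2 := subst_block_size s (cl i) (val (2 ^ (c + 1)))
    have h3 := val_size (2 ^ (c + 1))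
    have h4 : (2 ^ (c + 1)) ^ 2 ≤ Q ^ 2 := Nat.pow_le_pow_left hK 2
    have h5 : Q ≤ Q ^ 2 := by nlinarith
    omega)
  rw [List.length_range] at h1
  have h6 : 22 * Q ^ 2 * n ≤ 22 * Q ^ 3 := by
    calc 22 * Q ^ 2 * n ≤ 22 * Q ^ 2 * Q := Nat.mul_le_mul_left _ hn
      _ = _ := by ring
  have h7 : Q ≤ Q ^ 3 := by
    calc Q = Q ^ 1 := (pow_one Q).symm
      _ ≤ Q ^ 3 := Nat.pow_le_pow_right hQ (by norm_num)
  omega

theorem block_rename (s : Bool) (c k : ℕ) (f : ℕ → ℕ) (π : Equiv.Perm ℕ)
    (hπ : ∀ b < 2 ^ (c + 1), π (f b) = f (b ^^^ 2 ^ k)) (T : Fm)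
    (hT : ∀ m ∈ T.vars, m < 2 ^ (c + 1)) :
    (T.subst fun b => lit s (f b)).rename π =
      (T.rename fun b => b ^^^ 2 ^ k).subst fun b => lit s (f b) := by
  rw [rename, subst_subst, rename, subst_subst]
  apply subst_congr
  intro m hm
  have := lit_rename s (f m) π
  rw [rename] at this
  rw [this, hπ m (hT m hm)]
  rfl

theorem block_fix (s : Bool) (f : ℕ → ℕ) (π : Equiv.Perm ℕ) (T : Fm)
    (hπ : ∀ m ∈ T.vars, π (f m) = f m) :
    (T.subst fun b => lit s (f b)).rename π = T.subst fun b => lit s (f b) := by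
  rw [rename, subst_subst]
  apply subst_congr
  intro m hm
  have := lit_rename s (f m) π
  rw [rename] at this
  rw [this, hπ m hm]

/-- The facts about the blocks. -/
theorem template (F : List Rule) (hF : IsFrege F) : ∃ d : ℕ, ∀ (c k : ℕ) (s : Bool) (f : ℕ → ℕ)
    (Q : ℕ), k ≤ c → 2 ^ (c + 1) ≤ Q →
    (∀ j, j ≠ k → Ded F ∅ [imp ((val (2 ^ (c + 1))).subst fun b => lit s (f b))
      (iff (((bt (2 ^ (c + 1)) j).rename fun b => b ^^^ 2 ^ k).subst fun b => lit s (f b))
        ((bt (2 ^ (c + 1)) j).subst fun b => lit s (f b)))] (d * Q ^ 8)) ∧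
    Ded F ∅ [imp ((val (2 ^ (c + 1))).subst fun b => lit s (f b))
      (iff (((bt (2 ^ (c + 1)) k).rename fun b => b ^^^ 2 ^ k).subst fun b => lit s (f b))
        (neg ((bt (2 ^ (c + 1)) k).subst fun b => lit s (f b))))] (d * Q ^ 8) ∧
    Ded F ∅ [imp ((val (2 ^ (c + 1))).subst fun b => lit s (f b))
      (((val (2 ^ (c + 1))).rename fun b => b ^^^ 2 ^ k).subst fun b => lit s (f b))]
      (d * Q ^ 8) := by
  obtain ⟨d, hd⟩ := val_cases F hF
  refine ⟨2 * d * 40 ^ 4, ?_⟩
  intro c k s f Q hk hQ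
  set K := 2 ^ (c + 1) with hK
  have hK0 : 0 < K := by positivity
  have hQ1 : 1 ≤ Q := by omega
  have hQ2 : Q ≤ Q ^ 2 := by nlinarith
  have rv : ∀ T : Fm, (∀ m ∈ T.vars, m < K) → ∀ m ∈ (T.rename fun b => b ^^^ 2 ^ k).vars, m < K := by
    intro T hT m hm
    rw [vars_rename] at hm
    obtain ⟨b, hb, rfl⟩ := Finset.mem_image.1 hm
    exact xor_lt hk (hT b hb)
  have hbs : ∀ j, (bt K j).size ≤ 6 * Q := fun j => (bt_size K j).trans (by omega)
  have hvs : (val K).size ≤ 11 * Q ^ 2 := by
    have h1 := val_size K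
    have h2 : K ^ 2 ≤ Q ^ 2 := Nat.pow_le_pow_left hQ 2
    nlinarith
  have main : ∀ T : Fm, T.size ≤ 40 * Q ^ 2 → (∀ m ∈ T.vars, m < K) →
      (∀ b < K, T.eval fun m => m = b) →
      Ded F ∅ [imp ((val K).subst fun b => lit s (f b)) (T.subst fun b => lit s (f b))]
        (2 * d * 40 ^ 4 * Q ^ 8) := by
    intro T hTs hTv hTe
    have h1 := hd K T (40 * Q ^ 2) (by omega) hTs hTv hTe
    have h2 := h1.inst (σ := fun b => lit s (f b)) (M := 2) (by norm_num)
      (fun m => lit_size s (f m))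
    refine (h2.sub (by simp [subst])).le (le_of_eq ?_)
    ring
  refine ⟨?_, ?_, ?_⟩
  · intro j hj
    have h := main (iff ((bt K j).rename fun b => b ^^^ 2 ^ k) (bt K j)) (by
      simp only [iff, size, size_rename]; have := hbs j; omega) (by
      intro m hm
      simp only [iff, vars, Finset.mem_union] at hm
      have r1 := rv (bt K j) (fun m hm => bt_vars hK0 hm)
      have r2 := fun m (hm : m ∈ (bt K j).vars) => bt_vars hK0 hm
      rcases hm with (hm | hm) | (hm | hm)
      exacts [r1 m hm, r2 m hm, r2 m hm, r1 m hm]) (by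
      intro b hb
      have e1 := bt_flip_eval (j := j) hk hb
      have e2 := bt_hot_eval (j := j) hb
      have e3 : (b ^^^ 2 ^ k).testBit j = b.testBit j := by
        rw [testBit_flip]
        have : ¬ k = j := fun h => hj h.symm
        simp [this]
      rw [e3] at e1
      show _ ∧ _
      exact ⟨fun h => e2.2 (e1.1 h), fun h => e1.2 (e2.1 h)⟩)
    exact h
  · have h := main (iff ((bt K k).rename fun b => b ^^^ 2 ^ k) (neg (bt K k))) (by
      simp only [iff, size, size_rename]; have := hbs k; omega) (by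
      intro m hm
      simp only [iff, vars, Finset.mem_union] at hm
      have r1 := rv (bt K k) (fun m hm => bt_vars hK0 hm)
      have r2 := fun m (hm : m ∈ (bt K k).vars) => bt_vars hK0 hm
      rcases hm with (hm | hm) | (hm | hm)
      exacts [r1 m hm, r2 m hm, r2 m hm, r1 m hm]) (by
      intro b hb
      have e1 := bt_flip_eval (j := k) hk hb
      have e2 := bt_hot_eval (j := k) hb
      have e3 : (b ^^^ 2 ^ k).testBit k = !b.testBit k := by
        rw [testBit_flip]; simp
      rw [e3] at e1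
      show _ ∧ _
      constructor
      · intro h1 h2
        have a1 := e1.1 h1
        have a2 := e2.1 h2
        rw [a2] at a1
        simp at a1
      · intro h1
        apply e1.2
        have : ¬ b.testBit k = true := fun h => h1 (e2.2 h)
        simp [this])
    exact h
  · have h := main ((val K).rename fun b => b ^^^ 2 ^ k) (by
      rw [size_rename]; omega) (rv _ fun m hm => val_vars hK0 hm) (by
      intro b hb
      rw [rename, eval_subst, val_eval]
      refine ⟨b ^^^ 2 ^ k, xor_lt hk hb, fun a _ => ?_⟩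
      simp only [eval]
      constructor
      · intro h; rw [← h, xor_xor]
      · rintro rfl; exact xor_xor b k)
    exact h

/-- One substitution of an auxiliary variable. -/
theorem aux_step (F : List Rule) (hF : IsFrege F) : ∃ d : ℕ, ∀ (c n R : ℕ) (s : Bool)
    (cl : ℕ → ℕ → ℕ) (_ : Cells c n R cl) (B φ : Fm) (y : ℕ) (Q : ℕ) (G : List Fm) (t : ℕ),
    n ≤ Q → 2 ^ (c + 1) ≤ Q → B.size ≤ Q → φ.size ≤ Q →
    (B.subst fun v => if v = y then φ else var v).size ≤ Q → n ≤ y → y < n * (c + 1) →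
    imp (Vl c n R s cl) (B.subst (th c n R s cl)) ∈ G →
    OccL F PermRule G t →
    OccL F PermRule (imp (Vl c n R s cl) ((B.subst fun v => if v = y then φ else var v).subst
      (th c n R s cl)) :: G) (t + d * Q ^ 9) := by
  obtain ⟨d₁, h₁⟩ := template F hF
  obtain ⟨d₂, h₂⟩ := cj_imp F hF
  obtain ⟨d₃, h₃⟩ := cj_intro F hF
  obtain ⟨d₄, h₄⟩ := repl F hF
  obtain ⟨a₁, k₁⟩ := schemaD hF [imp (var 0) (var 1), imp (var 1) (var 2)]
    (imp (var 0) (var 2)) (by
    intro v h; simp [eval] at h ⊢; tauto)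
  obtain ⟨a₂, k₂⟩ := schemaD hF [] (imp (and (var 0) (var 1)) (iff (var 2) (var 2))) (by
    intro v _; simp [eval, iff])
  obtain ⟨a₃, k₃⟩ := schemaD hF [] (imp (and (var 0) (iff (var 1) (var 2)))
    (iff (var 1) (var 2))) (by
    intro v _; simp only [eval, iff]; tauto)
  obtain ⟨a₄, k₄⟩ := schemaD hF [imp (var 0) (iff (var 1) (var 2))]
    (imp (and (var 0) (var 3)) (iff (var 2) (var 1))) (by
    intro v h; simp [eval, iff] at h ⊢; tauto)
  obtain ⟨a₅, k₅⟩ := schemaD hF [imp (var 0) (iff (var 1) (neg (var 2)))]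
    (imp (and (var 0) (neg (iff (var 3) (var 2)))) (iff (var 3) (var 1))) (by
    intro v h; simp [eval, iff] at h ⊢; tauto)
  obtain ⟨a₆, k₆⟩ := schemaD hF [imp (var 0) (var 1), imp (var 2) (var 3), imp (var 0) (var 2),
    imp (and (var 0) (var 5)) (iff (var 4) (var 1)),
    imp (and (var 0) (neg (var 5))) (iff (var 4) (var 3))] (imp (var 0) (var 4)) (by
    intro v h; simp [eval, iff] at h ⊢; tauto)
  refine ⟨1000 * (d₁ + d₂ + d₃ + d₄ + a₁ + a₂ + a₃ + a₄ + a₅ + a₆ + 1), ?_⟩
  intro c n R s cl hcl B φ y Q G t hn hKQ hB hφ hBφ hy1 hy2 hG hocc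
  set K := 2 ^ (c + 1) with hK
  have hQ1 : 1 ≤ Q := (size_pos B).trans hB
  by_cases hyB : y ∈ B.vars
  swap
  · have e : (B.subst fun v => if v = y then φ else var v) = B := by
      conv_rhs => rw [← subst_var B]
      apply subst_congr
      intro v hv
      exact if_neg (by rintro rfl; exact hyB hv)
    rw [e]
    refine (hocc.sub ?_).le (Nat.le_add_right _ _)
    intro C hC
    rcases List.mem_cons.1 hC with rfl | hC
    · exact hG
    · exact hC
  have hn0 : 0 < n := by
    rcases Nat.eq_zero_or_pos n with h | h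
    · subst h; simp at hy2
    · exact h
  set θ := th c n R s cl with hθ
  set V := Vl c n R s cl with hV
  set i := y % n with hi
  set k := y / n with hk
  have hin : i < n := Nat.mod_lt _ hn0
  have hkc : k ≤ c := by
    have : y / n < c + 1 := Nat.div_lt_of_lt_mul hy2
    omega
  have hK0 : 0 < K := by positivity
  obtain ⟨π, hπ1, hπ2⟩ := exists_perm c k hkc (cl i) (fun a ha b hb h =>
    (hcl.inj i hin i hin a ha b hb h).2)
  have hπj : ∀ j < n, j ≠ i → ∀ b < K, π (cl j b) = cl j b := by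
    intro j hj hji b hb
    apply hπ2
    intro a ha h
    exact hji (hcl.inj j hj i hin b hb a ha h).1
  have hπR : ∀ m, R ≤ m → π m = m := by
    intro m hm
    apply hπ2
    intro a ha h
    have := hcl.lt i hin a ha
    omega
  set θπ : ℕ → Fm := fun v => (θ v).rename π with hθπ
  set θ' : ℕ → Fm := fun v => if v = y then φ.subst θ else θ v with hθ'
  have eB' : (B.subst fun v => if v = y then φ else var v).subst θ = B.subst θ' := by
    rw [subst_subst]
    apply subst_congr
    intro v _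
    simp only [hθ']
    split_ifs <;> rfl
  have eBπ : (B.subst θ).rename π = B.subst θπ := by
    rw [rename, subst_subst]
    rfl
  -- sizes
  set M := 100 * Q ^ 3 with hM
  have hQ2 : Q ≤ Q ^ 2 := by nlinarith
  have hQ3 : Q ^ 2 ≤ Q ^ 3 := Nat.pow_le_pow_right hQ1 (by norm_num)
  have hVs : V.size ≤ 26 * Q ^ 3 := Vl_size c n R s cl hn hKQ
  have hθs : ∀ v, (θ v).size ≤ 12 * Q := fun v => (th_size c n R s cl v).trans (by omega)
  have hsub : ∀ A : Fm, A.size ≤ Q → (A.subst θ).size ≤ 12 * Q ^ 2 := by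
    intro A hA
    have := size_subst_le (σ := θ) (M := 12 * Q) (by omega) (A := A) (fun v _ => hθs v)
    calc (A.subst θ).size ≤ A.size * (12 * Q) := this
      _ ≤ Q * (12 * Q) := Nat.mul_le_mul_right _ hA
      _ = 12 * Q ^ 2 := by ring
  have hBθ := hsub B hB
  have hφθ := hsub φ hφ
  have hBθ' : (B.subst θ').size ≤ 12 * Q ^ 2 := by rw [← eB']; exact hsub _ hBφ
  have hBθπ : (B.subst θπ).size ≤ 12 * Q ^ 2 := by rw [← eBπ, size_rename]; exact hBθ
  have hθπs : ∀ v, (θπ v).size ≤ 12 * Q := fun v => by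
    simp only [hθπ, size_rename]; exact hθs v
  have hblk : ∀ (T : Fm), T.size ≤ 11 * Q ^ 2 → ∀ f : ℕ → ℕ,
      (T.subst fun b => lit s (f b)).size ≤ 22 * Q ^ 2 := by
    intro T hT f
    have := subst_block_size s f T
    omega
  have hvs : (val K).size ≤ 11 * Q ^ 2 := by
    have h1 := val_size K
    have h2 : K ^ 2 ≤ Q ^ 2 := Nat.pow_le_pow_left hKQ 2
    nlinarith
  have hM1 : 1 ≤ M := by omega
  -- the blocks
  let Vj : ℕ → Fm := fun j => (val K).subst fun b => lit s (cl j b)
  have hVjs : ∀ j, (Vj j).size ≤ 22 * Q ^ 2 := fun j => hblk _ hvs _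
  have hVVj : ∀ j < n, Ded F ∅ [imp V (Vj j)] (d₂ * M * Q) := by
    intro j hj
    have := h₂ R M ((List.range n).map Vj) (Vj j) ∅ (by
      show V.size ≤ M
      omega) (List.mem_map.2 ⟨j, List.mem_range.2 hj, rfl⟩)
    rw [List.length_map, List.length_range] at this
    exact this.le (Nat.mul_le_mul_left _ hn)
  have chain : ∀ A C : Fm, A.size ≤ M → C.size ≤ M → ∀ m m' : ℕ, Ded F ∅ [imp V A] m →
      Ded F ∅ [imp A C] m' → Ded F ∅ [imp V C] (m + m' + a₁ * M) := by
    intro A C hA hC m m' hm hm'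
    have s := k₁ [V, A, C] M hM1 (by
      intro Z hZ; simp at hZ; rcases hZ with rfl | rfl | rfl
      · omega
      · exact hA
      · exact hC) (∅ ∪ {B | B ∈ [imp V A] ++ [imp A C]}) (by
      intro Z hZ; simp only [List.mem_cons, List.not_mem_nil, or_false] at hZ
      rcases hZ with rfl | rfl <;> right <;> simp [subst, asg])
    exact ((hm.append hm').cut s).sub (by simp [subst, asg])
  obtain ⟨t1, t2, t3⟩ := h₁ c k s (cl i) Q hkc hKQ
  -- step 2
  have hcjr : ∀ (z : ℕ) (L : List Fm), (cj z L).rename π = cj (π z) (L.map (rename π)) := by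
    intro z L
    induction L with
    | nil => rfl
    | cons C L ih =>
      simp only [cj, List.map_cons, ← ih]
      rfl
  have hVπ : V.rename π = cj R ((List.range n).map fun j => (Vj j).rename π) := by
    have e1 : V = cj R ((List.range n).map Vj) := rfl
    rw [e1, hcjr, hπR R le_rfl, List.map_map]
    rfl
  have p2 : Ded F ∅ [imp V (V.rename π)]
      (Q * (d₂ * M * Q + d₁ * Q ^ 8 + a₁ * M) + d₃ * M * (Q + 1)) := by
    have q1 : Ded F ∅ ((List.range n).map fun j => imp V ((Vj j).rename π))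
        (Q * (d₂ * M * Q + d₁ * Q ^ 8 + a₁ * M)) := by
      refine (Ded.many _ (d₂ * M * Q + d₁ * Q ^ 8 + a₁ * M) _ ?_).le (by
        rw [List.length_range]; exact Nat.mul_le_mul_right _ hn)
      intro j hj
      rw [List.mem_range] at hj
      by_cases hji : j = i
      · subst hji
        have e : (Vj i).rename π = ((val K).rename fun b => b ^^^ 2 ^ k).subst
            fun b => lit s (cl i b) :=
          block_rename s c k (cl i) π hπ1 (val K) (fun m hm => val_vars hK0 hm)
        rw [e]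
        refine chain _ _ ?_ ?_ _ _ (hVVj i hin) t3
        · have := hVjs i; omega
        · have := hblk ((val K).rename fun b => b ^^^ 2 ^ k) (by rw [size_rename]; exact hvs) (cl i)
          omega
      · have e : (Vj j).rename π = Vj j :=
          block_fix s (cl j) π (val K) (fun m hm => hπj j hj hji m (val_vars hK0 hm))
        rw [e]
        exact (hVVj j hj).le (by omega)
    have q2 := h₃ R V M (∅ ∪ {B | B ∈ (List.range n).map fun j => imp V ((Vj j).rename π)})
      ((List.range n).map fun j => (Vj j).rename π) (by omega) (by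
      rw [← hVπ, size_rename]; omega) (by
      intro C hC
      obtain ⟨j, hj, rfl⟩ := List.mem_map.1 hC
      right
      exact List.mem_map.2 ⟨j, hj, rfl⟩)
    rw [List.length_map, List.length_range] at q2
    rw [hVπ]
    refine (q1.cut q2).le ?_
    gcongr
  -- step 3
  set E := iff (φ.subst θ) (θ y) with hE
  have hEs : E.size ≤ 51 * Q ^ 2 := by
    simp only [hE, iff, size]
    have := hθs y
    omega
  have p3 : Ded F ∅ (B.vars.toList.map fun v => imp (and V E) (iff (θ' v) (θ v)))
      (Q * ((a₂ + a₃) * M)) := by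
    have hlen : B.vars.toList.length ≤ Q := by
      rw [Finset.length_toList]; exact (vars_card_le B).trans hB
    refine (Ded.many _ ((a₂ + a₃) * M) _ ?_).le (Nat.mul_le_mul_right _ hlen)
    intro v _
    by_cases hv : v = y
    · subst hv
      have := k₃ [V, φ.subst θ, θ v] M hM1 (by
        intro Z hZ; simp at hZ; rcases hZ with rfl | rfl | rfl
        · omega
        · omega
        · have := hθs v; omega) ∅ (by simp)
      refine (this.sub (by simp [subst, asg, iff, hθ', hE])).le (Nat.mul_le_mul_right _ (by omega))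
    · have := k₂ [V, E, θ v] M hM1 (by
        intro Z hZ; simp at hZ; rcases hZ with rfl | rfl | rfl
        · omega
        · omega
        · have := hθs v; omega) ∅ (by simp)
      refine (this.sub (by simp [subst, asg, iff, hθ', if_neg hv])).le
        (Nat.mul_le_mul_right _ (by omega))
  have p4 : Ded F ∅ (B.vars.toList.map fun v => imp (and V (neg E)) (iff (θ' v) (θπ v)))
      (Q * (d₂ * M * Q + d₁ * Q ^ 8 + a₁ * M + (a₂ + a₄ + a₅) * M)) := by
    have hlen : B.vars.toList.length ≤ Q := by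
      rw [Finset.length_toList]; exact (vars_card_le B).trans hB
    refine (Ded.many _ (d₂ * M * Q + d₁ * Q ^ 8 + a₁ * M + (a₂ + a₄ + a₅) * M) _ ?_).le
      (Nat.mul_le_mul_right _ hlen)
    intro v _
    have triv : v ≠ y → θπ v = θ v →
        Ded F ∅ [imp (and V (neg E)) (iff (θ' v) (θπ v))]
          (d₂ * M * Q + d₁ * Q ^ 8 + a₁ * M + (a₂ + a₄ + a₅) * M) := by
      intro hv he
      have := k₂ [V, neg E, θ v] M hM1 (by
        intro Z hZ; simp at hZ; rcases hZ with rfl | rfl | rfl
        · omega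
        · simp only [size]; omega
        · have := hθs v; omega) ∅ (by simp)
      refine (this.sub (by simp [subst, asg, iff, hθ', if_neg hv, he])).le ?_
      have : a₂ * M ≤ (a₂ + a₄ + a₅) * M := Nat.mul_le_mul_right _ (by omega)
      omega
    by_cases hv1 : v < n * (c + 1)
    swap
    · apply triv
      · rintro rfl; exact hv1 hy2
      · simp only [hθπ, hθ, th, if_neg hv1, rename, subst]
        rw [hπR _ (Nat.le_add_right _ _)]
    have eθ : θ v = (bt K (v / n)).subst (fun b => lit s (cl (v % n) b)) := by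
      simp only [hθ, th, if_pos hv1]; rfl
    by_cases hvi : v % n = i
    swap
    · apply triv
      · rintro rfl; exact hvi rfl
      · show (θ v).rename π = θ v
        rw [eθ]
        exact block_fix s (cl (v % n)) π (bt K (v / n)) (fun m hm =>
          hπj _ (Nat.mod_lt _ hn0) hvi m (bt_vars hK0 hm))
    have eθπ : θπ v = ((bt K (v / n)).rename fun b => b ^^^ 2 ^ k).subst
        (fun b => lit s (cl i b)) := by
      show (θ v).rename π = _
      rw [eθ, hvi]
      exact block_rename s c k (cl i) π hπ1 (bt K (v / n)) (fun m hm => bt_vars hK0 hm)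
    rw [hvi] at eθ
    by_cases hv : v = y
    · subst hv
      have q1 : Ded F ∅ [imp V (iff (θπ v) (neg (θ v)))] (d₂ * M * Q + d₁ * Q ^ 8 + a₁ * M) := by
        refine chain _ _ ?_ ?_ _ _ (hVVj i hin) (?_ : Ded F ∅ [imp (Vj i) _] _)
        · have := hVjs i; omega
        · simp only [iff, size]
          have := hθs v
          have := hθπs v
          omega
        · rw [eθπ, eθ]; exact t2
      have q2 := k₅ [V, θπ v, θ v, φ.subst θ] M hM1 (by
        intro Z hZ; simp at hZ; rcases hZ with rfl | rfl | rfl | rfl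
        · omega
        · have := hθπs v; omega
        · have := hθs v; omega
        · omega) (∅ ∪ {B | B ∈ [imp V (iff (θπ v) (neg (θ v)))]}) (by
        intro Z hZ; simp only [List.mem_singleton] at hZ; subst hZ; right
        simp [subst, asg, iff])
      refine ((q1.cut q2).sub (by simp [subst, asg, iff, hθ', hE])).le ?_
      have : a₅ * M ≤ (a₂ + a₄ + a₅) * M := Nat.mul_le_mul_right _ (by omega)
      omega
    · have hvk : v / n ≠ k := by
        intro h
        apply hv
        rw [← Nat.div_add_mod v n, ← Nat.div_add_mod y n, h, hvi]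
      have q1 : Ded F ∅ [imp V (iff (θπ v) (θ v))] (d₂ * M * Q + d₁ * Q ^ 8 + a₁ * M) := by
        refine chain _ _ ?_ ?_ _ _ (hVVj i hin) (?_ : Ded F ∅ [imp (Vj i) _] _)
        · have := hVjs i; omega
        · simp only [iff, size]
          have := hθs v
          have := hθπs v
          omega
        · rw [eθπ, eθ]; exact t1 _ hvk
      have q2 := k₄ [V, θπ v, θ v, neg E] M hM1 (by
        intro Z hZ; simp at hZ; rcases hZ with rfl | rfl | rfl | rfl
        · omega
        · have := hθπs v; omega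
        · have := hθs v; omega
        · simp only [size]; omega) (∅ ∪ {B | B ∈ [imp V (iff (θπ v) (θ v))]}) (by
        intro Z hZ; simp only [List.mem_singleton] at hZ; subst hZ; right
        simp [subst, asg, iff])
      refine ((q1.cut q2).sub (by simp [subst, asg, iff, hθ', if_neg hv])).le ?_
      have : a₄ * M ≤ (a₂ + a₄ + a₅) * M := Nat.mul_le_mul_right _ (by omega)
      omega
  -- replacement
  have p5 := h₄ (and V E) B θ' θ M (by simp only [size]; omega) (by omega) (by omega)
    (∅ ∪ {C | C ∈ B.vars.toList.map fun v => imp (and V E) (iff (θ' v) (θ v))}) (by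
    intro v hv
    right
    exact List.mem_map.2 ⟨v, by simpa using hv, rfl⟩)
  have p6 := h₄ (and V (neg E)) B θ' θπ M (by simp only [size]; omega) (by omega) (by omega)
    (∅ ∪ {C | C ∈ B.vars.toList.map fun v => imp (and V (neg E)) (iff (θ' v) (θπ v))}) (by
    intro v hv
    right
    exact List.mem_map.2 ⟨v, by simpa using hv, rfl⟩)
  have p35 := (p3.cut p5).le (show _ ≤ Q * ((a₂ + a₃) * M) + d₄ * M * Q by gcongr)
  have p46 := (p4.cut p6).le (show _ ≤ Q * (d₂ * M * Q + d₁ * Q ^ 8 + a₁ * M +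
    (a₂ + a₄ + a₅) * M) + d₄ * M * Q by gcongr)
  have p246 := p2.append (p35.append p46)
  -- the permutation
  set A0 := imp V (B.subst θ) with hA0
  have hA0s : A0.size ≤ M := by simp only [hA0, size]; omega
  have r1 := hocc.rule hG (B := A0.rename π) ⟨π, by
    intro m hm
    apply hπ2
    rintro b hb rfl
    apply hm
    simp only [hA0, vars, Finset.mem_union]
    left
    refine cj_vars_of (List.mem_map.2 ⟨i, List.mem_range.2 hin, rfl⟩) ?_
    have : (val K).vars.Nonempty := vars_nonempty _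
    have hbv : b ∈ (val K).vars := val_vars_of hb
    have : ∀ T : Fm, b ∈ T.vars → cl i b ∈ (T.subst fun b => lit s (cl i b)).vars := by
      intro T
      induction T with
      | var m =>
        intro h
        simp only [vars, Finset.mem_singleton] at h
        subst h
        simp [subst, lit_vars]
      | neg T ih => exact ih
      | and T U i1 i2 =>
        intro h
        simp only [vars, subst, Finset.mem_union] at h ⊢
        exact h.imp i1 i2
      | or T U i1 i2 =>
        intro h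
        simp only [vars, subst, Finset.mem_union] at h ⊢
        exact h.imp i1 i2
      | imp T U i1 i2 =>
        intro h
        simp only [vars, subst, Finset.mem_union] at h ⊢
        exact h.imp i1 i2
    exact this _ hbv, rfl⟩
  have r2 := r1.ded p246 (by simp)
  have r3 := k₆ [V, B.subst θ, V.rename π, B.subst θπ, B.subst θ', E] M hM1 (by
    intro Z hZ; simp at hZ; rcases hZ with rfl | rfl | rfl | rfl | rfl | rfl
    · omega
    · omega
    · rw [size_rename]; omega
    · omega
    · omega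
    · omega) {C | C ∈ [imp V (V.rename π)] ++ ([imp (and V E) (iff (B.subst θ') (B.subst θ))] ++
        [imp (and V (neg E)) (iff (B.subst θ') (B.subst θπ))]) ++ (A0.rename π :: G)} (by
    intro Z hZ; simp only [List.mem_cons, List.not_mem_nil, or_false] at hZ
    rcases hZ with rfl | rfl | rfl | rfl | rfl
    · simp only [subst, asg, List.getD_cons_zero, List.getD_cons_succ]
      show imp V (B.subst θ) ∈ _
      simp only [List.mem_append, List.mem_cons]
      right; right; exact hG
    · have e : A0.rename π = imp (V.rename π) (B.subst θπ) := by rw [← eBπ]; rfl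
      rw [e]
      simp [subst, asg]
    · simp [subst, asg]
    · simp [subst, asg, iff]
    · simp [subst, asg, iff])
  have r4 := r2.ded r3 (fun C hC => hC)
  rw [eB']
  refine (r4.sub ?_).le ?_
  · intro C hC
    rcases List.mem_cons.1 hC with rfl | hC
    · simp [subst, asg]
    · simp [hC]
  · have hA0s' : (A0.rename π).size ≤ M := by rw [size_rename]; exact hA0s
    have e39 : Q ^ 3 ≤ Q ^ 9 := Nat.pow_le_pow_right hQ1 (by norm_num)
    have e49 : Q ^ 4 ≤ Q ^ 9 := Nat.pow_le_pow_right hQ1 (by norm_num)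
    have e59 : Q ^ 5 ≤ Q ^ 9 := Nat.pow_le_pow_right hQ1 (by norm_num)
    have key : M + (Q * (d₂ * M * Q + d₁ * Q ^ 8 + a₁ * M) + d₃ * M * (Q + 1) +
        (Q * ((a₂ + a₃) * M) + d₄ * M * Q + (Q * (d₂ * M * Q + d₁ * Q ^ 8 + a₁ * M +
        (a₂ + a₄ + a₅) * M) + d₄ * M * Q))) + a₆ * M ≤
        1000 * (d₁ + d₂ + d₃ + d₄ + a₁ + a₂ + a₃ + a₄ + a₅ + a₆ + 1) * Q ^ 9 := by
      have g1 := Nat.mul_le_mul_left d₂ e59
      have g2 := Nat.mul_le_mul_left d₃ e49
      have g2' := Nat.mul_le_mul_left d₃ e39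
      have g3 := Nat.mul_le_mul_left d₄ e49
      have g4 := Nat.mul_le_mul_left a₁ e49
      have g5 := Nat.mul_le_mul_left a₂ e49
      have g6 := Nat.mul_le_mul_left a₃ e49
      have g7 := Nat.mul_le_mul_left a₄ e49
      have g8 := Nat.mul_le_mul_left a₅ e49
      have g9 := Nat.mul_le_mul_left a₆ e39
      have lhs : M + (Q * (d₂ * M * Q + d₁ * Q ^ 8 + a₁ * M) + d₃ * M * (Q + 1) +
        (Q * ((a₂ + a₃) * M) + d₄ * M * Q + (Q * (d₂ * M * Q + d₁ * Q ^ 8 + a₁ * M +
        (a₂ + a₄ + a₅) * M) + d₄ * M * Q))) + a₆ * M = 100 * Q ^ 3 + 200 * (d₂ * Q ^ 5) +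
          2 * (d₁ * Q ^ 9) + 200 * (a₁ * Q ^ 4) + 100 * (d₃ * Q ^ 4) + 100 * (d₃ * Q ^ 3) +
          200 * (a₂ * Q ^ 4) + 100 * (a₃ * Q ^ 4) + 200 * (d₄ * Q ^ 4) + 100 * (a₄ * Q ^ 4) +
          100 * (a₅ * Q ^ 4) + 100 * (a₆ * Q ^ 3) := by rw [hM]; ring
      have rhs : 1000 * (d₁ + d₂ + d₃ + d₄ + a₁ + a₂ + a₃ + a₄ + a₅ + a₆ + 1) * Q ^ 9 =
          1000 * (d₁ * Q ^ 9) + 1000 * (d₂ * Q ^ 9) + 1000 * (d₃ * Q ^ 9) + 1000 * (d₄ * Q ^ 9) +
          1000 * (a₁ * Q ^ 9) + 1000 * (a₂ * Q ^ 9) + 1000 * (a₃ * Q ^ 9) + 1000 * (a₄ * Q ^ 9) +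
          1000 * (a₅ * Q ^ 9) + 1000 * (a₆ * Q ^ 9) + 1000 * Q ^ 9 := by ring
      rw [lhs, rhs]
      omega
    omega

end Pool.Agent.V8H46.FP
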