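import Pool.Agent.V8H46.FP.StoreMain

/-!
# Frege + permutation simulates substitutions for linearly many auxiliary variables: conclusion
-/

set_option autoImplicit false

namespace Pool.Agent.V8H46.FP

open Pool.Agent.H555R2.PF Pool.Agent.H555R2.PF.Fm

theorem dual_size (A : Fm) (n m : ℕ) : (dual A n m).size = A.size + 9 * m := by
  induction m with
  | zero => rfl
  | succ m ih => simp only [dual, size, iff, ih]; omega

theorem dual_vars {A : Fm} {n m v : ℕ} (h : v ∈ (dual A n m).vars) :
    v ∈ A.vars ∨ v < n + m := by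
  induction m with
  | zero => exact Or.inl h
  | succ m ih =>
    simp only [dual, vars, iff, Finset.mem_union, Finset.mem_singleton] at h
    rcases h with ((h | h) | (h | h)) | h
    · right; omega
    · right; omega
    · right; omega
    · right; omega
    · rcases ih h with h | h
      · exact Or.inl h
      · right; omega

/-- the conjunction of the hypotheses -/
def nd (z n : ℕ) : ℕ → Fm
  | 0 => imp (var z) (var z)
  | m + 1 => and (neg (iff (var m) (var (n + m)))) (nd z n m)

theorem nd_size (z n m : ℕ) : (nd z n m).size = 3 + 9 * m := by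
  induction m with
  | zero => rfl
  | succ m ih => simp only [nd, size, iff, ih]; omega

theorem nd_imp (F : List Rule) (hF : IsFrege F) : ∃ c : ℕ, ∀ (z n m i M : ℕ)
    (Γ : Set Fm), (nd z n m).size ≤ M → i < m →
    Ded F Γ [imp (nd z n m) (neg (iff (var i) (var (n + i))))] (c * M * m) := by
  obtain ⟨c₁, h₁⟩ := schemaD hF [] (imp (and (var 0) (var 1)) (var 0)) (by
    intro v _; simp only [eval]; tauto)
  obtain ⟨c₂, h₂⟩ := schemaD hF [imp (var 1) (var 2)] (imp (and (var 0) (var 1)) (var 2)) (by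
    intro v h; simp [eval] at h ⊢; tauto)
  refine ⟨c₁ + c₂, fun z n m => ?_⟩
  induction m with
  | zero => intro i M Γ _ h; omega
  | succ m ih =>
    intro i M Γ hM hi
    rw [nd_size] at hM
    have e : (c₁ + c₂) * M * (m + 1) = (c₁ + c₂) * M * m + c₁ * M + c₂ * M := by ring
    have hns : (nd z n m).size ≤ M := by rw [nd_size]; omega
    rcases Nat.lt_or_ge i m with h | h
    · have r := ih i M Γ hns h
      have s := h₂ [neg (iff (var m) (var (n + m))), nd z n m, neg (iff (var i) (var (n + i)))] M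
        (by omega) (by
        intro Z hZ; simp at hZ; rcases hZ with rfl | rfl | rfl
        · simp only [size, iff]; omega
        · exact hns
        · simp only [size, iff]; omega)
        (Γ ∪ {B | B ∈ [imp (nd z n m) (neg (iff (var i) (var (n + i))))]}) (by
        intro Z hZ; simp only [List.mem_singleton] at hZ; subst hZ; right
        simp [subst, asg])
      refine ((r.cut s).sub (by simp [subst, asg, nd])).le ?_
      rw [e]; omega
    · have hij : i = m := by omega
      subst hij
      have s := h₁ [neg (iff (var i) (var (n + i))), nd z n i] M (by omega) (by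
        intro Z hZ; simp at hZ; rcases hZ with rfl | rfl
        · simp only [size, iff]; omega
        · exact hns) Γ (by simp)
      refine (s.sub (by simp [subst, asg, nd])).le ?_
      rw [e]; omega

theorem nd_dual (F : List Rule) (hF : IsFrege F) : ∃ c : ℕ, ∀ (z n m : ℕ) (H A : Fm) (M : ℕ)
    (Γ : Set Fm), H.size + A.size + 50 * m + 50 ≤ M → imp (and H (nd z n m)) A ∈ Γ →
    Ded F Γ [imp H (dual A n m)] (c * M * (m + 1)) := by
  obtain ⟨c₁, h₁⟩ := schemaD hF [imp (and (var 0) (imp (var 1) (var 1))) (var 2)]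
    (imp (var 0) (var 2)) (by
    intro v h; simp [eval] at h ⊢; tauto)
  obtain ⟨c₂, h₂⟩ := schemaD hF [imp (and (var 0) (and (var 1) (var 2))) (var 3)]
    (imp (and (and (var 0) (var 1)) (var 2)) (var 3)) (by
    intro v h; simp [eval] at h ⊢; tauto)
  obtain ⟨c₃, h₃⟩ := schemaD hF [imp (and (var 0) (var 1)) (var 2)]
    (imp (var 0) (imp (var 1) (var 2))) (by
    intro v h; simp [eval] at h ⊢; tauto)
  refine ⟨c₁ + c₂ + c₃, fun z n m => ?_⟩
  induction m with
  | zero =>
    intro H A M Γ hM h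
    have s := h₁ [H, var z, A] M (by omega) (by
      intro Z hZ; simp at hZ; rcases hZ with rfl | rfl | rfl
      · omega
      · simp only [size]; omega
      · omega) Γ (by
      intro Z hZ; simp only [List.mem_singleton] at hZ; subst hZ
      simpa [subst, asg, nd] using h)
    refine (s.sub (by simp [subst, asg, dual])).le ?_
    have e : (c₁ + c₂ + c₃) * M * (0 + 1) = c₁ * M + c₂ * M + c₃ * M := by ring
    rw [e]; omega
  | succ m ih =>
    intro H A M Γ hM h
    have hns := nd_size z n m
    have s1 := h₂ [H, neg (iff (var m) (var (n + m))), nd z n m, A] M (by omega) (by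
      intro Z hZ; simp at hZ; rcases hZ with rfl | rfl | rfl | rfl
      · omega
      · simp only [size, iff]; omega
      · omega
      · omega) Γ (by
      intro Z hZ; simp only [List.mem_singleton] at hZ; subst hZ
      simpa [subst, asg, nd] using h)
    have s2 := ih (and H (neg (iff (var m) (var (n + m))))) A M
      (Γ ∪ {B | B ∈ [imp (and (and H (neg (iff (var m) (var (n + m))))) (nd z n m)) A]}) (by
      simp only [size, iff]; omega) (by right; simp)
    have hds := dual_size A n m
    have s3 := h₃ [H, neg (iff (var m) (var (n + m))), dual A n m] M (by omega) (by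
      intro Z hZ; simp at hZ; rcases hZ with rfl | rfl | rfl
      · omega
      · simp only [size, iff]; omega
      · omega) ((Γ ∪ {B | B ∈ [imp (and (and H (neg (iff (var m) (var (n + m))))) (nd z n m)) A]}) ∪
        {B | B ∈ [imp (and H (neg (iff (var m) (var (n + m))))) (dual A n m)]}) (by
      intro Z hZ; simp only [List.mem_singleton] at hZ; subst hZ
      right; simp [subst, asg])
    have s1' := s1.sub (G' := [imp (and (and H (neg (iff (var m) (var (n + m))))) (nd z n m)) A])
      (by simp [subst, asg])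
    refine ((s1'.cut (s2.cut s3)).sub (by simp [subst, asg, dual])).le ?_
    have e : (c₁ + c₂ + c₃) * M * (m + 1 + 1) = (c₁ + c₂ + c₃) * M * (m + 1) + c₁ * M + c₂ * M +
      c₃ * M := by ring
    rw [e]; omega

/-! ### the cells -/

/-- The cells of the block `i`. The polarity `p` tells which truth value is a token; the cell
`1` (`0`) of a block is the one whose token says that the variable `p_i` is true (false). -/
def clf (n K : ℕ) (p : Bool) (a i b : ℕ) : ℕ :=
  if b = 0 then (if p = true then n + i else i)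
  else if b = 1 then (if p = true then i else n + i)
  else a + (i * (K - 2) + (b - 2))

theorem clf_two {n K : ℕ} {p : Bool} {a i b : ℕ} (hb : 2 ≤ b) :
    clf n K p a i b = a + (i * (K - 2) + (b - 2)) := by
  unfold clf
  rw [if_neg (by omega), if_neg (by omega)]

theorem clf_small {n K : ℕ} {p : Bool} {a i b : ℕ} (hi : i < n) (hb : b < 2) :
    clf n K p a i b < 2 * n ∧ clf n K p a i b % n = i ∧
      (clf n K p a i b < n ↔ (b = 1 ↔ p = true)) := by
  have h01 : b = 0 ∨ b = 1 := by omega
  have hmod : (n + i) % n = i := by rw [Nat.add_mod_left, Nat.mod_eq_of_lt hi]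
  have hmod' : i % n = i := Nat.mod_eq_of_lt hi
  rcases h01 with rfl | rfl <;> cases p <;> simp [clf, hmod, hmod'] <;> omega

theorem block_lt {n k i b : ℕ} (hi : i < n) (hb : b < k) : i * k + b < n * k := by
  calc i * k + b < i * k + k := by omega
    _ = (i + 1) * k := by ring
    _ ≤ n * k := Nat.mul_le_mul_right _ hi

theorem cells_clf (c n a : ℕ) (p : Bool) (ha : 2 * n ≤ a) :
    Cells c n (a + n * (2 ^ (c + 1) - 2)) (clf n (2 ^ (c + 1)) p a) := by
  have hK2 : 2 ≤ 2 ^ (c + 1) := by
    calc 2 = 2 ^ 1 := rfl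
      _ ≤ 2 ^ (c + 1) := Nat.pow_le_pow_right (by norm_num) (by omega)
  constructor
  · intro i hi j hj x hx y hy h
    rcases Nat.lt_or_ge x 2 with hx2 | hx2 <;> rcases Nat.lt_or_ge y 2 with hy2 | hy2
    · obtain ⟨a1, a2, a3⟩ := clf_small (K := 2 ^ (c + 1)) (p := p) (a := a) hi hx2
      obtain ⟨b1, b2, b3⟩ := clf_small (K := 2 ^ (c + 1)) (p := p) (a := a) hj hy2
      rw [h] at a2 a3
      refine ⟨a2.symm.trans b2, ?_⟩
      have := a3.symm.trans b3
      cases p with
      | true => simp only [iff_true] at this; omega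
      | false => simp only [Bool.false_eq_true, iff_false] at this; omega
    · obtain ⟨a1, _, _⟩ := clf_small (K := 2 ^ (c + 1)) (p := p) (a := a) hi hx2
      rw [clf_two hy2] at h
      omega
    · obtain ⟨b1, _, _⟩ := clf_small (K := 2 ^ (c + 1)) (p := p) (a := a) hj hy2
      rw [clf_two hx2] at h
      omega
    · rw [clf_two hx2, clf_two hy2] at h
      have hx' : x - 2 < 2 ^ (c + 1) - 2 := by omega
      have hy' : y - 2 < 2 ^ (c + 1) - 2 := by omega
      set k := 2 ^ (c + 1) - 2 with hk
      have h' : i * k + (x - 2) = j * k + (y - 2) := by omega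
      have e1 : (i * k + (x - 2)) / k = i := by
        rw [mul_comm, Nat.mul_add_div (by omega), Nat.div_eq_of_lt hx', Nat.add_zero]
      have e2 : (j * k + (y - 2)) / k = j := by
        rw [mul_comm, Nat.mul_add_div (by omega), Nat.div_eq_of_lt hy', Nat.add_zero]
      have e3 : (i * k + (x - 2)) % k = x - 2 := by
        rw [mul_comm, Nat.mul_add_mod, Nat.mod_eq_of_lt hx']
      have e4 : (j * k + (y - 2)) % k = y - 2 := by
        rw [mul_comm, Nat.mul_add_mod, Nat.mod_eq_of_lt hy']
      rw [h'] at e1 e3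
      exact ⟨e1.symm.trans e2, by have := e3.symm.trans e4; omega⟩
  · intro i hi x hx
    rcases Nat.lt_or_ge x 2 with hx2 | hx2
    · obtain ⟨a1, _, _⟩ := clf_small (K := 2 ^ (c + 1)) (p := p) (a := a) hi hx2
      omega
    · rw [clf_two hx2]
      have := block_lt (k := 2 ^ (c + 1) - 2) hi (show x - 2 < 2 ^ (c + 1) - 2 by omega)
      omega

/-- introduction of a substituted conjunction -/
theorem cj_intro_subst (F : List Rule) (hF : IsFrege F) : ∃ c : ℕ, ∀ (z : ℕ) (H : Fm) (M : ℕ)
    (σ : ℕ → Fm) (Γ : Set Fm) (L : List Fm), H.size ≤ M → ((cj z L).subst σ).size ≤ M →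
    (∀ C ∈ L, imp H (C.subst σ) ∈ Γ) →
    Ded F Γ [imp H ((cj z L).subst σ)] (c * M * (L.length + 1)) := by
  obtain ⟨c₁, h₁⟩ := schemaD hF [] (imp (var 1) (imp (var 0) (var 0))) (by
    intro v _; simp [eval])
  obtain ⟨c₂, h₂⟩ := schemaD hF [imp (var 0) (var 1), imp (var 0) (var 2)]
    (imp (var 0) (and (var 1) (var 2))) (by
    intro v h; simp [eval] at h ⊢; tauto)
  refine ⟨c₁ + c₂, fun z H M σ Γ L => ?_⟩
  induction L with
  | nil =>
    intro hH hM _
    have hM1 : 1 ≤ M := (size_pos H).trans hH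
    simp only [cj, subst, size] at hM
    have s := h₁ [σ z, H] M hM1 (by
      intro Z hZ; simp at hZ; rcases hZ with rfl | rfl
      · omega
      · exact hH) Γ (by simp)
    refine (s.sub (by simp [subst, asg, cj])).le ?_
    simp only [List.length_nil]
    nlinarith [Nat.zero_le (c₂ * M)]
  | cons C L ih =>
    intro hH hM hΓ
    have hM1 : 1 ≤ M := (size_pos H).trans hH
    simp only [cj, subst, size] at hM
    have r := ih hH (by omega) (fun D hD => hΓ D (by simp [hD]))
    have s := h₂ [H, C.subst σ, (cj z L).subst σ] M hM1 (by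
      intro Z hZ; simp at hZ; rcases hZ with rfl | rfl | rfl <;> omega)
      (Γ ∪ {B | B ∈ [imp H ((cj z L).subst σ)]}) (by
      intro Z hZ; simp only [List.mem_cons, List.not_mem_nil, or_false] at hZ
      rcases hZ with rfl | rfl
      · left; simpa [subst, asg] using hΓ C (by simp)
      · right; simp [subst, asg])
    refine ((r.cut s).sub (by simp [subst, asg, cj])).le ?_
    simp only [List.length_cons]
    nlinarith [Nat.zero_le (c₁ * M)]

/-- the facts about one block, in both polarities -/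
theorem polar (F : List Rule) (hF : IsFrege F) : ∃ c : ℕ, ∀ (p : Bool) (H z v t : Fm) (x x' M : ℕ)
    (Γ : Set Fm), H.size + z.size + v.size + t.size + 30 ≤ M → imp H z ∈ Γ →
    imp H (neg (iff (var x) (var x'))) ∈ Γ →
    imp (and z (neg (iff (lit p (if p = true then x' else x)) (lit p (if p = true then x else x'))))) v ∈ Γ →
    imp v (imp z (iff t (lit p (if p = true then x else x')))) ∈ Γ →
    Ded F Γ [imp H v, imp H (iff t (var x))] (c * M) := by
  obtain ⟨c₁, h₁⟩ := schemaD hF [imp (var 0) (var 1), imp (var 0) (neg (iff (var 2) (var 3))),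
    imp (and (var 1) (neg (iff (var 3) (var 2)))) (var 4)] (imp (var 0) (var 4)) (by
    intro v h; simp [eval, iff] at h ⊢; tauto)
  obtain ⟨c₂, h₂⟩ := schemaD hF [imp (var 0) (var 1), imp (var 0) (neg (iff (var 2) (var 3))),
    imp (and (var 1) (neg (iff (var 3) (var 2)))) (var 4),
    imp (var 4) (imp (var 1) (iff (var 5) (var 2)))] (imp (var 0) (iff (var 5) (var 2))) (by
    intro v h; simp [eval, iff] at h ⊢; tauto)
  obtain ⟨c₃, h₃⟩ := schemaD hF [imp (var 0) (var 1), imp (var 0) (neg (iff (var 2) (var 3))),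
    imp (and (var 1) (neg (iff (neg (var 2)) (neg (var 3))))) (var 4)] (imp (var 0) (var 4)) (by
    intro v h; simp [eval, iff] at h ⊢; tauto)
  obtain ⟨c₄, h₄⟩ := schemaD hF [imp (var 0) (var 1), imp (var 0) (neg (iff (var 2) (var 3))),
    imp (and (var 1) (neg (iff (neg (var 2)) (neg (var 3))))) (var 4),
    imp (var 4) (imp (var 1) (iff (var 5) (neg (var 3))))] (imp (var 0) (iff (var 5) (var 2))) (by
    intro v h; simp [eval, iff] at h ⊢; tauto)
  refine ⟨c₁ + c₂ + c₃ + c₄, ?_⟩
  intro p H z v t x x' M Γ hM g1 g2 g3 g4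
  have e : (c₁ + c₂ + c₃ + c₄) * M = c₁ * M + c₂ * M + c₃ * M + c₄ * M := by ring
  have hl : ∀ Z ∈ [H, z, var x, var x', v, t], Z.size ≤ M := by
    intro Z hZ; simp at hZ; rcases hZ with rfl | rfl | rfl | rfl | rfl | rfl
    · omega
    · omega
    · simp only [size]; omega
    · simp only [size]; omega
    · omega
    · omega
  cases p with
  | true =>
    simp only [lit, if_true] at g3 g4
    have s1 := h₁ [H, z, var x, var x', v, t] M (by omega) hl Γ (by
      intro Z hZ; simp only [List.mem_cons, List.not_mem_nil, or_false] at hZ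
      rcases hZ with rfl | rfl | rfl
      · simpa [subst, asg] using g1
      · simpa [subst, asg, iff] using g2
      · simpa [subst, asg, iff] using g3)
    have s2 := h₂ [H, z, var x, var x', v, t] M (by omega) hl Γ (by
      intro Z hZ; simp only [List.mem_cons, List.not_mem_nil, or_false] at hZ
      rcases hZ with rfl | rfl | rfl | rfl
      · simpa [subst, asg] using g1
      · simpa [subst, asg, iff] using g2
      · simpa [subst, asg, iff] using g3
      · simpa [subst, asg, iff] using g4)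
    refine ((s1.append s2).sub (by simp [subst, asg, iff])).le ?_
    rw [e]; omega
  | false =>
    simp only [lit, Bool.false_eq_true, if_false] at g3 g4
    have s1 := h₃ [H, z, var x, var x', v, t] M (by omega) hl Γ (by
      intro Z hZ; simp only [List.mem_cons, List.not_mem_nil, or_false] at hZ
      rcases hZ with rfl | rfl | rfl
      · simpa [subst, asg] using g1
      · simpa [subst, asg, iff] using g2
      · simpa [subst, asg, iff] using g3)
    have s2 := h₄ [H, z, var x, var x', v, t] M (by omega) hl Γ (by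
      intro Z hZ; simp only [List.mem_cons, List.not_mem_nil, or_false] at hZ
      rcases hZ with rfl | rfl | rfl | rfl
      · simpa [subst, asg] using g1
      · simpa [subst, asg, iff] using g2
      · simpa [subst, asg, iff] using g3
      · simpa [subst, asg, iff] using g4)
    refine ((s1.append s2).sub (by simp [subst, asg, iff])).le ?_
    rw [e]; omega

/-- one polarity -/
theorem store_pol (F : List Rule) (hF : IsFrege F) : ∃ d : ℕ, ∀ (c n a : ℕ) (p : Bool)
    (A : Fm) (L : List Fm) (Q : ℕ), n ≤ Q → 2 ^ (c + 1) ≤ Q → 2 * n ≤ a → (∀ v ∈ A.vars, v < n) →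
    Pr F (AuxRule1 n (n * c)) (A :: L) → psize (A :: L) ≤ Q →
    OccL F PermRule [imp (cj (a + n * (2 ^ (c + 1) - 2)) ((List.range (n * (2 ^ (c + 1) - 2))).map
      fun i => neg (lit p (a + i)))) (dual A n n)] (d * Q ^ 10) := by
  obtain ⟨d₀, h₀⟩ := store_core F hF
  obtain ⟨d₁, h₁⟩ := cj_imp F hF
  obtain ⟨d₂, h₂⟩ := cj_intro_subst F hF
  obtain ⟨d₃, h₃⟩ := nd_imp F hF
  obtain ⟨d₄, h₄⟩ := template_final F hF
  obtain ⟨d₅, h₅⟩ := polar F hF
  obtain ⟨d₆, h₆⟩ := cj_intro F hF
  obtain ⟨d₇, h₇⟩ := repl F hF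
  obtain ⟨d₈, h₈⟩ := nd_dual F hF
  obtain ⟨a₁, k₁⟩ := schemaD hF [imp (var 0) (var 2)] (imp (and (var 0) (var 1)) (var 2)) (by
    intro v h; simp [eval] at h ⊢; tauto)
  obtain ⟨a₂, k₂⟩ := schemaD hF [imp (var 1) (var 2)] (imp (and (var 0) (var 1)) (var 2)) (by
    intro v h; simp [eval] at h ⊢; tauto)
  obtain ⟨a₃, k₃⟩ := schemaD hF [imp (var 0) (var 1), imp (var 2) (var 0),
    imp (var 2) (iff (var 1) (var 3))] (imp (var 2) (var 3)) (by
    intro v h; simp [eval, iff] at h ⊢; tauto)
  refine ⟨d₀ + 1000 * (d₁ + d₂ + d₃ + d₄ + d₅ + d₆ + d₇ + d₈ + a₁ + a₂ + a₃), ?_⟩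
  intro c n a p A L Q hn hKQ ha hAv hL hLQ
  set K := 2 ^ (c + 1) with hK
  have hK2 : 2 ≤ K := by
    calc 2 = 2 ^ 1 := rfl
      _ ≤ 2 ^ (c + 1) := Nat.pow_le_pow_right (by norm_num) (by omega)
  set m := n * (K - 2) with hm
  set R := a + m with hR
  have hcells : Cells c n R (clf n K p a) := cells_clf c n a p ha
  have hAs : A.size ≤ Q := (size_le_psize (L := A :: L) (by simp)).trans hLQ
  have hQ1 : 1 ≤ Q := (size_pos A).trans hAs
  have hn0 : 0 < n := by
    obtain ⟨v, hv⟩ := vars_nonempty A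
    have := hAv v hv
    omega
  set V := Vl c n R p (clf n K p a) with hV
  set θ := th c n R p (clf n K p a) with hθ
  have hmQ : m ≤ Q ^ 2 := by
    calc m ≤ n * K := Nat.mul_le_mul_left _ (by omega)
      _ ≤ Q * Q := Nat.mul_le_mul hn hKQ
      _ = Q ^ 2 := by ring
  have hQ2 : Q ≤ Q ^ 2 := by nlinarith
  have hQ3 : Q ^ 2 ≤ Q ^ 3 := Nat.pow_le_pow_right hQ1 (by norm_num)
  set M := 200 * Q ^ 3 with hM
  have hM1 : 1 ≤ M := by omega
  have hVs : V.size ≤ 26 * Q ^ 3 := Vl_size c n R p _ hn hKQ
  have hθs : ∀ v, (θ v).size ≤ 12 * Q := fun v => (th_size c n R p _ v).trans (by omega)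
  have hAθ : (A.subst θ).size ≤ 12 * Q ^ 2 := by
    have := size_subst_le (σ := θ) (M := 12 * Q) (by omega) (A := A) (fun v _ => hθs v)
    calc (A.subst θ).size ≤ A.size * (12 * Q) := this
      _ ≤ Q * (12 * Q) := Nat.mul_le_mul_right _ hAs
      _ = 12 * Q ^ 2 := by ring
  set zl := (List.range m).map fun i => neg (lit p (a + i)) with hzl
  set Zc := cj R zl with hZc
  have hZs : Zc.size ≤ 7 * Q ^ 2 := by
    rw [hZc, cj_size, hzl, List.length_map, List.length_range]
    have := psize_map_le' (List.range m) (fun i => neg (lit p (a + i))) 3 (by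
      intro i _; have := lit_size p (a + i); simp only [size]; omega)
    rw [List.length_range] at this
    omega
  set N := nd R n n with hN
  have hNs : N.size ≤ 12 * Q := by rw [hN, nd_size]; omega
  set H := and Zc N with hH
  have hHs : H.size ≤ 20 * Q ^ 2 := by simp only [hH, size]; omega
  -- lines
  have o1 := h₀ c n R p _ hcells Q hn hKQ (A :: L) hL hLQ
  have o2 : OccL F PermRule [imp V (A.subst θ)] (d₀ * Q ^ 10) := by
    refine (o1.sub (by simp [hV, hθ])).le ?_
    have : (A :: L).length ≤ Q := (length_le_psize _).trans hLQ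
    calc (A :: L).length * (d₀ * Q ^ 9) ≤ Q * (d₀ * Q ^ 9) := Nat.mul_le_mul_right _ this
      _ = d₀ * Q ^ 10 := by ring
  -- the blocks
  let σ : ℕ → ℕ → Fm := fun i b => lit p (clf n K p a i b)
  have hσs : ∀ i (T : Fm), (T.subst (σ i)).size ≤ 2 * T.size := fun i T =>
    subst_block_size p (clf n K p a i) T
  let Vj : ℕ → Fm := fun i => (val K).subst (σ i)
  have hvs : (val K).size ≤ 11 * Q ^ 2 := by
    have h1 := val_size K
    have h2 : K ^ 2 ≤ Q ^ 2 := Nat.pow_le_pow_left hKQ 2
    nlinarith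
  have hVjs : ∀ i, (Vj i).size ≤ 22 * Q ^ 2 := fun i => by
    have := hσs i (val K)
    show ((val K).subst (σ i)).size ≤ _
    omega
  have hnzs : ∀ i, ((nz K).subst (σ i)).size ≤ 12 * Q := fun i => by
    have := hσs i (nz K)
    have := nz_size K
    omega
  set costb := Q * (d₁ * M * Q ^ 2 + a₁ * M) + d₂ * M * (Q + 1) + (d₃ * M * Q + a₂ * M) +
    2 * (d₄ * Q ^ 4) + d₅ * M with hcostb
  have block : ∀ i < n, Ded F ∅ [imp H (Vj i), imp H (iff (θ i) (var i))] costb := by
    intro i hi
    -- no tokens in the dummy cells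
    have q1 : Ded F ∅ (((List.range K).filter fun b => 2 ≤ b).map fun b =>
        imp H ((neg (var b)).subst (σ i))) (Q * (d₁ * M * Q ^ 2 + a₁ * M)) := by
      have hlen : ((List.range K).filter fun b => 2 ≤ b).length ≤ Q := by
        have h1 := List.length_filter_le (fun b : ℕ => decide (2 ≤ b)) (List.range K)
        rw [List.length_range] at h1
        omega
      refine (Ded.many _ (d₁ * M * Q ^ 2 + a₁ * M) _ ?_).le (Nat.mul_le_mul_right _ hlen)
      intro b hb
      obtain ⟨hb1, hb2⟩ := List.mem_filter.1 hb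
      have hbK : b < K := by simpa using hb1
      have hb2' : 2 ≤ b := by simpa using hb2
      have e : (neg (var b)).subst (σ i) = neg (lit p (a + (i * (K - 2) + (b - 2)))) := by
        show neg (lit p (clf n K p a i b)) = _
        rw [clf_two hb2']
      have hmem : neg (lit p (a + (i * (K - 2) + (b - 2)))) ∈ zl := by
        rw [hzl]
        refine List.mem_map.2 ⟨i * (K - 2) + (b - 2), ?_, rfl⟩
        rw [List.mem_range]
        exact block_lt hi (by omega)
      have r := h₁ R M zl _ ∅ (by rw [← hZc]; omega) hmem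
      have hzlen : zl.length ≤ Q ^ 2 := by rw [hzl, List.length_map, List.length_range]; exact hmQ
      have s := k₁ [Zc, N, neg (lit p (a + (i * (K - 2) + (b - 2))))] M hM1 (by
        intro Z hZ; simp at hZ; rcases hZ with rfl | rfl | rfl
        · omega
        · omega
        · have := lit_size p (a + (i * (K - 2) + (b - 2))); simp only [size]; omega)
        (∅ ∪ {B | B ∈ [imp (cj R zl) (neg (lit p (a + (i * (K - 2) + (b - 2)))))]}) (by
        intro Z hZ; simp only [List.mem_singleton] at hZ; subst hZ; right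
        simp [subst, asg, hZc])
      rw [e]
      refine ((r.cut s).sub (by simp [subst, asg, hH])).le ?_
      have := Nat.mul_le_mul_left (d₁ * M) hzlen
      omega
    have q2 := h₂ 0 H M (σ i) (∅ ∪ {B | B ∈ ((List.range K).filter fun b => 2 ≤ b).map fun b =>
        imp H ((neg (var b)).subst (σ i))})
      (((List.range K).filter fun b => 2 ≤ b).map fun b => neg (var b)) (by omega) (by
        have := hnzs i
        show ((nz K).subst (σ i)).size ≤ M
        omega) (by
      intro C hC
      obtain ⟨b, hb, rfl⟩ := List.mem_map.1 hC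
      right
      exact List.mem_map.2 ⟨b, hb, rfl⟩)
    have q2' : Ded F ∅ [imp H ((nz K).subst (σ i))]
        (Q * (d₁ * M * Q ^ 2 + a₁ * M) + d₂ * M * (Q + 1)) := by
      refine (q1.cut q2).le ?_
      have h1 := List.length_filter_le (fun b : ℕ => decide (2 ≤ b)) (List.range K)
      rw [List.length_range] at h1
      rw [List.length_map]
      gcongr
      omega
    -- the hypothesis
    have q3 : Ded F ∅ [imp H (neg (iff (var i) (var (n + i))))] (d₃ * M * Q + a₂ * M) := by
      have r := h₃ R n n i M ∅ (by rw [← hN]; omega) hi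
      have s := k₂ [Zc, N, neg (iff (var i) (var (n + i)))] M hM1 (by
        intro Z hZ; simp at hZ; rcases hZ with rfl | rfl | rfl
        · omega
        · omega
        · simp only [size, iff]; omega)
        (∅ ∪ {B | B ∈ [imp (nd R n n) (neg (iff (var i) (var (n + i))))]}) (by
        intro Z hZ; simp only [List.mem_singleton] at hZ; subst hZ; right
        simp [subst, asg, hN])
      refine ((r.cut s).sub (by simp [subst, asg, hH, iff])).le ?_
      have := Nat.mul_le_mul_left (d₃ * M) hn
      omega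
    -- templates
    have q4 := (h₄ K Q hK2 hKQ).inst (σ := σ i) (M := 2) (by norm_num)
      (fun b => lit_size p _)
    have e0 : clf n K p a i 0 = if p = true then n + i else i := by simp [clf]
    have e1 : clf n K p a i 1 = if p = true then i else n + i := by simp [clf]
    have eθ : (bt K 0).subst (σ i) = θ i := by
      have h1 : i < n * (c + 1) := by nlinarith
      show _ = th c n R p (clf n K p a) i
      rw [th, if_pos h1, Nat.div_eq_of_lt hi, Nat.mod_eq_of_lt hi]
    set T1 := imp (and ((nz K).subst (σ i)) (neg (iff (lit p (if p = true then n + i else i))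
      (lit p (if p = true then i else n + i))))) (Vj i) with hT1
    set T2 := imp (Vj i) (imp ((nz K).subst (σ i)) (iff (θ i)
      (lit p (if p = true then i else n + i)))) with hT2
    have q4' : Ded F ∅ [T1, T2] (2 * (d₄ * Q ^ 4)) := by
      refine (q4.sub ?_).le (by omega)
      intro C hC
      simp only [List.mem_cons, List.not_mem_nil, or_false] at hC
      rcases hC with rfl | rfl
      · refine List.mem_map.2 ⟨_, List.mem_cons_self .., ?_⟩
        simp only [subst, iff, hT1, σ, e0, e1, Vj]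
      · refine List.mem_map.2 ⟨_, List.mem_cons_of_mem _ (List.mem_cons_self ..), ?_⟩
        have : ∀ b, σ i b = lit p (clf n K p a i b) := fun b => rfl
        simp only [subst, iff, hT2, eθ, this 1, e1, Vj]
    have q5 := h₅ p H ((nz K).subst (σ i)) (Vj i) (θ i) i (n + i) M
      (∅ ∪ {B | B ∈ ([imp H ((nz K).subst (σ i))] ++ [imp H (neg (iff (var i) (var (n + i))))]) ++
        [T1, T2]}) (by
      have := hnzs i
      have := hVjs i
      have := hθs i
      omega) (by right; simp) (by right; simp) (by right; simp [hT1]) (by right; simp [hT2])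
    exact ((((q2'.append q3).append q4').cut q5)).le (by omega)
  -- all blocks
  have all1 : Ded F ∅ ((List.range n).map fun i => imp H (Vj i)) (Q * costb) := by
    refine (Ded.many _ costb _ ?_).le (by
      rw [List.length_range]; exact Nat.mul_le_mul_right _ hn)
    intro i hi
    exact (block i (by simpa using hi)).sub (by simp)
  have all2 : Ded F ∅ ((List.range n).map fun i => imp H (iff (θ i) (var i))) (Q * costb) := by
    refine (Ded.many _ costb _ ?_).le (by
      rw [List.length_range]; exact Nat.mul_le_mul_right _ hn)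
    intro i hi
    exact (block i (by simpa using hi)).sub (by simp)
  have v1 := h₆ R H M (∅ ∪ {B | B ∈ (List.range n).map fun i => imp H (Vj i)})
    ((List.range n).map Vj) (by omega) (by
      show V.size ≤ M
      omega) (by
    intro C hC
    obtain ⟨i, hi, rfl⟩ := List.mem_map.1 hC
    right
    exact List.mem_map.2 ⟨i, hi, rfl⟩)
  have v2 : Ded F ∅ [imp H V] (Q * costb + d₆ * M * (Q + 1)) := by
    refine (all1.cut v1).le ?_
    rw [List.length_map, List.length_range]
    gcongr
  have v3 := h₇ H A θ var M (by omega) (by omega) (by rw [subst_var]; omega)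
    (∅ ∪ {B | B ∈ (List.range n).map fun i => imp H (iff (θ i) (var i))}) (by
    intro i hi
    right
    exact List.mem_map.2 ⟨i, List.mem_range.2 (hAv i hi), rfl⟩)
  rw [subst_var] at v3
  have v4 : Ded F ∅ [imp H (iff (A.subst θ) A)] (Q * costb + d₇ * M * Q) := by
    refine (all2.cut v3).le ?_
    gcongr
  have v5 := k₃ [V, A.subst θ, H, A] M hM1 (by
    intro Z hZ; simp at hZ; rcases hZ with rfl | rfl | rfl | rfl <;> omega)
    ({B | B ∈ [imp V (A.subst θ)]} ∪ {B | B ∈ [imp H V] ++ [imp H (iff (A.subst θ) A)]}) (by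
    intro Z hZ; simp only [List.mem_cons, List.not_mem_nil, or_false] at hZ
    rcases hZ with rfl | rfl | rfl
    · left; simp [subst, asg]
    · right; simp [subst, asg]
    · right; simp [subst, asg, iff])
  have v6 := h₈ R n n Zc A M (({B | B ∈ [imp V (A.subst θ)]} ∪
      {B | B ∈ [imp H V] ++ [imp H (iff (A.subst θ) A)]}) ∪ {B | B ∈ [imp H A]}) (by omega)
    (by right; simp [hH, hN])
  have v5' := v5.sub (G' := [imp H A]) (by simp [subst, asg])
  have fin := ((v2.append v4).mono (Set.empty_subset {B | B ∈ [imp V (A.subst θ)]}) le_rfl).cut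
    (v5'.cut v6)
  refine ((o2.ded fin (fun B hB => hB)).sub (by simp)).le ?_
  -- the bound
  have e5 : ∀ k, k ≤ 10 → Q ^ k ≤ Q ^ 10 := fun k hk => Nat.pow_le_pow_right hQ1 hk
  have hn1 : d₈ * M * (n + 1) ≤ d₈ * M * (2 * Q) := Nat.mul_le_mul_left _ (by omega)
  have hq1 : d₆ * M * (Q + 1) ≤ d₆ * M * (2 * Q) := Nat.mul_le_mul_left _ (by omega)
  have hq2 : d₂ * M * (Q + 1) ≤ d₂ * M * (2 * Q) := Nat.mul_le_mul_left _ (by omega)
  have hcb : costb ≤ 200 * (d₁ * Q ^ 6) + 200 * (a₁ * Q ^ 4) + 400 * (d₂ * Q ^ 4) +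
      200 * (d₃ * Q ^ 4) + 200 * (a₂ * Q ^ 3) + 2 * (d₄ * Q ^ 4) + 200 * (d₅ * Q ^ 3) := by
    calc costb ≤ Q * (d₁ * M * Q ^ 2 + a₁ * M) + d₂ * M * (2 * Q) + (d₃ * M * Q + a₂ * M) +
        2 * (d₄ * Q ^ 4) + d₅ * M := by omega
      _ = _ := by rw [hM]; ring
  have hcb2 : Q * costb ≤ 200 * (d₁ * Q ^ 7) + 200 * (a₁ * Q ^ 5) + 400 * (d₂ * Q ^ 5) +
      200 * (d₃ * Q ^ 5) + 200 * (a₂ * Q ^ 4) + 2 * (d₄ * Q ^ 5) + 200 * (d₅ * Q ^ 4) := by
    calc Q * costb ≤ Q * _ := Nat.mul_le_mul_left _ hcb
      _ = _ := by ring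
  have g1 := Nat.mul_le_mul_left d₁ (e5 7 (by norm_num))
  have g2 := Nat.mul_le_mul_left a₁ (e5 5 (by norm_num))
  have g3 := Nat.mul_le_mul_left d₂ (e5 5 (by norm_num))
  have g4 := Nat.mul_le_mul_left d₃ (e5 5 (by norm_num))
  have g5 := Nat.mul_le_mul_left a₂ (e5 4 (by norm_num))
  have g6 := Nat.mul_le_mul_left d₄ (e5 5 (by norm_num))
  have g7 := Nat.mul_le_mul_left d₅ (e5 4 (by norm_num))
  have g8 := Nat.mul_le_mul_left d₆ (e5 4 (by norm_num))
  have g9 := Nat.mul_le_mul_left d₇ (e5 4 (by norm_num))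
  have g10 := Nat.mul_le_mul_left d₈ (e5 4 (by norm_num))
  have g11 := Nat.mul_le_mul_left a₃ (e5 3 (by norm_num))
  have i1 : d₆ * M * (2 * Q) = 400 * (d₆ * Q ^ 4) := by rw [hM]; ring
  have i2 : d₇ * M * Q = 200 * (d₇ * Q ^ 4) := by rw [hM]; ring
  have i3 : a₃ * M = 200 * (a₃ * Q ^ 3) := by rw [hM]; ring
  have i4 : d₈ * M * (2 * Q) = 400 * (d₈ * Q ^ 4) := by rw [hM]; ring
  have rhs : (d₀ + 1000 * (d₁ + d₂ + d₃ + d₄ + d₅ + d₆ + d₇ + d₈ + a₁ + a₂ + a₃)) * Q ^ 10 =
      d₀ * Q ^ 10 + 1000 * (d₁ * Q ^ 10) + 1000 * (d₂ * Q ^ 10) + 1000 * (d₃ * Q ^ 10) +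
      1000 * (d₄ * Q ^ 10) + 1000 * (d₅ * Q ^ 10) + 1000 * (d₆ * Q ^ 10) +
      1000 * (d₇ * Q ^ 10) + 1000 * (d₈ * Q ^ 10) + 1000 * (a₁ * Q ^ 10) +
      1000 * (a₂ * Q ^ 10) + 1000 * (a₃ * Q ^ 10) := by ring
  rw [rhs]
  omega

/-- Frege + permutation simulates, on dual-rail encoded formulas, the substitution rule for
linearly many auxiliary variables. -/
theorem store_main (F : List Rule) (hF : IsFrege F) : ∃ e : ℕ, ∀ (c n : ℕ) (A : Fm) (S : ℕ),
    (∀ v ∈ A.vars, v < n) → Has F (AuxRule1 n (n * c)) A S →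
    Has F PermRule (dual A n n) ((S + n + 2 ^ c) ^ e + e) := by
  obtain ⟨d₁, h₁⟩ := store_pol F hF
  obtain ⟨d₂, h₂⟩ := dummy_elim F hF
  have hpb : PB fun q => 2 * (d₁ * (2 * q) ^ 10) + d₂ * (10 * (2 * q) ^ 2) ^ 3 :=
    ((PB.const 2).mul ((PB.const d₁).mul (((PB.const 2).mul PB.id).pow 10))).add
      ((PB.const d₂).mul (((PB.const 10).mul (((PB.const 2).mul PB.id).pow 2)).pow 3))
  obtain ⟨e, he⟩ := hpb.out
  refine ⟨e, fun c n A S hA hS => ?_⟩
  obtain ⟨L, hL, hLS⟩ := hS
  obtain ⟨w, hw⟩ : ∃ w, w = 2 ^ c := ⟨_, rfl⟩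
  rw [← hw]
  have hw2 : 2 ^ (c + 1) = 2 * w := by rw [pow_succ, hw]; ring
  obtain ⟨q, hq⟩ : ∃ q, q = S + n + w := ⟨_, rfl⟩
  rw [← hq]
  obtain ⟨Q, hQ⟩ : ∃ Q, Q = 2 * q := ⟨_, rfl⟩
  have hK : 2 ^ (c + 1) ≤ Q := by rw [hw2]; omega
  have hnQ : n ≤ Q := by omega
  have hLQ : psize (A :: L) ≤ Q := by omega
  obtain ⟨m, hm⟩ : ∃ m, m = n * (2 ^ (c + 1) - 2) := ⟨_, rfl⟩
  have p1 := h₁ c n (2 * n) true A L Q hnQ hK le_rfl hA hL hLQ
  have p2 := h₁ c n (2 * n + m) false A L Q hnQ hK (by omega) hA hL hLQ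
  rw [← hm] at p1 p2
  have hmQ : m ≤ 10 * Q ^ 2 := by
    calc m ≤ n * 2 ^ (c + 1) := by rw [hm]; exact Nat.mul_le_mul_left _ (by omega)
      _ ≤ Q * Q := Nat.mul_le_mul hnQ hK
      _ ≤ 10 * Q ^ 2 := by nlinarith
  have hAs : A.size ≤ Q := (size_le_psize (L := A :: L) (by simp)).trans hLQ
  have hQ1 : 1 ≤ Q := (size_pos A).trans hAs
  have hQ2 : Q ≤ Q ^ 2 := by nlinarith
  have p3 := h₂ (dual A n n) (2 * n) m _ _ (10 * Q ^ 2) _ (by
    intro v hv
    rcases dual_vars hv with h | h
    · have := hA v h; omega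
    · omega) hmQ (by rw [dual_size]; omega) (p1.append p2)
  refine (p3.le ?_).has
  refine le_trans (le_of_eq ?_) (he q)
  rw [hQ]
  ring

end Pool.Agent.V8H46.FP
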