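import Pool.Agent.V8H46.FP.Store

/-!
# Removal of the dummy variables
-/

set_option autoImplicit false

namespace Pool.Agent.V8H46.FP

open Pool.Agent.H555R2.PF Pool.Agent.H555R2.PF.Fm

/-- introduction of a new variable by a transposition -/
theorem fresh_swap (F : List Rule) (hF : IsFrege F) : ∃ d : ℕ, ∀ (B : Fm) (p q t : ℕ)
    (G : List Fm), B ∈ G → p ∈ B.vars → q ∉ B.vars → OccL F PermRule G t →
    OccL F PermRule (B.rename (Equiv.swap p q) :: G) (t + d * (B.size + 10)) := by
  obtain ⟨c₁, h₁⟩ := schemaD hF [var 0] (and (var 0) (imp (var 1) (var 1))) (by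
    intro v h; simp [eval] at h ⊢; tauto)
  obtain ⟨c₂, h₂⟩ := schemaD hF [and (var 0) (var 1)] (var 0) (by
    intro v h; simp [eval] at h ⊢; tauto)
  refine ⟨c₁ + c₂ + 1, fun B p q t G hB hp hq hocc => ?_⟩
  have s1 := h₁ [B, var q] (B.size + 10) (by omega) (by
    intro Z hZ; simp at hZ; rcases hZ with rfl | rfl
    · omega
    · simp only [size]; omega) {Z | Z ∈ G} (by
    intro Z hZ; simp only [List.mem_singleton] at hZ; subst hZ
    simpa [subst, asg] using hB)
  have t1 := hocc.ded s1 (fun Z hZ => hZ)
  have t2 := t1.rule (A := and B (imp (var q) (var q)))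
    (B := (and B (imp (var q) (var q))).rename (Equiv.swap p q)) (by simp [subst, asg])
    ⟨Equiv.swap p q, by
      intro n hn
      simp only [vars, Finset.mem_union, Finset.mem_singleton] at hn
      push Not at hn
      apply Equiv.swap_apply_of_ne_of_ne
      · rintro rfl; exact hn.1 hp
      · exact hn.2.1, rfl⟩
  have s2 := h₂ [B.rename (Equiv.swap p q), (imp (var q) (var q)).rename (Equiv.swap p q)]
    (B.size + 10) (by omega) (by
    intro Z hZ; simp at hZ; rcases hZ with rfl | rfl
    · rw [size_rename]; omega
    · rw [size_rename]; simp only [size]; omega)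
    {Z | Z ∈ (and B (imp (var q) (var q))).rename (Equiv.swap p q) ::
      ([(and (var 0) (imp (var 1) (var 1))).subst (asg [B, var q])] ++ G)} (by
    intro Z hZ; simp only [List.mem_singleton] at hZ; subst hZ
    simp [subst, asg, rename])
  refine ((t2.ded s2 (fun Z hZ => hZ)).sub ?_).le ?_
  · intro C hC
    rcases List.mem_cons.1 hC with rfl | hC
    · simp [subst, asg]
    · simp [hC]
  · rw [size_rename]
    simp only [size]
    have e : (c₁ + c₂ + 1) * (B.size + 10) = c₁ * (B.size + 10) + c₂ * (B.size + 10) +
      (B.size + 10) := by ring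
    rw [e]
    omega

/-- `d₀, …, d_(j-1)` are false -/
def zc (D : Fm) (a : ℕ) : ℕ → Fm
  | 0 => imp D D
  | j + 1 => and (neg (var (a + j))) (zc D a j)

theorem zc_size (D : Fm) (a j : ℕ) : (zc D a j).size = 2 * D.size + 1 + 3 * j := by
  induction j with
  | zero => simp only [zc, size]; omega
  | succ j ih => simp only [zc, size, ih]; omega

theorem zc_vars {D : Fm} {a j v : ℕ} (h : v ∈ (zc D a j).vars) : v ∈ D.vars ∨ (a ≤ v ∧ v < a + j) := by
  induction j with
  | zero => simp [zc, vars] at h; exact Or.inl h
  | succ j ih =>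
    simp only [zc, vars, Finset.mem_union, Finset.mem_singleton] at h
    rcases h with rfl | h
    · exact Or.inr ⟨by omega, by omega⟩
    · rcases ih h with h | h
      · exact Or.inl h
      · exact Or.inr ⟨h.1, by omega⟩

theorem zc_imp (F : List Rule) (hF : IsFrege F) : ∃ c : ℕ, ∀ (D : Fm) (a j i M : ℕ)
    (Γ : Set Fm), (zc D a j).size ≤ M → i < j →
    Ded F Γ [imp (zc D a j) (neg (var (a + i)))] (c * M * j) := by
  obtain ⟨c₁, h₁⟩ := schemaD hF [] (imp (and (neg (var 0)) (var 1)) (neg (var 0))) (by
    intro v _; simp [eval]; tauto)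
  obtain ⟨c₂, h₂⟩ := schemaD hF [imp (var 1) (neg (var 2))]
    (imp (and (neg (var 0)) (var 1)) (neg (var 2))) (by
    intro v h; simp [eval] at h ⊢; tauto)
  refine ⟨c₁ + c₂, fun D a j => ?_⟩
  induction j with
  | zero => intro i M Γ _ h; omega
  | succ j ih =>
    intro i M Γ hM hi
    simp only [zc, size] at hM
    rcases Nat.lt_or_ge i j with h | h
    · have r := ih i M Γ (by omega) h
      have s := h₂ [var (a + j), zc D a j, var (a + i)] M (by omega) (by
        intro Z hZ; simp at hZ; rcases hZ with rfl | rfl | rfl
        · simp only [size]; omega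
        · omega
        · simp only [size]; omega)
        (Γ ∪ {B | B ∈ [imp (zc D a j) (neg (var (a + i)))]}) (by
        intro Z hZ; simp only [List.mem_singleton] at hZ; subst hZ; right
        simp [subst, asg])
      refine ((r.cut s).sub (by simp [subst, asg, zc])).le ?_
      have e : (c₁ + c₂) * M * (j + 1) = (c₁ + c₂) * M * j + c₁ * M + c₂ * M := by ring
      rw [e]; omega
    · have hij : i = j := by omega
      subst hij
      have s := h₁ [var (a + i), zc D a i] M (by omega) (by
        intro Z hZ; simp at hZ; rcases hZ with rfl | rfl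
        · simp only [size]; omega
        · omega) Γ (by simp)
      refine (s.sub (by simp [subst, asg, zc])).le ?_
      have e : (c₁ + c₂) * M * (i + 1) = (c₁ + c₂) * M * i + c₁ * M + c₂ * M := by ring
      rw [e]; omega

/-- Elimination of the dummy variables. -/
theorem dummy_elim (F : List Rule) (hF : IsFrege F) : ∃ d : ℕ, ∀ (D : Fm) (a m z z' Q t : ℕ),
    (∀ v ∈ D.vars, v < a) → m ≤ Q → D.size ≤ Q → 
    OccL F PermRule [imp (cj z ((List.range m).map fun i => neg (lit true (a + i)))) D,
      imp (cj z' ((List.range m).map fun i => neg (lit false (a + m + i)))) D] t →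
    OccL F PermRule [D] (t + d * Q ^ 3) := by
  obtain ⟨c₁, h₁⟩ := zc_imp F hF
  obtain ⟨c₂, h₂⟩ := cj_intro F hF
  obtain ⟨a₁, k₁⟩ := schemaD hF [imp (var 0) (var 1), imp (var 1) (var 2)]
    (imp (var 0) (var 2)) (by
    intro v h; simp [eval] at h ⊢; tauto)
  obtain ⟨c₃, h₃⟩ := fresh_swap F hF
  obtain ⟨a₂, k₂⟩ := schemaD hF [imp (and (neg (var 0)) (var 1)) (var 2)]
    (imp (and (var 1) (neg (var 2))) (neg (neg (var 0)))) (by
    intro v h; simp [eval] at h ⊢; tauto)
  obtain ⟨a₃, k₃⟩ := schemaD hF [imp (and (var 0) (neg (var 1))) (var 2), imp (var 2) (var 1)]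
    (imp (var 0) (var 1)) (by
    intro v h; simp [eval] at h ⊢; tauto)
  obtain ⟨a₄, k₄⟩ := schemaD hF [imp (imp (var 0) (var 0)) (var 0)] (var 0) (by
    intro v h; simp [eval] at h ⊢; tauto)
  refine ⟨1000 * (c₁ + c₂ + c₃ + a₁ + a₂ + a₃ + a₄ + 1), ?_⟩
  intro D a m z z' Q t hDv hm hD hocc
  have hQ1 : 1 ≤ Q := (size_pos D).trans hD
  set P := cj z ((List.range m).map fun i => neg (lit true (a + i))) with hP
  set N := cj z' ((List.range m).map fun i => neg (lit false (a + m + i))) with hN
  have hPs : P.size ≤ 8 * Q := by
    rw [hP, cj_size, List.length_map, List.length_range]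
    have := psize_map_le' (List.range m) (fun i => neg (lit true (a + i))) 3 (by
      intro i _; have := lit_size true (a + i); simp only [size]; omega)
    rw [List.length_range] at this
    omega
  have hNs : N.size ≤ 8 * Q := by
    rw [hN, cj_size, List.length_map, List.length_range]
    have := psize_map_le' (List.range m) (fun i => neg (lit false (a + m + i))) 3 (by
      intro i _; have := lit_size false (a + m + i); simp only [size]; omega)
    rw [List.length_range] at this
    omega
  have hzs : ∀ j ≤ m, (zc D a j).size ≤ 6 * Q := by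
    intro j hj; rw [zc_size]; omega
  set M := 10 * Q with hM
  -- start
  have start : OccL F PermRule [imp (zc D a m) D, imp N D]
      (t + (Q * (c₁ * M * Q) + c₂ * M * (Q + 1) + a₁ * M)) := by
    have s1 : Ded F {B | B ∈ [imp P D, imp N D]} ((List.range m).map fun i =>
        imp (zc D a m) (neg (lit true (a + i)))) (Q * (c₁ * M * Q)) := by
      refine (Ded.many _ (c₁ * M * Q) _ ?_).le (by
        rw [List.length_range]; exact Nat.mul_le_mul_right _ hm)
      intro i hi
      rw [List.mem_range] at hi
      have := h₁ D a m i M {B | B ∈ [imp P D, imp N D]} (by have := hzs m le_rfl; omega) hi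
      simp only [lit, if_true]
      exact this.le (Nat.mul_le_mul_left _ hm)
    have s2 := h₂ z (zc D a m) M ({B | B ∈ [imp P D, imp N D]} ∪
      {B | B ∈ (List.range m).map fun i => imp (zc D a m) (neg (lit true (a + i)))})
      ((List.range m).map fun i => neg (lit true (a + i))) (by have := hzs m le_rfl; omega)
      (by rw [← hP]; omega) (by
      intro C hC
      obtain ⟨i, hi, rfl⟩ := List.mem_map.1 hC
      right
      exact List.mem_map.2 ⟨i, hi, rfl⟩)
    rw [List.length_map, List.length_range] at s2
    have s12 := (s1.cut s2).le (show _ ≤ Q * (c₁ * M * Q) + c₂ * M * (Q + 1) by gcongr)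
    have s3 := k₁ [zc D a m, P, D] M (by omega) (by
      intro Z hZ; simp at hZ; rcases hZ with rfl | rfl | rfl
      · have := hzs m le_rfl; omega
      · omega
      · omega) ({B | B ∈ [imp P D, imp N D]} ∪ {B | B ∈ [imp (zc D a m) P]}) (by
      intro Z hZ; simp only [List.mem_cons, List.not_mem_nil, or_false] at hZ
      rcases hZ with rfl | rfl
      · right; simp [subst, asg]
      · left; simp [subst, asg])
    refine (hocc.ded (s12.cut s3) (fun B hB => hB)).sub ?_
    intro C hC
    simp only [List.mem_cons, List.not_mem_nil, or_false] at hC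
    rcases hC with rfl | rfl <;> simp [subst, asg]
  -- one step
  have step : ∀ j, j < m → ∀ t', OccL F PermRule [imp (zc D a (j + 1)) D, imp N D] t' →
      OccL F PermRule [imp (zc D a j) D, imp N D]
        (t' + (Q * (c₃ * (M + 10) + a₂ * M) + (c₂ * M * (Q + 1) + a₃ * M))) := by
    intro j hj t' h
    have hz1 := hzs (j + 1) hj
    have hz0 := hzs j hj.le
    -- the formulas for the other dummies
    have all : ∀ l : List ℕ, (∀ i ∈ l, i < m) → OccL F PermRule
        ((l.map fun i => imp (and (zc D a j) (neg D)) (neg (lit false (a + m + i)))) ++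
          [imp (zc D a (j + 1)) D, imp N D]) (t' + l.length * (c₃ * (M + 10) + a₂ * M)) := by
      intro l
      induction l with
      | nil => intro _; simpa using h
      | cons i l ih =>
        intro hl
        have h1 := ih (fun k hk => hl k (by simp [hk]))
        have hi := hl i (by simp)
        have hB : imp (zc D a (j + 1)) D ∈ ((l.map fun i => imp (and (zc D a j) (neg D))
          (neg (lit false (a + m + i)))) ++ [imp (zc D a (j + 1)) D, imp N D]) := by simp
        have hfr : a + m + i ∉ (imp (zc D a (j + 1)) D).vars := by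
          simp only [vars, Finset.mem_union]
          rintro (hh | hh)
          · rcases zc_vars hh with hh | hh
            · have := hDv _ hh; omega
            · omega
          · have := hDv _ hh; omega
        have h2 := h₃ (imp (zc D a (j + 1)) D) (a + j) (a + m + i) _ _ hB (by
          simp [zc, vars]) hfr h1
        have eD : D.rename (Equiv.swap (a + j) (a + m + i)) = D := by
          apply rename_swap_eq
          · intro hh; have := hDv _ hh; omega
          · intro hh; have := hDv _ hh; omega
        have ez : (zc D a j).rename (Equiv.swap (a + j) (a + m + i)) = zc D a j := by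
          apply rename_swap_eq
          · intro hh
            rcases zc_vars hh with hh | hh
            · have := hDv _ hh; omega
            · omega
          · intro hh
            rcases zc_vars hh with hh | hh
            · have := hDv _ hh; omega
            · omega
        have eB : (imp (zc D a (j + 1)) D).rename (Equiv.swap (a + j) (a + m + i)) =
            imp (and (neg (var (a + m + i))) (zc D a j)) D := by
          rw [rename] at eD ez
          simp only [zc, rename, subst, Equiv.swap_apply_left, eD, ez]
        rw [eB] at h2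
        have s := k₂ [var (a + m + i), zc D a j, D] M (by omega) (by
          intro Z hZ; simp at hZ; rcases hZ with rfl | rfl | rfl
          · simp only [size]; omega
          · omega
          · omega) {B | B ∈ [imp (and (neg (var (a + m + i))) (zc D a j)) D]} (by
          intro Z hZ; simp only [List.mem_singleton] at hZ; subst hZ
          simp [subst, asg])
        have h4 := h2.ded s (by
          intro B hB
          have : B = imp (and (neg (var (a + m + i))) (zc D a j)) D := by simpa using hB
          simp [this])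
        refine (h4.sub ?_).le ?_
        · intro C hC
          simp only [List.map_cons, List.cons_append, List.mem_cons] at hC
          rcases hC with rfl | hC
          · simp [subst, asg, lit]
          · simp only [List.mem_append, List.mem_cons]
            right; right
            simpa using hC
        · have hsz : (imp (zc D a (j + 1)) D).size + 10 ≤ M + 10 := by
            simp only [size]; omega
          have := Nat.mul_le_mul_left c₃ hsz
          simp only [List.length_cons]
          have e : (l.length + 1) * (c₃ * (M + 10) + a₂ * M) =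
            l.length * (c₃ * (M + 10) + a₂ * M) + c₃ * (M + 10) + a₂ * M := by ring
          rw [e]
          omega
    have h5 := all (List.range m) (by simp)
    rw [List.length_range] at h5
    set G := ((List.range m).map fun i => imp (and (zc D a j) (neg D))
      (neg (lit false (a + m + i)))) ++ [imp (zc D a (j + 1)) D, imp N D] with hG
    have s2 := h₂ z' (and (zc D a j) (neg D)) M {B | B ∈ G}
      ((List.range m).map fun i => neg (lit false (a + m + i))) (by simp only [size]; omega)
      (by rw [← hN]; omega) (by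
      intro C hC
      obtain ⟨i, hi, rfl⟩ := List.mem_map.1 hC
      show _ ∈ G
      rw [hG]
      exact List.mem_append_left _ (List.mem_map.2 ⟨i, hi, rfl⟩))
    rw [List.length_map, List.length_range] at s2
    have s3 := k₃ [zc D a j, D, N] M (by omega) (by
      intro Z hZ; simp at hZ; rcases hZ with rfl | rfl | rfl <;> omega)
      ({B | B ∈ G} ∪ {B | B ∈ [imp (and (zc D a j) (neg D)) N]}) (by
      intro Z hZ; simp only [List.mem_cons, List.not_mem_nil, or_false] at hZ
      rcases hZ with rfl | rfl
      · right; simp [subst, asg]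
      · left; simp [subst, asg, hG])
    refine ((h5.ded (s2.cut s3) (fun B hB => hB)).sub ?_).le ?_
    · intro C hC
      simp only [List.mem_cons, List.not_mem_nil, or_false] at hC
      rcases hC with rfl | rfl
      · simp [subst, asg]
      · simp [hG]
    · have e1 : m * (c₃ * (M + 10) + a₂ * M) ≤ Q * (c₃ * (M + 10) + a₂ * M) :=
        Nat.mul_le_mul_right _ hm
      have e2 : c₂ * M * (m + 1) ≤ c₂ * M * (Q + 1) := Nat.mul_le_mul_left _ (by omega)
      omega
  -- iteration
  have iter : ∀ j ≤ m, OccL F PermRule [imp (zc D a (m - j)) D, imp N D]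
      (t + (Q * (c₁ * M * Q) + c₂ * M * (Q + 1) + a₁ * M) +
        j * (Q * (c₃ * (M + 10) + a₂ * M) + (c₂ * M * (Q + 1) + a₃ * M))) := by
    intro j
    induction j with
    | zero => intro _; simpa using start
    | succ j ih =>
      intro hj
      have h1 := ih (by omega)
      have e : m - j = m - (j + 1) + 1 := by omega
      rw [e] at h1
      refine (step (m - (j + 1)) (by omega) _ h1).le ?_
      have e : (j + 1) * (Q * (c₃ * (M + 10) + a₂ * M) + (c₂ * M * (Q + 1) + a₃ * M)) =
        j * (Q * (c₃ * (M + 10) + a₂ * M) + (c₂ * M * (Q + 1) + a₃ * M)) +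
        (Q * (c₃ * (M + 10) + a₂ * M) + (c₂ * M * (Q + 1) + a₃ * M)) := by ring
      rw [e]
      omega
  have last := iter m le_rfl
  rw [Nat.sub_self] at last
  have s := k₄ [D] M (by omega) (by
    intro Z hZ; simp at hZ; subst hZ; omega) {B | B ∈ [imp (zc D a 0) D, imp N D]} (by
    intro Z hZ; simp only [List.mem_singleton] at hZ; subst hZ
    simp [subst, asg, zc])
  refine ((last.ded s (fun B hB => hB)).sub (by simp [subst, asg])).le ?_
  have e1 : m * (Q * (c₃ * (M + 10) + a₂ * M) + (c₂ * M * (Q + 1) + a₃ * M)) ≤
      Q * (Q * (c₃ * (M + 10) + a₂ * M) + (c₂ * M * (Q + 1) + a₃ * M)) :=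
    Nat.mul_le_mul_right _ hm
  have e13 : Q ≤ Q ^ 3 := by
    calc Q = Q ^ 1 := (pow_one Q).symm
      _ ≤ Q ^ 3 := Nat.pow_le_pow_right hQ1 (by norm_num)
  have e23 : Q ^ 2 ≤ Q ^ 3 := Nat.pow_le_pow_right hQ1 (by norm_num)
  have g1 := Nat.mul_le_mul_left c₂ e23
  have g1' := Nat.mul_le_mul_left c₂ e13
  have g2 := Nat.mul_le_mul_left c₃ e23
  have g3 := Nat.mul_le_mul_left a₁ e13
  have g4 := Nat.mul_le_mul_left a₃ e23
  have g5 := Nat.mul_le_mul_left a₄ e13
  have lhs : Q * (c₁ * M * Q) + c₂ * M * (Q + 1) + a₁ * M + Q * (Q * (c₃ * (M + 10) + a₂ * M) +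
      (c₂ * M * (Q + 1) + a₃ * M)) + a₄ * M = 10 * (c₁ * Q ^ 3) + 20 * (c₂ * Q ^ 2) +
      10 * (c₂ * Q) + 10 * (a₁ * Q) + 10 * (c₃ * Q ^ 3) + 10 * (c₃ * Q ^ 2) +
      10 * (a₂ * Q ^ 3) + 10 * (c₂ * Q ^ 3) + 10 * (a₃ * Q ^ 2) + 10 * (a₄ * Q) := by
    rw [hM]; ring
  have rhs : 1000 * (c₁ + c₂ + c₃ + a₁ + a₂ + a₃ + a₄ + 1) * Q ^ 3 = 1000 * (c₁ * Q ^ 3) +
      1000 * (c₂ * Q ^ 3) + 1000 * (c₃ * Q ^ 3) + 1000 * (a₁ * Q ^ 3) + 1000 * (a₂ * Q ^ 3) +
      1000 * (a₃ * Q ^ 3) + 1000 * (a₄ * Q ^ 3) + 1000 * Q ^ 3 := by ring
  rw [rhs]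
  omega

end Pool.Agent.V8H46.FP
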