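import Pool.Agent.V8H46.FP.StoreFinal

/-!
# Frege + permutation simulates substitutions for linearly many auxiliary variables
-/

set_option autoImplicit false

namespace Pool.Agent.V8H46.FP

open Pool.Agent.H555R2.PF Pool.Agent.H555R2.PF.Fm

/-- all lines -/
theorem store_core (F : List Rule) (hF : IsFrege F) : ∃ d : ℕ, ∀ (c n R : ℕ) (s : Bool)
    (cl : ℕ → ℕ → ℕ) (_ : Cells c n R cl) (Q : ℕ), n ≤ Q → 2 ^ (c + 1) ≤ Q →
    ∀ L, Pr F (AuxRule1 n (n * c)) L → psize L ≤ Q →
      OccL F PermRule (L.map fun B => imp (Vl c n R s cl) (B.subst (th c n R s cl)))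
        (L.length * (d * Q ^ 9)) := by
  obtain ⟨d₁, h₁⟩ := lift F hF
  obtain ⟨d₂, h₂⟩ := aux_step F hF
  refine ⟨100 * d₁ + d₂, ?_⟩
  intro c n R s cl hcl Q hn hK L hL
  set V := Vl c n R s cl with hV
  set θ := th c n R s cl with hθ
  induction hL with
  | nil => intro _; simpa using (OccL.nil : OccL F PermRule [] 0)
  | @frege L B hL hB ih =>
    intro hQ
    rw [psize_cons] at hQ
    have h1 := ih (by omega)
    have hQ1 : 1 ≤ Q := (size_pos B).trans (by omega)
    have hVs : V.size ≤ 26 * Q ^ 3 := Vl_size c n R s cl hn hK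
    have hθs : ∀ v, (θ v).size ≤ 12 * Q := fun v => (th_size c n R s cl v).trans (by omega)
    have hQ2 : Q ≤ Q ^ 2 := by nlinarith
    have hQ3 : Q ^ 2 ≤ Q ^ 3 := Nat.pow_le_pow_right hQ1 (by norm_num)
    have hsub : ∀ A : Fm, A.size ≤ Q → (A.subst θ).size ≤ 12 * Q ^ 2 := by
      intro A hA
      have := size_subst_le (σ := θ) (M := 12 * Q) (by omega) (A := A) (fun v _ => hθs v)
      calc (A.subst θ).size ≤ A.size * (12 * Q) := this
        _ ≤ Q * (12 * Q) := Nat.mul_le_mul_right _ hA
        _ = 12 * Q ^ 2 := by ring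
    have s := h₁ V (B.subst θ) (L.map (Fm.subst θ)) (100 * Q ^ 3) (FregeStep.map hB θ)
      (by omega) (by have := hsub B (by omega); omega) (by
      intro A hA
      obtain ⟨C, hC, rfl⟩ := List.mem_map.1 hA
      have := hsub C ((size_le_psize hC).trans (by omega))
      omega) {C | C ∈ L.map fun B => imp V (B.subst θ)} (by
      intro A hA
      obtain ⟨C, hC, rfl⟩ := List.mem_map.1 hA
      exact List.mem_map.2 ⟨C, hC, rfl⟩)
    refine ((h1.ded s (fun C hC => hC)).sub (by simp)).le ?_
    simp only [List.length_cons]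
    have e39 : Q ^ 3 ≤ Q ^ 9 := Nat.pow_le_pow_right hQ1 (by norm_num)
    have := Nat.mul_le_mul_left d₁ e39
    have e : (L.length + 1) * ((100 * d₁ + d₂) * Q ^ 9) = L.length * ((100 * d₁ + d₂) * Q ^ 9) +
      100 * (d₁ * Q ^ 9) + d₂ * Q ^ 9 := by ring
    have e' : d₁ * (100 * Q ^ 3) = 100 * (d₁ * Q ^ 3) := by ring
    rw [e, e']
    omega
  | @rule L A B hL hA hX ih =>
    intro hQ
    rw [psize_cons] at hQ
    have h1 := ih (by omega)
    obtain ⟨y, φ, hy1, hy2, rfl⟩ := hX
    have hAs := size_le_psize hA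
    have hy2' : y < n * (c + 1) := by rw [Nat.mul_add, Nat.mul_one]; omega
    obtain ⟨φ', hφ', e⟩ : ∃ φ' : Fm, φ'.size ≤ Q ∧ (A.subst fun v => if v = y then φ else var v) =
        A.subst fun v => if v = y then φ' else var v := by
      by_cases hyA : y ∈ A.vars
      · refine ⟨φ, ?_, rfl⟩
        have := size_le_subst (σ := fun v => if v = y then φ else var v) hyA
        simp only [if_true] at this
        omega
      · refine ⟨var 0, by simp only [size]; have := size_pos A; omega, ?_⟩
        apply subst_congr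
        intro v hv
        have : v ≠ y := by rintro rfl; exact hyA hv
        simp only [if_neg this]
    rw [e] at hQ ⊢
    have h3 := h₂ c n R s cl hcl A φ' y Q (L.map fun B => imp V (B.subst θ)) _ hn hK (by omega)
      hφ' (by omega) hy1 hy2' (List.mem_map.2 ⟨A, hA, rfl⟩) h1
    refine (h3.sub (by simp [hV, hθ])).le ?_
    simp only [List.length_cons]
    have e : (L.length + 1) * ((100 * d₁ + d₂) * Q ^ 9) = L.length * ((100 * d₁ + d₂) * Q ^ 9) +
      100 * (d₁ * Q ^ 9) + d₂ * Q ^ 9 := by ring
    rw [e]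
    omega

/-! ### the end of the proof -/

theorem dj_intro (F : List Rule) (hF : IsFrege F) : ∃ c : ℕ, ∀ (M : ℕ) (L : List Fm) (C : Fm)
    (Γ : Set Fm), (dj L).size ≤ M → C ∈ L → Ded F Γ [imp C (dj L)] (c * M * L.length) := by
  obtain ⟨c₁, h₁⟩ := schemaD hF [] (imp (var 0) (or (var 0) (var 1))) (by
    intro v _; simp [eval]; tauto)
  obtain ⟨c₂, h₂⟩ := schemaD hF [imp (var 2) (var 1)] (imp (var 2) (or (var 0) (var 1))) (by
    intro v h; simp [eval] at h ⊢; tauto)
  refine ⟨c₁ + c₂, fun M L => ?_⟩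
  induction L with
  | nil => intro C Γ _ hC; simp at hC
  | cons D L ih =>
    intro C Γ hM hC
    simp only [dj, size] at hM
    have e : (c₁ + c₂) * M * (L.length + 1) = (c₁ + c₂) * M * L.length + c₁ * M + c₂ * M := by ring
    rcases List.mem_cons.1 hC with rfl | hC
    · have s := h₁ [C, dj L] M (by omega) (by
        intro Z hZ; simp at hZ; rcases hZ with rfl | rfl <;> omega) Γ (by simp)
      refine (s.sub (by simp [subst, asg, dj])).le ?_
      simp only [List.length_cons]
      rw [e]; omega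
    · have hCs : C.size ≤ M := by
        have h1 := size_le_psize hC
        have h2 := dj_size L
        omega
      have r := ih C Γ (by omega) hC
      have s := h₂ [D, dj L, C] M (by omega) (by
        intro Z hZ; simp at hZ; rcases hZ with rfl | rfl | rfl <;> omega)
        (Γ ∪ {B | B ∈ [imp C (dj L)]}) (by
        intro Z hZ; simp only [List.mem_singleton] at hZ; subst hZ; right
        simp [subst, asg])
      refine ((r.cut s).sub (by simp [subst, asg, dj])).le ?_
      simp only [List.length_cons]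
      rw [e]; omega

/-- no token in the cells `2, …, K - 1` -/
def nz (K : ℕ) : Fm := cj 0 (((List.range K).filter fun b => 2 ≤ b).map fun b => neg (var b))

theorem nz_size (K : ℕ) : (nz K).size ≤ 3 * K + 3 := by
  rw [nz, cj_size, List.length_map]
  have h1 := List.length_filter_le (fun b : ℕ => decide (2 ≤ b)) (List.range K)
  rw [List.length_range] at h1
  have h2 := psize_map_le' ((List.range K).filter fun b => 2 ≤ b) (fun b => neg (var b)) 2
    (by simp [size])
  omega

theorem nz_vars {K n : ℕ} (hK : 0 < K) (h : n ∈ (nz K).vars) : n < K := by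
  rcases cj_vars h with rfl | ⟨C, hC, h⟩
  · exact hK
  · obtain ⟨b, hb, rfl⟩ := List.mem_map.1 hC
    simp only [vars, Finset.mem_singleton] at h
    subst h
    simpa using (List.mem_filter.1 hb).1

theorem nz_eval (K : ℕ) (v : ℕ → Prop) : (nz K).eval v ↔ ∀ b < K, 2 ≤ b → ¬ v b := by
  rw [nz, cj_eval]
  simp only [List.mem_map, List.mem_filter, List.mem_range, decide_eq_true_eq,
    forall_exists_index, and_imp]
  constructor
  · intro h b h1 h2
    exact h (neg (var b)) b h1 h2 rfl
  · rintro h C b h1 h2 rfl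
    exact h b h1 h2

theorem template_final (F : List Rule) (hF : IsFrege F) : ∃ d : ℕ, ∀ (K Q : ℕ), 2 ≤ K → K ≤ Q →
    Ded F ∅ [imp (and (nz K) (neg (iff (var 0) (var 1)))) (val K),
      imp (val K) (imp (nz K) (iff (bt K 0) (var 1)))] (d * Q ^ 4) := by
  obtain ⟨c₁, h₁⟩ := cj_imp F hF
  obtain ⟨c₂, h₂⟩ := cj_intro F hF
  obtain ⟨c₃, h₃⟩ := dj_intro F hF
  obtain ⟨c₄, h₄⟩ := val_cases F hF
  obtain ⟨a₁, k₁⟩ := schemaD hF [imp (var 0) (var 3)]
    (imp (and (and (var 0) (var 1)) (var 2)) (var 3)) (by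
    intro v h; simp [eval] at h ⊢; tauto)
  obtain ⟨a₂, k₂⟩ := schemaD hF [] (imp (and (and (var 0) (var 1)) (var 2)) (var 1)) (by
    intro v _; simp only [eval]; tauto)
  obtain ⟨a₃, k₃⟩ := schemaD hF [] (imp (and (and (var 0) (var 1)) (var 2)) (var 2)) (by
    intro v _; simp only [eval]; tauto)
  obtain ⟨a₄, k₄⟩ := schemaD hF [imp (and (and (var 0) (var 1)) (neg (var 2))) (var 3),
    imp (and (and (var 0) (neg (var 1))) (var 2)) (var 4), imp (var 3) (var 5),
    imp (var 4) (var 5)]
    (imp (and (var 0) (neg (iff (var 1) (var 2)))) (var 5)) (by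
    intro v h; simp [eval, iff] at h ⊢; tauto)
  refine ⟨1000 * (c₁ + c₂ + c₃ + a₁ + a₂ + a₃ + a₄) + 40 ^ 4 * c₄, ?_⟩
  intro K Q hK2 hKQ
  have hQ1 : 1 ≤ Q := by omega
  have hQ2 : Q ≤ Q ^ 2 := by nlinarith
  set M := 20 * Q ^ 2 with hM
  have hnzs : (nz K).size ≤ 3 * Q + 3 := (nz_size K).trans (by omega)
  have hhs : ∀ b, (hot K b).size ≤ 3 * Q + 3 := fun b => (hot_size K b).trans (by omega)
  have hvs : (val K).size ≤ 11 * Q ^ 2 := by
    have h1 := val_size K
    have h2 : K ^ 2 ≤ Q ^ 2 := Nat.pow_le_pow_left hKQ 2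
    nlinarith
  -- the two cases
  have hot_of : ∀ (b : ℕ) (x y : Fm), b < 2 → x = (if 0 = b then var 0 else neg (var 0)) →
      y = (if 1 = b then var 1 else neg (var 1)) →
      Ded F ∅ [imp (and (and (nz K) x) y) (hot K b)]
        (Q * (c₁ * M * Q + (a₁ + a₂ + a₃) * M) + c₂ * M * (Q + 1)) := by
    intro b x y hb hx hy
    have hxs : x.size ≤ 2 := by rw [hx]; split_ifs <;> simp [size]
    have hys : y.size ≤ 2 := by rw [hy]; split_ifs <;> simp [size]
    have q1 : Ded F ∅ ((List.range K).map fun a =>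
        imp (and (and (nz K) x) y) (if a = b then var a else neg (var a)))
        (Q * (c₁ * M * Q + (a₁ + a₂ + a₃) * M)) := by
      refine (Ded.many _ (c₁ * M * Q + (a₁ + a₂ + a₃) * M) _ ?_).le (by
        rw [List.length_range]; exact Nat.mul_le_mul_right _ hKQ)
      intro a ha
      rw [List.mem_range] at ha
      have e : (a₁ + a₂ + a₃) * M = a₁ * M + a₂ * M + a₃ * M := by ring
      rcases Nat.lt_or_ge a 2 with h | h
      · have ha01 : a = 0 ∨ a = 1 := by omega
        rcases ha01 with rfl | rfl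
        · have s := k₂ [nz K, x, y] M (by omega) (by
            intro Z hZ; simp at hZ; rcases hZ with rfl | rfl | rfl <;> omega) ∅ (by simp)
          rw [← hx]
          exact (s.sub (by simp [subst, asg])).le (by omega)
        · have s := k₃ [nz K, x, y] M (by omega) (by
            intro Z hZ; simp at hZ; rcases hZ with rfl | rfl | rfl <;> omega) ∅ (by simp)
          rw [← hy]
          exact (s.sub (by simp [subst, asg])).le (by omega)
      · have hab : ¬ a = b := by omega
        rw [if_neg hab]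
        have r := h₁ 0 M (((List.range K).filter fun b => 2 ≤ b).map fun b => neg (var b))
          (neg (var a)) ∅ (by
          show (nz K).size ≤ M
          omega) (List.mem_map.2 ⟨a, List.mem_filter.2 ⟨List.mem_range.2 ha, by simpa using h⟩,
            rfl⟩)
        have s := k₁ [nz K, x, y, neg (var a)] M (by omega) (by
          intro Z hZ; simp at hZ; rcases hZ with rfl | rfl | rfl | rfl
          · omega
          · omega
          · omega
          · simp only [size]; omega)
          (∅ ∪ {B | B ∈ [imp (nz K) (neg (var a))]}) (by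
          intro Z hZ; simp only [List.mem_singleton] at hZ; subst hZ; right
          simp [subst, asg])
        refine ((r.cut s).sub (by simp [subst, asg])).le ?_
        have hlen : (((List.range K).filter fun b => 2 ≤ b).map fun b =>
            neg (var b)).length ≤ Q := by
          rw [List.length_map]
          have h1 := List.length_filter_le (fun b : ℕ => decide (2 ≤ b)) (List.range K)
          rw [List.length_range] at h1
          omega
        have := Nat.mul_le_mul_left (c₁ * M) hlen
        omega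
    have q2 := h₂ 0 (and (and (nz K) x) y) M
      (∅ ∪ {B | B ∈ (List.range K).map fun a =>
        imp (and (and (nz K) x) y) (if a = b then var a else neg (var a))})
      ((List.range K).map fun a => if a = b then var a else neg (var a))
      (by simp only [size]; omega) (by
        have := hhs b
        show (hot K b).size ≤ M
        omega) (by
      intro C hC
      obtain ⟨a, ha, rfl⟩ := List.mem_map.1 hC
      right
      exact List.mem_map.2 ⟨a, ha, rfl⟩)
    rw [List.length_map, List.length_range] at q2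
    refine (q1.cut q2).le ?_
    gcongr
  have r0 := hot_of 0 (var 0) (neg (var 1)) (by norm_num) (by simp) (by simp)
  have r1 := hot_of 1 (neg (var 0)) (var 1) (by norm_num) (by simp) (by simp)
  have w : ∀ b < K, Ded F ∅ [imp (hot K b) (val K)] (c₃ * M * Q) := by
    intro b hb
    have := h₃ M ((List.range K).map (hot K)) (hot K b) ∅ (by
      show (val K).size ≤ M
      omega) (List.mem_map.2 ⟨b, List.mem_range.2 hb, rfl⟩)
    rw [List.length_map, List.length_range] at this
    exact this.le (Nat.mul_le_mul_left _ hKQ)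
  have w0 := w 0 (by omega)
  have w1 := w 1 (by omega)
  have s := k₄ [nz K, var 0, var 1, hot K 0, hot K 1, val K] M (by omega) (by
    intro Z hZ; simp at hZ; rcases hZ with rfl | rfl | rfl | rfl | rfl | rfl
    · omega
    · simp only [size]; omega
    · simp only [size]; omega
    · have := hhs 0; omega
    · have := hhs 1; omega
    · omega) (∅ ∪ {B | B ∈ ([imp (and (and (nz K) (var 0)) (neg (var 1))) (hot K 0)] ++
      [imp (and (and (nz K) (neg (var 0))) (var 1)) (hot K 1)]) ++
      ([imp (hot K 0) (val K)] ++ [imp (hot K 1) (val K)])}) (by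
    intro Z hZ; simp only [List.mem_cons, List.not_mem_nil, or_false] at hZ
    rcases hZ with rfl | rfl | rfl | rfl <;> right <;> simp [subst, asg])
  have p1 := ((r0.append r1).append (w0.append w1)).cut s
  -- the second formula
  have p2 := h₄ K (imp (nz K) (iff (bt K 0) (var 1))) (40 * Q) (by omega) (by
    have := bt_size K 0
    simp only [size, iff]; omega) (by
    intro m hm
    simp only [vars, iff, Finset.mem_union, Finset.mem_singleton] at hm
    have a1 := fun (h : m ∈ (nz K).vars) => nz_vars (by omega : 0 < K) h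
    have a2 := fun (h : m ∈ (bt K 0).vars) => bt_vars (by omega : 0 < K) h
    rcases hm with hm | (hm | hm) | (hm | hm)
    · exact a1 hm
    · exact a2 hm
    · omega
    · omega
    · exact a2 hm) (by
    intro b hb
    show _ → (_ ∧ _)
    intro h0
    rw [nz_eval] at h0
    have hb2 : b < 2 := by
      by_contra h
      exact h0 b hb (by omega) rfl
    have e1 := bt_hot_eval (j := 0) hb
    have e2 : b.testBit 0 = true ↔ 1 = b := by
      have : b = 0 ∨ b = 1 := by omega
      rcases this with rfl | rfl <;> simp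
    exact ⟨fun h => e2.1 (e1.1 h), fun h => e1.2 (e2.2 h)⟩)
  refine ((p1.append p2).sub (by simp [subst, asg, iff])).le ?_
  have e24 : Q ^ 2 ≤ Q ^ 4 := Nat.pow_le_pow_right hQ1 (by norm_num)
  have e34 : Q ^ 3 ≤ Q ^ 4 := Nat.pow_le_pow_right hQ1 (by norm_num)
  have g1 := Nat.mul_le_mul_left c₂ e34
  have g1' := Nat.mul_le_mul_left c₂ e24
  have g2 := Nat.mul_le_mul_left c₃ e34
  have g3 := Nat.mul_le_mul_left a₁ e34
  have g4 := Nat.mul_le_mul_left a₂ e34
  have g5 := Nat.mul_le_mul_left a₃ e34
  have g6 := Nat.mul_le_mul_left a₄ e24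
  have lhs : Q * (c₁ * M * Q + (a₁ + a₂ + a₃) * M) + c₂ * M * (Q + 1) +
      (Q * (c₁ * M * Q + (a₁ + a₂ + a₃) * M) + c₂ * M * (Q + 1)) +
      (c₃ * M * Q + c₃ * M * Q) + a₄ * M + c₄ * (40 * Q) ^ 4 =
      40 * (c₁ * Q ^ 4) + 40 * (a₁ * Q ^ 3) + 40 * (a₂ * Q ^ 3) + 40 * (a₃ * Q ^ 3) +
      40 * (c₂ * Q ^ 3) + 40 * (c₂ * Q ^ 2) + 40 * (c₃ * Q ^ 3) + 20 * (a₄ * Q ^ 2) +
      40 ^ 4 * c₄ * Q ^ 4 := by rw [hM]; ring
  have rhs : (1000 * (c₁ + c₂ + c₃ + a₁ + a₂ + a₃ + a₄) + 40 ^ 4 * c₄) * Q ^ 4 =
      1000 * (c₁ * Q ^ 4) + 1000 * (c₂ * Q ^ 4) + 1000 * (c₃ * Q ^ 4) + 1000 * (a₁ * Q ^ 4) +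
      1000 * (a₂ * Q ^ 4) + 1000 * (a₃ * Q ^ 4) + 1000 * (a₄ * Q ^ 4) + 40 ^ 4 * c₄ * Q ^ 4 := by
    ring
  rw [lhs, rhs]
  omega

end Pool.Agent.V8H46.FP
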