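import Pool.Agent.V8H46.FP.EFAux

/-!
# Proofs in Frege + permutation of dual-rail formulas use little space
-/

set_option autoImplicit false

namespace Pool.Agent.V8H46.FP

open Pool.Agent.H555R2.PF Pool.Agent.H555R2.PF.Fm

/-! ### brute force -/

/-- Every tautology in few variables has a proof of exponential size in the number of
variables. -/
theorem brute (F : List Rule) (hF : IsFrege F) : ∃ c : ℕ, ∀ (q : ℕ) (T : Fm),
    (∀ v ∈ T.vars, v < q) → (∀ v, T.eval v) → Ded F ∅ [T] (c * 2 ^ q * T.size ^ 2) := by
  classical
  obtain ⟨c₁, h₁⟩ := eval_closed F hF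
  obtain ⟨c₂, h₂⟩ := repl F hF
  obtain ⟨a₁, k₁⟩ := schemaD hF [] (imp (var 0) (iff (var 1) (var 1))) (by
    intro v _; simp [eval, iff])
  obtain ⟨a₂, k₂⟩ := schemaD hF [] (imp (var 0) (iff (var 0) (imp (var 1) (var 1)))) (by
    intro v _; simp [eval, iff])
  obtain ⟨a₃, k₃⟩ := schemaD hF [] (imp (neg (var 0)) (iff (var 0) (neg (imp (var 1) (var 1))))) (by
    intro v _; simp [eval, iff])
  obtain ⟨a₄, k₄⟩ := schemaD hF [var 1, var 2, imp (var 0) (iff (var 3) (var 1)),
    imp (neg (var 0)) (iff (var 3) (var 2))] (var 3) (by
    intro v h; simp [eval, iff] at h ⊢; tauto)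
  refine ⟨1000 * (c₁ + c₂ + a₁ + a₂ + a₃ + a₄), ?_⟩
  intro q₀ T hTv hTe
  set N := T.size with hN
  have hN1 : 1 ≤ N := size_pos T
  have hsz : ∀ τ : ℕ → Fm, (∀ n, τ n = tt ∨ τ n = ff ∨ τ n = var n) → (T.subst τ).size ≤ 4 * N := by
    intro τ hτ
    have := size_subst_le (σ := τ) (M := 4) (by norm_num) (A := T) (by
      intro n _; rcases hτ n with h | h | h <;> rw [h] <;> simp [tt, ff, size])
    omega
  set K := 100 * (c₁ + c₂ + a₁ + a₂ + a₃ + a₄) * N ^ 2 with hK
  have hNN : N ≤ N ^ 2 := by nlinarith
  have claim : ∀ (q : ℕ) (τ : ℕ → Fm), (∀ n < q, τ n = var n) →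
      (∀ n, q ≤ n → τ n = tt ∨ τ n = ff) → Ded F ∅ [T.subst τ] ((2 ^ (q + 1) - 1) * K) := by
    intro q
    induction q with
    | zero =>
      intro τ _ hτ
      have s := h₁ τ (fun n => hτ n (Nat.zero_le _)) T (4 * N) (by omega) ∅
      rw [if_pos (hTe _)] at s
      refine s.le ?_
      simp only [zero_add, pow_one]
      have : c₁ * (4 * N) * N = 4 * (c₁ * N ^ 2) := by ring
      rw [hN] at this ⊢
      rw [this, hK]
      have e : (2 - 1) * (100 * (c₁ + c₂ + a₁ + a₂ + a₃ + a₄) * N ^ 2) = 100 * (c₁ * N ^ 2) +
        100 * ((c₂ + a₁ + a₂ + a₃ + a₄) * N ^ 2) := by ring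
      rw [e, hN]
      omega
    | succ q ih =>
      intro τ h1 h2
      have hτ : ∀ n, τ n = tt ∨ τ n = ff ∨ τ n = var n := by
        intro n
        rcases Nat.lt_or_ge n (q + 1) with h | h
        · exact Or.inr (Or.inr (h1 n h))
        · rcases h2 n h with h | h
          · exact Or.inl h
          · exact Or.inr (Or.inl h)
      let τ1 : ℕ → Fm := fun n => if n = q then tt else τ n
      let τ0 : ℕ → Fm := fun n => if n = q then ff else τ n
      have g1 : ∀ n, τ1 n = tt ∨ τ1 n = ff ∨ τ1 n = var n := by
        intro n; simp only [τ1]; split_ifs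
        · exact Or.inl rfl
        · exact hτ n
      have g0 : ∀ n, τ0 n = tt ∨ τ0 n = ff ∨ τ0 n = var n := by
        intro n; simp only [τ0]; split_ifs
        · exact Or.inr (Or.inl rfl)
        · exact hτ n
      have r1 := ih τ1 (by
        intro n hn
        simp only [τ1]; rw [if_neg (by omega)]; exact h1 n (by omega)) (by
        intro n hn
        simp only [τ1]
        by_cases h : n = q
        · rw [if_pos h]; exact Or.inl rfl
        · rw [if_neg h]; exact h2 n (by omega))
      have r0 := ih τ0 (by
        intro n hn
        simp only [τ0]; rw [if_neg (by omega)]; exact h1 n (by omega)) (by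
        intro n hn
        simp only [τ0]
        by_cases h : n = q
        · rw [if_pos h]; exact Or.inr rfl
        · rw [if_neg h]; exact h2 n (by omega))
      have hlen : T.vars.toList.length ≤ N := by
        rw [Finset.length_toList]; exact vars_card_le T
      have hτs : ∀ n, (τ n).size ≤ 4 := by
        intro n; rcases hτ n with h | h | h <;> rw [h] <;> simp [tt, ff, size]
      have hq : τ q = var q := h1 q (by omega)
      have s1 : Ded F ∅ (T.vars.toList.map fun n => imp (var q) (iff (τ n) (τ1 n)))
          (N * ((a₁ + a₂) * 4)) := by
        refine (Ded.many _ ((a₁ + a₂) * 4) _ ?_).le (Nat.mul_le_mul_right _ hlen)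
        intro n _
        by_cases h : n = q
        · subst h
          have := k₂ [var n, var 0] 4 (by norm_num) (by
            intro Z hZ; simp at hZ; rcases hZ with rfl | rfl <;> simp [size]) ∅ (by simp)
          refine (this.sub (by simp [subst, asg, iff, τ1, hq, tt])).le (by omega)
        · have := k₁ [var q, τ n] 4 (by norm_num) (by
            intro Z hZ; simp at hZ; rcases hZ with rfl | rfl
            · simp [size]
            · exact hτs n) ∅ (by simp)
          refine (this.sub (by simp [subst, asg, iff, τ1, if_neg h])).le (by omega)
      have s0 : Ded F ∅ (T.vars.toList.map fun n => imp (neg (var q)) (iff (τ n) (τ0 n)))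
          (N * ((a₁ + a₃) * 4)) := by
        refine (Ded.many _ ((a₁ + a₃) * 4) _ ?_).le (Nat.mul_le_mul_right _ hlen)
        intro n _
        by_cases h : n = q
        · subst h
          have := k₃ [var n, var 0] 4 (by norm_num) (by
            intro Z hZ; simp at hZ; rcases hZ with rfl | rfl <;> simp [size]) ∅ (by simp)
          refine (this.sub (by simp [subst, asg, iff, τ0, hq, ff])).le (by omega)
        · have := k₁ [neg (var q), τ n] 4 (by norm_num) (by
            intro Z hZ; simp at hZ; rcases hZ with rfl | rfl
            · simp [size]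
            · exact hτs n) ∅ (by simp)
          refine (this.sub (by simp [subst, asg, iff, τ0, if_neg h])).le (by omega)
      have e1 := h₂ (var q) T τ τ1 (4 * N) (by simp only [size]; omega) (hsz τ hτ) (hsz τ1 g1)
        (∅ ∪ {B | B ∈ T.vars.toList.map fun n => imp (var q) (iff (τ n) (τ1 n))}) (by
        intro n hn; right; exact List.mem_map.2 ⟨n, by simpa using hn, rfl⟩)
      have e0 := h₂ (neg (var q)) T τ τ0 (4 * N) (by simp only [size]; omega) (hsz τ hτ) (hsz τ0 g0)
        (∅ ∪ {B | B ∈ T.vars.toList.map fun n => imp (neg (var q)) (iff (τ n) (τ0 n))}) (by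
        intro n hn; right; exact List.mem_map.2 ⟨n, by simpa using hn, rfl⟩)
      have f := k₄ [var q, T.subst τ1, T.subst τ0, T.subst τ] (4 * N) (by omega) (by
        intro Z hZ; simp at hZ; rcases hZ with rfl | rfl | rfl | rfl
        · simp only [size]; omega
        · exact hsz τ1 g1
        · exact hsz τ0 g0
        · exact hsz τ hτ) (∅ ∪ {B | B ∈ ([T.subst τ1] ++ [T.subst τ0]) ++
          ([imp (var q) (iff (T.subst τ) (T.subst τ1))] ++
            [imp (neg (var q)) (iff (T.subst τ) (T.subst τ0))])}) (by
        intro Z hZ; simp only [List.mem_cons, List.not_mem_nil, or_false] at hZ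
        rcases hZ with rfl | rfl | rfl | rfl <;> right <;> simp [subst, asg, iff])
      have fin := ((r1.append r0).append ((s1.cut e1).append (s0.cut e0))).cut f
      refine (fin.sub (by simp [subst, asg])).le ?_
      have b1 : c₂ * (4 * N) * T.size = 4 * (c₂ * N ^ 2) := by rw [← hN]; ring
      have b2 : N * ((a₁ + a₂) * 4) = 4 * (a₁ * N) + 4 * (a₂ * N) := by ring
      have b3 : N * ((a₁ + a₃) * 4) = 4 * (a₁ * N) + 4 * (a₃ * N) := by ring
      have b4 : a₄ * (4 * N) = 4 * (a₄ * N) := by ring
      have b5 := Nat.mul_le_mul_left a₁ hNN
      have b6 := Nat.mul_le_mul_left a₂ hNN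
      have b7 := Nat.mul_le_mul_left a₃ hNN
      have b8 := Nat.mul_le_mul_left a₄ hNN
      have b9 : K = 100 * (c₁ * N ^ 2) + 100 * (c₂ * N ^ 2) + 100 * (a₁ * N ^ 2) +
        100 * (a₂ * N ^ 2) + 100 * (a₃ * N ^ 2) + 100 * (a₄ * N ^ 2) := by rw [hK]; ring
      have b10 : (2 ^ (q + 1 + 1) - 1) * K = (2 ^ (q + 1) - 1) * K + (2 ^ (q + 1) - 1) * K + K := by
        have h1 : 1 ≤ 2 ^ (q + 1) := Nat.one_le_two_pow
        have h2 : 2 ^ (q + 1 + 1) - 1 = (2 ^ (q + 1) - 1) + (2 ^ (q + 1) - 1) + 1 := by
          rw [pow_succ 2 (q + 1)]; omega
        rw [h2]; ring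
      rw [b10, b1, b2, b3, b4]
      omega
  -- conclusion
  have := claim q₀ (fun n => if n < q₀ then var n else tt) (fun n hn => if_pos hn)
    (fun n hn => Or.inl (if_neg (by omega)))
  have e : (T.subst fun n => if n < q₀ then var n else tt) = T := by
    conv_rhs => rw [← subst_var T]
    apply subst_congr
    intro n hn
    exact if_pos (hTv n hn)
  rw [e] at this
  refine this.le ?_
  calc (2 ^ (q₀ + 1) - 1) * K ≤ 2 ^ (q₀ + 1) * K := Nat.mul_le_mul_right _ (Nat.sub_le _ _)
    _ = 200 * (c₁ + c₂ + a₁ + a₂ + a₃ + a₄) * 2 ^ q₀ * N ^ 2 := by rw [hK, pow_succ]; ring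
    _ ≤ _ := by gcongr; norm_num

/-! ### several substitutions one after the other -/

/-- update of a block of auxiliary variables -/
theorem simul (F : List Rule) (n s : ℕ) (B : Fm) (a b q : ℕ) (φ : ℕ → Fm) (G : List Fm) (t M : ℕ)
    (hB : B ∈ G) (hocc : OccL F (AuxRule1 n s) G t) (ha : n ≤ a) (haq : a + q ≤ n + s)
    (hb : n ≤ b) (hbq : b + q ≤ n + s) (hab : a + q ≤ b)
    (hBb : ∀ v ∈ B.vars, ¬ (b ≤ v ∧ v < b + q)) (hφ : ∀ j < q, ∀ v ∈ (φ j).vars, ¬ (b ≤ v ∧ v < b + q))
    (hM : ∀ τ : ℕ → Fm, (∀ v, τ v = var v ∨ (∃ w, τ v = var w) ∨ ∃ j < q, τ v = φ j) →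
      (B.subst τ).size ≤ M) :
    OccL F (AuxRule1 n s) ((B.subst fun v => if a ≤ v ∧ v < a + q then φ (v - a) else var v) :: G)
      (t + 2 * q * M) := by
  -- first part: to the temporary variables
  have p1 : ∀ r ≤ q, OccL F (AuxRule1 n s)
      ((B.subst fun v => if a ≤ v ∧ v < a + r then var (v - a + b) else var v) :: G) (t + r * M) := by
    intro r
    induction r with
    | zero =>
      intro _
      have e : (B.subst fun v => if a ≤ v ∧ v < a + 0 then var (v - a + b) else var v) = B := by
        conv_rhs => rw [← subst_var B]
        apply subst_congr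
        intro v _
        exact if_neg (by omega)
      rw [e]
      refine (hocc.sub ?_).le (by omega)
      intro C hC
      rcases List.mem_cons.1 hC with rfl | hC
      · exact hB
      · exact hC
    | succ r ih =>
      intro hr
      have h1 := ih (by omega)
      have h2 := h1.rule (A := B.subst fun v => if a ≤ v ∧ v < a + r then var (v - a + b) else var v)
        (B := (B.subst fun v => if a ≤ v ∧ v < a + r then var (v - a + b) else var v).subst
          fun v => if v = a + r then var (r + b) else var v) (by simp)
        ⟨a + r, var (r + b), by omega, by omega, rfl⟩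
      have e : (B.subst fun v => if a ≤ v ∧ v < a + r then var (v - a + b) else var v).subst
          (fun v => if v = a + r then var (r + b) else var v) =
          B.subst fun v => if a ≤ v ∧ v < a + (r + 1) then var (v - a + b) else var v := by
        rw [subst_subst]
        apply subst_congr
        intro v _
        by_cases h : a ≤ v ∧ v < a + r
        · rw [if_pos h, if_pos (by omega)]
          simp only [subst]
          rw [if_neg (by omega)]
        · rw [if_neg h]
          simp only [subst]
          by_cases h' : v = a + r
          · subst h'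
            rw [if_pos rfl, if_pos (by omega)]
            congr 1; omega
          · rw [if_neg h', if_neg (by omega)]
      rw [e] at h2
      refine (h2.sub ?_).le ?_
      · intro C hC
        rcases List.mem_cons.1 hC with rfl | hC
        · simp
        · simp [hC]
      · have := hM (fun v => if a ≤ v ∧ v < a + (r + 1) then var (v - a + b) else var v) (by
          intro v
          split_ifs
          · exact Or.inr (Or.inl ⟨_, rfl⟩)
          · exact Or.inl rfl)
        have e : (r + 1) * M = r * M + M := by ring
        rw [e]; omega
  -- second part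
  have p2 : ∀ r ≤ q, OccL F (AuxRule1 n s)
      ((B.subst fun v => if a ≤ v ∧ v < a + q then (if v - a < r then φ (v - a) else var (v - a + b))
        else var v) :: G) (t + (q + r) * M) := by
    intro r
    induction r with
    | zero =>
      intro _
      have h1 := p1 q le_rfl
      have e : (B.subst fun v => if a ≤ v ∧ v < a + q then (if v - a < 0 then φ (v - a) else
          var (v - a + b)) else var v) =
          B.subst fun v => if a ≤ v ∧ v < a + q then var (v - a + b) else var v := by
        apply subst_congr
        intro v _
        by_cases h : a ≤ v ∧ v < a + q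
        · rw [if_pos h, if_pos h, if_neg (by omega)]
        · rw [if_neg h, if_neg h]
      rw [e]
      exact h1.le (by simp)
    | succ r ih =>
      intro hr
      have h1 := ih (by omega)
      have h2 := h1.rule (A := B.subst fun v => if a ≤ v ∧ v < a + q then (if v - a < r then
          φ (v - a) else var (v - a + b)) else var v)
        (B := (B.subst fun v => if a ≤ v ∧ v < a + q then (if v - a < r then
          φ (v - a) else var (v - a + b)) else var v).subst
          fun v => if v = b + r then φ r else var v) (by simp)
        ⟨b + r, φ r, by omega, by omega, rfl⟩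
      have e : (B.subst fun v => if a ≤ v ∧ v < a + q then (if v - a < r then
          φ (v - a) else var (v - a + b)) else var v).subst
          (fun v => if v = b + r then φ r else var v) =
          B.subst fun v => if a ≤ v ∧ v < a + q then (if v - a < r + 1 then
          φ (v - a) else var (v - a + b)) else var v := by
        rw [subst_subst]
        apply subst_congr
        intro v hv
        by_cases h : a ≤ v ∧ v < a + q
        · rw [if_pos h, if_pos h]
          by_cases h' : v - a < r
          · rw [if_pos h', if_pos (by omega)]
            conv_rhs => rw [← subst_var (φ (v - a))]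
            apply subst_congr
            intro w hw
            have := hφ (v - a) (by omega) w hw
            exact if_neg (by omega)
          · rw [if_neg h']
            simp only [subst]
            by_cases h'' : v - a = r
            · rw [if_pos (by omega), if_pos (by omega), h'']
            · rw [if_neg (by omega), if_neg (by omega)]
        · rw [if_neg h, if_neg h]
          simp only [subst]
          have := hBb v hv
          exact if_neg (by omega)
      rw [e] at h2
      refine (h2.sub ?_).le ?_
      · intro C hC
        rcases List.mem_cons.1 hC with rfl | hC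
        · simp
        · simp [hC]
      · have := hM (fun v => if a ≤ v ∧ v < a + q then (if v - a < r + 1 then
          φ (v - a) else var (v - a + b)) else var v) (by
          intro v
          split_ifs with h1 h2
          · exact Or.inr (Or.inr ⟨v - a, by omega, rfl⟩)
          · exact Or.inr (Or.inl ⟨_, rfl⟩)
          · exact Or.inl rfl)
        have e : (q + (r + 1)) * M = (q + r) * M + M := by ring
        rw [e]; omega
  have h := p2 q le_rfl
  have e : (B.subst fun v => if a ≤ v ∧ v < a + q then (if v - a < q then φ (v - a) else
      var (v - a + b)) else var v) =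
      B.subst fun v => if a ≤ v ∧ v < a + q then φ (v - a) else var v := by
    apply subst_congr
    intro v _
    by_cases h : a ≤ v ∧ v < a + q
    · rw [if_pos h, if_pos h, if_pos (by omega)]
    · rw [if_neg h, if_neg h]
  rw [e] at h
  exact h.le (by ring_nf; exact le_rfl)

/-- update of all blocks -/
theorem simulAll (F : List Rule) (n s : ℕ) (B : Fm) (q : ℕ) (hq : 0 < q) (φ : ℕ → ℕ → Fm)
    (G : List Fm) (t P : ℕ)
    (hs : n * q + q ≤ s)
    (hB : B ∈ G) (hocc : OccL F (AuxRule1 n s) G t)
    (hBb : ∀ v ∈ B.vars, v < n + n * q)
    (hφ : ∀ i < n, ∀ j < q, ∀ v ∈ (φ i j).vars, v < n ∨ (n + i * q ≤ v ∧ v < n + i * q + q))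
    (hP : 1 ≤ P) (hφs : ∀ i < n, ∀ j < q, (φ i j).size ≤ P) :
    OccL F (AuxRule1 n s)
      ((B.subst fun v => if n ≤ v ∧ v < n + n * q then φ ((v - n) / q) ((v - n) % q) else var v) :: G)
      (t + n * (2 * q * (B.size * P * P))) := by
  have key : ∀ r ≤ n, OccL F (AuxRule1 n s)
      ((B.subst fun v => if n ≤ v ∧ v < n + r * q then φ ((v - n) / q) ((v - n) % q) else var v) :: G)
      (t + r * (2 * q * (B.size * P * P))) := by
    intro r
    induction r with
    | zero =>
      intro _
      have e : (B.subst fun v => if n ≤ v ∧ v < n + 0 * q then φ ((v - n) / q) ((v - n) % q) else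
          var v) = B := by
        conv_rhs => rw [← subst_var B]
        apply subst_congr
        intro v _
        exact if_neg (by omega)
      rw [e]
      refine (hocc.sub ?_).le (by omega)
      intro C hC
      rcases List.mem_cons.1 hC with rfl | hC
      · exact hB
      · exact hC
    | succ r ih =>
      intro hr
      have h1 := ih (by omega)
      have hrn : r * q + q ≤ n * q := by
        calc r * q + q = (r + 1) * q := by ring
          _ ≤ n * q := Nat.mul_le_mul_right _ hr
      obtain ⟨σ, hσ⟩ : ∃ σ : ℕ → Fm, σ = fun v => if n ≤ v ∧ v < n + r * q then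
        φ ((v - n) / q) ((v - n) % q) else var v := ⟨_, rfl⟩
      rw [← hσ] at h1
      have hσv : ∀ v ∈ B.vars, ∀ w ∈ (σ v).vars, w < n + n * q := by
        intro v hv w hw
        rw [hσ] at hw
        by_cases h : n ≤ v ∧ v < n + r * q
        · simp only [if_pos h] at hw
          have i1 : (v - n) / q < r := by
            rw [Nat.div_lt_iff_lt_mul hq]; omega
          have i2 : (v - n) % q < q := Nat.mod_lt _ hq
          have i3 : (v - n) / q * q + q ≤ r * q := by
            calc (v - n) / q * q + q = ((v - n) / q + 1) * q := by ring
              _ ≤ r * q := Nat.mul_le_mul_right _ i1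
          rcases hφ _ (by omega) _ i2 w hw with h | h <;> omega
        · simp only [if_neg h, vars, Finset.mem_singleton] at hw
          rw [hw]; exact hBb v hv
      have h2 := simul F n s (B.subst σ) (n + r * q) (n + n * q) q (φ r) _ _ (B.size * P * P)
        (List.mem_cons_self ..) h1 (by omega) (by omega) (by omega) (by omega) (by omega)
        (by
          intro w hw
          obtain ⟨v, hv, hw⟩ := mem_vars_subst hw
          have := hσv v hv w hw
          omega)
        (by
          intro j hj w hw
          rcases hφ r (by omega) j hj w hw with h | h <;> omega)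
        (by
          intro τ hτ
          have hτs : ∀ v, (τ v).size ≤ P := by
            intro v
            rcases hτ v with h | ⟨w, h⟩ | ⟨j, hj, h⟩
            · rw [h]; simpa [size] using hP
            · rw [h]; simpa [size] using hP
            · rw [h]; exact hφs r (by omega) j hj
          have hσs : ∀ v ∈ B.vars, (σ v).size ≤ P := by
            intro v hv
            rw [hσ]
            by_cases h : n ≤ v ∧ v < n + r * q
            · simp only [if_pos h]
              have i1 : (v - n) / q < r := by
                rw [Nat.div_lt_iff_lt_mul hq]; omega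
              exact hφs _ (by omega) _ (Nat.mod_lt _ hq)
            · simp only [if_neg h, size]; exact hP
          calc ((B.subst σ).subst τ).size ≤ (B.subst σ).size * P :=
                size_subst_le hP (fun v _ => hτs v)
            _ ≤ B.size * P * P := Nat.mul_le_mul_right _ (size_subst_le hP hσs))
      have e : ((B.subst σ).subst fun v => if n + r * q ≤ v ∧ v < n + r * q + q then
          φ r (v - (n + r * q)) else var v) =
          B.subst fun v => if n ≤ v ∧ v < n + (r + 1) * q then φ ((v - n) / q) ((v - n) % q) else
            var v := by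
        have hr1 : (r + 1) * q = r * q + q := by ring
        rw [subst_subst, hr1, hσ]
        apply subst_congr
        intro v hv
        by_cases h : n ≤ v ∧ v < n + r * q
        · simp only [if_pos h]
          rw [if_pos (by omega)]
          conv_rhs => rw [← subst_var (φ ((v - n) / q) ((v - n) % q))]
          apply subst_congr
          intro w hw
          have i1 : (v - n) / q < r := by
            rw [Nat.div_lt_iff_lt_mul hq]; omega
          have i3 : (v - n) / q * q + q ≤ r * q := by
            calc (v - n) / q * q + q = ((v - n) / q + 1) * q := by ring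
              _ ≤ r * q := Nat.mul_le_mul_right _ i1
          have := hφ _ (by omega) _ (Nat.mod_lt _ hq) w hw
          exact if_neg (by omega)
        · simp only [if_neg h, subst]
          by_cases h' : n + r * q ≤ v ∧ v < n + r * q + q
          · rw [if_pos h', if_pos (by omega)]
            have i4 : v - n = v - (n + r * q) + q * r := by
              have : q * r = r * q := by ring
              omega
            have i5 : (v - n) / q = r := by
              rw [i4, Nat.add_mul_div_left _ _ hq, Nat.div_eq_of_lt (by omega)]; omega
            have i6 : (v - n) % q = v - (n + r * q) := by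
              rw [i4, Nat.add_mul_mod_self_left, Nat.mod_eq_of_lt (by omega)]
            rw [i5, i6]
          · rw [if_neg h', if_neg (by omega)]
      rw [e] at h2
      refine (h2.sub ?_).le ?_
      · intro C hC
        rcases List.mem_cons.1 hC with rfl | hC
        · simp
        · simp [hC]
      · have : (r + 1) * (2 * q * (B.size * P * P)) = r * (2 * q * (B.size * P * P)) +
          2 * q * (B.size * P * P) := by ring
        rw [this]; omega
  exact key n le_rfl

end Pool.Agent.V8H46.FP
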