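import Pool.Agent.V8H46.FP.Upper

/-!
# Tokens whose positions are given by binary digits
-/

set_option autoImplicit false

namespace Pool.Agent.V8H46.FP

open Pool.Agent.H555R2.PF Pool.Agent.H555R2.PF.Fm

/-- the number with the binary digits `p_0, …, p_(q-1)` is `b` -/
def E (q b : ℕ) : Fm :=
  cj 0 ((List.range q).map fun j => if b.testBit j = true then var j else neg (var j))

theorem E_eval (q b : ℕ) (v : ℕ → Prop) :
    (E q b).eval v ↔ ∀ j < q, (v j ↔ b.testBit j = true) := by
  rw [E, cj_eval]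
  simp only [List.mem_map, List.mem_range, forall_exists_index, and_imp,
    forall_apply_eq_imp_iff₂]
  refine forall_congr' fun a => forall_congr' fun _ => ?_
  split_ifs with h <;> simp [eval, h]

theorem E_size (q b : ℕ) : (E q b).size ≤ 3 * q + 3 := by
  rw [E, cj_size, List.length_map, List.length_range]
  have := psize_map_le' (List.range q) (fun j => if b.testBit j = true then var j else neg (var j)) 2
    (by intro a _; split_ifs <;> simp [size])
  rw [List.length_range] at this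
  omega

theorem E_vars {q b j : ℕ} (hq : 0 < q) (h : j ∈ (E q b).vars) : j < q := by
  rcases cj_vars h with rfl | ⟨C, hC, h⟩
  · exact hq
  · obtain ⟨a, ha, rfl⟩ := List.mem_map.1 hC
    have : j = a := by
      split_ifs at h <;> simpa [vars] using h
    subst this
    simpa using ha

/-- the `j`-th digit of `τ b`, where `b` is the number given by `p_0, …, p_(q-1)` -/
def dig (q : ℕ) (τ : ℕ → ℕ) (j : ℕ) : Fm :=
  dj (((List.range (2 ^ q)).filter fun b => (τ b).testBit j).map (E q))

theorem exists_num (v : ℕ → Prop) (q : ℕ) : ∃ b < 2 ^ q, ∀ j < q, (v j ↔ b.testBit j = true) := by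
  classical
  induction q with
  | zero => exact ⟨0, by norm_num, fun j hj => absurd hj (by omega)⟩
  | succ q ih =>
    obtain ⟨b, hb, h⟩ := ih
    have hf : b.testBit q = false := Nat.testBit_lt_two_pow hb
    by_cases hv : v q
    · refine ⟨2 ^ q + b, by rw [pow_succ]; omega, fun j hj => ?_⟩
      rcases Nat.lt_succ_iff_lt_or_eq.1 hj with hj | rfl
      · rw [Nat.testBit_two_pow_add_gt hj]; exact h j hj
      · rw [Nat.testBit_two_pow_add_eq, hf]; simpa using hv
    · refine ⟨b, by rw [pow_succ]; omega, fun j hj => ?_⟩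
      rcases Nat.lt_succ_iff_lt_or_eq.1 hj with hj | rfl
      · exact h j hj
      · rw [hf]; simpa using hv

theorem num_unique {q b b' : ℕ} (hb : b < 2 ^ q) (hb' : b' < 2 ^ q) :
    (∀ j < q, (b.testBit j = true ↔ b'.testBit j = true)) ↔ b = b' := by
  constructor
  · intro h
    apply Nat.eq_of_testBit_eq
    intro j
    rcases Nat.lt_or_ge j q with hj | hj
    · rw [Bool.eq_iff_iff]; exact h j hj
    · rw [Nat.testBit_lt_two_pow (lt_of_lt_of_le hb (Nat.pow_le_pow_right (by norm_num) hj)),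
        Nat.testBit_lt_two_pow (lt_of_lt_of_le hb' (Nat.pow_le_pow_right (by norm_num) hj))]
  · rintro rfl; simp

theorem dig_eval {q : ℕ} {τ : ℕ → ℕ} {j b : ℕ} {v : ℕ → Prop} (hb : b < 2 ^ q)
    (hv : ∀ j < q, (v j ↔ b.testBit j = true)) :
    (dig q τ j).eval v ↔ (τ b).testBit j = true := by
  rw [dig, dj_eval]
  simp only [List.mem_map, List.mem_filter, List.mem_range, exists_exists_and_eq_and]
  constructor
  · rintro ⟨a, ⟨h1, h2⟩, h3⟩
    rw [E_eval] at h3
    have : a = b := (num_unique h1 hb).1 fun j hj => (h3 j hj).symm.trans (hv j hj)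
    rwa [this] at h2
  · intro h
    exact ⟨b, ⟨hb, h⟩, (E_eval q b v).2 hv⟩

theorem dig_size {q Q : ℕ} (hQ : 2 ^ q ≤ Q) (τ : ℕ → ℕ) (j : ℕ) : (dig q τ j).size ≤ 11 * Q ^ 2 := by
  rw [dig, dj_size, List.length_map]
  have h1 := List.length_filter_le (fun b : ℕ => (τ b).testBit j) (List.range (2 ^ q))
  rw [List.length_range] at h1
  have h2 := psize_map_le' ((List.range (2 ^ q)).filter fun b => (τ b).testBit j) (E q) (3 * q + 3)
    (fun b _ => E_size q b)
  have h3 : q < 2 ^ q := Nat.lt_two_pow_self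
  have h4 : (3 * q + 3) * (List.filter (fun b => (τ b).testBit j) (List.range (2 ^ q))).length ≤
      6 * Q * Q := Nat.mul_le_mul (by omega) (h1.trans hQ)
  have h5 : 1 ≤ Q := by omega
  nlinarith

theorem dig_vars {q : ℕ} (hq : 0 < q) {τ : ℕ → ℕ} {j k : ℕ} (h : k ∈ (dig q τ j).vars) : k < q := by
  rcases dj_vars h with rfl | ⟨C, hC, h⟩
  · exact hq
  · obtain ⟨b, _, rfl⟩ := List.mem_map.1 hC
    exact E_vars hq h

/-- the template of the proof of correctness of an update -/
theorem upd_taut {q b₁ b₂ : ℕ} {τ : ℕ → ℕ} (hτ : ∀ b < 2 ^ q, τ b < 2 ^ q) (h₁ : b₁ < 2 ^ q)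
    (h₂ : b₂ < 2 ^ q) (h : ∀ b < 2 ^ q, (τ b = b₁ ↔ b = b₂)) (v : ℕ → Prop) :
    (iff ((E q b₁).subst (dig q τ)) (E q b₂)).eval v := by
  obtain ⟨b, hb, hv⟩ := exists_num v q
  have e1 : ((E q b₁).subst (dig q τ)).eval v ↔ τ b = b₁ := by
    rw [eval_subst, E_eval, ← num_unique (hτ b hb) h₁]
    refine forall_congr' fun j => forall_congr' fun _ => ?_
    rw [dig_eval hb hv]
  have e2 : (E q b₂).eval v ↔ b = b₂ := by
    rw [E_eval, ← num_unique hb h₂]
    refine forall_congr' fun j => forall_congr' fun hj => ?_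
    rw [hv j hj]
  have := h b hb
  simp only [iff, eval, e1, e2]
  tauto

/-- the variables of the `i`-th token -/
def ren (n q i : ℕ) (j : ℕ) : Fm := var (n + i * q + j)

/-- some token is in the cell with the number `b` -/
def cell (n q b : ℕ) : Fm := dj ((List.range n).map fun i => (E q b).subst (ren n q i))

theorem size_subst_ren (n q i : ℕ) (T : Fm) : (T.subst (ren n q i)).size = T.size :=
  size_rename (fun j => n + i * q + j) T

theorem cell_size {n q Q : ℕ} (b : ℕ) (hn : n ≤ Q) (hQ : 2 ^ q ≤ Q) : (cell n q b).size ≤ 11 * Q ^ 2 := by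
  rw [cell, dj_size, List.length_map, List.length_range]
  have h2 := psize_map_le' (List.range n) (fun i => (E q b).subst (ren n q i)) (3 * q + 3)
    (fun i _ => by rw [size_subst_ren]; exact E_size q b)
  rw [List.length_range] at h2
  have h3 : q < 2 ^ q := Nat.lt_two_pow_self
  have h4 : (3 * q + 3) * n ≤ 6 * Q * Q := Nat.mul_le_mul (by omega) hn
  have h5 : 1 ≤ Q := by omega
  nlinarith

theorem cell_vars {n q b w : ℕ} (hn : 0 < n) (hq : 0 < q) (h : w ∈ (cell n q b).vars) :
    w < n + n * q := by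
  rcases dj_vars h with rfl | ⟨C, hC, h⟩
  · omega
  · obtain ⟨i, hi, rfl⟩ := List.mem_map.1 hC
    obtain ⟨j, hj, h⟩ := mem_vars_subst h
    simp only [ren, vars, Finset.mem_singleton] at h
    have h1 := E_vars hq hj
    rw [List.mem_range] at hi
    have h2 : i * q + q ≤ n * q := by
      calc i * q + q = (i + 1) * q := by ring
        _ ≤ n * q := Nat.mul_le_mul_right _ hi
    omega

/-- the substitution which updates the tokens -/
def upd (n q : ℕ) (φ : ℕ → ℕ → Fm) (v : ℕ) : Fm :=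
  if n ≤ v ∧ v < n + n * q then φ ((v - n) / q) ((v - n) % q) else var v

theorem dj_subst {σ : ℕ → Fm} (h : σ 0 = var 0) (L : List Fm) :
    (dj L).subst σ = dj (L.map (Fm.subst σ)) := by
  induction L with
  | nil => simp [dj, ff, subst, h]
  | cons C L ih => simp only [dj, subst, ih, List.map_cons]

theorem upd_ren {n q : ℕ} (hq : 0 < q) (φ : ℕ → ℕ → Fm) {i j : ℕ} (hi : i < n) (hj : j < q) :
    (ren n q i j).subst (upd n q φ) = φ i j := by
  have h2 : i * q + q ≤ n * q := by
    calc i * q + q = (i + 1) * q := by ring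
      _ ≤ n * q := Nat.mul_le_mul_right _ hi
  simp only [ren, subst, upd]
  rw [if_pos (by omega)]
  have i4 : n + i * q + j - n = j + q * i := by
    have : q * i = i * q := by ring
    omega
  have i5 : (n + i * q + j - n) / q = i := by
    rw [i4, Nat.add_mul_div_left _ _ hq, Nat.div_eq_of_lt hj]; omega
  have i6 : (n + i * q + j - n) % q = j := by
    rw [i4, Nat.add_mul_mod_self_left, Nat.mod_eq_of_lt hj]
  rw [i5, i6]

theorem cell_upd {n q : ℕ} (hn : 0 < n) (hq : 0 < q) (φ : ℕ → ℕ → Fm) (b : ℕ) :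
    (cell n q b).subst (upd n q φ) =
      dj ((List.range n).map fun i => (E q b).subst (φ i)) := by
  rw [cell, dj_subst, List.map_map]
  · congr 1
    apply List.map_congr_left
    intro i hi
    rw [List.mem_range] at hi
    simp only [Function.comp]
    rw [subst_subst]
    apply subst_congr
    intro j hj
    exact upd_ren hq φ hi (E_vars hq hj)
  · simp only [upd]
    rw [if_neg (by omega)]

/-- congruence for disjunctions -/
theorem dj_congr (F : List Rule) (hF : IsFrege F) : ∃ c : ℕ, ∀ (M : ℕ) (f g : ℕ → Fm)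
    (Γ : Set Fm) (l : List ℕ), (dj (l.map f)).size ≤ M → (dj (l.map g)).size ≤ M →
    (∀ i ∈ l, iff (f i) (g i) ∈ Γ) →
    Ded F Γ [iff (dj (l.map f)) (dj (l.map g))] (c * M * (l.length + 1)) := by
  obtain ⟨c₁, h₁⟩ := schemaD hF [] (iff (var 0) (var 0)) (by
    intro v _; simp [eval, iff])
  obtain ⟨c₂, h₂⟩ := schemaD hF [iff (var 0) (var 1), iff (var 2) (var 3)]
    (iff (or (var 0) (var 2)) (or (var 1) (var 3))) (by
    intro v h; simp [eval, iff] at h ⊢; tauto)
  refine ⟨c₁ + c₂, fun M f g Γ l => ?_⟩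
  induction l with
  | nil =>
    intro hM _ _
    simp only [List.map_nil, dj] at hM ⊢
    have s := h₁ [ff] M ((size_pos _).trans hM) (by
      intro Z hZ; simp at hZ; subst hZ; exact hM) Γ (by simp)
    refine (s.sub (by simp [subst, asg, iff])).le ?_
    simp only [List.length_nil]
    nlinarith [Nat.zero_le (c₂ * M)]
  | cons i l ih =>
    intro hf hg hΓ
    simp only [List.map_cons, dj, size] at hf hg ⊢
    have r := ih (by omega) (by omega) (fun j hj => hΓ j (by simp [hj]))
    have s := h₂ [f i, g i, dj (l.map f), dj (l.map g)] M (by omega) (by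
      intro Z hZ; simp at hZ; rcases hZ with rfl | rfl | rfl | rfl <;> omega)
      (Γ ∪ {B | B ∈ [iff (dj (l.map f)) (dj (l.map g))]}) (by
      intro Z hZ; simp only [List.mem_cons, List.not_mem_nil, or_false] at hZ
      rcases hZ with rfl | rfl
      · left; simpa [subst, asg, iff] using hΓ i (by simp)
      · right; simp [subst, asg, iff])
    refine ((r.cut s).sub (by simp [subst, asg, iff])).le ?_
    simp only [List.length_cons]
    nlinarith [Nat.zero_le (c₁ * M)]

/-- the equivalence for one cell -/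
theorem cell_eq (F : List Rule) (hF : IsFrege F) : ∃ d : ℕ, ∀ (n q Q b₁ b₂ : ℕ) (τ : ℕ → ℕ),
    0 < n → 0 < q → n ≤ Q → 2 ^ q ≤ Q → (∀ b < 2 ^ q, τ b < 2 ^ q) → b₁ < 2 ^ q → b₂ < 2 ^ q →
    (∀ b < 2 ^ q, (τ b = b₁ ↔ b = b₂)) →
    Ded F ∅ [imp tt (iff ((cell n q b₁).subst (upd n q fun i j => (dig q τ j).subst (ren n q i)))
      (cell n q b₂))] (d * Q ^ 8) := by
  obtain ⟨c₁, h₁⟩ := brute F hF
  obtain ⟨c₂, h₂⟩ := dj_congr F hF
  obtain ⟨c₃, h₃⟩ := schemaD hF [var 0] (imp (imp (var 1) (var 1)) (var 0)) (by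
    intro v h; simp [eval] at h ⊢; tauto)
  refine ⟨21609 * c₁ + 1000 * c₂ + 1000 * c₃, ?_⟩
  intro n q Q b₁ b₂ τ hn hq hnQ hQ hτ hb₁ hb₂ h
  have hqQ : q ≤ Q := (Nat.lt_two_pow_self).le.trans hQ
  have hQ1 : 1 ≤ Q := by omega
  rw [cell_upd hn hq]
  set T : Fm := iff ((E q b₁).subst (dig q τ)) (E q b₂) with hT
  have hTv : ∀ v ∈ T.vars, v < q := by
    intro v hv
    simp only [hT, iff, vars, Finset.mem_union] at hv
    have h1 : v ∈ ((E q b₁).subst (dig q τ)).vars → v < q := by
      intro h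
      obtain ⟨j, _, h⟩ := mem_vars_subst h
      exact dig_vars hq h
    have h2 : v ∈ (E q b₂).vars → v < q := fun h => E_vars hq h
    tauto
  have hEs : ∀ b, (E q b).size ≤ 6 * Q := fun b => (E_size q b).trans (by omega)
  have hEd : ((E q b₁).subst (dig q τ)).size ≤ 66 * Q ^ 3 := by
    have := size_subst_le (σ := dig q τ) (M := 11 * Q ^ 2) (by nlinarith) (A := E q b₁)
      (fun j _ => dig_size hQ τ j)
    calc _ ≤ _ := this
      _ ≤ 6 * Q * (11 * Q ^ 2) := Nat.mul_le_mul_right _ (hEs b₁)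
      _ = _ := by ring
  have hQ3 : Q ≤ Q ^ 3 := by
    calc Q = Q ^ 1 := (pow_one Q).symm
      _ ≤ Q ^ 3 := Nat.pow_le_pow_right hQ1 (by norm_num)
  have hTs : T.size ≤ 147 * Q ^ 3 := by
    have := hEs b₂
    have h1 : 1 ≤ Q ^ 3 := Nat.one_le_pow _ _ hQ1
    simp only [hT, iff, size]
    omega
  have r1 := h₁ q T hTv (upd_taut hτ hb₁ hb₂ h)
  have r2 : ∀ i ∈ List.range n, Ded F ∅ [iff (((E q b₁).subst fun j => (dig q τ j).subst (ren n q i)))
      ((E q b₂).subst (ren n q i))] (21609 * c₁ * Q ^ 7) := by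
    intro i _
    have := r1.inst (σ := ren n q i) (M := 1) le_rfl (by intro j; simp [ren, size])
    refine (this.sub ?_).le ?_
    · intro B hB
      simp only [List.mem_singleton] at hB
      subst hB
      simp [hT, iff, subst, subst_subst]
    · rw [mul_one]
      calc c₁ * 2 ^ q * T.size ^ 2 ≤ c₁ * Q * (147 * Q ^ 3) ^ 2 := by gcongr
        _ = _ := by ring
  have r3 := Ded.many _ _ (List.range n) r2
  rw [List.length_range] at r3
  have s1 : (dj ((List.range n).map fun i => (E q b₁).subst fun j => (dig q τ j).subst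
      (ren n q i))).size ≤ 71 * Q ^ 4 := by
    rw [dj_size, List.length_map, List.length_range]
    have h2 := psize_map_le' (List.range n) (fun i => (E q b₁).subst fun j => (dig q τ j).subst
      (ren n q i)) (66 * Q ^ 3) (fun i _ => by
        rw [← subst_subst, size_subst_ren]; exact hEd)
    rw [List.length_range] at h2
    have h4 : 66 * Q ^ 3 * n ≤ 66 * Q ^ 3 * Q := Nat.mul_le_mul_left _ hnQ
    have h5 : Q ≤ Q ^ 4 := by
      calc Q = Q ^ 1 := (pow_one Q).symm
        _ ≤ Q ^ 4 := Nat.pow_le_pow_right hQ1 (by norm_num)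
    have h6 : 66 * Q ^ 3 * Q = 66 * Q ^ 4 := by ring
    omega
  have s2 : (cell n q b₂).size ≤ 71 * Q ^ 4 := by
    refine (cell_size b₂ hnQ hQ).trans ?_
    have : Q ^ 2 ≤ Q ^ 4 := Nat.pow_le_pow_right hQ1 (by norm_num)
    omega
  have r4 := h₂ (71 * Q ^ 4) (fun i => (E q b₁).subst fun j => (dig q τ j).subst (ren n q i))
    (fun i => (E q b₂).subst (ren n q i)) (∅ ∪ {B | B ∈ (List.range n).map fun i =>
      iff (((E q b₁).subst fun j => (dig q τ j).subst (ren n q i))) ((E q b₂).subst (ren n q i))})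
    (List.range n) s1 s2 (by
      intro i hi; right; exact List.mem_map.2 ⟨i, hi, rfl⟩)
  have r5 := r3.cut r4
  obtain ⟨X, hX⟩ : ∃ X, X = iff (dj ((List.range n).map fun i => (E q b₁).subst fun j =>
    (dig q τ j).subst (ren n q i))) (dj ((List.range n).map fun i => (E q b₂).subst (ren n q i))) :=
    ⟨_, rfl⟩
  have hXs : X.size ≤ 400 * Q ^ 4 := by
    have h1 : 1 ≤ Q ^ 4 := Nat.one_le_pow _ _ hQ1
    rw [cell] at s2
    simp only [hX, iff, size]
    omega
  have r6 := h₃ [X, var 0] (400 * Q ^ 4) (by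
      have h1 : 1 ≤ Q ^ 4 := Nat.one_le_pow _ _ hQ1
      omega) (by
      have h1 : 1 ≤ Q ^ 4 := Nat.one_le_pow _ _ hQ1
      intro Z hZ; simp at hZ; rcases hZ with rfl | rfl
      · exact hXs
      · simp only [size]; omega) (∅ ∪ {B | B ∈ [X]}) (by
      intro Z hZ; simp only [List.mem_singleton] at hZ; subst hZ; right; simp [subst, asg])
  rw [← hX] at r5
  refine ((r5.cut r6).sub ?_).le ?_
  · intro B hB
    simp only [List.mem_singleton] at hB
    subst hB
    simp [subst, asg, tt, hX, cell]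
  · rw [List.length_range]
    have p1 : Q ^ 4 ≤ Q ^ 8 := Nat.pow_le_pow_right hQ1 (by norm_num)
    have p2 : Q ^ 5 ≤ Q ^ 8 := Nat.pow_le_pow_right hQ1 (by norm_num)
    calc n * (21609 * c₁ * Q ^ 7) + c₂ * (71 * Q ^ 4) * (n + 1) + c₃ * (400 * Q ^ 4)
        ≤ Q * (21609 * c₁ * Q ^ 7) + c₂ * (71 * Q ^ 4) * (2 * Q) + c₃ * (400 * Q ^ 4) := by
          gcongr; omega
      _ = 21609 * c₁ * Q ^ 8 + 142 * c₂ * Q ^ 5 + 400 * c₃ * Q ^ 4 := by ring
      _ ≤ 21609 * c₁ * Q ^ 8 + 1000 * c₂ * Q ^ 8 + 1000 * c₃ * Q ^ 8 := by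
          gcongr <;> norm_num
      _ = _ := by ring

end Pool.Agent.V8H46.FP
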