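import Pool.Agent.V8H46.FP.Upper2

/-!
# The permutation rule is simulated by an update of the positions of the tokens
-/

set_option autoImplicit false

namespace Pool.Agent.V8H46.FP

open Pool.Agent.H555R2.PF Pool.Agent.H555R2.PF.Fm

/-- the function on the numbers of the cells which corresponds to the inverse of a
permutation -/
theorem exists_table (V : Finset ℕ) (π : Equiv.Perm ℕ) (hπ : ∀ v, v ∉ V → π v = v) (ind : ℕ → ℕ)
    (q : ℕ) (hind : ∀ v ∈ V, ind v < 2 ^ q) (hinj : ∀ v ∈ V, ∀ w ∈ V, ind v = ind w → v = w) :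
    ∃ τ : ℕ → ℕ, (∀ b < 2 ^ q, τ b < 2 ^ q) ∧ (∀ v ∈ V, π v ∈ V) ∧
      ∀ v ∈ V, ∀ b < 2 ^ q, (τ b = ind v ↔ b = ind (π v)) := by
  classical
  have hV : ∀ v ∈ V, π v ∈ V := by
    intro v hv
    by_contra h
    have := π.injective (hπ _ h)
    rw [this] at h
    exact h hv
  have hV' : ∀ v ∈ V, π.symm v ∈ V := by
    intro v hv
    by_contra h
    have h1 := hπ _ h
    rw [Equiv.apply_symm_apply] at h1
    rw [← h1] at h
    exact h hv
  refine ⟨fun b => if h : ∃ v ∈ V, ind (π v) = b then ind h.choose else b, ?_, hV, ?_⟩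
  · intro b hb
    by_cases h : ∃ v ∈ V, ind (π v) = b
    · simp only [dif_pos h]
      exact hind _ h.choose_spec.1
    · simp only [dif_neg h]; exact hb
  · intro v hv b _
    by_cases h : ∃ v ∈ V, ind (π v) = b
    · simp only [dif_pos h]
      obtain ⟨h1, h2⟩ := h.choose_spec
      constructor
      · intro h3
        rw [← h2, hinj _ h1 _ hv h3]
      · intro h3
        have h4 := π.injective (hinj _ (hV _ h1) _ (hV _ hv) (h2.trans h3))
        exact congrArg ind h4
    · simp only [dif_neg h]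
      constructor
      · intro h3
        exact absurd ⟨π.symm v, hV' v hv, by rw [Equiv.apply_symm_apply, h3]⟩ h
      · intro h3
        exact absurd ⟨v, hv, h3.symm⟩ h

theorem perm_step (F : List Rule) (hF : IsFrege F) : ∃ d : ℕ, ∀ (n q Q s : ℕ) (ind : ℕ → ℕ)
    (B : Fm) (π : Equiv.Perm ℕ) (G : List Fm) (t : ℕ),
    0 < n → 0 < q → n ≤ Q → 2 ^ q ≤ Q → n * q + q ≤ s → B.size ≤ Q →
    (∀ v, v ∉ B.vars → π v = v) → (∀ v ∈ B.vars, ind v < 2 ^ q) →
    (∀ v ∈ B.vars, ∀ w ∈ B.vars, ind v = ind w → v = w) →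
    (B.subst fun v => cell n q (ind v)) ∈ G → OccL F (AuxRule1 n s) G t →
    OccL F (AuxRule1 n s) (((B.rename π).subst fun v => cell n q (ind v)) :: G)
      (t + d * Q ^ 9) := by
  obtain ⟨c₁, h₁⟩ := cell_eq F hF
  obtain ⟨c₂, h₂⟩ := repl F hF
  obtain ⟨c₃, h₃⟩ := schemaD hF [imp (imp (var 0) (var 0)) (iff (var 1) (var 2)), var 1] (var 2) (by
    intro v h; simp [eval, iff] at h ⊢; tauto)
  refine ⟨2662 + c₁ + 100 * c₂ + 100 * c₃, ?_⟩
  intro n q Q s ind B π G t hn hq hnQ hQ hs hBQ hπ hind hinj hBG hocc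
  have hqQ : q ≤ Q := (Nat.lt_two_pow_self).le.trans hQ
  have hQ1 : 1 ≤ Q := by omega
  obtain ⟨τ, hτ, hV, hτe⟩ := exists_table B.vars π hπ ind q hind hinj
  obtain ⟨B', hB'⟩ : ∃ B', B' = B.subst fun v => cell n q (ind v) := ⟨_, rfl⟩
  rw [← hB'] at hBG
  have hQ2 : 1 ≤ 11 * Q ^ 2 := by
    have : 1 ≤ Q ^ 2 := Nat.one_le_pow _ _ hQ1
    omega
  have hB's : B'.size ≤ 11 * Q ^ 3 := by
    rw [hB']
    calc _ ≤ B.size * (11 * Q ^ 2) := size_subst_le hQ2 (fun v _ => cell_size (ind v) hnQ hQ)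
      _ ≤ Q * (11 * Q ^ 2) := Nat.mul_le_mul_right _ hBQ
      _ = _ := by ring
  have s1 := simulAll F n s B' q hq (fun i j => (dig q τ j).subst (ren n q i)) G t (11 * Q ^ 2) hs
    hBG hocc (by
      intro v hv
      rw [hB'] at hv
      obtain ⟨w, _, hv⟩ := mem_vars_subst hv
      exact cell_vars hn hq hv) (by
      intro i hi j hj v hv
      obtain ⟨k, hk, hv⟩ := mem_vars_subst hv
      have := dig_vars hq hk
      simp only [ren, vars, Finset.mem_singleton] at hv
      right; omega) hQ2 (by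
      intro i hi j hj
      rw [size_subst_ren]
      exact dig_size hQ τ j)
  obtain ⟨U, hU⟩ : ∃ U, U = upd n q fun i j => (dig q τ j).subst (ren n q i) := ⟨_, rfl⟩
  have e1 : (B'.subst fun v => if n ≤ v ∧ v < n + n * q then
      (fun i j => (dig q τ j).subst (ren n q i)) ((v - n) / q) ((v - n) % q) else var v) =
      B.subst fun v => (cell n q (ind v)).subst U := by
    rw [hB', subst_subst, hU]
    rfl
  rw [e1] at s1
  -- the equivalences
  have r1 : ∀ v ∈ B.vars.toList, Ded F ∅ [imp tt (iff ((cell n q (ind v)).subst U)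
      (cell n q (ind (π v))))] (c₁ * Q ^ 8) := by
    intro v hv
    rw [Finset.mem_toList] at hv
    rw [hU]
    exact h₁ n q Q (ind v) (ind (π v)) τ hn hq hnQ hQ hτ (hind v hv) (hind _ (hV v hv))
      (fun b hb => hτe v hv b hb)
  have r2 := Ded.many _ _ B.vars.toList r1
  have hlen : B.vars.toList.length ≤ Q := by
    rw [Finset.length_toList]; exact (vars_card_le B).trans hBQ
  have hcs : ∀ v, ((cell n q (ind v)).subst U).size ≤ 71 * Q ^ 4 := by
    intro v
    rw [hU, cell_upd hn hq, dj_size, List.length_map, List.length_range]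
    have h2 := psize_map_le' (List.range n) (fun i => (E q (ind v)).subst fun j => (dig q τ j).subst
      (ren n q i)) (66 * Q ^ 3) (fun i _ => by
        rw [← subst_subst, size_subst_ren]
        have := size_subst_le (σ := dig q τ) (M := 11 * Q ^ 2) hQ2 (A := E q (ind v))
          (fun j _ => dig_size hQ τ j)
        calc _ ≤ _ := this
          _ ≤ 6 * Q * (11 * Q ^ 2) := Nat.mul_le_mul_right _ ((E_size q _).trans (by omega))
          _ = _ := by ring)
    rw [List.length_range] at h2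
    have h4 : 66 * Q ^ 3 * n ≤ 66 * Q ^ 3 * Q := Nat.mul_le_mul_left _ hnQ
    have h5 : Q ≤ Q ^ 4 := by
      calc Q = Q ^ 1 := (pow_one Q).symm
        _ ≤ Q ^ 4 := Nat.pow_le_pow_right hQ1 (by norm_num)
    have h6 : 66 * Q ^ 3 * Q = 66 * Q ^ 4 := by ring
    omega
  have hQ4 : 1 ≤ Q ^ 4 := Nat.one_le_pow _ _ hQ1
  have hQ5 : 1 ≤ Q ^ 5 := Nat.one_le_pow _ _ hQ1
  have z1 : (B.subst fun v => (cell n q (ind v)).subst U).size ≤ 71 * Q ^ 5 := by
    calc _ ≤ B.size * (71 * Q ^ 4) := size_subst_le (by omega) (fun v _ => hcs v)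
      _ ≤ Q * (71 * Q ^ 4) := Nat.mul_le_mul_right _ hBQ
      _ = _ := by ring
  have z2 : (B.subst fun v => cell n q (ind (π v))).size ≤ 71 * Q ^ 5 := by
    calc _ ≤ B.size * (11 * Q ^ 2) := size_subst_le (by omega) (fun v _ => cell_size _ hnQ hQ)
      _ ≤ Q * (11 * Q ^ 2) := Nat.mul_le_mul_right _ hBQ
      _ = 11 * Q ^ 3 := by ring
      _ ≤ 71 * Q ^ 5 := Nat.mul_le_mul (by norm_num) (Nat.pow_le_pow_right hQ1 (by norm_num))
  have r3 := h₂ tt B (fun v => (cell n q (ind v)).subst U) (fun v => cell n q (ind (π v)))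
    (71 * Q ^ 5) (by simp [tt, size]; omega) z1 z2
    (∅ ∪ {C | C ∈ B.vars.toList.map fun v => imp tt (iff ((cell n q (ind v)).subst U)
      (cell n q (ind (π v))))}) (by
      intro v hv; right; exact List.mem_map.2 ⟨v, by simpa using hv, rfl⟩)
  have r4 := r2.cut r3
  have s2 := s1.ded r4 (by simp)
  have r5 := h₃ [var 0, B.subst fun v => (cell n q (ind v)).subst U,
    B.subst fun v => cell n q (ind (π v))] (71 * Q ^ 5) (by omega) (by
      intro Z hZ; simp at hZ; rcases hZ with rfl | rfl | rfl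
      · simp only [size]; omega
      · exact z1
      · exact z2) {C | C ∈ [imp tt (iff (B.subst fun v => (cell n q (ind v)).subst U)
        (B.subst fun v => cell n q (ind (π v)))), B.subst fun v => (cell n q (ind v)).subst U]} (by
      intro Z hZ; simp only [List.mem_cons, List.not_mem_nil, or_false] at hZ
      rcases hZ with rfl | rfl <;> simp [subst, asg, iff, tt])
  have s3 := s2.ded r5 (by
    intro C hC
    simp only [Set.mem_setOf_eq, List.mem_cons, List.not_mem_nil, or_false] at hC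
    rcases hC with rfl | rfl <;> simp)
  have e2 : ((B.rename π).subst fun v => cell n q (ind v)) =
      B.subst fun v => cell n q (ind (π v)) := by
    rw [rename, subst_subst]; rfl
  rw [e2]
  refine (s3.sub ?_).le ?_
  · intro C hC
    rcases List.mem_cons.1 hC with rfl | hC
    · simp [subst, asg]
    · simp [hC]
  · have p1 : Q ^ 6 ≤ Q ^ 9 := Nat.pow_le_pow_right hQ1 (by norm_num)
    have p2 : Q ^ 5 ≤ Q ^ 9 := Nat.pow_le_pow_right hQ1 (by norm_num)
    have b1 : n * (2 * q * (B'.size * (11 * Q ^ 2) * (11 * Q ^ 2))) ≤ 2662 * Q ^ 9 := by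
      calc _ ≤ Q * (2 * Q * (11 * Q ^ 3 * (11 * Q ^ 2) * (11 * Q ^ 2))) := by gcongr
        _ = _ := by ring
    have b2 : B.vars.toList.length * (c₁ * Q ^ 8) ≤ c₁ * Q ^ 9 := by
      calc _ ≤ Q * (c₁ * Q ^ 8) := Nat.mul_le_mul_right _ hlen
        _ = _ := by ring
    have b3 : c₂ * (71 * Q ^ 5) * B.size ≤ 100 * c₂ * Q ^ 9 := by
      calc _ ≤ c₂ * (71 * Q ^ 5) * Q := Nat.mul_le_mul_left _ hBQ
        _ = 71 * c₂ * Q ^ 6 := by ring
        _ ≤ _ := Nat.mul_le_mul (Nat.mul_le_mul_right _ (by norm_num)) p1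
    have b4 : c₃ * (71 * Q ^ 5) ≤ 100 * c₃ * Q ^ 9 := by
      calc _ = 71 * c₃ * Q ^ 5 := by ring
        _ ≤ _ := Nat.mul_le_mul (Nat.mul_le_mul_right _ (by norm_num)) p2
    have b5 : (2662 + c₁ + 100 * c₂ + 100 * c₃) * Q ^ 9 = 2662 * Q ^ 9 + c₁ * Q ^ 9 +
      100 * c₂ * Q ^ 9 + 100 * c₃ * Q ^ 9 := by ring
    rw [b5]
    omega

/-- all lines of a proof in Frege + permutation -/
theorem all_lines (F : List Rule) (hF : IsFrege F) : ∃ d : ℕ, ∀ (n q Q s : ℕ) (ind : ℕ → ℕ)
    (W : Finset ℕ), 0 < n → 0 < q → n ≤ Q → 2 ^ q ≤ Q → n * q + q ≤ s →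
    (∀ v ∈ W, ind v < 2 ^ q) → (∀ v ∈ W, ∀ w ∈ W, ind v = ind w → v = w) →
    ∀ L : List Fm, Pr F PermRule L → (∀ B ∈ L, B.size ≤ Q ∧ B.vars ⊆ W) →
    OccL F (AuxRule1 n s) (L.map (Fm.subst fun v => cell n q (ind v))) (L.length * (d * Q ^ 9)) := by
  obtain ⟨d, hd⟩ := perm_step F hF
  refine ⟨d + 11, ?_⟩
  intro n q Q s ind W hn hq hnQ hQ hs hind hinj L hL
  have hqQ : q ≤ Q := (Nat.lt_two_pow_self).le.trans hQ
  have hQ1 : 1 ≤ Q := by omega
  induction hL with
  | nil => intro _; exact OccL.nil.le (Nat.zero_le _)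
  | @frege L B hL hB ih =>
    intro hW
    have h1 := ih fun C hC => hW C (by simp [hC])
    obtain ⟨L', h2, h3, h4⟩ := h1
    have h5 := FregeStep.map hB fun v => cell n q (ind v)
    refine ⟨B.subst (fun v => cell n q (ind v)) :: L', Pr.frege h2 ?_, ?_, ?_⟩
    · obtain ⟨r, hr, σ, h6, h7⟩ := h5
      exact ⟨r, hr, σ, h6, fun p hp => h3 _ (h7 p hp)⟩
    · intro C hC
      rw [List.map_cons] at hC
      rcases List.mem_cons.1 hC with rfl | hC
      · simp
      · exact List.mem_cons_of_mem _ (h3 C hC)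
    · rw [psize_cons, List.length_cons]
      have hBs := (hW B (by simp)).1
      have h8 : (B.subst fun v => cell n q (ind v)).size ≤ 11 * Q ^ 9 := by
        calc _ ≤ B.size * (11 * Q ^ 2) := size_subst_le (by
              have : 1 ≤ Q ^ 2 := Nat.one_le_pow _ _ hQ1
              omega) (fun v _ => cell_size _ hnQ hQ)
          _ ≤ Q * (11 * Q ^ 2) := Nat.mul_le_mul_right _ hBs
          _ = 11 * Q ^ 3 := by ring
          _ ≤ 11 * Q ^ 9 := Nat.mul_le_mul_left _ (Nat.pow_le_pow_right hQ1 (by norm_num))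
      have h9 : (L.length + 1) * ((d + 11) * Q ^ 9) = L.length * ((d + 11) * Q ^ 9) +
        (d * Q ^ 9 + 11 * Q ^ 9) := by ring
      rw [h9]
      omega
  | @rule L C B hL hC hX ih =>
    intro hW
    have h1 := ih fun C hC => hW C (by simp [hC])
    obtain ⟨π, hπ, rfl⟩ := hX
    have hCW := hW C (by simp [hC])
    have h2 := hd n q Q s ind C π _ _ hn hq hnQ hQ hs hCW.1 hπ
      (fun v hv => hind v (hCW.2 hv))
      (fun v hv w hw => hinj v (hCW.2 hv) w (hCW.2 hw)) (List.mem_map.2 ⟨C, hC, rfl⟩) h1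
    rw [List.map_cons, List.length_cons]
    refine h2.le ?_
    have h9 : (L.length + 1) * ((d + 11) * Q ^ 9) = L.length * ((d + 11) * Q ^ 9) +
      (d * Q ^ 9 + 11 * Q ^ 9) := by ring
    rw [h9]
    omega

end Pool.Agent.V8H46.FP
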