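import Pool.Agent.V8H46.FP.Upper3

/-!
# The end of the simulation: from the dual-rail formula to the formula
-/

set_option autoImplicit false

namespace Pool.Agent.V8H46.FP

open Pool.Agent.H555R2.PF Pool.Agent.H555R2.PF.Fm

/-- the `j`-th digit of the number which is `b₀` if `p_0` is true and `b₁` otherwise -/
def lf (b₀ b₁ j : ℕ) : Fm :=
  if b₀.testBit j = true then (if b₁.testBit j = true then tt else var 0)
  else (if b₁.testBit j = true then neg (var 0) else ff)

theorem lf_size (b₀ b₁ j : ℕ) : (lf b₀ b₁ j).size ≤ 4 := by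
  unfold lf; split_ifs <;> simp [size, tt, ff]

theorem lf_vars {b₀ b₁ j v : ℕ} (h : v ∈ (lf b₀ b₁ j).vars) : v = 0 := by
  unfold lf at h; split_ifs at h <;> simpa [vars, tt, ff] using h

theorem lf_eval_pos {b₀ b₁ j : ℕ} {v : ℕ → Prop} (h : v 0) :
    (lf b₀ b₁ j).eval v ↔ b₀.testBit j = true := by
  unfold lf; split_ifs <;> simp_all [eval, tt, ff]

theorem lf_eval_neg {b₀ b₁ j : ℕ} {v : ℕ → Prop} (h : ¬ v 0) :
    (lf b₀ b₁ j).eval v ↔ b₁.testBit j = true := by
  unfold lf; split_ifs <;> simp_all [eval, tt, ff]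

theorem E_lf_eval {q b b₀ b₁ : ℕ} (hb : b < 2 ^ q) (h₀ : b₀ < 2 ^ q) (h₁ : b₁ < 2 ^ q)
    (v : ℕ → Prop) :
    ((E q b).subst (lf b₀ b₁)).eval v ↔ ((v 0 ∧ b = b₀) ∨ (¬ v 0 ∧ b = b₁)) := by
  rw [eval_subst, E_eval]
  by_cases h : v 0
  · have : (∀ j < q, ((lf b₀ b₁ j).eval v ↔ b.testBit j = true)) ↔ b = b₀ := by
      rw [← num_unique hb h₀]
      refine forall_congr' fun j => forall_congr' fun _ => ?_
      rw [lf_eval_pos h]; exact Iff.comm
    rw [this]; simp [h]
  · have : (∀ j < q, ((lf b₀ b₁ j).eval v ↔ b.testBit j = true)) ↔ b = b₁ := by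
      rw [← num_unique hb h₁]
      refine forall_congr' fun j => forall_congr' fun _ => ?_
      rw [lf_eval_neg h]; exact Iff.comm
    rw [this]; simp [h]

/-- what becomes of the cells at the end -/
def rho (n : ℕ) (v : ℕ) : Fm := if v < n then var v else neg (var (v - n))

theorem rho_size (n v : ℕ) : (rho n v).size ≤ 2 := by
  unfold rho; split_ifs <;> simp [size]

/-- the equivalence for one cell at the end -/
theorem cell_end (F : List Rule) (hF : IsFrege F) : ∃ d : ℕ, ∀ (n q Q : ℕ) (ind : ℕ → ℕ) (v : ℕ),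
    0 < n → 0 < q → n ≤ Q → 2 ^ q ≤ Q → (∀ v < 2 * n, ind v < 2 ^ q) →
    (∀ v < 2 * n, ∀ w < 2 * n, ind v = ind w → v = w) → v < 2 * n →
    Ded F ∅ [imp tt (iff ((cell n q (ind v)).subst (upd n q fun i j =>
      (lf (ind i) (ind (n + i)) j).subst fun _ => var i)) (rho n v))] (d * Q ^ 3) := by
  obtain ⟨c₁, h₁⟩ := brute F hF
  obtain ⟨c₂, h₂⟩ := dj_elim F hF
  obtain ⟨c₃, h₃⟩ := dj_intro F hF
  obtain ⟨a₁, k₁⟩ := schemaD hF [neg (var 0)] (imp (var 0) (var 1)) (by
    intro v h; simp [eval] at h ⊢; tauto)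
  obtain ⟨a₂, k₂⟩ := schemaD hF [iff (var 0) (var 1)] (imp (var 0) (var 1)) (by
    intro v h; simp [eval, iff] at h ⊢; tauto)
  obtain ⟨a₃, k₃⟩ := schemaD hF [imp (var 0) (var 1), iff (var 2) (var 1), imp (var 2) (var 0)]
    (imp (imp (var 3) (var 3)) (iff (var 0) (var 1))) (by
    intro v h; simp [eval, iff] at h ⊢; tauto)
  refine ⟨12100 * c₁ + 24 * (a₁ + a₂) + 58 * c₂ + 29 * c₃ + 29 * a₃, ?_⟩
  intro n q Q ind v hn hq hnQ hQ hind hinj hv
  have hqQ : q ≤ Q := (Nat.lt_two_pow_self).le.trans hQ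
  have hQ1 : 1 ≤ Q := by omega
  have hQ2 : Q ≤ Q ^ 2 := by nlinarith
  have hQ21 : 1 ≤ Q ^ 2 := Nat.one_le_pow _ _ hQ1
  rw [cell_upd hn hq]
  obtain ⟨D, hD⟩ : ∃ D : ℕ → Fm, D = fun i => (E q (ind v)).subst (fun j =>
    (lf (ind i) (ind (n + i)) j).subst fun _ => var i) := ⟨_, rfl⟩
  obtain ⟨D', hD'⟩ : ∃ D' : ℕ → Fm, D' = fun i => (E q (ind v)).subst (lf (ind i) (ind (n + i))) :=
    ⟨_, rfl⟩
  have hDD : ∀ i, D i = (D' i).subst fun _ => var i := by
    intro i; rw [hD, hD']; simp only [subst_subst]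
  have hD's : ∀ i, (D' i).size ≤ 24 * Q := by
    intro i
    rw [hD']
    calc _ ≤ (E q (ind v)).size * 4 := size_subst_le (by norm_num) (fun j _ => lf_size _ _ j)
      _ ≤ 6 * Q * 4 := Nat.mul_le_mul_right _ ((E_size q _).trans (by omega))
      _ = _ := by ring
  have hDs : ∀ i, (D i).size ≤ 24 * Q := by
    intro i; rw [hDD]
    have := size_rename (fun _ => i) (D' i)
    rw [rename] at this
    rw [this]; exact hD's i
  have hD'v : ∀ i, ∀ w ∈ (D' i).vars, w < 1 := by
    intro i w hw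
    rw [hD'] at hw
    obtain ⟨j, _, hw⟩ := mem_vars_subst hw
    have := lf_vars hw
    omega
  -- the token of the cell
  obtain ⟨m, hm⟩ : ∃ m, m = v % n := ⟨_, rfl⟩
  have hmn : m < n := by rw [hm]; exact Nat.mod_lt _ hn
  have hvm : v = m ∨ v = n + m := by
    rcases Nat.lt_or_ge v n with h | h
    · left; rw [hm, Nat.mod_eq_of_lt h]
    · right
      have : v % n = v - n := by
        rw [Nat.mod_eq_sub_mod h, Nat.mod_eq_of_lt (by omega)]
      omega
  obtain ⟨l, hl⟩ : ∃ l, l = if v < n then var 0 else neg (var 0) := ⟨_, rfl⟩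
  have hls : l.size ≤ 2 := by rw [hl]; split_ifs <;> simp [size]
  have hlv : ∀ w ∈ l.vars, w < 1 := by
    intro w hw; rw [hl] at hw; split_ifs at hw <;> simp [vars] at hw <;> omega
  have hlr : (l.subst fun _ => var m) = rho n v := by
    rw [hl, rho]
    rcases hvm with h | h
    · rw [if_pos (by omega), if_pos (by omega), h]; rfl
    · rw [if_neg (by omega), if_neg (by omega), h]
      simp only [subst]
      congr 2
      omega
  have hev : ∀ i < n, ∀ u : ℕ → Prop, (D' i).eval u ↔
      ((u 0 ∧ v = i) ∨ (¬ u 0 ∧ v = n + i)) := by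
    intro i hi u
    rw [hD']
    simp only
    rw [E_lf_eval (hind v hv) (hind i (by omega)) (hind (n + i) (by omega))]
    have e1 : ind v = ind i ↔ v = i := ⟨fun h => hinj v hv i (by omega) h, fun h => by rw [h]⟩
    have e2 : ind v = ind (n + i) ↔ v = n + i :=
      ⟨fun h => hinj v hv (n + i) (by omega) h, fun h => by rw [h]⟩
    rw [e1, e2]
  have hm1 : ∀ u : ℕ → Prop, (iff (D' m) l).eval u := by
    intro u
    have h := hev m hmn u
    simp only [iff, eval]
    rw [h, hl]
    rcases hvm with h' | h'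
    · rw [if_pos (by omega)]
      have : ¬ (v = n + m) := by omega
      simp only [eval]
      tauto
    · rw [if_neg (by omega)]
      have : ¬ (v = m) := by omega
      simp only [eval]
      tauto
  have r1 := h₁ 1 (iff (D' m) l) (by
    intro w hw
    simp only [iff, vars, Finset.mem_union] at hw
    have a := hD'v m w
    have b := hlv w
    tauto) hm1
  have r1' : Ded F ∅ [iff (D m) (rho n v)] (6050 * c₁ * Q ^ 2) := by
    have := r1.inst (σ := fun _ => var m) (M := 1) le_rfl (by intro j; simp [size])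
    refine (this.sub ?_).le ?_
    · intro B hB
      simp only [List.mem_singleton] at hB
      subst hB
      simp [iff, subst, hDD, hlr]
    · have h1 : (iff (D' m) l).size ≤ 2 * (24 * Q) + 7 := by
        have := hD's m
        simp only [iff, size]; omega
      have h2 : (iff (D' m) l).size ≤ 55 * Q := by omega
      rw [mul_one]
      calc c₁ * 2 ^ 1 * (iff (D' m) l).size ^ 2 ≤ c₁ * 2 ^ 1 * (55 * Q) ^ 2 := by gcongr
        _ = 6050 * c₁ * Q ^ 2 := by ring
  have hrs : (rho n v).size ≤ 24 * Q := (rho_size n v).trans (by omega)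
  have r2 : ∀ i ∈ List.range n, Ded F ∅ [imp (D i) (rho n v)]
      (6050 * c₁ * Q ^ 2 + 24 * (a₁ + a₂) * Q) := by
    intro i hi
    rw [List.mem_range] at hi
    by_cases him : i = m
    · subst him
      have s := k₂ [D i, rho n v] (24 * Q) (by omega) (by
        intro Z hZ; simp at hZ; rcases hZ with rfl | rfl
        · exact hDs i
        · exact hrs) (∅ ∪ {B | B ∈ [iff (D i) (rho n v)]}) (by
        intro Z hZ; simp only [List.mem_singleton] at hZ; subst hZ; right; simp [subst, asg, iff])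
      refine ((r1'.cut s).sub (by simp [subst, asg])).le ?_
      have : 24 * (a₁ + a₂) * Q = 24 * a₁ * Q + a₂ * (24 * Q) := by ring
      omega
    · have ht : ∀ u : ℕ → Prop, (neg (D' i)).eval u := by
        intro u
        have h := hev i hi u
        simp only [eval]
        rw [h]
        have h1 : ¬ (v = i) := by
          intro h2; rcases hvm with h' | h' <;> omega
        have h2 : ¬ (v = n + i) := by
          intro h2; rcases hvm with h' | h' <;> omega
        tauto
      have s1 := (h₁ 1 (neg (D' i)) (fun w hw => hD'v i w hw) ht).inst (σ := fun _ => var i)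
        (M := 1) le_rfl (by intro j; simp [size])
      have s2 := k₁ [D i, rho n v] (24 * Q) (by omega) (by
        intro Z hZ; simp at hZ; rcases hZ with rfl | rfl
        · exact hDs i
        · exact hrs) (∅ ∪ {B | B ∈ [neg (D' i)].map (Fm.subst fun _ => var i)}) (by
        intro Z hZ; simp only [List.mem_singleton] at hZ; subst hZ; right
        simp [subst, asg, hDD])
      refine ((s1.cut s2).sub (by simp [subst, asg])).le ?_
      have h1 : (neg (D' i)).size ≤ 55 * Q := by
        have := hD's i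
        simp only [size]; omega
      have h2 : c₁ * 2 ^ 1 * (neg (D' i)).size ^ 2 ≤ 6050 * c₁ * Q ^ 2 := by
        calc c₁ * 2 ^ 1 * (neg (D' i)).size ^ 2 ≤ c₁ * 2 ^ 1 * (55 * Q) ^ 2 := by gcongr
          _ = 6050 * c₁ * Q ^ 2 := by ring
      have : 24 * (a₁ + a₂) * Q = 24 * a₂ * Q + a₁ * (24 * Q) := by ring
      rw [mul_one]
      omega
  have r3 := Ded.many _ _ (List.range n) r2
  rw [List.length_range] at r3
  obtain ⟨T, hT⟩ : ∃ T, T = dj ((List.range n).map D) := ⟨_, rfl⟩
  have hTs : T.size ≤ 29 * Q ^ 2 := by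
    rw [hT, dj_size, List.length_map, List.length_range]
    have h2 := psize_map_le' (List.range n) D (24 * Q) (fun i _ => hDs i)
    rw [List.length_range] at h2
    have h4 : 24 * Q * n ≤ 24 * Q * Q := Nat.mul_le_mul_left _ hnQ
    have h5 : 24 * Q * Q = 24 * Q ^ 2 := by ring
    omega
  have r4 := h₂ (rho n v) (29 * Q ^ 2) (∅ ∪ {B | B ∈ (List.range n).map fun i =>
    imp (D i) (rho n v)}) ((List.range n).map D) ((rho_size n v).trans (by omega))
    (by rw [← hT]; exact hTs) (by
      intro C hC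
      obtain ⟨i, hi, rfl⟩ := List.mem_map.1 hC
      right; exact List.mem_map.2 ⟨i, hi, rfl⟩)
  have r5 := h₃ (29 * Q ^ 2) ((List.range n).map D) (D m) ∅ (by rw [← hT]; exact hTs)
    (List.mem_map.2 ⟨m, List.mem_range.2 hmn, rfl⟩)
  rw [List.length_map, List.length_range, ← hT] at r4 r5
  have r6 := k₃ [T, rho n v, D m, var 0] (29 * Q ^ 2) (by omega) (by
    intro Z hZ; simp at hZ; rcases hZ with rfl | rfl | rfl | rfl
    · exact hTs
    · exact (rho_size n v).trans (by omega)
    · exact (hDs m).trans (by omega)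
    · simp only [size]; omega) (∅ ∪ {B | B ∈ [imp T (rho n v)] ++ ([iff (D m) (rho n v)] ++
      [imp (D m) T])}) (by
    intro Z hZ; simp only [List.mem_cons, List.not_mem_nil, or_false] at hZ
    rcases hZ with rfl | rfl | rfl <;> right <;> simp [subst, asg, iff])
  have e : dj ((List.range n).map fun i => (E q (ind v)).subst ((fun i j =>
      (lf (ind i) (ind (n + i)) j).subst fun _ => var i) i)) = T := by
    rw [hT, hD]
  rw [e]
  refine ((((r3.cut r4).append (r1'.append r5)).cut r6).sub ?_).le ?_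
  · intro B hB
    simp only [List.mem_singleton] at hB
    subst hB
    simp [subst, asg, tt, iff]
  · have p1 : Q ^ 2 ≤ Q ^ 3 := Nat.pow_le_pow_right hQ1 (by norm_num)
    calc n * (6050 * c₁ * Q ^ 2 + 24 * (a₁ + a₂) * Q) + c₂ * (29 * Q ^ 2) * (n + 1) +
          (6050 * c₁ * Q ^ 2 + c₃ * (29 * Q ^ 2) * n) + a₃ * (29 * Q ^ 2)
        ≤ Q * (6050 * c₁ * Q ^ 2 + 24 * (a₁ + a₂) * Q) + c₂ * (29 * Q ^ 2) * (2 * Q) +
          (6050 * c₁ * Q ^ 2 + c₃ * (29 * Q ^ 2) * Q) + a₃ * (29 * Q ^ 2) := by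
          gcongr; omega
      _ = 6050 * c₁ * Q ^ 3 + 24 * (a₁ + a₂) * Q ^ 2 + 58 * c₂ * Q ^ 3 + 6050 * c₁ * Q ^ 2 +
          29 * c₃ * Q ^ 3 + 29 * a₃ * Q ^ 2 := by ring
      _ ≤ 6050 * c₁ * Q ^ 3 + 24 * (a₁ + a₂) * Q ^ 3 + 58 * c₂ * Q ^ 3 + 6050 * c₁ * Q ^ 3 +
          29 * c₃ * Q ^ 3 + 29 * a₃ * Q ^ 3 := by gcongr
      _ = _ := by ring

/-- the hypotheses of the dual-rail formula are eliminated -/
theorem strip (F : List Rule) (hF : IsFrege F) : ∃ c : ℕ, ∀ (n : ℕ) (A : Fm) (Γ : Set Fm) (M m : ℕ),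
    m ≤ n → (∀ v ∈ A.vars, v < n) → ((dual A n m).subst (rho n)).size ≤ M →
    (dual A n m).subst (rho n) ∈ Γ → Ded F Γ [A] (c * M * m) := by
  obtain ⟨c, h⟩ := schemaD hF [imp (neg (iff (var 0) (neg (var 0)))) (var 1)] (var 1) (by
    intro v h; simp [eval, iff] at h ⊢; tauto)
  refine ⟨c, fun n A Γ M m => ?_⟩
  induction m generalizing Γ with
  | zero =>
    intro _ hA _ hΓ
    have e : (dual A n 0).subst (rho n) = A := by
      conv_rhs => rw [← subst_var A]
      apply subst_congr
      intro v hv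
      exact if_pos (hA v hv)
    rw [e] at hΓ
    exact Ded.hyp hΓ
  | succ m ih =>
    intro hm hA hM hΓ
    have e1 : rho n m = var m := if_pos (by omega)
    have e2 : rho n (n + m) = neg (var m) := by
      unfold rho
      rw [if_neg (by omega)]
      congr 2
      omega
    simp only [dual, subst, iff, e1, e2] at hM hΓ
    simp only [size] at hM
    have s := h [var m, (dual A n m).subst (rho n)] M (by omega) (by
      intro Z hZ; simp at hZ; rcases hZ with rfl | rfl
      · simp only [size]; omega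
      · omega) Γ (by
      intro Z hZ; simp only [List.mem_singleton] at hZ; subst hZ
      simpa [subst, asg, iff] using hΓ)
    have r := ih (Γ ∪ {B | B ∈ [(dual A n m).subst (rho n)]}) (by omega) hA (by omega) (by
      right; simp)
    have s' := s.sub (G' := [(dual A n m).subst (rho n)]) (by simp [subst, asg])
    refine (s'.cut r).le ?_
    have : c * M * (m + 1) = c * M * m + c * M := by ring
    omega

end Pool.Agent.V8H46.FP
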