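import Pool.Agent.V8H46.FP.Upper4

/-!
# Proofs in Frege + permutation of dual-rail formulas are simulated with few auxiliary variables
-/

set_option autoImplicit false

namespace Pool.Agent.V8H46.FP

open Pool.Agent.H555R2.PF Pool.Agent.H555R2.PF.Fm

theorem dual_vars_lt {A : Fm} {n m v : ℕ} (hA : ∀ v ∈ A.vars, v < n) (hm : m ≤ n)
    (h : v ∈ (dual A n m).vars) : v < 2 * n := by
  rcases dual_vars h with h | h
  · have := hA v h; omega
  · omega

/-- from the translation of the dual-rail formula to the formula -/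
theorem final_part (F : List Rule) (hF : IsFrege F) : ∃ d : ℕ, ∀ (n q Q s : ℕ) (ind : ℕ → ℕ)
    (A : Fm) (G : List Fm) (t : ℕ),
    0 < n → 0 < q → n ≤ Q → 2 ^ q ≤ Q → n * q + q ≤ s → (∀ v < 2 * n, ind v < 2 ^ q) →
    (∀ v < 2 * n, ∀ w < 2 * n, ind v = ind w → v = w) → (∀ v ∈ A.vars, v < n) →
    (dual A n n).size ≤ Q →
    ((dual A n n).subst fun v => cell n q (ind v)) ∈ G → OccL F (AuxRule1 n s) G t →
    OccL F (AuxRule1 n s) [A] (t + d * Q ^ 5) := by
  obtain ⟨c₁, h₁⟩ := cell_end F hF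
  obtain ⟨c₂, h₂⟩ := repl F hF
  obtain ⟨c₃, h₃⟩ := schemaD hF [imp (imp (var 0) (var 0)) (iff (var 1) (var 2)), var 1] (var 2) (by
    intro v h; simp [eval, iff] at h ⊢; tauto)
  obtain ⟨c₄, h₄⟩ := strip F hF
  refine ⟨352 + c₁ + 29 * c₂ + 29 * c₃ + 2 * c₄, ?_⟩
  intro n q Q s ind A G t hn hq hnQ hQ hs hind hinj hA hAQ hG hocc
  have hqQ : q ≤ Q := (Nat.lt_two_pow_self).le.trans hQ
  have hQ1 : 1 ≤ Q := by omega
  have hQ2 : 1 ≤ Q ^ 2 := Nat.one_le_pow _ _ hQ1
  have hQ3 : 1 ≤ Q ^ 3 := Nat.one_le_pow _ _ hQ1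
  have hQQ3 : Q ≤ Q ^ 3 := by
    calc Q = Q ^ 1 := (pow_one Q).symm
      _ ≤ Q ^ 3 := Nat.pow_le_pow_right hQ1 (by norm_num)
  obtain ⟨B, hB⟩ : ∃ B, B = dual A n n := ⟨_, rfl⟩
  have hBv : ∀ v ∈ B.vars, v < 2 * n := by
    intro v hv; rw [hB] at hv; exact dual_vars_lt hA le_rfl hv
  rw [← hB] at hAQ hG
  obtain ⟨B', hB'⟩ : ∃ B', B' = B.subst fun v => cell n q (ind v) := ⟨_, rfl⟩
  rw [← hB'] at hG
  have hB's : B'.size ≤ 11 * Q ^ 3 := by
    rw [hB']
    calc _ ≤ B.size * (11 * Q ^ 2) := size_subst_le (by omega) (fun v _ => cell_size (ind v) hnQ hQ)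
      _ ≤ Q * (11 * Q ^ 2) := Nat.mul_le_mul_right _ hAQ
      _ = _ := by ring
  have s1 := simulAll F n s B' q hq (fun i j => (lf (ind i) (ind (n + i)) j).subst fun _ => var i)
    G t 4 hs hG hocc (by
      intro v hv
      rw [hB'] at hv
      obtain ⟨w, _, hv⟩ := mem_vars_subst hv
      exact cell_vars hn hq hv) (by
      intro i hi j hj v hv
      obtain ⟨k, _, hv⟩ := mem_vars_subst hv
      simp only [vars, Finset.mem_singleton] at hv
      left; omega) (by norm_num) (by
      intro i hi j hj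
      have := size_rename (fun _ => i) (lf (ind i) (ind (n + i)) j)
      rw [rename] at this
      rw [this]
      exact lf_size _ _ _)
  obtain ⟨U, hU⟩ : ∃ U, U = upd n q fun i j => (lf (ind i) (ind (n + i)) j).subst fun _ => var i :=
    ⟨_, rfl⟩
  have e1 : (B'.subst fun v => if n ≤ v ∧ v < n + n * q then
      (fun i j => (lf (ind i) (ind (n + i)) j).subst fun _ => var i) ((v - n) / q) ((v - n) % q)
        else var v) =
      B.subst fun v => (cell n q (ind v)).subst U := by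
    rw [hB', subst_subst, hU]
    rfl
  rw [e1] at s1
  have r1 : ∀ v ∈ B.vars.toList, Ded F ∅ [imp tt (iff ((cell n q (ind v)).subst U) (rho n v))]
      (c₁ * Q ^ 3) := by
    intro v hv
    rw [Finset.mem_toList] at hv
    rw [hU]
    exact h₁ n q Q ind v hn hq hnQ hQ hind hinj (hBv v hv)
  have r2 := Ded.many _ _ B.vars.toList r1
  have hlen : B.vars.toList.length ≤ Q := by
    rw [Finset.length_toList]; exact (vars_card_le B).trans hAQ
  have hcs : ∀ v, ((cell n q (ind v)).subst U).size ≤ 29 * Q ^ 2 := by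
    intro v
    rw [hU, cell_upd hn hq, dj_size, List.length_map, List.length_range]
    have h2 := psize_map_le' (List.range n) (fun i => (E q (ind v)).subst fun j =>
      (lf (ind i) (ind (n + i)) j).subst fun _ => var i) (24 * Q) (fun i _ => by
        rw [← subst_subst]
        have := size_rename (fun _ => i) ((E q (ind v)).subst (lf (ind i) (ind (n + i))))
        rw [rename] at this
        rw [this]
        calc _ ≤ (E q (ind v)).size * 4 := size_subst_le (by norm_num) (fun j _ => lf_size _ _ j)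
          _ ≤ 6 * Q * 4 := Nat.mul_le_mul_right _ ((E_size q _).trans (by omega))
          _ = _ := by ring)
    rw [List.length_range] at h2
    have h4 : 24 * Q * n ≤ 24 * Q * Q := Nat.mul_le_mul_left _ hnQ
    have h5 : 24 * Q * Q = 24 * Q ^ 2 := by ring
    have h6 : Q ≤ Q ^ 2 := by nlinarith
    omega
  have z1 : (B.subst fun v => (cell n q (ind v)).subst U).size ≤ 29 * Q ^ 3 := by
    calc _ ≤ B.size * (29 * Q ^ 2) := size_subst_le (by omega) (fun v _ => hcs v)
      _ ≤ Q * (29 * Q ^ 2) := Nat.mul_le_mul_right _ hAQ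
      _ = _ := by ring
  have z2 : (B.subst (rho n)).size ≤ 2 * Q := by
    calc _ ≤ B.size * 2 := size_subst_le (by norm_num) (fun v _ => rho_size n v)
      _ ≤ Q * 2 := Nat.mul_le_mul_right _ hAQ
      _ = _ := by ring
  have r3 := h₂ tt B (fun v => (cell n q (ind v)).subst U) (rho n)
    (29 * Q ^ 3) (by simp [tt, size]; omega) z1 (z2.trans (by omega))
    (∅ ∪ {C | C ∈ B.vars.toList.map fun v => imp tt (iff ((cell n q (ind v)).subst U)
      (rho n v))}) (by
      intro v hv; right; exact List.mem_map.2 ⟨v, by simpa using hv, rfl⟩)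
  have r4 := r2.cut r3
  have s2 := s1.ded r4 (by simp)
  have r5 := h₃ [var 0, B.subst fun v => (cell n q (ind v)).subst U,
    B.subst (rho n)] (29 * Q ^ 3) (by omega) (by
      intro Z hZ; simp at hZ; rcases hZ with rfl | rfl | rfl
      · simp only [size]; omega
      · exact z1
      · exact z2.trans (by omega)) {C | C ∈ [imp tt (iff (B.subst fun v => (cell n q (ind v)).subst U)
        (B.subst (rho n))), B.subst fun v => (cell n q (ind v)).subst U]} (by
      intro Z hZ; simp only [List.mem_cons, List.not_mem_nil, or_false] at hZ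
      rcases hZ with rfl | rfl <;> simp [subst, asg, iff, tt])
  have s3 := s2.ded r5 (by
    intro C hC
    simp only [Set.mem_setOf_eq, List.mem_cons, List.not_mem_nil, or_false] at hC
    rcases hC with rfl | rfl <;> simp)
  have r6 := h₄ n A {C | C ∈ [B.subst (rho n)]} (2 * Q) n le_rfl hA (by rw [← hB]; exact z2)
    (by rw [← hB]; simp)
  have s4 := s3.ded r6 (by
    intro C hC
    simp only [Set.mem_setOf_eq, List.mem_singleton] at hC
    subst hC
    simp [subst, asg])
  refine (s4.sub (by simp)).le ?_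
  have p1 : Q ^ 4 ≤ Q ^ 5 := Nat.pow_le_pow_right hQ1 (by norm_num)
  have p2 : Q ^ 3 ≤ Q ^ 5 := Nat.pow_le_pow_right hQ1 (by norm_num)
  have p3 : Q ^ 2 ≤ Q ^ 5 := Nat.pow_le_pow_right hQ1 (by norm_num)
  have b1 : n * (2 * q * (B'.size * 4 * 4)) ≤ 352 * Q ^ 5 := by
    calc _ ≤ Q * (2 * Q * (11 * Q ^ 3 * 4 * 4)) := by gcongr
      _ = _ := by ring
  have b2 : B.vars.toList.length * (c₁ * Q ^ 3) ≤ c₁ * Q ^ 5 := by
    calc _ ≤ Q * (c₁ * Q ^ 3) := Nat.mul_le_mul_right _ hlen
      _ = c₁ * Q ^ 4 := by ring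
      _ ≤ _ := Nat.mul_le_mul_left _ p1
  have b3 : c₂ * (29 * Q ^ 3) * B.size ≤ 29 * c₂ * Q ^ 5 := by
    calc _ ≤ c₂ * (29 * Q ^ 3) * Q := Nat.mul_le_mul_left _ hAQ
      _ = 29 * c₂ * Q ^ 4 := by ring
      _ ≤ _ := Nat.mul_le_mul_left _ p1
  have b4 : c₃ * (29 * Q ^ 3) ≤ 29 * c₃ * Q ^ 5 := by
    calc _ = 29 * c₃ * Q ^ 3 := by ring
      _ ≤ _ := Nat.mul_le_mul_left _ p2
  have b6 : c₄ * (2 * Q) * n ≤ 2 * c₄ * Q ^ 5 := by
    calc _ ≤ c₄ * (2 * Q) * Q := Nat.mul_le_mul_left _ hnQ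
      _ = 2 * c₄ * Q ^ 2 := by ring
      _ ≤ _ := Nat.mul_le_mul_left _ p3
  have b5 : (352 + c₁ + 29 * c₂ + 29 * c₃ + 2 * c₄) * Q ^ 5 = 352 * Q ^ 5 + c₁ * Q ^ 5 +
    29 * c₂ * Q ^ 5 + 29 * c₃ * Q ^ 5 + 2 * c₄ * Q ^ 5 := by ring
  rw [b5]
  omega

/-- Frege + permutation proofs of dual-rail formulas are simulated by substitutions for
`O(n log S)` auxiliary variables. -/
theorem upper_main (F : List Rule) (hF : IsFrege F) : ∃ e : ℕ, ∀ (n : ℕ) (A : Fm) (S : ℕ),
    (∀ v ∈ A.vars, v < n) → Has F PermRule (dual A n n) S →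
    ∃ c : ℕ, 2 ^ c ≤ S ^ e + e ∧ Has F (AuxRule1 n (n * c)) A (S ^ e + e) := by
  obtain ⟨d₁, h₁⟩ := all_lines F hF
  obtain ⟨d₂, h₂⟩ := final_part F hF
  have hpb : PB fun S => (d₁ * (6 * S) ^ 10 + d₂ * (6 * S) ^ 5) + (6 * S) ^ 2 :=
    (((PB.const d₁).mul (((PB.const 6).mul PB.id).pow 10)).add
      ((PB.const d₂).mul (((PB.const 6).mul PB.id).pow 5))).add (((PB.const 6).mul PB.id).pow 2)
  obtain ⟨e, he⟩ := hpb.out
  refine ⟨e, fun n A S hA hS => ?_⟩
  obtain ⟨L, hL, hLS⟩ := hS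
  have hn : 0 < n := by
    obtain ⟨v, hv⟩ := vars_ne A
    have := hA v hv
    omega
  have hds : A.size + 9 * n ≤ S := by
    have := size_le_psize (L := dual A n n :: L) (B := dual A n n) (by simp)
    rw [dual_size] at this
    omega
  obtain ⟨W, hW⟩ : ∃ W, W = varsL (dual A n n :: L) ∪ Finset.range (2 * n) := ⟨_, rfl⟩
  have hWc : W.card ≤ 3 * S := by
    have h1 := Finset.card_union_le (varsL (dual A n n :: L)) (Finset.range (2 * n))
    rw [← hW, Finset.card_range] at h1
    have h2 := varsL_card (dual A n n :: L)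
    omega
  have hW0 : W.card ≠ 0 := by
    rw [Finset.card_ne_zero]
    exact ⟨0, by rw [hW]; exact Finset.mem_union_right _ (Finset.mem_range.2 (by omega))⟩
  obtain ⟨q, hq⟩ : ∃ q, q = Nat.log 2 W.card + 1 := ⟨_, rfl⟩
  have hq0 : 0 < q := by omega
  have hq1 : W.card < 2 ^ q := by rw [hq]; exact Nat.lt_pow_succ_log_self (by norm_num) _
  have hq2 : 2 ^ q ≤ 6 * S := by
    have := Nat.pow_log_le_self 2 hW0
    rw [hq, pow_succ]
    omega
  obtain ⟨ind, hind⟩ : ∃ ind : ℕ → ℕ, ind = fun v => W.toList.idxOf v := ⟨_, rfl⟩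
  have i1 : ∀ v ∈ W, ind v < 2 ^ q := by
    intro v hv
    have h1 := List.idxOf_lt_length_iff.2 (Finset.mem_toList.2 hv)
    rw [Finset.length_toList] at h1
    rw [hind]
    exact h1.trans hq1
  have i2 : ∀ v ∈ W, ∀ w ∈ W, ind v = ind w → v = w := by
    intro v hv w _ h
    rw [hind] at h
    exact (List.idxOf_inj (Finset.mem_toList.2 hv)).1 h
  have i3 : ∀ v < 2 * n, v ∈ W := by
    intro v hv; rw [hW]; exact Finset.mem_union_right _ (Finset.mem_range.2 hv)
  have hs : n * q + q ≤ n * (2 * q) := by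
    have : q ≤ n * q := Nat.le_mul_of_pos_left _ hn
    have e1 : n * (2 * q) = n * q + n * q := by ring
    omega
  have s1 := h₁ n q (6 * S) (n * (2 * q)) ind W hn hq0 (by omega) hq2 hs i1 i2
    (dual A n n :: L) hL (by
      intro B hB
      refine ⟨(size_le_psize hB).trans (by omega), ?_⟩
      intro v hv
      rw [hW]
      exact Finset.mem_union_left _ (mem_varsL.2 ⟨B, hB, hv⟩))
  have s2 := h₂ n q (6 * S) (n * (2 * q)) ind A _ _ hn hq0 (by omega) hq2 hs
    (fun v hv => i1 v (i3 v hv)) (fun v hv w hw => i2 v (i3 v hv) w (i3 w hw)) hA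
    (by rw [dual_size]; omega) (by simp) s1
  have hfin := he S
  refine ⟨2 * q, ?_, (s2.le ?_).has⟩
  · have : 2 ^ (2 * q) = (2 ^ q) ^ 2 := by rw [← pow_mul]; ring_nf
    rw [this]
    have h1 : (2 ^ q) ^ 2 ≤ (6 * S) ^ 2 := Nat.pow_le_pow_left hq2 2
    omega
  · have h1 : (dual A n n :: L).length ≤ 6 * S := (length_le_psize _).trans (by omega)
    have h2 : (dual A n n :: L).length * (d₁ * (6 * S) ^ 9) ≤ d₁ * (6 * S) ^ 10 := by
      calc _ ≤ 6 * S * (d₁ * (6 * S) ^ 9) := Nat.mul_le_mul_right _ h1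
        _ = _ := by ring
    omega

/-- On dual-rail formulas, Frege + permutation simulates extended Frege if and only if
substitutions for `O(n log S)` auxiliary variables simulate extended Frege. -/
theorem upper_iff (F : List Rule) (hF : IsFrege F) :
    (∃ e : ℕ, ∀ (n : ℕ) (A : Fm) (S : ℕ), (∀ v ∈ A.vars, v < n) → HasEF F A S →
      Has F PermRule (dual A n n) ((S + n) ^ e + e)) ↔
    (∃ e : ℕ, ∀ (n : ℕ) (A : Fm) (S : ℕ), (∀ v ∈ A.vars, v < n) → HasEF F A S →
      ∃ c : ℕ, 2 ^ c ≤ (S + n) ^ e + e ∧ Has F (AuxRule1 n (n * c)) A ((S + n) ^ e + e)) := by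
  constructor
  · rintro ⟨a, ha⟩
    obtain ⟨b, hb⟩ := upper_main F hF
    have hpb : PB fun s => (s ^ a + a) ^ b + b := (PB.inn b).comp (PB.inn a)
    obtain ⟨e, he⟩ := hpb.out
    refine ⟨e, fun n A S hA h => ?_⟩
    obtain ⟨c, h1, h2⟩ := hb n A _ hA (ha n A S hA h)
    exact ⟨c, h1.trans (he _), h2.mono (he _)⟩
  · rintro ⟨a, ha⟩
    obtain ⟨b, hb⟩ := store_main F hF
    have hpb : PB fun s => ((s ^ a + a) + s + (s ^ a + a)) ^ b + b :=
      (PB.inn b).comp (((PB.inn a).add PB.id).add (PB.inn a))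
    obtain ⟨e, he⟩ := hpb.out
    refine ⟨e, fun n A S hA h => ?_⟩
    obtain ⟨c, h1, h2⟩ := ha n A S hA h
    refine (hb c n A _ hA h2).mono (le_trans ?_ (he _))
    refine Nat.add_le_add_right (Nat.pow_le_pow_left ?_ b) b
    omega

/-- weakening for extended Frege proofs -/
theorem ef_weaken (F : List Rule) (A B : Fm) (s m : ℕ) (h : HasEF F A s)
    (hd : Ded F {A} [B] m) : HasEF F B (s + m) := by
  obtain ⟨k, L, h1, h2⟩ := h
  obtain ⟨K, hK⟩ : ∃ K, ∀ n ∈ A.vars ∪ B.vars, n < K := by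
    refine ⟨(A.vars ∪ B.vars).sup id + 1, fun n hn => ?_⟩
    have := Finset.le_sup (f := id) hn
    simp only [id] at this
    omega
  let τ : ℕ → Fm := fun n => if n ∈ A.vars then var n else var (K + n)
  have hA : A.subst τ = A := by
    conv_rhs => rw [← subst_var A]
    exact subst_congr fun n hn => if_pos hn
  have hτ : ∀ n m, n ∉ A.vars → n ≠ m → K + n ∉ (τ m).vars := by
    intro n m hn hnm h
    by_cases hm : m ∈ A.vars
    · simp only [τ, if_pos hm, vars, Finset.mem_singleton] at h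
      have := hK m (Finset.mem_union_left _ hm)
      omega
    · simp only [τ, if_neg hm, vars, Finset.mem_singleton] at h
      omega
  have key : ∀ (k : ℕ) (L : List Fm), EFProof F A k L →
      EFProof F B k (L.map (Fm.subst τ)) := by
    intro k L hL
    induction hL with
    | nil => exact EFProof.nil
    | rule _ hB ih => exact EFProof.rule ih (FregeStep.map hB τ)
    | @ext k L q φ hL hq hqL hqA ih =>
      have e : (iff (var q) φ).subst τ = iff (var (K + q)) (φ.subst τ) := by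
        simp [iff, subst, τ, if_neg hqA]
      rw [List.map_cons, e]
      refine EFProof.ext ih ?_ ?_ ?_
      · intro h
        obtain ⟨n, hn, hn'⟩ := mem_vars_subst h
        exact hτ q n hqA (by rintro rfl; exact hq hn) hn'
      · intro C hC h
        obtain ⟨C', hC', rfl⟩ := List.mem_map.1 hC
        obtain ⟨n, hn, hn'⟩ := mem_vars_subst h
        exact hτ q n hqA (by rintro rfl; exact hqL C' hC' hn) hn'
      · intro h
        have := hK _ (Finset.mem_union_right _ h)
        omega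
  have h3 := key k _ h1
  rw [List.map_cons, hA] at h3
  have h4 := psize_map_le (σ := τ) (M := 1) le_rfl (A :: L) (by
    intro B _ n _
    by_cases hn : n ∈ A.vars
    · simp only [τ, if_pos hn, size]; exact le_rfl
    · simp only [τ, if_neg hn, size]; exact le_rfl)
  rw [List.map_cons, hA, mul_one] at h4
  obtain ⟨D, d1, d2, d3⟩ := hd (A :: L.map (Fm.subst τ)) (by
    intro C hC
    rw [Set.mem_singleton_iff.1 hC]
    simp)
  obtain ⟨k', L', e1, e2⟩ := ef_trunc (EFProof.ext' h3 d1) (d2 B (by simp))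
  refine ⟨k', L', e1, e2.trans ?_⟩
  rw [psize_append]
  omega

theorem dual_intro (F : List Rule) (hF : IsFrege F) : ∃ c : ℕ, ∀ (A : Fm) (n M m : ℕ) (Γ : Set Fm),
    A ∈ Γ → (dual A n m).size ≤ M → Ded F Γ [dual A n m] (c * M * m) := by
  obtain ⟨c, h⟩ := schemaD hF [var 0] (imp (var 1) (var 0)) (by
    intro v h; simp [eval] at h ⊢; tauto)
  refine ⟨c, fun A n M m Γ => ?_⟩
  induction m with
  | zero => intro hA _; exact Ded.hyp hA
  | succ m ih =>
    intro hA hM
    simp only [dual, size] at hM ⊢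
    have r := ih hA (by omega)
    have s := h [dual A n m, neg (iff (var m) (var (n + m)))] M (by omega) (by
      intro Z hZ; simp at hZ; rcases hZ with rfl | rfl
      · omega
      · simp only [size]; omega) (Γ ∪ {B | B ∈ [dual A n m]}) (by
      intro Z hZ; simp only [List.mem_singleton] at hZ; subst hZ; right; simp [subst, asg])
    refine ((r.cut s).sub (by simp [subst, asg])).le ?_
    have : c * M * (m + 1) = c * M * m + c * M := by ring
    omega

/-- If Frege + permutation simulates extended Frege then `O(n log S)` auxiliary variables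
suffice. -/
theorem necessary (F : List Rule) (hF : IsFrege F)
    (h : Simulates (Has F PermRule) (HasEF F)) :
    ∃ e : ℕ, ∀ (n : ℕ) (A : Fm) (S : ℕ), (∀ v ∈ A.vars, v < n) → HasEF F A S →
      ∃ c : ℕ, 2 ^ c ≤ (S + n) ^ e + e ∧ Has F (AuxRule1 n (n * c)) A ((S + n) ^ e + e) := by
  rw [← upper_iff F hF]
  obtain ⟨a, ha⟩ := h
  obtain ⟨c, hc⟩ := dual_intro F hF
  have hpb : PB fun s => (s + c * (10 * s) * s) ^ a + a :=
    (PB.inn a).comp (PB.id.add (((PB.const c).mul ((PB.const 10).mul PB.id)).mul PB.id))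
  obtain ⟨e, he⟩ := hpb.out
  refine ⟨e, fun n A S _ hS => ?_⟩
  have hAs : A.size ≤ S := by
    obtain ⟨k, L, _, h2⟩ := hS
    exact (size_le_psize (L := A :: L) (by simp)).trans h2
  have h1 := hc A n (10 * (S + n)) n {A} (by simp) (by rw [dual_size]; omega)
  have h2 := ha _ _ (ef_weaken F A _ _ _ hS h1)
  refine h2.mono (le_trans ?_ (he (S + n)))
  refine Nat.add_le_add_right (Nat.pow_le_pow_left ?_ a) a
  have : c * (10 * (S + n)) * n ≤ c * (10 * (S + n)) * (S + n) := Nat.mul_le_mul_left _ (by omega)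
  omega

end Pool.Agent.V8H46.FP
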